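import Pool.Agent.Lib.MP_e9c0f3_ag.H5T.Col

/-! Existence of colours. -/

open Matrix Filter Topology

namespace H5T

variable {n : ℕ}

namespace G33

/-- Rational coordinates on the span of a finite set of reals. -/
lemma coords (R0 : Finset ℝ) : ∃ (r : ℕ) (xs : ℕ → ℝ) (c : ℕ → ℝ →ₗ[ℚ] ℚ),
    ∀ x ∈ R0, x = ∑ i ∈ Finset.range r, (c i x : ℝ) * xs i := by
  classical
  let W : Submodule ℚ ℝ := Submodule.span ℚ (R0 : Set ℝ)
  have : Module.Finite ℚ W := Module.Finite.span_of_finite ℚ R0.finite_toSet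
  let b := Module.finBasis ℚ W
  have hc : ∀ i, ∃ g : ℝ →ₗ[ℚ] ℚ, g.comp W.subtype = b.coord i := fun i =>
    LinearMap.exists_extend _
  choose g hg using hc
  refine ⟨Module.finrank ℚ W, fun i => if h : i < Module.finrank ℚ W then (b ⟨i, h⟩ : ℝ) else 0,
    fun i => if h : i < Module.finrank ℚ W then g ⟨i, h⟩ else 0, fun x hx => ?_⟩
  have hxW : x ∈ W := Submodule.subset_span hx
  have h1 := congrArg W.subtype (b.sum_repr ⟨x, hxW⟩)
  rw [map_sum] at h1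
  rw [Finset.sum_range]
  refine h1.symm.trans (Finset.sum_congr rfl fun i _ => ?_)
  have h2 : g i x = b.repr ⟨x, hxW⟩ i := by
    have := LinearMap.congr_fun (hg i) ⟨x, hxW⟩
    simpa using this
  simp only [i.isLt, dif_pos, Fin.eta, h2, map_smul, Submodule.subtype_apply, Rat.smul_def]

/-- A small positive rational number. -/
lemma small (R0 : Finset ℝ) (g : ℝ → ℝ) (hg : ∀ x, 0 ≤ g x) :
    ∃ ε : ℚ, 0 < ε ∧ ∀ x ∈ R0, 0 < x → (ε : ℝ) * g x < x := by
  have h1 : ∀ᶠ e in 𝓝 (0 : ℝ), ∀ x ∈ R0, 0 < x → e * g x < x := by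
    refine (Finset.eventually_all R0).2 fun x _ => ?_
    by_cases hx : 0 < x
    · have hc : ContinuousAt (fun e : ℝ => e * g x) 0 := by fun_prop
      have : ∀ᶠ e in 𝓝 (0 : ℝ), e * g x < x := hc.eventually_lt continuousAt_const (by simpa)
      exact this.mono fun e he _ => he
    · exact Eventually.of_forall fun e h => absurd h hx
  obtain ⟨e, he, hpos⟩ := ((h1.filter_mono nhdsWithin_le_nhds).and
    (self_mem_nhdsWithin (s := Set.Ioi (0 : ℝ)))).exists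
  obtain ⟨ε, h2, h3⟩ := exists_rat_btwn (show (0 : ℝ) < e from hpos)
  refine ⟨ε, by exact_mod_cast h2, fun x hx hx0 => ?_⟩
  exact (mul_le_mul_of_nonneg_right h3.le (hg x)).trans_lt (he x hx hx0)

/-- Positive rational specialisations of finitely many reals. -/
lemma perron (R0 : Finset ℝ) : ∃ (M : ℕ) (t : ℕ → ℝ) (f : ℕ → ℝ →ₗ[ℚ] ℚ),
    (∀ a ≤ M, 0 < t a) ∧ (∀ x ∈ R0, x = ∑ a ∈ Finset.range (M + 1), t a * (f a x : ℝ)) ∧
      ∀ a ≤ M, ∀ x ∈ R0, 0 < x → 0 < f a x := by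
  obtain ⟨r, xs, c, hc⟩ := coords R0
  obtain ⟨ε, hε, hs⟩ := small R0 (fun x => 2 * ∑ i ∈ Finset.range r, |(c i x : ℝ)|)
    fun x => by positivity
  have hε' : (0 : ℝ) < ε := by exact_mod_cast hε
  have hδ : (0 : ℝ) < ε / (r + 1) := by positivity
  have hq : ∀ i, ∃ q : ℚ, xs i - ε / (r + 1) < q ∧ (q : ℝ) < xs i := fun i =>
    exists_rat_btwn (by linarith)
  choose q hq1 hq2 using hq
  have hδ' : (ε : ℝ) / (r + 1) ≤ ε := div_le_self hε'.le (by linarith [Nat.cast_nonneg (α := ℝ) r])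
  let f0 : ℝ →ₗ[ℚ] ℚ := ∑ i ∈ Finset.range r, q i • c i
  have hf0 : ∀ x, (f0 x : ℝ) = ∑ i ∈ Finset.range r, (c i x : ℝ) * q i := by
    intro x
    simp only [f0, LinearMap.sum_apply, LinearMap.smul_apply, smul_eq_mul]
    push_cast
    exact Finset.sum_congr rfl fun i _ => mul_comm _ _
  refine ⟨r, fun a => if a < r then (xs a - q a) / ε else
      1 - ∑ i ∈ Finset.range r, (xs i - q i) / ε,
    fun a => if a < r then f0 + ε • c a else f0, fun a _ => ?_, fun x hx => ?_,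
    fun a _ x hx hx0 => ?_⟩
  · dsimp only
    split_ifs with h
    · exact div_pos (by linarith [hq2 a]) hε'
    · have h1 : ∑ i ∈ Finset.range r, (xs i - q i) / ε ≤
          ∑ _i ∈ Finset.range r, (1 : ℝ) / (r + 1) := by
        refine Finset.sum_le_sum fun i _ => ?_
        rw [div_le_iff₀ hε']
        have : (1 : ℝ) / (r + 1) * ε = ε / (r + 1) := by ring
        linarith [hq1 i]
      rw [Finset.sum_const, Finset.card_range, nsmul_eq_mul] at h1
      have h2 : (r : ℝ) * (1 / (r + 1)) < 1 := by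
        rw [mul_one_div, div_lt_one (by positivity)]
        linarith
      linarith
  · rw [Finset.sum_range_succ]
    simp only [lt_irrefl, if_false]
    have h1 : ∑ a ∈ Finset.range r, (if a < r then (xs a - q a) / ε else
        1 - ∑ i ∈ Finset.range r, (xs i - q i) / ε) *
          (((if a < r then f0 + ε • c a else f0) x : ℚ) : ℝ) =
        ∑ a ∈ Finset.range r, ((xs a - q a) / ε * (f0 x : ℝ) +
          ((c a x : ℝ) * xs a - (c a x : ℝ) * q a)) := by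
      refine Finset.sum_congr rfl fun a ha => ?_
      rw [if_pos (Finset.mem_range.1 ha), if_pos (Finset.mem_range.1 ha)]
      simp only [LinearMap.add_apply, LinearMap.smul_apply, smul_eq_mul]
      push_cast
      field_simp
    rw [h1, Finset.sum_add_distrib, Finset.sum_sub_distrib, ← hc x hx, ← hf0 x, ← Finset.sum_mul]
    ring
  · have h1 := hs x hx hx0
    have h2 : x - (f0 x : ℝ) ≤ ε * ∑ i ∈ Finset.range r, |(c i x : ℝ)| := by
      rw [hf0 x, Finset.mul_sum]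
      nth_rewrite 1 [hc x hx]
      rw [← Finset.sum_sub_distrib]
      refine Finset.sum_le_sum fun i _ => ?_
      have h3 : (c i x : ℝ) * xs i - c i x * q i = (xs i - q i) * c i x := by ring
      rw [h3]
      calc (xs i - q i) * (c i x : ℝ) ≤ (xs i - q i) * |(c i x : ℝ)| :=
            mul_le_mul_of_nonneg_left (le_abs_self _) (by linarith [hq2 i])
        _ ≤ ε * |(c i x : ℝ)| :=
            mul_le_mul_of_nonneg_right (by linarith [hq1 i]) (abs_nonneg _)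
    have h0 : 0 ≤ (ε : ℝ) * ∑ i ∈ Finset.range r, |(c i x : ℝ)| := by positivity
    have h4 : (0 : ℝ) < (((if a < r then f0 + ε • c a else f0) x : ℚ) : ℝ) := by
      split_ifs with h
      · simp only [LinearMap.add_apply, LinearMap.smul_apply, smul_eq_mul]
        push_cast
        have h5 : |(c a x : ℝ)| ≤ ∑ i ∈ Finset.range r, |(c i x : ℝ)| :=
          Finset.single_le_sum (f := fun i => |(c i x : ℝ)|) (fun i _ => abs_nonneg _)
            (Finset.mem_range.2 h)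
        have h6 : -(ε * |(c a x : ℝ)|) ≤ ε * (c a x : ℝ) := by
          rw [← mul_neg]
          exact mul_le_mul_of_nonneg_left (neg_abs_le _) hε'.le
        have h7 := mul_le_mul_of_nonneg_left h5 hε'.le
        linarith
      · linarith
    exact_mod_cast h4

lemma rv_apply (v : Fin n → ℚ) (i : Fin n) : rv v i = (v i : ℝ) := by
  simp [rv]

lemma rv_dot (u v : Fin n → ℚ) : rv u ⬝ᵥ rv v = ((u ⬝ᵥ v : ℚ) : ℝ) := by
  simp only [dotProduct, rv_apply]
  push_cast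
  rfl

lemma map_dot (f : ℝ →ₗ[ℚ] ℚ) (u : Fin n → ℚ) (x : Pt n) :
    f (rv u ⬝ᵥ x) = u ⬝ᵥ fun i => f (x i) := by
  simp only [dotProduct, rv_apply, map_sum]
  refine Finset.sum_congr rfl fun i _ => ?_
  rw [← Rat.smul_def, map_smul, smul_eq_mul]

/-- A valid inequality that is tight at a relatively interior point is tight everywhere. -/
lemma tight {s : Set (Pt n)} {p : Pt n} (hp : p ∈ intrinsicInterior ℝ s) {u : Pt n} {c : ℝ}
    (hs : ∀ x ∈ s, c ≤ u ⬝ᵥ x) (h : u ⬝ᵥ p = c) : ∀ x ∈ s, u ⬝ᵥ x = c := by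
  intro x hx
  obtain ⟨y, hy, rfl⟩ := mem_intrinsicInterior.1 hp
  have hx' : x ∈ affineSpan ℝ s := mem_affineSpan ℝ hx
  let g : ℝ → affineSpan ℝ s := fun e =>
    ⟨AffineMap.lineMap (y : Pt n) x e, AffineMap.lineMap_mem e y.2 hx'⟩
  have hg : Continuous g := Continuous.subtype_mk AffineMap.lineMap_continuous _
  have h0 : g 0 = y := Subtype.ext (AffineMap.lineMap_apply_zero _ _)
  have h1 : ∀ᶠ e in 𝓝 (0 : ℝ), g e ∈ interior ((↑) ⁻¹' s : Set (affineSpan ℝ s)) :=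
    hg.continuousAt.eventually (isOpen_interior.mem_nhds (by rw [h0]; exact hy))
  obtain ⟨e, he, hneg⟩ := ((h1.filter_mono nhdsWithin_le_nhds).and
    (self_mem_nhdsWithin (s := Set.Iio (0 : ℝ)))).exists
  have h2' : g e ∈ ((↑) ⁻¹' s : Set (affineSpan ℝ s)) := interior_subset he
  have h2 : AffineMap.lineMap (y : Pt n) x e ∈ s := h2'
  have h3 := hs _ h2
  rw [AffineMap.lineMap_apply_module, dotProduct_add, dotProduct_smul, dotProduct_smul, h,
    smul_eq_mul, smul_eq_mul] at h3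
  have h4 := hs x hx
  have h5 : e < 0 := hneg
  nlinarith

/-- One may move a little in every direction that keeps the tight inequalities. -/
lemma slack (S : Finset ((Fin n → ℚ) × ℝ)) {p w : Pt n} (hp : ∀ h ∈ S, h.2 ≤ rv h.1 ⬝ᵥ p)
    (hw : ∀ h ∈ S, rv h.1 ⬝ᵥ p = h.2 → rv h.1 ⬝ᵥ w = 0) :
    ∃ e : ℝ, 0 < e ∧ ∀ h ∈ S, h.2 ≤ rv h.1 ⬝ᵥ (p + e • w) := by
  have h1 : ∀ᶠ e in 𝓝 (0 : ℝ), ∀ h ∈ S, h.2 ≤ rv h.1 ⬝ᵥ (p + e • w) := by
    refine (Finset.eventually_all S).2 fun h hh => ?_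
    simp only [dotProduct_add, dotProduct_smul, smul_eq_mul]
    rcases (hp h hh).lt_or_eq with c | c
    · have hc : ContinuousAt (fun e : ℝ => rv h.1 ⬝ᵥ p + e * rv h.1 ⬝ᵥ w) 0 := by fun_prop
      have : ∀ᶠ e in 𝓝 (0 : ℝ), h.2 < rv h.1 ⬝ᵥ p + e * rv h.1 ⬝ᵥ w :=
        continuousAt_const.eventually_lt hc (by simpa)
      exact this.mono fun e he => he.le
    · refine Eventually.of_forall fun e => ?_
      rw [hw h hh c.symm, mul_zero, add_zero]
      exact c.le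
  obtain ⟨e, he, hpos⟩ := ((h1.filter_mono nhdsWithin_le_nhds).and
    (self_mem_nhdsWithin (s := Set.Ioi (0 : ℝ)))).exists
  exact ⟨e, hpos, he⟩

/-- A linear form that is constant on a set kills its directions. -/
lemma kill {s : Set (Pt n)} {u : Pt n} {c : ℝ} (hs : ∀ x ∈ s, u ⬝ᵥ x = c) :
    ∀ v ∈ vectorSpan ℝ s, u ⬝ᵥ v = 0 := by
  intro v hv
  rw [vectorSpan_def] at hv
  induction hv using Submodule.span_induction with
  | mem x hx =>
    obtain ⟨a, ha, b, hb, rfl⟩ := hx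
    change u ⬝ᵥ (a - b) = 0
    rw [dotProduct_sub, hs a ha, hs b hb, sub_self]
  | zero => exact dotProduct_zero _
  | add x y _ _ hx hy => rw [dotProduct_add, hx, hy, add_zero]
  | smul a x _ hx => rw [dotProduct_smul, hx, smul_zero]

/-- A direction that keeps the tight inequalities is parallel to the polyhedron. -/
lemma mem_dir (S : Finset ((Fin n → ℚ) × ℝ)) {p w : Pt n} (hp : ∀ h ∈ S, h.2 ≤ rv h.1 ⬝ᵥ p)
    (hw : ∀ h ∈ S, rv h.1 ⬝ᵥ p = h.2 → rv h.1 ⬝ᵥ w = 0) :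
    w ∈ vectorSpan ℝ {x : Pt n | ∀ h ∈ S, h.2 ≤ rv h.1 ⬝ᵥ x} := by
  obtain ⟨e, he, h1⟩ := slack S hp hw
  have h2 : (p + e • w) -ᵥ p ∈ vectorSpan ℝ {x : Pt n | ∀ h ∈ S, h.2 ≤ rv h.1 ⬝ᵥ x} :=
    vsub_mem_vectorSpan ℝ h1 hp
  rw [vsub_eq_sub, add_sub_cancel_left] at h2
  exact (Submodule.smul_mem_iff _ he.ne').1 h2

/-- A proper exposed face is cut out by one of the defining inequalities. -/
lemma cutter (S : Finset ((Fin n → ℚ) × ℝ)) {σ ρ : Set (Pt n)}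
    (hσ : σ = {x | ∀ h ∈ S, h.2 ≤ rv h.1 ⬝ᵥ x}) (hρ : ρ ⊂ σ) (hE : IsExposed ℝ σ ρ)
    {p p' : Pt n} (hp : p ∈ ρ) (hp' : p' ∈ intrinsicInterior ℝ σ) :
    ∃ h ∈ S, rv h.1 ⬝ᵥ p = h.2 ∧ rv h.1 ⬝ᵥ p' ≠ h.2 := by
  by_contra hn
  have hn' : ∀ h ∈ S, rv h.1 ⬝ᵥ p = h.2 → rv h.1 ⬝ᵥ p' = h.2 := fun h hh c => by
    by_contra c'
    exact hn ⟨h, hh, c, c'⟩
  have hmem : ∀ x, x ∈ σ ↔ ∀ h ∈ S, h.2 ≤ rv h.1 ⬝ᵥ x := fun x => by rw [hσ]; rfl
  obtain ⟨l, hl⟩ := hE ⟨p, hp⟩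
  have hpl : p ∈ σ ∧ ∀ y ∈ σ, l y ≤ l p := by
    rw [hl] at hp
    exact hp
  refine hρ.2 fun x hx => ?_
  obtain ⟨e, he, h1⟩ := slack S (w := p - x) ((hmem p).1 hpl.1) fun h hh c => by
    rw [dotProduct_sub, c,
      tight hp' (fun y hy => (hmem y).1 hy h hh) (hn' h hh c) x hx, sub_self]
  have h2 := hpl.2 _ ((hmem _).2 h1)
  rw [map_add, map_smul, map_sub, smul_eq_mul] at h2
  have h3 : l p ≤ l x := by nlinarith
  rw [hl]
  exact ⟨hx, fun y hy => (hpl.2 y hy).trans h3⟩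

end G33

theorem exists_col (X : TropCx n) : Nonempty (Col X) := by
  classical
  choose! S hS using X.poly
  have hmem : ∀ σ ∈ X.cells, ∀ x, x ∈ σ ↔ ∀ h ∈ S σ, h.2 ≤ rv h.1 ⬝ᵥ x := fun σ hσ x => by
    nth_rewrite 1 [hS σ hσ]
    rfl
  have hpt : ∀ σ ∈ X.cells, X.pt σ ∈ σ := fun σ hσ => intrinsicInterior_subset (X.pt_mem σ hσ)
  obtain ⟨M, t, f, h1, h2, h3⟩ := G33.perron
    ((X.cells.biUnion fun σ => (S σ).image fun h => h.2) ∪
      X.cells.biUnion fun σ => X.cells.biUnion fun ρ =>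
        (S σ).image fun h => rv h.1 ⬝ᵥ X.pt ρ - h.2)
  have hsum : ∀ σ ∈ X.cells, ∀ h ∈ S σ,
      h.2 = ∑ a ∈ Finset.range (M + 1), t a * (f a h.2 : ℝ) := fun σ hσ h hh =>
    h2 _ (Finset.mem_union_left _ (Finset.mem_biUnion.2 ⟨σ, hσ, Finset.mem_image_of_mem _ hh⟩))
  have hval : ∀ a (h : (Fin n → ℚ) × ℝ) (x : Pt n),
      f a (rv h.1 ⬝ᵥ x - h.2) = (h.1 ⬝ᵥ fun i => f a (x i)) - f a h.2 := fun a h x => by
    rw [map_sub, G33.map_dot]
  have hpos : ∀ a ≤ M, ∀ σ ∈ X.cells, ∀ ρ ∈ X.cells, ∀ h ∈ S σ, h.2 < rv h.1 ⬝ᵥ X.pt ρ →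
      f a h.2 < h.1 ⬝ᵥ fun i => f a (X.pt ρ i) := by
    intro a ha σ hσ ρ hρ h hh c
    have := h3 a ha _ (Finset.mem_union_right _ (Finset.mem_biUnion.2 ⟨σ, hσ,
      Finset.mem_biUnion.2 ⟨ρ, hρ, Finset.mem_image_of_mem _ hh⟩⟩)) (sub_pos.2 c)
    rw [hval] at this
    exact sub_pos.1 this
  have hzero : ∀ a (h : (Fin n → ℚ) × ℝ) (x : Pt n), rv h.1 ⬝ᵥ x = h.2 →
      (h.1 ⬝ᵥ fun i => f a (x i)) = f a h.2 := by
    intro a h x c
    rw [← G33.map_dot, c]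
  refine ⟨⟨M, t, f, fun σ a => {y | ∀ h ∈ S σ, (f a h.2 : ℝ) ≤ rv h.1 ⬝ᵥ y}, h1, ?_, ?_, ?_, ?_,
    ?_⟩⟩
  · intro σ hσ ρ hρ hsub a _
    change rv _ ∈ vectorSpan ℝ σ
    have := G33.mem_dir (S σ) (p := X.pt σ)
      (w := rv ((fun i => f a (X.pt σ i)) - fun i => f a (X.pt ρ i)))
      ((hmem σ hσ _).1 (hpt σ hσ)) fun h hh c => by
        have c' := G33.tight (X.pt_mem σ hσ) (fun y hy => (hmem σ hσ y).1 hy h hh) c _
          (hsub (hpt ρ hρ))
        rw [G33.rv_dot, dotProduct_sub, hzero a h _ c, hzero a h _ c', sub_self, Rat.cast_zero]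
    rw [← hS σ hσ] at this
    exact this
  · intro σ hσ ρ hρ hsub
    have hE := X.inter_face σ hσ ρ hρ
    rw [Set.inter_eq_right.2 hsub.1] at hE
    obtain ⟨h, hh, c1, c2⟩ := G33.cutter (S σ) (hS σ hσ) hsub hE (hpt ρ hρ) (X.pt_mem σ hσ)
    let φ : Module.Dual ℚ (Nt n) :=
      { toFun := fun x => h.1 ⬝ᵥ x.1 - ∑ a ∈ Finset.range (M + 1), x.2 a * f a h.2
        map_add' := fun x y => by
          simp only [Prod.fst_add, Prod.snd_add, Pi.add_apply, dotProduct_add, add_mul,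
            Finset.sum_add_distrib]
          ring
        map_smul' := fun k x => by
          simp only [Prod.smul_fst, Prod.smul_snd, Pi.smul_apply, dotProduct_smul, smul_eq_mul,
            RingHom.id_apply, mul_sub, Finset.mul_sum, mul_assoc] }
    have hφ : ∀ (v : Fin n → ℚ), ∀ a ≤ M, φ (v, Pi.single a 1) = h.1 ⬝ᵥ v - f a h.2 := by
      intro v a ha
      change h.1 ⬝ᵥ v - ∑ b ∈ Finset.range (M + 1), (Pi.single a 1 : ℕ → ℚ) b * f b h.2 = _
      rw [Finset.sum_eq_single a, Pi.single_eq_same, one_mul]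
      · intro b _ hb
        rw [Pi.single_eq_of_ne hb, zero_mul]
      · intro hb
        exact absurd (Finset.mem_range.2 (Nat.lt_succ_of_le ha)) hb
    refine ⟨φ, fun v hv => ?_, fun a ha => ?_, fun a ha => ?_⟩
    · have h4 := G33.kill (G33.tight (X.pt_mem ρ hρ)
        (fun y hy => (hmem σ hσ y).1 (hsub.1 hy) h hh) c1) (rv v) hv
      rw [G33.rv_dot] at h4
      change h.1 ⬝ᵥ v - ∑ b ∈ Finset.range (M + 1), (0 : ℕ → ℚ) b * f b h.2 = 0
      simp only [Pi.zero_apply, zero_mul, Finset.sum_const_zero, sub_zero]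
      exact_mod_cast h4
    · rw [hφ _ a ha, hzero a h _ c1, sub_self]
    · rw [hφ _ a ha]
      exact (sub_pos.2 (hpos a ha σ hσ σ hσ h hh
        (lt_of_le_of_ne ((hmem σ hσ _).1 (hpt σ hσ) h hh) c2.symm))).ne'
  · intro σ _ a _ x hx y hy α β hα hβ hs h hh
    rw [dotProduct_add, dotProduct_smul, dotProduct_smul, smul_eq_mul, smul_eq_mul]
    have h4 := mul_le_mul_of_nonneg_left (hx h hh) hα
    have h5 := mul_le_mul_of_nonneg_left (hy h hh) hβ
    have h6 : (f a h.2 : ℝ) = α * f a h.2 + β * f a h.2 := by rw [← add_mul, hs, one_mul]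
    linarith
  · intro σ hσ ρ hρ hsub a ha h hh
    rw [G33.rv_dot]
    rcases ((hmem σ hσ _).1 (hsub (hpt ρ hρ)) h hh).lt_or_eq with c | c
    · exact_mod_cast (hpos a ha σ hσ ρ hρ h hh c).le
    · exact_mod_cast (hzero a h _ c.symm).ge
  · intro σ hσ y hy
    refine (hmem σ hσ _).2 fun h hh => ?_
    rw [dotProduct_sum, hsum σ hσ h hh]
    refine Finset.sum_le_sum fun a ha => ?_
    have ha' : a ≤ M := Nat.lt_succ_iff.1 (Finset.mem_range.1 ha)
    rw [dotProduct_smul, smul_eq_mul]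
    exact mul_le_mul_of_nonneg_left (hy a ha' h hh) (h1 a ha').le

end H5T
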