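import Pool.Agent.Lib.MP_e9c0f3_ag.H5T.FlagStep

/-! Local vanishing with coefficients in the total space. -/

namespace H5T

variable {n : ℕ} {X : TropCx n}

namespace FL

/-- Lengths as integers. -/
theorem CA_eq (c : Col X) (a : ℕ) (s d : ℤ) (q : ℕ) :
    c.CA a s d ((q : ℤ) + 1) = X.C X.Flag (c.Af a s d) q := by
  unfold Col.CA TropCx.C
  congr 1
  funext l
  refine iSup_congr fun σ => iSup_congr fun _ => ?_
  have e : ((l.length : ℤ) = (q : ℤ) + 1) ↔ l.length = q + 1 := by omega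
  rw [e]

theorem co_mem_C {E E' : Type} [AddCommGroup E] [Module ℚ E] [AddCommGroup E'] [Module ℚ E']
    (f : E →ₗ[ℚ] E') {G : Set (Pt n) → Submodule ℚ E} {H : Set (Pt n) → Submodule ℚ E'}
    (h : ∀ σ, ∀ β ∈ G σ, f β ∈ H σ) {q : ℕ} {z : List (Set (Pt n)) →₀ E}
    (hz : z ∈ X.C X.Flag G q) : co f z ∈ X.C X.Flag H q := by
  refine co_mem_Ch f (fun l β hβ => ?_) hz
  have key : (⨆ σ ∈ X.cells, ⨆ _ : X.Flag l σ ∧ l.length = q + 1, G σ) ≤
      (⨆ σ ∈ X.cells, ⨆ _ : X.Flag l σ ∧ l.length = q + 1, H σ).comap f := by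
    refine iSup_le fun σ => iSup_le fun hσ => iSup_le fun hl => fun γ hγ => ?_
    exact Submodule.mem_iSup_of_mem σ (Submodule.mem_iSup_of_mem hσ
      (Submodule.mem_iSup_of_mem hl (h σ γ hγ)))
  exact key hβ

theorem co_mem_Z {E E' : Type} [AddCommGroup E] [Module ℚ E] [AddCommGroup E'] [Module ℚ E']
    (f : E →ₗ[ℚ] E') {G : Set (Pt n) → Submodule ℚ E} {H : Set (Pt n) → Submodule ℚ E'}
    (h : ∀ σ, ∀ β ∈ G σ, f β ∈ H σ) {S : Set (List (Set (Pt n)))} {z : List (Set (Pt n)) →₀ E}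
    (hz : z ∈ X.Z X.Flag G ⊔ Finsupp.supported _ ℚ S) :
    co f z ∈ X.Z X.Flag H ⊔ Finsupp.supported _ ℚ S := by
  obtain ⟨u, hu, v, hv, rfl⟩ := Submodule.mem_sup.1 hz
  rw [map_add]
  refine Submodule.add_mem_sup (co_mem_Ch f (fun l β hβ => ?_) hu) (co_supported f hv)
  by_cases e : l = []
  · simp [e]
  rw [if_neg e] at hβ ⊢
  have key : (⨆ σ ∈ X.cells, ⨆ _ : X.Flag l σ, G σ) ≤
      (⨆ σ ∈ X.cells, ⨆ _ : X.Flag l σ, H σ).comap f := by
    refine iSup_le fun σ => iSup_le fun hσ => iSup_le fun hl => fun γ hγ => ?_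
    exact Submodule.mem_iSup_of_mem σ (Submodule.mem_iSup_of_mem hσ
      (Submodule.mem_iSup_of_mem hl (h σ γ hγ)))
  exact key hβ

theorem co_jj_pr {G : Set (Pt n) → Submodule ℚ (Mv n)} {q : ℕ} {z : List (Set (Pt n)) →₀ Mt n}
    (hz : z ∈ X.C X.Flag (fun σ => (G σ).map jj) q) : co jj (co pr z) = z := by
  ext l
  have hl := mem_Ch.1 hz l
  have key : (⨆ σ ∈ X.cells, ⨆ _ : X.Flag l σ ∧ l.length = q + 1, (G σ).map jj) ≤
      LinearMap.range (jj : Mv n →ₗ[ℚ] Mt n) :=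
    iSup_le fun σ => iSup_le fun _ => iSup_le fun _ => LinearMap.map_le_range
  obtain ⟨y, hy⟩ := key hl
  rw [co_apply, co_apply, ← hy, pr_jj]

/-- No colour. -/
theorem base (c : Col X) (hV : X.LocVan) {φ : List (Set (Pt n))} (hφ : φ ≠ []) {q : ℕ} {s d : ℤ}
    (hs : 0 ≤ s) (hd : (q : ℤ) < d) : ∀ x ∈ c.AA φ 0 s d ((q : ℤ) + 1), bd x ∈ X.ZA φ →
      x ∈ (c.AA φ 0 s d ((q : ℤ) + 1 + 1)).map bd ⊔ X.ZA φ := by
  intro x hx hb
  have hA : c.Af 0 s d = fun σ => (X.F d.toNat σ).map jj := by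
    funext σ
    rw [Col.Af, if_neg (by omega)]
  obtain ⟨u, hu, v, hv, rfl⟩ := Submodule.mem_sup.1 hx
  have hbv : bd v ∈ X.ZA φ := (c.step φ (Nat.zero_le _)).DZ v hv
  have hbu : bd u ∈ X.ZA φ := by
    have := Submodule.sub_mem _ hb hbv
    rwa [map_add, add_sub_cancel_right] at this
  refine Submodule.add_mem _ ?_ (Submodule.mem_sup_right hv)
  rw [CA_eq, hA] at hu
  have h1 : co pr u ∈ X.C X.Flag (X.F d.toNat) q := by
    refine co_mem_C pr ?_ hu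
    rintro σ _ ⟨y, hy, rfl⟩
    rwa [pr_jj]
  have h2 : bd (co pr u) ∈ X.Z X.Flag X.I ⊔ Finsupp.supported _ ℚ {l | ¬ φ ⊆ l} := by
    rw [bd_co]
    exact co_mem_Z pr (fun σ β hβ => TropCx.pr_mem_I hβ) hbu
  have h3 := hV φ hφ d.toNat q (by omega) _ h1 h2
  rw [TropCx.B, sup_assoc] at h3
  obtain ⟨_, ⟨w, hw, rfl⟩, r, hr, e⟩ := Submodule.mem_sup.1 h3
  rw [← co_jj_pr hu, ← e, map_add, ← bd_co]
  refine Submodule.add_mem_sup (Submodule.mem_map_of_mem (Submodule.mem_sup_left ?_))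
    (co_mem_Z jj (fun σ β hβ => TropCx.jj_mem_It hβ) hr)
  have e2 : (q : ℤ) + 1 + 1 = ((q + 1 : ℕ) : ℤ) + 1 := by push_cast; ring
  rw [e2, CA_eq, hA]
  exact co_mem_C jj (fun σ β hβ => Submodule.mem_map_of_mem hβ) hw

/-- Induction on the number of colours. -/
theorem exact (c : Col X) (hV : X.LocVan) {φ : List (Set (Pt n))} (hφ : φ ≠ []) {q : ℕ} :
    ∀ a ≤ c.M + 1, ∀ s d : ℤ, (a : ℤ) ≤ s → (q : ℤ) + a < d →
      ∀ x ∈ c.AA φ a s d ((q : ℤ) + 1), bd x ∈ X.ZA φ →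
        x ∈ (c.AA φ a s d ((q : ℤ) + 1 + 1)).map bd ⊔ X.ZA φ := by
  intro a
  induction a with
  | zero => exact fun _ s d hs hd => base c hV hφ (by simpa using hs) (by simpa using hd)
  | succ a ih =>
    intro ha s d hs hd
    push_cast at hs hd
    exact (c.step φ (by omega)).exact (ih (by omega) s d (by omega) (by omega))
      (ih (by omega) (s - 1) (d - 1) (by omega) (by omega))

end FL

theorem Col.locVan (c : Col X) (hV : X.LocVan) {φ : List (Set (Pt n))} (hφ : φ ≠ []) {d q : ℕ}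
    (hq : q + (c.M + 1) < d) :
    ∀ z ∈ X.C X.Flag (c.Ft d) q,
      bd z ∈ X.Z X.Flag X.It ⊔ Finsupp.supported _ ℚ {l | ¬ φ ⊆ l} →
      z ∈ (X.C X.Flag (c.Ft d) (q + 1)).map bd ⊔
        (X.Z X.Flag X.It ⊔ Finsupp.supported _ ℚ {l | ¬ φ ⊆ l}) := by
  intro z hz hb
  have hF : c.Ft d = c.Af (c.M + 1) ((c.M : ℤ) + 1) d := rfl
  rw [hF] at hz ⊢
  rw [← FL.CA_eq] at hz
  have h := FL.exact c hV hφ (c.M + 1) le_rfl ((c.M : ℤ) + 1) d (by push_cast; omega)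
    (by push_cast; omega) z (Submodule.mem_sup_left hz) hb
  obtain ⟨_, ⟨w, hw, rfl⟩, r, hr, rfl⟩ := Submodule.mem_sup.1 h
  obtain ⟨u, hu, v, hv, rfl⟩ := Submodule.mem_sup.1 hw
  have e2 : (q : ℤ) + 1 + 1 = ((q + 1 : ℕ) : ℤ) + 1 := by push_cast; ring
  rw [e2, FL.CA_eq] at hu
  rw [map_add, add_assoc]
  exact Submodule.add_mem_sup (Submodule.mem_map_of_mem hu)
    (Submodule.add_mem _ ((c.step φ (Nat.zero_le _)).DZ v hv) hr)

end H5T
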