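import Pool.Agent.Lib.MP_e9c0f3_ag.H5T.FlagGood

/-! The barycentric complex with coefficients in the total space. -/

open scoped TensorProduct

namespace H5T

variable {n : ℕ} {X : TropCx n}

section
variable {V E E' : Type} [AddCommGroup E] [Module ℚ E] [AddCommGroup E'] [Module ℚ E']

lemma fl34_sup (f : E →ₗ[ℚ] E') {G : Set (Pt n) → Submodule ℚ E} {H : Set (Pt n) → Submodule ℚ E'}
    {P Q : Set (Pt n) → Prop} (hPQ : ∀ σ, P σ → Q σ) (h : ∀ σ, ∀ β ∈ G σ, f β ∈ H σ) {β : E}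
    (hβ : β ∈ ⨆ σ ∈ X.cells, ⨆ _ : P σ, G σ) : f β ∈ ⨆ σ ∈ X.cells, ⨆ _ : Q σ, H σ := by
  have : (⨆ σ ∈ X.cells, ⨆ _ : P σ, G σ) ≤ (⨆ σ ∈ X.cells, ⨆ _ : Q σ, H σ).comap f :=
    iSup_le fun σ => iSup_le fun hσ => iSup_le fun hP β hβ =>
      Submodule.mem_iSup_of_mem σ (Submodule.mem_iSup_of_mem hσ
        (Submodule.mem_iSup_of_mem (hPQ σ hP) (h σ β hβ)))
  exact this hβ

lemma fl34_Z (f : E →ₗ[ℚ] E') {car : List V → Set (Pt n) → Prop} {G : Set (Pt n) → Submodule ℚ E}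
    {H : Set (Pt n) → Submodule ℚ E'} (h : ∀ σ, ∀ β ∈ G σ, f β ∈ H σ) {z : List V →₀ E}
    (hz : z ∈ X.Z car G) : co f z ∈ X.Z car H := by
  refine co_mem_Ch f (fun l β hβ => ?_) hz
  by_cases e : l = []
  · simp [e]
  · rw [if_neg e] at hβ ⊢
    exact fl34_sup f (fun _ h => h) h hβ

lemma fl34_C (f : E →ₗ[ℚ] E') {car : List V → Set (Pt n) → Prop} {G : Set (Pt n) → Submodule ℚ E}
    {H : Set (Pt n) → Submodule ℚ E'} (h : ∀ σ, ∀ β ∈ G σ, f β ∈ H σ) {q : ℕ} {z : List V →₀ E}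
    (hz : z ∈ X.C car G q) : co f z ∈ X.C car H q :=
  co_mem_Ch f (fun _ _ hβ => fl34_sup f (fun _ h => h) h hβ) hz

lemma fl34_co_co {E'' : Type} [AddCommGroup E''] [Module ℚ E''] (f : E →ₗ[ℚ] E')
    (g : E' →ₗ[ℚ] E'') (z : List V →₀ E) : co (g ∘ₗ f) z = co g (co f z) := by
  ext l
  simp

end

lemma fl34_ZA : X.ZA [] = X.Z X.Flag X.It := by
  have : {l : List (Set (Pt n)) | ¬ [] ⊆ l} = ∅ := by
    ext l
    simp
  rw [TropCx.ZA, this, Finsupp.supported_empty, sup_bot_eq]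

/-- Evaluation of the real factor by a rational form. -/
noncomputable def fl34_ev (f : ℝ →ₗ[ℚ] ℚ) : ℝ ⊗[ℚ] Mv n →ₗ[ℚ] Mv n :=
  (TensorProduct.lid ℚ (Mv n)).toLinearMap ∘ₗ LinearMap.rTensor (Mv n) f

lemma fl34_ev_tmul (f : ℝ →ₗ[ℚ] ℚ) (r : ℝ) (β : Mv n) : fl34_ev f (r ⊗ₜ β) = f r • β := by
  simp [fl34_ev]

lemma fl34_ev_re (f : ℝ →ₗ[ℚ] ℚ) (G : Set (Pt n) → Submodule ℚ (Mv n)) (σ : Set (Pt n)) :
    ∀ β ∈ re G σ, fl34_ev f β ∈ G σ := by
  rintro _ ⟨t, rfl⟩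
  induction t using TensorProduct.induction_on with
  | zero => simp
  | tmul r β =>
    rw [LinearMap.baseChange_tmul, fl34_ev_tmul]
    exact Submodule.smul_mem _ _ β.2
  | add a b ha hb =>
    rw [map_add, map_add]
    exact Submodule.add_mem _ ha hb

lemma fl34_mul_sum (v : Fin n → ℚ) (β : Mv n) :
    ∑ i, v i • (ExteriorAlgebra.ι ℚ (Pi.single i (1 : ℚ) : Fin n → ℚ) * β) = mul v β := by
  have : v = ∑ i, v i • (Pi.single i (1 : ℚ) : Fin n → ℚ) := by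
    ext j
    simp [Finset.sum_apply, Pi.single_apply]
  conv_rhs => rw [this]
  simp [mul, Finset.sum_mul]

lemma Col.fl34_wave (c : Col X) (b : ℕ) (u : List (Set (Pt n)) →₀ Mv n) :
    c.Nb b (co jj u) = co jj (co (fl34_ev (c.f b)) (X.wave u)) := by
  induction u using Finsupp.induction_linear with
  | zero => simp
  | add a b ha hb => simp only [map_add, ha, hb]
  | single l β =>
    rcases l with _ | ⟨σ, _ | ⟨ρ, l⟩⟩
    · simp [Col.Nb, TropCx.wave]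
    · simp [Col.Nb, TropCx.wave]
    · rw [co_single, Col.Nb, TropCx.wave, cap_two, cap_two, co_single, co_single, ← jj_mul,
        ← fl34_mul_sum]
      congr 2
      rw [LinearMap.sum_apply, map_sum]
      refine Finset.sum_congr rfl fun i _ => ?_
      rw [LinearMap.comp_apply, TensorProduct.mk_apply, fl34_ev_tmul, map_sub]
      rfl

lemma Col.fl34_jj (c : Col X) {p q : ℕ} {y : List (Set (Pt n)) →₀ Mv n}
    (hy : y ∈ X.C X.Flag (X.F p) q) : co jj y ∈ c.AA [] 0 0 p (q + 1) := by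
  refine Submodule.mem_sup_left (co_mem_Ch jj (fun l β hβ => ?_) hy)
  refine fl34_sup jj (fun σ h => ⟨h.1, by exact_mod_cast h.2⟩) (fun σ β hβ => ?_) hβ
  have : ¬ ((0 : ℤ) < 0 ∨ (p : ℤ) < 0) := by omega
  rw [Col.Af, if_neg this, Int.toNat_natCast]
  exact Submodule.mem_map_of_mem hβ

lemma fl34_jjZ {z : List (Set (Pt n)) →₀ Mv n} (hz : z ∈ X.Z X.Flag X.I) : co jj z ∈ X.ZA [] :=
  fl34_ZA (X := X) ▸ fl34_Z jj (fun _ _ h => X.jj_mem_It h) hz

lemma fl34_KKZ (a : ℕ) {z : List (Set (Pt n)) →₀ Mt n} (hz : z ∈ X.ZA []) :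
    co (KK a) z ∈ X.Z X.Flag X.I :=
  fl34_Z (KK a) (fun _ _ h => X.KK_mem_I a h) (fl34_ZA (X := X) ▸ hz)

lemma Col.fl34_good (c : Col X) {d : ℕ} {m : Set (Pt n) → Module.Dual ℚ (Fin n → ℚ)}
    (hL : X.HardLef d m) : ∀ a ≤ c.M + 1,
      Good (c.AA [] a) (X.ZA []) bd (Lt m) (d + 1) (2 * d + 1)
  | 0, _ => c.good_zero hL
  | a + 1, ha => (c.step [] (by omega)).good (c.fl34_good hL a (by omega)) (co_lam_Lt m a)
      (c.Lt_Th hL.2.1 (by omega))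

lemma Col.fl34_iter (c : Col X) {k : ℕ} {u : List (Set (Pt n)) →₀ Mv n} (hu : u ∈ X.Cyc k k)
    (hw : X.wave u ∈ (X.C X.Flag (re (X.F (k + 1))) k).map bd ⊔ X.Z X.Flag (re X.I)) :
    ∀ a ≤ c.M + 1, ∃ x, Killed (c.AA [] a) bd c.Nb c.M a (k + a) (k + 1) x ∧
      co (KK a) x - u ∈ X.Z X.Flag X.I
  | 0, _ => by
    refine ⟨co jj u, ⟨by simpa using c.fl34_jj hu.1, ?_, fun b _ => ?_⟩, ?_⟩
    · rw [bd_co]
      exact Submodule.mem_sup_right (Submodule.mem_sup_right (fl34_jjZ hu.2))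
    · obtain ⟨_, ⟨y, hy, rfl⟩, z, hz, e⟩ := Submodule.mem_sup.1 hw
      rw [c.fl34_wave, ← e, map_add, map_add, ← bd_co, ← bd_co]
      refine Submodule.add_mem_sup (Submodule.mem_map_of_mem ?_)
        (Submodule.mem_sup_right (fl34_jjZ (fl34_Z _ (fl34_ev_re _ _) hz)))
      simpa using c.fl34_jj (fl34_C _ (fl34_ev_re (c.f b) _) hy)
    · have : co (KK 0) (co jj u) = u := by
        ext l
        simp [KK, pr_jj]
      rw [this, sub_self]
      exact Submodule.zero_mem _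
  | a + 1, ha => by
    obtain ⟨x, hx, h2⟩ := c.fl34_iter hu hw a (by omega)
    have ha' : a ≤ c.M := by omega
    have hs := c.step [] ha'
    refine ⟨c.Th a x, ?_, ?_⟩
    · have := hs.killed ha' (c.bd_Th a) (fun b hb => c.Nb_Th ha' hb) hx
      push_cast
      rwa [← add_assoc]
    · have h3 := fl34_KKZ a (hs.κΘ _ _ _ x hx.1)
      rw [KK, fl34_co_co]
      rw [map_sub] at h3
      simpa using Submodule.add_mem _ h3 h2

/-- A Hodge class lifts to a cycle of the total space. -/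
theorem Col.lift (c : Col X) {d k : ℕ} {m : Set (Pt n) → Module.Dual ℚ (Fin n → ℚ)}
    (hL : X.HardLef d m) {u : List (Set (Pt n)) →₀ Mv n} (hu : u ∈ X.Cyc k k)
    (hw : X.wave u ∈ (X.C X.Flag (re (X.F (k + 1))) k).map bd ⊔ X.Z X.Flag (re X.I)) :
    ∃ v ∈ X.C X.Flag (c.Ft (k + (c.M + 1))) k, bd v ∈ X.Z X.Flag X.It ∧
      co (KK (c.M + 1)) v - u ∈ X.Z X.Flag X.I := by
  obtain ⟨x, hx, h2⟩ := c.fl34_iter hu hw (c.M + 1) le_rfl
  have hG := c.fl34_good hL (c.M + 1) le_rfl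
  obtain ⟨x', hx', hD⟩ := hG.lift hx.1 hx.2.1
  obtain ⟨v, hv, z, hz, e⟩ := Submodule.mem_sup.1 (Submodule.sub_mem _ hx.1 (hG.mono _ _ _ hx'))
  obtain ⟨v', hv', z', hz', e'⟩ := Submodule.mem_sup.1 hx'
  have ev : v = x - x' - z := by rw [← e, add_sub_cancel_right]
  refine ⟨v, mem_Ch.2 fun l => ?_, ?_, ?_⟩
  · refine fl34_sup LinearMap.id (fun σ h => ⟨h.1, by exact_mod_cast h.2⟩) (fun σ β hβ => ?_)
      (mem_Ch.1 hv l)
    rw [Col.Ft]
    push_cast at hβ ⊢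
    exact hβ
  · rw [ev, map_sub, ← fl34_ZA]
    exact Submodule.sub_mem _ hD ((c.step [] (Nat.zero_le _)).DZ z hz)
  · have h0 : co (KK (c.M + 1)) v' = 0 := by
      ext1 l
      have := fl34_sup (H := fun _ => ⊥) (KK (c.M + 1)) (fun σ h => h)
        (fun σ β hβ => c.KK_Af_low (by omega) hβ) (mem_Ch.1 hv' l)
      simpa using this
    have : co (KK (c.M + 1)) v - u = co (KK (c.M + 1)) x - u - co (KK (c.M + 1)) z' -
        co (KK (c.M + 1)) z := by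
      rw [ev, ← e', map_sub, map_sub, map_add, h0]
      abel
    rw [this]
    exact Submodule.sub_mem _ (Submodule.sub_mem _ h2 (fl34_KKZ _ hz')) (fl34_KKZ _ hz)

end H5T
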