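import Pool.Agent.Lib.MP_e9c0f3_ag.H5T.Col

/-! Local exactness passes from flags to the mixed subdivision. -/

open scoped Classical

noncomputable section

namespace H5T

open Finsupp

variable {n : ℕ} {E : Type} [AddCommGroup E] [Module ℚ E]

section General

variable {V W T : Type} [AddCommGroup T] [Module ℚ T]

theorem mx_map_C (X : TropCx n) {car : List V → Set (Pt n) → Prop}
    {G : Set (Pt n) → Submodule ℚ E} {q : ℕ} (f : (List V →₀ E) →ₗ[ℚ] T) {S : Submodule ℚ T}
    (h : ∀ l, ∀ σ ∈ X.cells, car l σ → l.length = q + 1 → ∀ β ∈ G σ, f (single l β) ∈ S)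
    {z : List V →₀ E} (hz : z ∈ X.C car G q) : f z ∈ S := by
  refine map_mem_of_Ch f (fun l β hβ => ?_) hz
  have : (⨆ σ ∈ X.cells, ⨆ _ : car l σ ∧ l.length = q + 1, G σ) ≤
      S.comap (f ∘ₗ lsingle l) :=
    iSup₂_le fun σ hσ => iSup_le fun hc β hβ => h l σ hσ hc.1 hc.2 β hβ
  exact this hβ

theorem mx_single_C (X : TropCx n) {car : List V → Set (Pt n) → Prop}
    {G : Set (Pt n) → Submodule ℚ E} {q : ℕ} {l : List V} {σ : Set (Pt n)} (hσ : σ ∈ X.cells)
    (hc : car l σ) (hl : l.length = q + 1) {β : E} (hβ : β ∈ G σ) :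
    single l β ∈ X.C car G q :=
  single_mem_Ch (Submodule.mem_iSup_of_mem σ (Submodule.mem_iSup_of_mem hσ
    (Submodule.mem_iSup_of_mem ⟨hc, hl⟩ hβ)))

theorem mx_map_sup (X : TropCx n) {car : List V → Set (Pt n) → Prop}
    {G : Set (Pt n) → Submodule ℚ E} (f : E →ₗ[ℚ] T) {S : Submodule ℚ T} {l : List V}
    (h : ∀ σ ∈ X.cells, car l σ → ∀ β ∈ G σ, f β ∈ S) {β : E}
    (hβ : β ∈ ⨆ σ ∈ X.cells, ⨆ _ : car l σ, G σ) : f β ∈ S := by
  have : (⨆ σ ∈ X.cells, ⨆ _ : car l σ, G σ) ≤ S.comap f :=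
    iSup₂_le fun σ hσ => iSup_le fun hc β hβ => h σ hσ hc β hβ
  exact this hβ

theorem mx_map_Z (X : TropCx n) {car : List V → Set (Pt n) → Prop}
    {G : Set (Pt n) → Submodule ℚ E} (f : (List V →₀ E) →ₗ[ℚ] T) {S : Submodule ℚ T}
    (h0 : ∀ β, f (single [] β) ∈ S)
    (h : ∀ l, ∀ σ ∈ X.cells, car l σ → ∀ β ∈ G σ, f (single l β) ∈ S)
    {z : List V →₀ E} (hz : z ∈ X.Z car G) : f z ∈ S := by
  refine map_mem_of_Ch f (fun l β hβ => ?_) hz
  by_cases e : l = []
  · subst e; exact h0 β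
  · rw [if_neg e] at hβ
    exact mx_map_sup X (f ∘ₗ lsingle l) (h l) hβ

theorem mx_single_Z (X : TropCx n) {car : List V → Set (Pt n) → Prop}
    {G : Set (Pt n) → Submodule ℚ E} {l : List V} {σ : Set (Pt n)} (hσ : σ ∈ X.cells)
    (hc : car l σ) {β : E} (hβ : β ∈ G σ) : single l β ∈ X.Z car G := by
  refine single_mem_Ch ?_
  by_cases e : l = []
  · simp [e]
  · rw [if_neg e]
    exact Submodule.mem_iSup_of_mem σ (Submodule.mem_iSup_of_mem hσ
      (Submodule.mem_iSup_of_mem hc hβ))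

theorem mx_nil_Z (X : TropCx n) {car : List V → Set (Pt n) → Prop}
    {G : Set (Pt n) → Submodule ℚ E} (β : E) : single [] β ∈ X.Z car G :=
  single_mem_Ch (by simp)

theorem mx_map_supp {p : List V → Prop} (f : (List V →₀ E) →ₗ[ℚ] T) {S : Submodule ℚ T}
    (h : ∀ l, p l → ∀ β, f (single l β) ∈ S) {z : List V →₀ E}
    (hz : z ∈ supported E ℚ {l | p l}) : f z ∈ S := by
  rw [supported_eq_Ch] at hz
  refine map_mem_of_Ch f (fun l β hβ => ?_) hz
  by_cases e : p l
  · exact h l e β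
  · simp only [e, if_false, Submodule.mem_bot] at hβ
    simp [hβ]

theorem mx_single_supp {p : List V → Prop} {l : List V} (h : p l) (β : E) :
    single l β ∈ supported E ℚ {l | p l} :=
  single_mem_supported ℚ β h

theorem mx_bd_single_mem (f : (List V →₀ E) →ₗ[ℚ] T) {S : Submodule ℚ T} (l : List V) (β : E)
    (h : ∀ l', l'.Sublist l → l'.length + 1 = l.length → f (single l' β) ∈ S) :
    f (bd (single l β)) ∈ S := by
  rw [bd_single, map_sum]
  refine S.sum_mem fun i hi => ?_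
  rw [map_smul]
  have hi' := Finset.mem_range.1 hi
  exact S.smul_mem _ (h _ (List.eraseIdx_sublist l i)
    (by rw [List.length_eraseIdx_of_lt hi']; omega))

/-- A map of vertices acts on chains. -/
def mxMp (f : V → W) : (List V →₀ E) →ₗ[ℚ] (List W →₀ E) := lmapDomain E ℚ (List.map f)

@[simp] theorem mxMp_single (f : V → W) (l : List V) (β : E) :
    mxMp f (single l β) = single (l.map f) β := by
  simp [mxMp]

theorem mxMp_cons (f : V → W) (x : V) (z : List V →₀ E) :
    mxMp f (cons x z) = cons (f x) (mxMp f z) := by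
  induction z using Finsupp.induction_linear with
  | zero => simp
  | add a b ha hb => simp only [map_add, ha, hb]
  | single l β => simp

theorem mx_bd_mp (f : V → W) (z : List V →₀ E) : bd (mxMp f z) = mxMp f (bd z) := by
  induction z using Finsupp.induction_linear with
  | zero => simp
  | add a b ha hb => simp only [map_add, ha, hb]
  | single l β =>
    induction l with
    | nil => simp
    | cons x l ih =>
      rw [mxMp_single] at ih
      rw [mxMp_single, List.map_cons, bd_single_cons, bd_single_cons, map_sub, mxMp_cons, ih,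
        mxMp_single]

/-- Keep the simplices with property `p`. -/
def mxFlt (p : List V → Prop) : (List V →₀ E) →ₗ[ℚ] (List V →₀ E) :=
  coL fun l => if p l then LinearMap.id else 0

theorem mxFlt_pos {p : List V → Prop} {l : List V} (h : p l) (β : E) :
    mxFlt p (single l β) = single l β := by
  simp [mxFlt, h]

theorem mxFlt_neg {p : List V → Prop} {l : List V} (h : ¬ p l) (β : E) :
    mxFlt p (single l β) = 0 := by
  simp [mxFlt, h]

/-- Put the list `v` in front. -/
def mxApp (v : List V) : (List V →₀ E) →ₗ[ℚ] (List V →₀ E) := lmapDomain E ℚ (v ++ ·)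

@[simp] theorem mxApp_single (v l : List V) (β : E) :
    mxApp v (single l β) = single (v ++ l) β := by
  simp [mxApp]

theorem mxApp_nil (z : List V →₀ E) : mxApp [] z = z := by
  induction z using Finsupp.induction_linear with
  | zero => simp
  | add a b ha hb => simp only [map_add, ha, hb]
  | single l β => simp

theorem mxApp_cons (x : V) (v : List V) (z : List V →₀ E) :
    mxApp (x :: v) z = cons x (mxApp v z) := by
  induction z using Finsupp.induction_linear with
  | zero => simp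
  | add a b ha hb => simp only [map_add, ha, hb]
  | single l β => simp

theorem mx_bd_two (u : List V) (a b : V) (B : List V) (β : E) :
    bd (single (u ++ a :: b :: B) β) -
      (-1 : ℚ) ^ u.length • (single (u ++ b :: B) β - single (u ++ a :: B) β) ∈
      supported E ℚ {l | a ∈ l ∧ b ∈ l} := by
  induction u with
  | nil =>
    have : bd (single ([] ++ a :: b :: B) β) -
        (-1 : ℚ) ^ ([] : List V).length • (single ([] ++ b :: B) β - single ([] ++ a :: B) β) =
        (cons a ∘ₗ cons b) (bd (single B β)) := by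
      simp only [List.nil_append, List.length_nil, pow_zero, one_smul, bd_single_cons, map_sub,
        cons_single, LinearMap.comp_apply]
      abel
    rw [this]
    exact mx_bd_single_mem _ _ _ fun l' _ _ => by
      simpa using mx_single_supp (p := fun l => a ∈ l ∧ b ∈ l) (l := a :: b :: l') (by simp) β
  | cons c u ih =>
    have : bd (single (c :: u ++ a :: b :: B) β) -
        (-1 : ℚ) ^ (c :: u).length • (single (c :: u ++ b :: B) β - single (c :: u ++ a :: B) β) =
        single (u ++ a :: b :: B) β - cons c (bd (single (u ++ a :: b :: B) β) -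
        (-1 : ℚ) ^ u.length • (single (u ++ b :: B) β - single (u ++ a :: B) β)) := by
      simp only [List.cons_append, List.length_cons, pow_succ, bd_single_cons, map_sub, map_smul,
        cons_single, mul_neg, mul_one, neg_smul]
      abel
    rw [this]
    refine Submodule.sub_mem _ (mx_single_supp (p := fun l => a ∈ l ∧ b ∈ l) (by simp) β) ?_
    refine mx_map_supp (cons c) (fun l hl β => ?_) ih
    rw [cons_single]
    exact mx_single_supp (p := fun l => a ∈ l ∧ b ∈ l) (by simp [hl.1, hl.2]) β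

theorem mx_first {p : V → Prop} {l : List V} (h : ∃ x ∈ l, p x) :
    ∃ u x B, l = u ++ x :: B ∧ p x ∧ ∀ y ∈ u, ¬ p y := by
  induction l with
  | nil => simp at h
  | cons a l ih =>
    by_cases e : p a
    · exact ⟨[], a, l, rfl, e, by simp⟩
    · obtain ⟨x, hx, hp⟩ := h
      rcases List.mem_cons.1 hx with rfl | hx
      · exact absurd hp e
      · obtain ⟨u, x, B, rfl, h1, h2⟩ := ih ⟨x, hx, hp⟩
        refine ⟨a :: u, x, B, rfl, h1, fun y hy => ?_⟩
        rcases List.mem_cons.1 hy with rfl | hy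
        · exact e
        · exact h2 y hy

theorem mx_last {p : V → Prop} {l : List V} (h : ∃ x ∈ l, p x) :
    ∃ u x B, l = u ++ x :: B ∧ p x ∧ ∀ y ∈ B, ¬ p y := by
  induction l with
  | nil => simp at h
  | cons a l ih =>
    by_cases e : ∃ x ∈ l, p x
    · obtain ⟨u, x, B, rfl, h1, h2⟩ := ih e
      exact ⟨a :: u, x, B, rfl, h1, h2⟩
    · obtain ⟨x, hx, hp⟩ := h
      rcases List.mem_cons.1 hx with rfl | hx
      · exact ⟨[], x, l, rfl, hp, fun y hy hpy => e ⟨y, hy, hpy⟩⟩
      · exact absurd ⟨x, hx, hp⟩ e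

theorem mx_uniq {p : V → Prop} {a a' r r' : List V} {x x' : V} (h : a ++ x :: r = a' ++ x' :: r')
    (ha : ∀ y ∈ a, ¬ p y) (ha' : ∀ y ∈ a', ¬ p y) (hx : p x) (hx' : p x') :
    a = a' ∧ x = x' ∧ r = r' := by
  induction a generalizing a' with
  | nil =>
    cases a' with
    | nil => simpa using h
    | cons c a' =>
      simp only [List.nil_append, List.cons_append, List.cons.injEq] at h
      exact absurd hx (ha' x (by simp [h.1]))
  | cons c a ih =>
    cases a' with
    | nil =>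
      simp only [List.nil_append, List.cons_append, List.cons.injEq] at h
      exact absurd hx' (ha x' (by simp [h.1]))
    | cons c' a' =>
      simp only [List.cons_append, List.cons.injEq] at h
      obtain ⟨h1, h2⟩ := ih h.2 (fun y hy => ha y (by simp [hy])) (fun y hy => ha' y (by simp [hy]))
      exact ⟨by rw [h.1, h1], h2⟩

end General

/-- Merge the colours above `M` into `M`. -/
def mxUp (M : ℕ) (x : Vx n) : Vx n := (x.1, min x.2 M)

/-- Replace the colour `M` by `M + 1`. -/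
def mxD (M : ℕ) (x : Vx n) : Vx n := if x.2 = M then (x.1, M + 1) else x

theorem mxUp_of_le {M : ℕ} {x : Vx n} (h : x.2 ≤ M) : mxUp M x = x := by
  simp [mxUp, min_eq_left h]

theorem mxUp_of_lt {M : ℕ} {x : Vx n} (h : M < x.2) : mxUp M x = (x.1, M) := by
  simp [mxUp, min_eq_right h.le]

theorem mxUp_le (M : ℕ) (x : Vx n) : (mxUp M x).2 ≤ M := min_le_right _ _

theorem mxUp_D {M : ℕ} {x : Vx n} (h : x.2 ≤ M) : mxUp M (mxD M x) = x := by
  unfold mxD
  split_ifs with e
  · rw [mxUp_of_lt (by simp)]; rw [← e]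
  · exact mxUp_of_le h

theorem mxD_Up {M : ℕ} {x : Vx n} (h : x.2 ≤ M + 1) (h' : x.2 ≠ M) : mxD M (mxUp M x) = x := by
  by_cases e : x.2 ≤ M
  · rw [mxUp_of_le e, mxD, if_neg h']
  · rw [mxUp_of_lt (by omega), mxD, if_pos rfl]
    exact Prod.ext rfl (by simp; omega)

theorem mxD_ne (M : ℕ) (x : Vx n) : (mxD M x).2 ≠ M := by
  unfold mxD
  split_ifs with e
  · simp
  · exact e

theorem mxD_fst (M : ℕ) (x : Vx n) : (mxD M x).1 = x.1 := by
  unfold mxD
  split_ifs <;> rfl

theorem mx_map_Up_D {M : ℕ} {l : List (Vx n)} (h : ∀ x ∈ l, x.2 ≤ M) :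
    (l.map (mxD M)).map (mxUp M) = l := by
  rw [List.map_map]
  conv_rhs => rw [← List.map_id l]
  exact List.map_congr_left fun x hx => mxUp_D (h x hx)

theorem mx_map_Up {M : ℕ} {l : List (Vx n)} (h : ∀ x ∈ l, x.2 ≤ M) : l.map (mxUp M) = l := by
  conv_rhs => rw [← List.map_id l]
  exact List.map_congr_left fun x hx => mxUp_of_le (h x hx)

/-- The prism over one simplex. -/
def mxPl (M : ℕ) : List (Vx n) → E →ₗ[ℚ] (List (Vx n) →₀ E)
  | [] => 0
  | a :: l => - (cons (mxUp M a) ∘ₗ mxPl M l) +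
      if M < a.2 then lsingle (mxUp M a :: a :: l) else 0

/-- The prism operator between the identity and the merging of colours. -/
def mxP (M : ℕ) : (List (Vx n) →₀ E) →ₗ[ℚ] (List (Vx n) →₀ E) := lsum ℚ (mxPl M)

@[simp] theorem mxP_nil (M : ℕ) (β : E) : mxP M (single ([] : List (Vx n)) β) = 0 := by
  rw [mxP, lsum_single]; rfl

theorem mxP_single_cons (M : ℕ) (a : Vx n) (l : List (Vx n)) (β : E) :
    mxP M (single (a :: l) β) = - cons (mxUp M a) (mxP M (single l β)) +
      if M < a.2 then single (mxUp M a :: a :: l) β else 0 := by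
  by_cases e : M < a.2 <;> simp [mxP, mxPl, e]

theorem mxP_cons (M : ℕ) (a : Vx n) (z : List (Vx n) →₀ E) :
    mxP M (cons a z) = - cons (mxUp M a) (mxP M z) +
      if M < a.2 then cons (mxUp M a) (cons a z) else 0 := by
  induction z using Finsupp.induction_linear with
  | zero => simp
  | add x y hx hy =>
    simp only [map_add, hx, hy]
    split_ifs <;> abel
  | single l β => rw [cons_single, mxP_single_cons, cons_single]

theorem mxP_htpy (M : ℕ) (z : List (Vx n) →₀ E) :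
    bd (mxP M z) + mxP M (bd z) = z - mxMp (mxUp M) z := by
  induction z using Finsupp.induction_linear with
  | zero => simp
  | add x y hx hy =>
    simp only [map_add]
    rw [add_add_add_comm, hx, hy]; abel
  | single l β =>
    induction l with
    | nil => simp
    | cons a l ih =>
      have ih' : bd (mxP M (single l β)) =
          single l β - mxMp (mxUp M) (single l β) - mxP M (bd (single l β)) := by
        rw [← ih]; abel
      rw [mxP_single_cons, bd_single_cons, map_sub, mxP_cons, map_add, map_neg, bd_cons, ih']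
      by_cases e : M < a.2
      · simp only [e, if_true, bd_single_cons, map_sub, cons_single, mxMp_single, List.map_cons]
        abel
      · simp only [e, if_false, map_zero, map_sub, cons_single, mxMp_single, List.map_cons,
          mxUp_of_le (not_lt.1 e)]
        abel

theorem mxP_append (M : ℕ) (v t : List (Vx n)) (β : E) {S : Submodule ℚ (List (Vx n) →₀ E)}
    (h : ∀ v1 b v2, v = v1 ++ b :: v2 → M < b.2 →
      single (v1.map (mxUp M) ++ mxUp M b :: b :: (v2 ++ t)) β ∈ S) :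
    mxP M (single (v ++ t) β) -
      (-1 : ℚ) ^ v.length • mxApp (v.map (mxUp M)) (mxP M (single t β)) ∈ S := by
  induction v generalizing S with
  | nil => simp [mxApp_nil]
  | cons a v ih =>
    have h1 := ih (S := S.comap (cons (mxUp M a))) fun v1 b v2 e hb => by
      simpa using h (a :: v1) b v2 (by simp [e]) hb
    rw [Submodule.mem_comap] at h1
    have h2 : (if M < a.2 then single (mxUp M a :: a :: (v ++ t)) β else 0) ∈ S := by
      split_ifs with e
      · simpa using h [] a v rfl e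
      · exact S.zero_mem
    convert S.add_mem (S.neg_mem h1) h2 using 1
    rw [List.cons_append, mxP_single_cons, List.map_cons, mxApp_cons, map_sub, map_smul,
      List.length_cons, pow_succ, mul_neg, mul_one, neg_smul]
    abel

theorem mxP_mem (M : ℕ) (l : List (Vx n)) (β : E) {S : Submodule ℚ (List (Vx n) →₀ E)}
    (h : ∀ l1 b l2, l = l1 ++ b :: l2 → M < b.2 →
      single (l1.map (mxUp M) ++ mxUp M b :: b :: l2) β ∈ S) : mxP M (single l β) ∈ S := by
  simpa using mxP_append M l [] β (S := S) fun v1 b v2 e hb => by simpa using h v1 b v2 e hb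

theorem mxP_low {M : ℕ} {u : List (Vx n)} (hu : ∀ x ∈ u, x.2 ≤ M) (t : List (Vx n)) (β : E) :
    mxP M (single (u ++ t) β) = (-1 : ℚ) ^ u.length • mxApp u (mxP M (single t β)) := by
  have := mxP_append M u t β (S := ⊥) fun v1 b v2 e hb =>
    absurd (hu b (by simp [e])) (by omega)
  rwa [Submodule.mem_bot, sub_eq_zero, mx_map_Up hu] at this

theorem mxP_diff {M : ℕ} {u : List (Vx n)} (hu : ∀ x ∈ u, x.2 ≤ M) (f : Set (Pt n))
    (B : List (Vx n)) (β : E) :
    single (u ++ (f, M) :: (f, M + 1) :: B) β = (-1 : ℚ) ^ u.length •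
      (mxP M (single (u ++ (f, M + 1) :: B) β) - mxP M (single (u ++ (f, M) :: B) β)) := by
  have e1 : mxUp M ((f, M + 1) : Vx n) = (f, M) := mxUp_of_lt (by simp)
  have e2 : mxUp M ((f, M) : Vx n) = (f, M) := mxUp_of_le (by simp)
  rw [mxP_low hu, mxP_low hu, ← smul_sub, smul_smul, ← mul_pow, ← map_sub, mxP_single_cons,
    mxP_single_cons, e1, e2]
  simp

theorem mxP_coef (M : ℕ) (l1 : List (Vx n)) {b : Vx n} (hb : M < b.2) (l2 : List (Vx n))
    (β : E) : mxP M (single (l1 ++ b :: l2) β) (l1.map (mxUp M) ++ mxUp M b :: b :: l2) =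
      (-1 : ℚ) ^ l1.length • β := by
  have hc : ∀ (x : Vx n) (z : List (Vx n) →₀ E) (t : List (Vx n)), cons x z (x :: t) = z t :=
    fun x z t => by
      simp only [cons, lmapDomain_apply]
      exact mapDomain_apply (fun _ _ h => (List.cons.inj h).2) z t
  induction l1 with
  | nil =>
    have h0 : mxP M (single l2 β) (b :: l2) = 0 := by
      refine mxP_mem M l2 β (S := LinearMap.ker (lapply (b :: l2))) fun v1 c v2 _ _ => ?_
      rw [LinearMap.mem_ker, lapply_apply]
      refine single_eq_of_ne fun e => ?_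
      cases v1 with
      | nil =>
        have := mxUp_le M c
        simp only [List.map_nil, List.nil_append, List.cons.injEq] at e
        rw [← e.1] at this; omega
      | cons d v1 =>
        have := mxUp_le M d
        simp only [List.map_cons, List.cons_append, List.cons.injEq] at e
        rw [← e.1] at this; omega
    simp [mxP_single_cons, hb, hc, h0]
  | cons a l1 ih =>
    rw [List.cons_append, mxP_single_cons, List.map_cons, List.cons_append, Finsupp.add_apply,
      Finsupp.neg_apply, hc, ih]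
    have : (if M < a.2 then single (mxUp M a :: a :: (l1 ++ b :: l2)) β else 0)
        (mxUp M a :: (l1.map (mxUp M) ++ mxUp M b :: b :: l2)) = 0 := by
      split_ifs with e
      · refine single_eq_of_ne fun e' => ?_
        cases l1 with
        | nil =>
          have := mxUp_le M b
          simp only [List.map_nil, List.nil_append, List.cons.injEq] at e'
          rw [e'.2.1] at this; omega
        | cons d l1 =>
          have := mxUp_le M d
          simp only [List.map_cons, List.cons_append, List.cons.injEq] at e'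
          rw [e'.2.1] at this; omega
      · rfl
    rw [this, List.length_cons, pow_succ]
    simp

/-- No cell carries both colours `M` and `M + 1`. -/
def mxY (M : ℕ) (l : List (Vx n)) : Prop := ∀ f, (f, M) ∈ l → (f, M + 1) ∉ l

theorem mx_CF_sub {X : TropCx n} {M : ℕ} {l l' : List (Vx n)} {σ : Set (Pt n)}
    (h : X.CF M l σ) (hs : l'.Sublist l) : X.CF M l' σ :=
  ⟨h.1.sublist hs, fun x hx => h.2 x (hs.subset hx)⟩

theorem mx_Full_mono {M : ℕ} {J l l' : List (Vx n)} (h : Full M J l') (hs : l' ⊆ l) :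
    Full M J l :=
  ⟨List.Subset.trans h.1 hs, fun a ha => (h.2 a ha).imp fun _ hx => ⟨hs hx.1, hx.2⟩⟩

theorem mx_CF_Up {X : TropCx n} {M : ℕ} {l : List (Vx n)} {σ : Set (Pt n)}
    (h : X.CF (M + 1) l σ) (hY : mxY M l) : X.CF M (l.map (mxUp M)) σ := by
  refine ⟨List.pairwise_map.2 (h.1.imp_of_mem fun {x y} hx hy hr => ⟨hr.1, ?_, fun e => ?_⟩), ?_⟩
  · exact min_le_min_right M hr.2.1
  · have e1 : x.1 = y.1 := (congrArg Prod.fst e :)
    have e2 : min x.2 M = min y.2 M := (congrArg Prod.snd e :)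
    have h2 : x.2 ≠ y.2 := fun e' => hr.2.2 (Prod.ext e1 e')
    have h3 := hr.2.1
    have h4 := (h.2 y hy).2.2
    have h5 : x = (x.1, M) := Prod.ext rfl (by simp; omega)
    have h6 : y = (x.1, M + 1) := Prod.ext e1.symm (by simp; omega)
    exact hY x.1 (h5 ▸ hx) (h6 ▸ hy)
  · intro x hx
    obtain ⟨y, hy, rfl⟩ := List.mem_map.1 hx
    exact ⟨(h.2 y hy).1, (h.2 y hy).2.1, mxUp_le M y⟩

theorem mx_CF_term {X : TropCx n} {M : ℕ} {l1 l2 : List (Vx n)} {b : Vx n} {σ : Set (Pt n)}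
    (h : X.CF (M + 1) (l1 ++ b :: l2) σ) (hY : mxY M (l1 ++ b :: l2)) (hb : M < b.2) :
    X.CF (M + 1) (l1.map (mxUp M) ++ mxUp M b :: b :: l2) σ := by
  have hu := mx_CF_Up h hY
  have h1 : X.CF M ((l1 ++ [b]).map (mxUp M)) σ :=
    mx_CF_sub hu (List.Sublist.map _ (by simp))
  have h2 : X.CF (M + 1) (b :: l2) σ := mx_CF_sub h (by simp)
  have e : l1.map (mxUp M) ++ mxUp M b :: b :: l2 = (l1 ++ [b]).map (mxUp M) ++ b :: l2 := by simp
  have hp := List.pairwise_append.1 h.1
  have hq := List.pairwise_cons.1 h2.1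
  rw [e]
  refine ⟨List.pairwise_append.2 ⟨h1.1, h2.1, fun x hx y hy => ?_⟩, fun x hx => ?_⟩
  · obtain ⟨x, hx', rfl⟩ := List.mem_map.1 hx
    have hy2 : M < y.2 := by
      rcases List.mem_cons.1 hy with rfl | hy
      · exact hb
      · exact hb.trans_le (hq.1 y hy).2.1
    have hx2 := mxUp_le M x
    refine ⟨?_, by omega, fun e' => by rw [e'] at hx2; omega⟩
    rcases List.mem_append.1 hx' with hx | hx
    · exact (hp.2.2 x hx y hy).1
    · rw [List.mem_singleton.1 hx]
      rcases List.mem_cons.1 hy with rfl | hy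
      · exact subset_rfl
      · exact (hq.1 y hy).1
  · rcases List.mem_append.1 hx with hx | hx
    · exact ⟨(h1.2 x hx).1, (h1.2 x hx).2.1, (h1.2 x hx).2.2.trans (by omega)⟩
    · exact h2.2 x hx

theorem mx_CF_D {X : TropCx n} {M : ℕ} {l : List (Vx n)} {σ : Set (Pt n)}
    (h : X.CF M l σ) : X.CF (M + 1) (l.map (mxD M)) σ := by
  have hle : ∀ x : Vx n, x.2 ≤ M → (mxD M x).2 = if x.2 = M then M + 1 else x.2 := by
    intro x _
    unfold mxD
    split_ifs <;> rfl
  refine ⟨List.pairwise_map.2 (h.1.imp_of_mem fun {x y} hx hy hr => ⟨?_, ?_, fun e => ?_⟩), ?_⟩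
  · rw [mxD_fst, mxD_fst]; exact hr.1
  · have h1 := (h.2 y hy).2.2
    have h2 := hr.2.1
    rw [hle x (h.2 x hx).2.2, hle y h1]
    split_ifs <;> omega
  · exact hr.2.2 (by rw [← mxUp_D (h.2 x hx).2.2, e, mxUp_D (h.2 y hy).2.2])
  · intro x hx
    obtain ⟨y, hy, rfl⟩ := List.mem_map.1 hx
    have h1 := (h.2 y hy).2.2
    rw [mxD_fst, hle y h1]
    exact ⟨(h.2 y hy).1, (h.2 y hy).2.1, by split_ifs <;> omega⟩

theorem mx_Y_D (M : ℕ) (l : List (Vx n)) : mxY M (l.map (mxD M)) := by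
  intro f hf
  obtain ⟨y, _, e⟩ := List.mem_map.1 hf
  exact absurd (congrArg Prod.snd e) (mxD_ne M y)

theorem mx_mem_ZZ (X : TropCx n) {I : Set (Pt n) → Submodule ℚ E} {M : ℕ} {J : List (Vx n)}
    {w : List (Vx n) →₀ E} : w ∈ X.ZZ M J I ↔
      ∀ l, Full M J l → w l ∈ ⨆ σ ∈ X.cells, ⨆ _ : X.CF M l σ, I σ := by
  unfold TropCx.ZZ TropCx.Z
  rw [supported_eq_Ch, ← Ch_sup, mem_Ch]
  refine forall_congr' fun l => ?_
  by_cases e : Full M J l
  · have : l ≠ [] := by
      rintro rfl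
      simpa using e.2 0 (Nat.zero_le M)
    simp [e, this]
  · simp [e]

theorem mx_nf (X : TropCx n) {I : Set (Pt n) → Submodule ℚ E} {M : ℕ} {J l : List (Vx n)}
    (h : ¬ Full M J l) (β : E) : single l β ∈ X.ZZ M J I :=
  Submodule.mem_sup_right (mx_single_supp (p := fun l => ¬ Full M J l) h β)

theorem mx_map_ZZ (X : TropCx n) {I : Set (Pt n) → Submodule ℚ E} {M : ℕ} {J : List (Vx n)}
    {T : Type} [AddCommGroup T] [Module ℚ T]
    (f : (List (Vx n) →₀ E) →ₗ[ℚ] T) {S : Submodule ℚ T}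
    (h0 : ∀ l, ¬ Full M J l → ∀ β, f (single l β) ∈ S)
    (h : ∀ l, ∀ σ ∈ X.cells, X.CF M l σ → ∀ β ∈ I σ, f (single l β) ∈ S)
    {z : List (Vx n) →₀ E} (hz : z ∈ X.ZZ M J I) : f z ∈ S := by
  obtain ⟨a, ha, b, hb, rfl⟩ := Submodule.mem_sup.1 hz
  rw [map_add]
  refine S.add_mem (mx_map_Z X f (h0 [] fun e => ?_) h ha) (mx_map_supp f h0 hb)
  simpa using e.2 0 (Nat.zero_le M)

theorem mx_bd_ZZ (X : TropCx n) {I : Set (Pt n) → Submodule ℚ E} {M : ℕ} {J : List (Vx n)}
    {z : List (Vx n) →₀ E} (hz : z ∈ X.ZZ M J I) : bd z ∈ X.ZZ M J I :=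
  mx_map_ZZ X bd (fun l hl β => mx_bd_single_mem LinearMap.id l β fun _ hs _ =>
      mx_nf X (fun e => hl (mx_Full_mono e hs.subset)) β)
    (fun l _ hσ hc β hβ => mx_bd_single_mem LinearMap.id l β fun _ hs _ =>
      Submodule.mem_sup_left (mx_single_Z X hσ (mx_CF_sub hc hs) hβ)) hz

/-- The contraction. -/
def mxS (M : ℕ) (J : List (Vx n)) : (List (Vx n) →₀ E) →ₗ[ℚ] (List (Vx n) →₀ E) :=
  mxP M ∘ₗ mxFlt fun l => Full (M + 1) J l ∧ mxY M l

/-- The subdivision of the last colour. -/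
def mxAw (M : ℕ) : (List (Vx n) →₀ E) →ₗ[ℚ] (List (Vx n) →₀ E) := mxP M ∘ₗ mxMp (mxD M)

theorem mxS_pos {M : ℕ} {J l : List (Vx n)} (h : Full (M + 1) J l) (hY : mxY M l) (β : E) :
    mxS M J (single l β) = mxP M (single l β) := by
  rw [mxS, LinearMap.comp_apply, mxFlt_pos (p := fun l => Full (M + 1) J l ∧ mxY M l) ⟨h, hY⟩]

theorem mxS_neg {M : ℕ} {J l : List (Vx n)} (h : ¬ (Full (M + 1) J l ∧ mxY M l)) (β : E) :
    mxS M J (single l β) = 0 := by
  rw [mxS, LinearMap.comp_apply, mxFlt_neg (p := fun l => Full (M + 1) J l ∧ mxY M l) h, map_zero]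

theorem mxAw_single (M : ℕ) (l : List (Vx n)) (β : E) :
    mxAw M (single l β) = mxP M (single (l.map (mxD M)) β) := by
  rw [mxAw, LinearMap.comp_apply, mxMp_single]

variable (X : TropCx n) {G I : Set (Pt n) → Submodule ℚ E} {M : ℕ} {J : List (Vx n)}

theorem mxP_C {l : List (Vx n)} {σ : Set (Pt n)} (hσ : σ ∈ X.cells) (hc : X.CF (M + 1) l σ)
    (hY : mxY M l) {q : ℕ} (hl : l.length = q + 1) {β : E} (hβ : β ∈ G σ) :
    mxP M (single l β) ∈ X.C (X.CF (M + 1)) G (q + 1) := by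
  refine mxP_mem M l β fun l1 b l2 e hb => ?_
  subst e
  exact mx_single_C X hσ (mx_CF_term hc hY hb) (by simp at hl ⊢; omega) hβ

theorem mxP_Z {l : List (Vx n)} {σ : Set (Pt n)} (hσ : σ ∈ X.cells) (hc : X.CF (M + 1) l σ)
    (hY : mxY M l) {β : E} (hβ : β ∈ I σ) : mxP M (single l β) ∈ X.ZZ (M + 1) J I := by
  refine mxP_mem M l β fun l1 b l2 e hb => ?_
  subst e
  exact Submodule.mem_sup_left (mx_single_Z X hσ (mx_CF_term hc hY hb) hβ)

theorem mxS_C {q : ℕ} {z : List (Vx n) →₀ E} (hz : z ∈ X.C (X.CF (M + 1)) G q) :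
    mxS M J z ∈ X.C (X.CF (M + 1)) G (q + 1) := by
  refine mx_map_C X (mxS M J) (fun l σ hσ hc hl β hβ => ?_) hz
  by_cases e : Full (M + 1) J l ∧ mxY M l
  · rw [mxS_pos e.1 e.2]; exact mxP_C X hσ hc e.2 hl hβ
  · rw [mxS_neg e]; exact Submodule.zero_mem _

theorem mxS_ZZ {z : List (Vx n) →₀ E} (hz : z ∈ X.ZZ (M + 1) J I) :
    mxS M J z ∈ X.ZZ (M + 1) J I := by
  refine mx_map_ZZ X (mxS M J) (fun l hl β => ?_) (fun l σ hσ hc β hβ => ?_) hz
  · rw [mxS_neg fun e => hl e.1]; exact Submodule.zero_mem _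
  · by_cases e : Full (M + 1) J l ∧ mxY M l
    · rw [mxS_pos e.1 e.2]; exact mxP_Z X hσ hc e.2 hβ
    · rw [mxS_neg e]; exact Submodule.zero_mem _

theorem mxAw_C {q : ℕ} {z : List (Vx n) →₀ E} (hz : z ∈ X.C (X.CF M) G q) :
    mxAw M z ∈ X.C (X.CF (M + 1)) G (q + 1) :=
  mx_map_C X (mxAw M) (fun l σ hσ hc hl β hβ => by
    rw [mxAw_single]
    exact mxP_C X hσ (mx_CF_D hc) (mx_Y_D M l) (by simpa using hl) hβ) hz

theorem mx_C_low {q : ℕ} {z : List (Vx n) →₀ E} (hz : z ∈ X.C (X.CF M) G q) :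
    z ∈ supported E ℚ {l | ∃ σ, X.CF M l σ} :=
  mx_map_C X LinearMap.id (fun _ σ _ hc _ β _ =>
    mx_single_supp (p := fun l => ∃ σ, X.CF M l σ) ⟨σ, hc⟩ β) hz

theorem mx_bd_low {z : List (Vx n) →₀ E} (hz : z ∈ supported E ℚ {l | ∃ σ, X.CF M l σ}) :
    bd z ∈ supported E ℚ {l | ∃ σ, X.CF M l σ} :=
  mx_map_supp bd (fun l hl β => mx_bd_single_mem LinearMap.id l β fun _ hs _ =>
    mx_single_supp (p := fun l => ∃ σ, X.CF M l σ) (hl.imp fun _ h => mx_CF_sub h hs) β) hz

theorem mx_term_mem {l1 l2 : List (Vx n)} {b x : Vx n}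
    (hx : x ∈ l1.map (mxUp M) ++ mxUp M b :: b :: l2) :
    x ∈ l1 ++ b :: l2 ∨ ∃ y ∈ l1 ++ b :: l2, M < y.2 ∧ x = (y.1, M) := by
  have key : ∀ y ∈ l1 ++ b :: l2, mxUp M y ∈ l1 ++ b :: l2 ∨
      ∃ y' ∈ l1 ++ b :: l2, M < y'.2 ∧ mxUp M y = (y'.1, M) := fun y hy => by
    by_cases e : y.2 ≤ M
    · rw [mxUp_of_le e]; exact Or.inl hy
    · exact Or.inr ⟨y, hy, by omega, mxUp_of_lt (by omega)⟩
  rcases List.mem_append.1 hx with hx | hx
  · obtain ⟨y, hy, rfl⟩ := List.mem_map.1 hx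
    exact key y (by simp [hy])
  · rcases List.mem_cons.1 hx with rfl | hx
    · exact key b (by simp)
    · exact Or.inl (List.mem_append_right _ hx)

theorem mxAw_ZZ {z : List (Vx n) →₀ E} (hz : z ∈ X.ZZ M (J.map (mxUp M)) I)
    (hl : z ∈ supported E ℚ {l | ∃ σ, X.CF M l σ}) : mxAw M z ∈ X.ZZ (M + 1) J I := by
  have : z ∈ Ch fun l => if ∃ σ, X.CF M l σ then (if Full M (J.map (mxUp M)) l then
      ⨆ σ ∈ X.cells, ⨆ _ : X.CF M l σ, I σ else ⊤) else ⊥ := by
    rw [mem_Ch]
    intro l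
    split_ifs with h1 h2
    · exact (mx_mem_ZZ X).1 hz l h2
    · exact Submodule.mem_top
    · rw [Finsupp.mem_supported'] at hl
      exact (Submodule.mem_bot ℚ).2 (hl l h1)
  refine map_mem_of_Ch (mxAw M) (fun l β hβ => ?_) this
  split_ifs at hβ with h1 h2
  · have key := mx_map_sup X (mxAw M ∘ₗ lsingle l) (S := X.ZZ (M + 1) J I)
      (fun σ hσ hc β hβ => ?_) hβ
    · rwa [LinearMap.comp_apply, lsingle_apply] at key
    rw [LinearMap.comp_apply, lsingle_apply, mxAw_single]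
    exact mxP_Z X hσ (mx_CF_D hc) (mx_Y_D M l) hβ
  · obtain ⟨σ, hc⟩ := h1
    rw [mxAw_single]
    refine mxP_mem M _ β fun l1 b l2 e hb => mx_nf X (fun hF => h2 ?_) β
    have hm : ∀ x ∈ l1.map (mxUp M) ++ mxUp M b :: b :: l2, mxUp M x ∈ l := fun x hx => by
      rw [← mx_map_Up_D fun x hx => (hc.2 x hx).2.2, e]
      rcases mx_term_mem hx with h | ⟨y, hy, hy2, rfl⟩
      · exact List.mem_map_of_mem h
      · rw [mxUp_of_le (by simp), ← mxUp_of_lt hy2]; exact List.mem_map_of_mem hy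
    refine ⟨fun j hj => ?_, fun a ha => ?_⟩
    · obtain ⟨j, hj', rfl⟩ := List.mem_map.1 hj
      exact hm j (hF.1 hj')
    · obtain ⟨x, hx, e'⟩ := hF.2 a (by omega)
      exact ⟨mxUp M x, hm x hx, by rw [mxUp_of_le (by omega), e']⟩
  · rw [(Submodule.mem_bot ℚ).1 hβ]; simp

theorem mxAw_bd {q : ℕ} {z : List (Vx n) →₀ E} (hz : z ∈ X.C (X.CF M) G q) :
    bd (mxAw M z) + mxAw M (bd z) ∈ X.ZZ (M + 1) J I := by
  have e : bd (mxAw M z) + mxAw M (bd z) =
      (mxMp (mxD M) - mxMp (mxUp M) ∘ₗ mxMp (mxD M) :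
        (List (Vx n) →₀ E) →ₗ[ℚ] (List (Vx n) →₀ E)) z := by
    simp only [mxAw, LinearMap.comp_apply, LinearMap.sub_apply, ← mx_bd_mp, mxP_htpy]
  rw [e]
  refine mx_map_C X _ (fun l σ _ _ _ β _ => ?_) hz
  simp only [LinearMap.comp_apply, LinearMap.sub_apply, mxMp_single]
  refine Submodule.sub_mem _ (mx_nf X (fun h => ?_) β) (mx_nf X (fun h => ?_) β)
  · obtain ⟨x, hx, e⟩ := h.2 M (by omega)
    obtain ⟨y, _, rfl⟩ := List.mem_map.1 hx
    exact mxD_ne M y e
  · obtain ⟨x, hx, e⟩ := h.2 (M + 1) le_rfl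
    obtain ⟨y, _, rfl⟩ := List.mem_map.1 hx
    have := mxUp_le M y
    omega

theorem mx_face_null {l : List (Vx n)} (hM : ∃ x ∈ l, x.2 = M) (hF : ¬ Full (M + 1) J l)
    (hJ : ∀ y ∈ l, M < y.2 → (y.1, M) ∈ J → (y.1, M) ∈ l) (β : E) :
    mxP M (single l β) ∈ X.ZZ (M + 1) J I := by
  refine mxP_mem M l β fun l1 b l2 e hb => mx_nf X (fun h => hF ?_) β
  subst e
  refine ⟨fun j hj => ?_, fun a ha => ?_⟩
  · rcases mx_term_mem (h.1 hj) with h | ⟨y, hy, hy2, rfl⟩
    · exact h
    · exact hJ y hy hy2 hj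
  · obtain ⟨x, hx, e⟩ := h.2 a ha
    rcases mx_term_mem hx with h | ⟨y, hy, hy2, rfl⟩
    · exact ⟨x, h, e⟩
    · exact e ▸ hM

theorem mx_face_aw {l : List (Vx n)} {σ : Set (Pt n)} (hσ : σ ∈ X.cells)
    (hc : X.CF (M + 1) l σ) (hM : ¬ ∃ x ∈ l, x.2 = M) {q : ℕ} (hl : l.length = q + 1) {β : E}
    (hβ : β ∈ G σ) : mxP M (single l β) ∈ (X.C (X.CF M) G q).map (mxAw M) := by
  refine ⟨single (l.map (mxUp M)) β, mx_single_C X hσ
    (mx_CF_Up hc fun f hf => absurd ⟨_, hf, rfl⟩ hM) (by simpa using hl) hβ, ?_⟩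
  rw [mxAw_single, List.map_map]
  congr 2
  conv_rhs => rw [← List.map_id l]
  exact List.map_congr_left fun x hx => mxD_Up (hc.2 x hx).2.2 fun e => hM ⟨x, hx, e⟩

theorem mx_split {l : List (Vx n)} {σ : Set (Pt n)} (hc : X.CF (M + 1) l σ) (hY : ¬ mxY M l) :
    ∃ u f B, l = u ++ (f, M) :: (f, M + 1) :: B ∧ (∀ x ∈ u, x.2 ≤ M) ∧ ∀ x ∈ B, M < x.2 := by
  simp only [mxY, not_forall, not_not] at hY
  obtain ⟨f, h0, h1⟩ := hY
  obtain ⟨u, t, rfl⟩ := List.append_of_mem h0
  have hp := List.pairwise_append.1 hc.1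
  have hq := List.pairwise_cons.1 hp.2.1
  have hu : ∀ x ∈ u, x.2 ≤ M := fun x hx => (hp.2.2 x hx (f, M) (by simp)).2.1
  have ht : (f, M + 1) ∈ t := by
    rcases List.mem_append.1 h1 with h | h
    · have := hu _ h
      simp at this
    · simpa using h
  cases t with
  | nil => simp at ht
  | cons c B =>
    have hr := List.pairwise_cons.1 hq.2
    have hc' : c = (f, M + 1) := by
      rcases List.mem_cons.1 ht with h | h
      · exact h.symm
      · have a1 := hq.1 c (by simp)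
        have a2 := hr.1 _ h
        have a3 : c.1 = f := Set.Subset.antisymm a1.1 a2.1
        have a4 : c.2 ≠ M := fun e => a1.2.2 (Prod.ext a3.symm e.symm)
        have a5 : M ≤ c.2 := a1.2.1
        have a6 : c.2 ≤ M + 1 := a2.2.1
        exact Prod.ext a3 (by simp; omega)
    subst hc'
    exact ⟨u, f, B, rfl, hu, fun x hx => (hr.1 x hx).2.1⟩

theorem mx_key_Y {l : List (Vx n)} {σ : Set (Pt n)} (hσ : σ ∈ X.cells) (hc : X.CF (M + 1) l σ)
    (hF : Full (M + 1) J l) (hY : mxY M l) {q : ℕ} (hl : l.length = q + 1 + 1) {β : E}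
    (hβ : β ∈ G σ) : single l β - bd (mxS M J (single l β)) - mxS M J (bd (single l β)) ∈
      (X.C (X.CF M) G q).map (mxAw M) ⊔ X.ZZ (M + 1) J I := by
  have e : single l β - bd (mxS M J (single l β)) - mxS M J (bd (single l β)) =
      (mxP M - mxS M J : (List (Vx n) →₀ E) →ₗ[ℚ] (List (Vx n) →₀ E)) (bd (single l β)) +
        single (l.map (mxUp M)) β := by
    have := mxP_htpy M (single l β)
    rw [mxMp_single, ← eq_sub_iff_add_eq] at this
    rw [mxS_pos hF hY, this, LinearMap.sub_apply]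
    abel
  rw [e]
  refine Submodule.add_mem _ (mx_bd_single_mem _ l β fun l' hs hl' => ?_)
    (Submodule.mem_sup_right (mx_nf X (fun h => ?_) β))
  · have hY' : mxY M l' := fun f h0 h1 => hY f (hs.subset h0) (hs.subset h1)
    rw [LinearMap.sub_apply]
    by_cases h : Full (M + 1) J l'
    · rw [mxS_pos h hY', sub_self]; exact Submodule.zero_mem _
    · rw [mxS_neg fun h' => h h'.1, sub_zero]
      by_cases hM : ∃ x ∈ l', x.2 = M
      · refine Submodule.mem_sup_right (mx_face_null X hM h (fun y hy hy2 hj => ?_) β)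
        have := (hc.2 y (hs.subset hy)).2.2
        have e : y = (y.1, M + 1) := Prod.ext rfl (by simp; omega)
        exact absurd (e ▸ hs.subset hy) (hY y.1 (hF.1 hj))
      · exact Submodule.mem_sup_left (mx_face_aw X hσ (mx_CF_sub hc hs) hM (by omega) hβ)
  · obtain ⟨x, hx, e⟩ := h.2 (M + 1) le_rfl
    obtain ⟨y, _, rfl⟩ := List.mem_map.1 hx
    have := mxUp_le M y
    omega

theorem mx_key_X {l : List (Vx n)} {σ : Set (Pt n)} (hσ : σ ∈ X.cells) (hc : X.CF (M + 1) l σ)
    (hF : Full (M + 1) J l) (hY : ¬ mxY M l) {q : ℕ} (hl : l.length = q + 1 + 1) {β : E}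
    (hβ : β ∈ G σ) : single l β - bd (mxS M J (single l β)) - mxS M J (bd (single l β)) ∈
      (X.C (X.CF M) G q).map (mxAw M) ⊔ X.ZZ (M + 1) J I := by
  obtain ⟨u, f, B, rfl, hu, hB⟩ := mx_split X hc hY
  have hp := List.pairwise_append.1 hc.1
  have hq := List.pairwise_cons.1 hp.2.1
  have hr := List.pairwise_cons.1 hq.2
  have hB' : ∀ x ∈ B, x = (x.1, M + 1) := fun x hx => by
    have h1 := hB x hx
    have h2 := (hc.2 x (by simp [hx])).2.2
    exact Prod.ext rfl (by simp; omega)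
  have huf : (f, M) ∉ u := fun h => (hp.2.2 _ h (f, M) (by simp)).2.2 rfl
  have hBf : ∀ x ∈ B, x.1 ⊆ f ∧ x.1 ≠ f := fun x hx =>
    ⟨(hr.1 x hx).1, fun e => (hr.1 x hx).2.2 (by rw [hB' x hx, e])⟩
  have hlow : ∀ g, (g, M) ∈ u ++ (f, M) :: (f, M + 1) :: B → f ⊆ g := fun g hg => by
    rcases List.mem_append.1 hg with h | h
    · exact (hp.2.2 _ h (f, M) (by simp)).1
    · rcases List.mem_cons.1 h with h | h
      · rw [(Prod.mk.inj h).1]
      · rcases List.mem_cons.1 h with h | h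
        · simp at h
        · have := hB _ h
          simp at this
  have hs1 : (u ++ (f, M + 1) :: B).Sublist (u ++ (f, M) :: (f, M + 1) :: B) := by simp
  have hs0 : (u ++ (f, M) :: B).Sublist (u ++ (f, M) :: (f, M + 1) :: B) := by simp
  have hY1 : mxY M (u ++ (f, M + 1) :: B) := fun g h0 h1 => by
    have a1 := hlow g (hs1.subset h0)
    have a2 : (g, M) ∈ u := by
      rcases List.mem_append.1 h0 with h | h
      · exact h
      · rcases List.mem_cons.1 h with h | h
        · simp at h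
        · have := hB _ h
          simp at this
    rcases List.mem_append.1 h1 with h | h
    · have := hu _ h
      simp at this
    · rcases List.mem_cons.1 h with h | h
      · rw [(Prod.mk.inj h).1] at a2; exact huf a2
      · exact (hBf _ h).2 (Set.Subset.antisymm (hBf _ h).1 a1)
  have hY0 : mxY M (u ++ (f, M) :: B) := fun g h0 h1 => by
    have a1 := hlow g (hs0.subset h0)
    rcases List.mem_append.1 h1 with h | h
    · have := hu _ h
      simp at this
    · rcases List.mem_cons.1 h with h | h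
      · simp at h
      · exact (hBf _ h).2 (Set.Subset.antisymm (hBf _ h).1 a1)
  have e1 : mxS M J (bd (single (u ++ (f, M) :: (f, M + 1) :: B) β)) = (-1 : ℚ) ^ u.length •
      (mxS M J (single (u ++ (f, M + 1) :: B) β) - mxS M J (single (u ++ (f, M) :: B) β)) := by
    have := mx_map_supp (mxS M J) (S := ⊥) (fun l hl β => by
      rw [mxS_neg fun h => h.2 f hl.1 hl.2]; exact Submodule.zero_mem _)
      (mx_bd_two u (f, M) (f, M + 1) B β)
    rwa [Submodule.mem_bot, map_sub, sub_eq_zero, map_smul, map_sub] at this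
  rw [mxS_neg fun h => hY h.2, map_zero, sub_zero, e1, mxP_diff hu, ← smul_sub, sub_sub_sub_comm]
  refine Submodule.smul_mem _ _ (Submodule.sub_mem _ ?_ ?_)
  · by_cases h : Full (M + 1) J (u ++ (f, M + 1) :: B)
    · rw [mxS_pos h hY1, sub_self]; exact Submodule.zero_mem _
    rw [mxS_neg fun h' => h h'.1, sub_zero]
    have hlen : (u ++ (f, M + 1) :: B).length = q + 1 := by simp at hl ⊢; omega
    by_cases hM : ∃ x ∈ u ++ (f, M + 1) :: B, x.2 = M
    swap
    · exact Submodule.mem_sup_left (mx_face_aw X hσ (mx_CF_sub hc hs1) hM hlen hβ)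
    have hfJ : (f, M) ∈ J := by
      by_contra hn
      refine h ⟨fun j hj => ?_, fun a ha => ?_⟩
      · have := hF.1 hj
        have hne : j ≠ (f, M) := fun e => hn (e ▸ hj)
        simpa [hne] using this
      · obtain ⟨x, hx, e⟩ := hF.2 a ha
        by_cases hne : x = (f, M)
        · subst hne; exact e ▸ hM
        · exact ⟨x, by simpa [hne] using hx, e⟩
    have hψ := mx_CF_Up (mx_CF_sub hc hs1) hY1
    have e2 : ((u ++ (f, M + 1) :: B).map (mxUp M)).map (mxD M) =
        u.map (mxD M) ++ (f, M + 1) :: B := by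
      rw [List.map_append, List.map_append, mx_map_Up hu, List.map_map]
      congr 1
      conv_rhs => rw [← List.map_id ((f, M + 1) :: B)]
      refine List.map_congr_left fun x hx => mxD_Up (hc.2 x (by simp [List.mem_cons.1 hx])).2.2 ?_
      rcases List.mem_cons.1 hx with rfl | hx
      · simp
      · exact (hB x hx).ne'
    have h3 : mxAw M (single ((u ++ (f, M + 1) :: B).map (mxUp M)) β) -
        mxP M (single (u ++ (f, M + 1) :: B) β) ∈ X.ZZ (M + 1) J I := by
      have := mxP_append M (u.map (mxD M)) ((f, M + 1) :: B) β (S := X.ZZ (M + 1) J I)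
        fun v1 b v2 e hb => mx_nf X (fun hT => by
          have hm := hT.1 hfJ
          have hin : ∀ y ∈ v1 ++ b :: v2, mxUp M y ∈ u := fun y hy => by
            rw [← mx_map_Up_D hu, e]; exact List.mem_map_of_mem hy
          rcases List.mem_append.1 hm with h | h
          · obtain ⟨y, hy, e'⟩ := List.mem_map.1 h
            exact huf (e' ▸ hin y (by simp [hy]))
          · rcases List.mem_cons.1 h with h | h
            · exact huf (h ▸ hin b (by simp))
            · rcases List.mem_cons.1 h with h | h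
              · rw [← h] at hb; simp at hb
              · rcases List.mem_append.1 h with h | h
                · have : (f, M) ∈ u.map (mxD M) := by rw [e]; simp [h]
                  obtain ⟨y, _, e'⟩ := List.mem_map.1 this
                  exact mxD_ne M y (congrArg Prod.snd e')
                · rcases List.mem_cons.1 h with h | h
                  · simp at h
                  · have := hB _ h
                    simp at this) β
      rw [mx_map_Up_D hu, List.length_map] at this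
      rwa [mxAw_single, e2, mxP_low hu]
    have h4 : mxAw M (single ((u ++ (f, M + 1) :: B).map (mxUp M)) β) ∈
        (X.C (X.CF M) G q).map (mxAw M) :=
      ⟨_, mx_single_C X hσ hψ (by simpa using hlen) hβ, rfl⟩
    simpa using Submodule.sub_mem _ (Submodule.mem_sup_left h4) (Submodule.mem_sup_right h3)
  · by_cases h : Full (M + 1) J (u ++ (f, M) :: B)
    · rw [mxS_pos h hY0, sub_self]; exact Submodule.zero_mem _
    rw [mxS_neg fun h' => h h'.1, sub_zero]
    refine Submodule.mem_sup_right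
      (mx_face_null X ⟨(f, M), by simp, rfl⟩ h (fun y hy hy2 hj => ?_) β)
    have a1 := hlow _ (hF.1 hj)
    rcases List.mem_append.1 hy with h | h
    · have := hu _ h
      omega
    · rcases List.mem_cons.1 h with rfl | h
      · simp at hy2
      · exact absurd (Set.Subset.antisymm (hBf _ h).1 a1) (hBf _ h).2

theorem mx_key {q : ℕ} {z : List (Vx n) →₀ E} (hz : z ∈ X.C (X.CF (M + 1)) G (q + 1)) :
    z - bd (mxS M J z) - mxS M J (bd z) ∈
      (X.C (X.CF M) G q).map (mxAw M) ⊔ X.ZZ (M + 1) J I := by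
  refine mx_map_C X (LinearMap.id - bd ∘ₗ mxS M J - mxS M J ∘ₗ bd :
    (List (Vx n) →₀ E) →ₗ[ℚ] (List (Vx n) →₀ E)) (fun l σ hσ hc hl β hβ => ?_) hz
  simp only [LinearMap.sub_apply, LinearMap.id_apply, LinearMap.comp_apply]
  by_cases hF : Full (M + 1) J l
  · by_cases hY : mxY M l
    · exact mx_key_Y X hσ hc hF hY hl hβ
    · exact mx_key_X X hσ hc hF hY hl hβ
  · have h1 : single l β ∈ X.ZZ (M + 1) J I := mx_nf X hF β
    rw [mxS_neg fun h => hF h.1, map_zero, sub_zero]
    exact Submodule.mem_sup_right (Submodule.sub_mem _ h1 (mxS_ZZ X (mx_bd_ZZ X h1)))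

theorem mxAw_coef {u B : List (Vx n)} {f : Set (Pt n)} (hu : ∀ x ∈ u ++ (f, M) :: B, x.2 ≤ M)
    {w : List (Vx n) →₀ E} (hw : w ∈ supported E ℚ {l | ∃ σ, X.CF M l σ}) :
    mxAw M w (u ++ (f, M) :: (f, M + 1) :: B.map (mxD M)) =
      (-1 : ℚ) ^ u.length • w (u ++ (f, M) :: B) := by
  have e1 : mxUp M ((f, M + 1) : Vx n) = (f, M) := mxUp_of_lt (by simp)
  have hu' : ∀ x ∈ u, x.2 ≤ M := fun x hx => hu x (by simp [hx])
  have hB : ∀ x ∈ B, x.2 ≤ M := fun x hx => hu x (by simp [hx])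
  have := mx_map_supp (lapply (u ++ (f, M) :: (f, M + 1) :: B.map (mxD M)) ∘ₗ mxAw M -
    (-1 : ℚ) ^ u.length • lapply (u ++ (f, M) :: B) : (List (Vx n) →₀ E) →ₗ[ℚ] E) (S := ⊥)
    (fun l hl β => ?_) hw
  · simpa [sub_eq_zero] using this
  obtain ⟨σ, hc⟩ := hl
  simp only [LinearMap.sub_apply, LinearMap.comp_apply, LinearMap.smul_apply, lapply_apply,
    Submodule.mem_bot, sub_eq_zero, mxAw_single]
  by_cases e : l = u ++ (f, M) :: B
  · subst e
    have := mxP_coef M (u.map (mxD M)) (b := (f, M + 1)) (by simp) (B.map (mxD M)) β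
    rw [mx_map_Up_D hu', e1, List.length_map] at this
    have e2 : mxD M ((f, M) : Vx n) = (f, M + 1) := if_pos rfl
    rw [List.map_append, List.map_cons, e2, this, single_eq_same]
  · rw [single_eq_of_ne (Ne.symm e), smul_zero]
    refine mxP_mem M _ β
      (S := LinearMap.ker (lapply (u ++ (f, M) :: (f, M + 1) :: B.map (mxD M))))
      fun l1 b l2 e' hb => ?_
    rw [LinearMap.mem_ker, lapply_apply]
    refine single_eq_of_ne fun h => e ?_
    have h' : (u ++ [(f, M)]) ++ (f, M + 1) :: B.map (mxD M) =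
        (l1 ++ [b]).map (mxUp M) ++ b :: l2 := by simpa using h
    obtain ⟨h1, h2, h3⟩ := mx_uniq (p := fun x : Vx n => M < x.2) h'
      (fun y hy => not_lt.2 (hu y (by
        rcases List.mem_append.1 hy with h | h
        · simp [h]
        · simp [List.mem_singleton.1 h])))
      (fun y hy => by
        obtain ⟨x, _, rfl⟩ := List.mem_map.1 hy
        exact not_lt.2 (mxUp_le M x)) (by simp) hb
    have h4 : (l1 ++ b :: l2).map (mxUp M) = (l1 ++ [b]).map (mxUp M) ++ l2.map (mxUp M) := by simp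
    rw [← mx_map_Up_D fun x hx => (hc.2 x hx).2.2, e', h4, ← h1, ← h3, mx_map_Up_D hB]
    simp

theorem mxAw_inj {l0 : List (Vx n)} {σ0 : Set (Pt n)} (h0 : X.CF (M + 1) l0 σ0)
    (hJ : J ⊆ l0) {w : List (Vx n) →₀ E} (hw : w ∈ supported E ℚ {l | ∃ σ, X.CF M l σ})
    (h : mxAw M w ∈ X.ZZ (M + 1) J I) : w ∈ X.ZZ M (J.map (mxUp M)) I := by
  have hcons : ∀ j ∈ J, ∀ j' ∈ J, j.2 = M → M < j'.2 → j'.1 ⊆ j.1 := by
    intro j hj j' hj' e1 e2
    obtain ⟨u, t, rfl⟩ := List.append_of_mem (hJ hj)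
    have hp := List.pairwise_append.1 h0.1
    rcases List.mem_append.1 (hJ hj') with h | h
    · have := (hp.2.2 _ h j (by simp)).2.1
      omega
    · rcases List.mem_cons.1 h with h | h
      · rw [h]
      · exact ((List.pairwise_cons.1 hp.2.1).1 _ h).1
  rw [mx_mem_ZZ] at h ⊢
  intro l hF
  by_cases hv : ∃ σ, X.CF M l σ
  swap
  · rw [Finsupp.mem_supported'] at hw
    rw [hw l hv]; exact Submodule.zero_mem _
  obtain ⟨σ1, hc⟩ := hv
  have hJl : ∀ j ∈ J, mxUp M j ∈ l := fun j hj => hF.1 (List.mem_map_of_mem hj)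
  have hex : ∃ x ∈ l, x.2 = M ∧ ∀ j ∈ J, M < j.2 → j.1 ⊆ x.1 := by
    obtain ⟨u, x, B, rfl, h1, h2⟩ := mx_first (hF.2 M le_rfl)
    refine ⟨x, by simp, h1, fun j hj hj2 => ?_⟩
    have := hJl j hj
    rw [mxUp_of_lt hj2] at this
    rcases List.mem_append.1 this with h | h
    · exact absurd rfl (h2 _ h)
    · rcases List.mem_cons.1 h with h | h
      · rw [← h]
      · exact ((List.pairwise_cons.1 (List.pairwise_append.1 hc.1).2.1).1 _ h).1
  obtain ⟨u, ⟨f, a⟩, B, rfl, ⟨rfl, h1⟩, h2⟩ := mx_last hex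
  have hp := List.pairwise_append.1 hc.1
  have hq := List.pairwise_cons.1 hp.2.1
  have hle : ∀ x ∈ u ++ (f, a) :: B, x.2 ≤ a := fun x hx => (hc.2 x hx).2.2
  have hB : ∀ x ∈ B, x.2 = a := fun x hx =>
    le_antisymm (hle x (by simp [hx])) (hq.1 x hx).2.1
  have hFull : Full (a + 1) J (u ++ (f, a) :: (f, a + 1) :: B.map (mxD a)) := by
    refine ⟨fun j hj => ?_, fun c hc' => ?_⟩
    · have hm := hJl j hj
      by_cases e : j.2 ≤ a
      · rw [mxUp_of_le e] at hm
        rcases List.mem_append.1 hm with h | h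
        · simp [h]
        · rcases List.mem_cons.1 h with h | h
          · simp [h]
          · exact absurd ⟨hB j h, fun j' hj' => hcons j hj j' hj' (hB j h)⟩ (h2 j h)
      · have e2 := (h0.2 j (hJ hj)).2.2
        have e3 : j = (j.1, a + 1) := Prod.ext rfl (by simp; omega)
        rw [mxUp_of_lt (by omega)] at hm
        rcases List.mem_append.1 hm with h | h
        · have a1 := hp.2.2 _ h (f, a) (by simp)
          have a2 : j.1 = f := Set.Subset.antisymm (h1 j hj (by omega)) a1.1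
          exact absurd (by rw [a2]) a1.2.2
        · rcases List.mem_cons.1 h with h | h
          · rw [e3, (Prod.mk.inj h).1]; simp
          · have : j ∈ B.map (mxD a) := List.mem_map.2 ⟨_, h, by rw [mxD, if_pos rfl, ← e3]⟩
            simp only [List.mem_append, List.mem_cons, this, or_true]
    · by_cases e1 : c = a + 1
      · exact ⟨(f, a + 1), by simp, e1.symm⟩
      by_cases e2 : c = a
      · exact ⟨(f, a), by simp, e2.symm⟩
      obtain ⟨x, hx, e⟩ := hF.2 c (by omega)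
      rcases List.mem_append.1 hx with h | h
      · exact ⟨x, by simp [h], e⟩
      · rcases List.mem_cons.1 h with h | h
        · rw [h] at e; exact absurd e.symm e2
        · exact absurd (e.symm.trans (hB x h)) e2
  have h3 := h _ hFull
  rw [mxAw_coef X hle hw] at h3
  have h4 := Submodule.smul_mem _ ((-1 : ℚ) ^ u.length) h3
  rw [smul_smul, ← mul_pow, neg_mul_neg, one_mul, one_pow, one_smul] at h4
  refine mx_map_sup X LinearMap.id (fun σ hσ hc' β hβ => ?_) h4
  refine Submodule.mem_iSup_of_mem σ (Submodule.mem_iSup_of_mem hσ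
    (Submodule.mem_iSup_of_mem ⟨hc.1, fun x hx => ⟨(hc.2 x hx).1, ?_, hle x hx⟩⟩ hβ))
  rcases List.mem_append.1 hx with h | h
  · exact (hc'.2 x (by simp [h])).2.1
  · rcases List.mem_cons.1 h with h | h
    · exact (hc'.2 x (by simp [h])).2.1
    · rw [← mxD_fst a x]
      exact (hc'.2 _ (by simp [List.mem_map_of_mem (f := mxD a) h])).2.1

theorem mx_triv {q : ℕ} (h : ∀ l σ, X.CF M l σ → l.length = q + 1 → ¬ Full M J l)
    {z : List (Vx n) →₀ E} (hz : z ∈ X.C (X.CF M) G q) : z ∈ X.ZZ M J I :=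
  mx_map_C X LinearMap.id (fun l σ _ hc hl β _ => mx_nf X (h l σ hc hl) β) hz

theorem mx_step {g : ℕ}
    (ih : ∀ z ∈ X.C (X.CF M) G g, bd z ∈ X.ZZ M (J.map (mxUp M)) I →
      z ∈ (X.C (X.CF M) G (g + 1)).map bd ⊔ X.ZZ M (J.map (mxUp M)) I) :
    ∀ z ∈ X.C (X.CF (M + 1)) G (g + 1), bd z ∈ X.ZZ (M + 1) J I →
      z ∈ (X.C (X.CF (M + 1)) G (g + 1 + 1)).map bd ⊔ X.ZZ (M + 1) J I := by
  intro z hz hb
  by_cases hex : ∃ l σ, X.CF (M + 1) l σ ∧ J ⊆ l
  swap
  · exact Submodule.mem_sup_right (mx_triv X (fun l σ hc _ hF => hex ⟨l, σ, hc, hF.1⟩) hz)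
  obtain ⟨l0, σ0, h0, hJ⟩ := hex
  obtain ⟨_, ⟨v, hv, rfl⟩, m, hm, e⟩ := Submodule.mem_sup.1 (mx_key X (I := I) (J := J) hz)
  have hs := mxS_ZZ X hb
  have h1 : bd (mxAw M v) ∈ X.ZZ (M + 1) J I := by
    have : bd (mxAw M v) = bd z - bd (mxS M J (bd z)) - bd m := by
      rw [eq_sub_iff_add_eq, ← map_add, e, map_sub, map_sub, bd_bd, sub_zero]
    rw [this]
    exact Submodule.sub_mem _ (Submodule.sub_mem _ hb (mx_bd_ZZ X hs)) (mx_bd_ZZ X hm)
  have h2 : mxAw M (bd v) ∈ X.ZZ (M + 1) J I := by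
    simpa using Submodule.sub_mem _ (mxAw_bd X (I := I) (J := J) hv) h1
  obtain ⟨_, ⟨w, hw, rfl⟩, m', hm', e'⟩ := Submodule.mem_sup.1
    (ih v hv (mxAw_inj X h0 hJ (mx_bd_low X (mx_C_low X hv)) h2))
  have h3 : m' ∈ supported E ℚ {l | ∃ σ, X.CF M l σ} := by
    rw [eq_sub_of_add_eq' e']
    exact Submodule.sub_mem _ (mx_C_low X hv) (mx_bd_low X (mx_C_low X hw))
  have h4 : z = bd (mxS M J z - mxAw M w) + (mxS M J (bd z) + m + mxAw M m' +
      (bd (mxAw M w) + mxAw M (bd w))) := by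
    have : m = z - bd (mxS M J z) - mxS M J (bd z) - mxAw M v := eq_sub_of_add_eq' e
    rw [this, ← e', map_add, map_sub]
    abel
  rw [h4]
  exact Submodule.add_mem_sup ⟨_, Submodule.sub_mem _ (mxS_C X hz) (mxAw_C X hw), rfl⟩
    (Submodule.add_mem _ (Submodule.add_mem _ (Submodule.add_mem _ hs hm) (mxAw_ZZ X hm' h3))
      (mxAw_bd X hw))

theorem mx_base {g : ℕ}
    (h : ∀ z ∈ X.C X.Flag G g,
      bd z ∈ X.Z X.Flag I ⊔ supported _ ℚ {l | ¬ J.map Prod.fst ⊆ l} →
      z ∈ (X.C X.Flag G (g + 1)).map bd ⊔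
        (X.Z X.Flag I ⊔ supported _ ℚ {l | ¬ J.map Prod.fst ⊆ l})) :
    ∀ z ∈ X.C (X.CF 0) G g, bd z ∈ X.ZZ 0 J I →
      z ∈ (X.C (X.CF 0) G (g + 1)).map bd ⊔ X.ZZ 0 J I := by
  intro z hz hb
  by_cases hJ : ∀ j ∈ J, j.2 = 0
  swap
  · exact Submodule.mem_sup_right (mx_triv X (fun l σ hc _ hF => hJ fun j hj =>
      Nat.le_zero.1 (hc.2 j (hF.1 hj)).2.2) hz)
  have hfl : ∀ l σ, X.CF 0 l σ → X.Flag (l.map Prod.fst) σ := fun l σ hc => by
    refine ⟨List.pairwise_map.2 (hc.1.imp_of_mem fun {x y} hx hy hr => ?_), fun ρ hρ => ?_⟩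
    · have a1 := (hc.2 x hx).2.2
      have a2 := (hc.2 y hy).2.2
      exact Set.ssubset_iff_subset_ne.2 ⟨hr.1, fun e => hr.2.2 (Prod.ext e.symm (by omega))⟩
    · obtain ⟨x, hx, rfl⟩ := List.mem_map.1 hρ
      exact ⟨(hc.2 x hx).1, (hc.2 x hx).2.1⟩
  have hcf : ∀ l σ, X.Flag l σ → X.CF 0 (l.map fun ρ => ((ρ, 0) : Vx n)) σ := fun l σ hc => by
    refine ⟨List.pairwise_map.2 (hc.1.imp fun {x y} hr => ?_), fun x hx => ?_⟩
    · have hr' := Set.ssubset_iff_subset_ne.1 hr
      exact ⟨hr'.1, le_rfl, fun e => hr'.2 (Prod.mk.inj e).1.symm⟩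
    · obtain ⟨ρ, hρ, rfl⟩ := List.mem_map.1 hx
      exact ⟨(hc.2 ρ hρ).1, (hc.2 ρ hρ).2, le_rfl⟩
  have h1 : mxMp Prod.fst z ∈ X.C X.Flag G g :=
    mx_map_C X _ (fun l σ hσ hc hl β hβ => by
      rw [mxMp_single]; exact mx_single_C X hσ (hfl l σ hc) (by simpa using hl) hβ) hz
  have h2 : mxFlt (fun l => ∃ σ, X.CF 0 l σ) (bd z) = bd z := by
    have := mx_map_supp (mxFlt (fun l => ∃ σ, X.CF 0 l σ) - LinearMap.id :
      (List (Vx n) →₀ E) →ₗ[ℚ] (List (Vx n) →₀ E)) (S := ⊥) (fun l hl β => by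
        rw [LinearMap.sub_apply, mxFlt_pos (p := fun l => ∃ σ, X.CF 0 l σ) hl]; simp)
      (mx_bd_low X (mx_C_low X hz))
    simpa [sub_eq_zero] using this
  have h3 : bd (mxMp Prod.fst z) ∈ X.Z X.Flag I ⊔ supported _ ℚ {l | ¬ J.map Prod.fst ⊆ l} := by
    rw [mx_bd_mp, ← h2]
    refine mx_map_ZZ X (mxMp Prod.fst ∘ₗ mxFlt fun l => ∃ σ, X.CF 0 l σ) (fun l hl β => ?_)
      (fun l σ hσ hc β hβ => ?_) hb
    · rw [LinearMap.comp_apply]
      by_cases hv : ∃ σ, X.CF 0 l σ
      swap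
      · rw [mxFlt_neg (p := fun l => ∃ σ, X.CF 0 l σ) hv, map_zero]; exact Submodule.zero_mem _
      rw [mxFlt_pos (p := fun l => ∃ σ, X.CF 0 l σ) hv, mxMp_single]
      obtain ⟨σ, hc⟩ := hv
      cases l with
      | nil => exact Submodule.mem_sup_left (mx_nil_Z X β)
      | cons a l =>
        refine Submodule.mem_sup_right
          (mx_single_supp (p := fun l => ¬ J.map Prod.fst ⊆ l) (fun hs => hl ⟨fun j hj => ?_,
            fun c hc' => ⟨a, by simp, ?_⟩⟩) β)
        · obtain ⟨x, hx, e⟩ := List.mem_map.1 (hs (List.mem_map_of_mem hj))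
          have a1 := (hc.2 x hx).2.2
          have a2 := hJ j hj
          rwa [← (Prod.ext e (by omega) : x = j)]
        · have := (hc.2 a (by simp)).2.2
          omega
    · rw [LinearMap.comp_apply, mxFlt_pos (p := fun l => ∃ σ, X.CF 0 l σ) ⟨σ, hc⟩, mxMp_single]
      exact Submodule.mem_sup_left (mx_single_Z X hσ (hfl l σ hc) hβ)
  obtain ⟨_, ⟨w, hw, rfl⟩, m, hm, e⟩ := Submodule.mem_sup.1 (h _ h1 h3)
  have h4 : mxMp (fun ρ => ((ρ, 0) : Vx n)) (mxMp Prod.fst z) = z := by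
    have := mx_map_C X (mxMp (fun ρ => ((ρ, 0) : Vx n)) ∘ₗ mxMp Prod.fst - LinearMap.id :
      (List (Vx n) →₀ E) →ₗ[ℚ] (List (Vx n) →₀ E)) (S := ⊥) (fun l σ _ hc _ β _ => by
        have : (l.map Prod.fst).map (fun ρ => ((ρ, 0) : Vx n)) = l := by
          rw [List.map_map]
          conv_rhs => rw [← List.map_id l]
          exact List.map_congr_left fun x hx =>
            Prod.ext rfl (Nat.le_zero.1 (hc.2 x hx).2.2).symm
        rw [LinearMap.sub_apply, LinearMap.comp_apply, mxMp_single, mxMp_single, this]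
        simp) hz
    simpa [sub_eq_zero] using this
  rw [← h4, ← e, map_add, ← mx_bd_mp]
  refine Submodule.add_mem_sup ⟨_, mx_map_C X _ (fun l σ hσ hc hl β hβ => ?_) hw, rfl⟩ ?_
  · rw [mxMp_single]; exact mx_single_C X hσ (hcf l σ hc) (by simpa using hl) hβ
  · obtain ⟨a, ha, b, hb, rfl⟩ := Submodule.mem_sup.1 hm
    rw [map_add]
    refine Submodule.add_mem _ (Submodule.mem_sup_left (mx_map_Z X _ (fun β => ?_)
      (fun l σ hσ hc β hβ => ?_) ha)) (mx_map_supp _ (fun l hl β => ?_) hb)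
    · rw [mxMp_single]; exact mx_nil_Z X β
    · rw [mxMp_single]; exact mx_single_Z X hσ (hcf l σ hc) hβ
    · rw [mxMp_single]
      refine mx_nf X (fun hF => hl fun ρ hρ => ?_) β
      obtain ⟨j, hj, rfl⟩ := List.mem_map.1 hρ
      obtain ⟨ρ, hρ, e⟩ := List.mem_map.1 (hF.1 hj)
      rw [← e]; exact hρ

theorem mx_all (G I : Set (Pt n) → Submodule ℚ E) (M : ℕ) : ∀ (J : List (Vx n)) (g : ℕ),
    (∀ q, q + M = g → ∀ z ∈ X.C X.Flag G q,
      bd z ∈ X.Z X.Flag I ⊔ supported _ ℚ {l | ¬ J.map Prod.fst ⊆ l} →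
      z ∈ (X.C X.Flag G (q + 1)).map bd ⊔
        (X.Z X.Flag I ⊔ supported _ ℚ {l | ¬ J.map Prod.fst ⊆ l})) →
    ∀ z ∈ X.C (X.CF M) G g, bd z ∈ X.ZZ M J I →
      z ∈ (X.C (X.CF M) G (g + 1)).map bd ⊔ X.ZZ M J I := by
  induction M with
  | zero => exact fun J g h => mx_base X (h g rfl)
  | succ M ih =>
    intro J g h
    cases g with
    | zero =>
      refine fun z hz _ => Submodule.mem_sup_right (mx_triv X (fun l σ _ hl hF => ?_) hz)
      obtain ⟨a, rfl⟩ := List.length_eq_one_iff.1 hl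
      obtain ⟨x, hx, e⟩ := hF.2 0 (by omega)
      obtain ⟨y, hy, e'⟩ := hF.2 1 (by omega)
      rw [List.mem_singleton] at hx hy
      rw [hx] at e; rw [hy] at e'
      omega
    | succ g =>
      refine mx_step X (ih _ g ?_)
      have e : (J.map (mxUp M)).map Prod.fst = J.map Prod.fst := by
        rw [List.map_map]; rfl
      rw [e]
      exact fun q hq => h q (by omega)

theorem TropCx.exact_colour (X : TropCx n) (G I : Set (Pt n) → Submodule ℚ E) (M : ℕ)
    {J : List (Vx n)} (hJ : J ≠ []) (g : ℕ)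
    (h : ∀ q, q + M = g → ∀ z ∈ X.C X.Flag G q,
      bd z ∈ X.Z X.Flag I ⊔ Finsupp.supported _ ℚ {l | ¬ J.map Prod.fst ⊆ l} →
      z ∈ (X.C X.Flag G (q + 1)).map bd ⊔
        (X.Z X.Flag I ⊔ Finsupp.supported _ ℚ {l | ¬ J.map Prod.fst ⊆ l})) :
    ∀ z ∈ X.C (X.CF M) G g, bd z ∈ X.ZZ M J I →
      z ∈ (X.C (X.CF M) G (g + 1)).map bd ⊔ X.ZZ M J I :=
  have _ := hJ
  mx_all X G I M J g h

end H5T
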