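import Pool.Agent.Lib.MP_e9c0f3_ag.H5T.Brid
import Pool.Agent.Lib.MP_e9c0f3_ag.H5T.Geo
import Pool.Agent.Lib.MP_e9c0f3_ag.H5T.Flags
import Pool.Agent.Lib.MP_e9c0f3_ag.H5T.FlagLoc
import Pool.Agent.Lib.MP_e9c0f3_ag.H5T.Mix

/-! Assembly. -/

open ExteriorAlgebra
open scoped Classical

noncomputable section

namespace H5T

open TropCx

variable {n : ℕ} {X : TropCx n}

/-- A cycle of the mixed subdivision with coefficients in the total space can be straightened. -/
theorem Col.straight (c : Col X) (hV : X.LocVan) {g : ℕ} {z : List (Vx n) →₀ Mt n}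
    (hz : z ∈ X.C (X.CF c.M) (c.Ft (g + 1)) g) (hc : bd z ∈ X.ZZ c.M [] X.It) :
    ∃ w ∈ X.C (X.CF c.M) (c.Ft (g + 1)) g,
      (∀ l, w l ∈ Submodule.span ℚ {(l.map fun x => ι ℚ (c.e x)).prod}) ∧
      z - w ∈ (X.C (X.CF c.M) (c.Ft (g + 1)) (g + 1)).map bd ⊔ X.ZZ c.M [] X.It := by
  have hC : ∀ d g, X.C (X.CF c.M) (c.Ft d) g =
      Cn (fun d => X.cf (X.CF c.M) (c.Ft d)) d (g + 1) := fun d g => C_eq _ _ _
  have hZ : ∀ J, X.ZZ c.M J X.It = Nn (Full c.M []) (X.cf (X.CF c.M) X.It) J :=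
    fun J => by rw [ZZ_eq, Nn]; congr!
  rw [hC, hC, hZ] at *
  refine straighten c.e (X.cells ×ˢ Finset.range (c.M + 1)) (fun l => ∃ σ ∈ X.cells, X.CF c.M l σ)
    (Full c.M []) _ _ ?_ ?_ ?_ ?_ ?_ ?_ ?_ ?_ ?_ ?_ ?_ ?_ hz hc
  · rintro l ⟨σ, -, hl⟩
    refine ⟨hl.1.imp fun h => h.2.2, fun x hx => Finset.mem_product.2 ⟨(hl.2 x hx).1, ?_⟩⟩
    exact Finset.mem_range.2 (Nat.lt_succ_of_le (hl.2 x hx).2.2)
  · exact fun l hl => ⟨fun d => cf_eq_bot hl, cf_eq_bot hl⟩
  · intro l l' hs h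
    refine ⟨List.nil_subset _, fun a ha => ?_⟩
    obtain ⟨x, hx, e⟩ := h.2 a ha
    exact ⟨x, hs.subset hx, e⟩
  · intro h
    simpa using h.2 0 (Nat.zero_le _)
  · exact fun d l l' hs => cf_le fun σ hσ hl => le_cf hσ (hl.sublist hs)
  · exact fun l l' hs => cf_le fun σ hσ hl => le_cf hσ (hl.sublist hs)
  · rintro l ⟨σ, hσ, hl⟩
    refine le_antisymm (cf_le fun τ hτ _ => (c.Ft_zero hτ).le) ?_
    exact (c.Ft_zero hσ).ge.trans (le_cf (G := c.Ft 0) hσ hl)
  · intro d l x hx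
    refine cf_map _ fun σ hσ hl β hβ => le_cf (G := c.Ft (d + 1)) hσ hl ?_
    exact c.mul_e_mem_Ft hσ (hl.2 x hx).1 (hl.2 x hx).2.1 (hl.2 x hx).2.2 hβ
  · intro d l φ
    exact cf_map _ fun σ hσ hl β hβ => le_cf (G := c.Ft d) hσ hl (c.ctr_mem_Ft φ hβ)
  · intro l v
    exact cf_map _ fun σ hσ hl β hβ => le_cf (G := X.It) hσ hl (mul_mem_It v hβ)
  · rintro J l ⟨σ, hσ, hl⟩ hJ i hi
    obtain ⟨φ, h1, h2, h3⟩ := c.exists_dual_loc hσ hl hJ hi
    refine ⟨φ, h1, h2, fun l' hl' => cf_map _ fun τ hτ hc β hβ => le_cf (G := X.It) hτ hc ?_⟩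
    exact ctr_mem_It (h3 τ hτ fun x hx => (hc.2 x (hl' hx)).2.1) hβ
  · intro J hJ d g hg z hz hc
    cases g with
    | zero =>
      refine Submodule.mem_sup_right (mem_Ch.2 fun l => ?_)
      have := mem_Ch.1 hz l
      split_ifs with h
      · rw [if_neg, Submodule.mem_bot] at this
        · rw [this]; exact Submodule.zero_mem _
        · intro e
          obtain ⟨x, hx, -⟩ := h.1.2 0 (Nat.zero_le _)
          rw [List.length_eq_zero_iff.1 e] at hx
          simp at hx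
      · trivial
    | succ g =>
      rw [← hC, ← hZ] at *
      refine X.exact_colour _ _ c.M hJ g (fun q hq => ?_) z hz hc
      exact c.locVan hV (by simpa using hJ) (by omega)

/-- A class that lifts to the total space is the class of a straight cycle. -/
theorem Col.of_lift (c : Col X) (hV : X.LocVan) {k : ℕ} {u : List (Set (Pt n)) →₀ Mv n}
    (hu : u ∈ X.Cyc k k) {v : List (Set (Pt n)) →₀ Mt n}
    (hv : v ∈ X.C X.Flag (c.Ft (k + (c.M + 1))) k) (hbv : bd v ∈ X.Z X.Flag X.It)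
    (hKv : co (KK (c.M + 1)) v - u ∈ X.Z X.Flag X.I) :
    ∃ w ∈ X.C Inside (X.F k) k ⊓ Straight k, bd w ∈ X.Z Inside X.I ∧
      u.mapDomain (List.map X.pt) - w ∈ X.B Inside k k := by
  obtain ⟨ka, hka⟩ := exists_aw X c.M
  obtain ⟨kp, hkp⟩ := exists_phi c
  have haZ : ∀ {E : Type} [AddCommGroup E] [Module ℚ E] (G : Set (Pt n) → Submodule ℚ E),
      ∀ z ∈ X.Z X.Flag G, ker ka z ∈ X.ZZ c.M [] G := fun G z hz =>
    Submodule.mem_sup_left (ker_mem_Z hka.nil (fun l σ _ hl l' hl' => (hka.supp l σ hl l' hl').1) hz)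
  have hp0 : kp [] = 0 := hkp.nonfull _ fun h => by simpa using h.2 0 (Nat.zero_le _)
  have hpZ : ∀ z ∈ X.ZZ c.M [] X.I, ker kp z ∈ X.Z Inside X.I := by
    intro z hz
    obtain ⟨a, ha, b, hb, rfl⟩ := Submodule.mem_sup.1 hz
    rw [map_add]
    refine Submodule.add_mem _
      (ker_mem_Z hp0 (fun l σ hσ hl l' hl' => (hkp.supp l σ hσ hl l' hl').1) ha) ?_
    refine map_mem_of_supported (ker kp) (fun l hl β => ?_) hb
    rw [ker_single, hkp.nonfull l hl, map_zero]
    exact Submodule.zero_mem _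
  have hpC : ∀ q, ∀ z ∈ X.C (X.CF c.M) (X.F k) (q + c.M), ker kp z ∈ X.C Inside (X.F k) q := by
    intro q z hz
    refine ker_mem_C (fun l σ hσ hl e l' hl' => ?_) hz
    have := hkp.supp l σ hσ hl l' hl'
    exact ⟨this.1, by omega⟩
  -- the subdivided cycle and its straightening
  have hz : ker ka v ∈ X.C (X.CF c.M) (c.Ft (k + c.M + 1)) (k + c.M) := by
    refine ker_mem_C (fun l σ _ hl e l' hl' => ?_) hv
    have := hka.supp l σ hl l' hl'
    exact ⟨this.1, by omega⟩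
  have hzc : bd (ker ka v) ∈ X.ZZ c.M [] X.It := by
    have := ker_chain (k := ka) (S := {l' | ¬ Full c.M [] l'})
      (fun l hl => by obtain ⟨⟨σ, -, h⟩, -⟩ := hl; exact hka.chain l σ h) (C_supported hv)
    rw [← sub_add_cancel (bd (ker ka v)) (ker ka (bd v))]
    exact Submodule.add_mem _ (Submodule.mem_sup_right this) (haZ _ _ hbv)
  obtain ⟨w, hw, hws, hzw⟩ := c.straight hV hz hzc
  have hK : ∀ σ ∈ X.cells, ∀ β ∈ c.Ft (k + c.M + 1) σ, KK (c.M + 1) β ∈ X.F k σ :=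
    fun σ _ β hβ => c.KK_mem_F (c.M + 1) k hβ
  obtain ⟨_, ⟨y, hy, rfl⟩, r, hr, e⟩ := Submodule.mem_sup.1 hzw
  have hy' : co (KK (c.M + 1)) y ∈ X.C (X.CF c.M) (X.F k) (k + 1 + c.M) := by
    rw [Nat.add_right_comm]
    exact co_mem_C _ hK hy
  have h1 : ker kp (ker ka u) - ker kp (co (KK (c.M + 1)) w) ∈ X.B Inside k k := by
    have e1 : ker ka u - co (KK (c.M + 1)) w = bd (co (KK (c.M + 1)) y) +
        (co (KK (c.M + 1)) r - ker ka (co (KK (c.M + 1)) v - u)) := by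
      rw [bd_co, ← add_sub_assoc, ← map_add, e, map_sub, co_ker, map_sub]
      abel
    have e2 := ker_chain (S := ∅) (k := kp) (fun l hl => ?_) (C_supported hy')
    · rw [Finsupp.supported_empty, Submodule.mem_bot, sub_eq_zero] at e2
      rw [← map_sub, e1, map_add, ← e2]
      refine Submodule.add_mem_sup ⟨_, hpC _ _ hy', rfl⟩ (hpZ _ (Submodule.sub_mem _ ?_ ?_))
      · exact co_mem_ZZ _ (fun σ _ β hβ => KK_mem_I _ hβ) hr
      · exact haZ _ _ hKv
    · obtain ⟨⟨σ, -, hσ⟩, e⟩ := hl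
      rw [hkp.chain l σ hσ (by omega), sub_self]
      exact Submodule.zero_mem _
  -- the homotopy to the barycentric subdivision
  obtain ⟨ψ, hψ0, hψ⟩ : ∃ ψ : List (Set (Pt n)) → (List (Pt n) →₀ ℚ), ψ [] = 0 ∧
      ∀ l, l ≠ [] → ψ l = ker kp (ka l) - Finsupp.single (l.map X.pt) 1 :=
    ⟨fun l => if l = [] then 0 else ker kp (ka l) - Finsupp.single (l.map X.pt) 1, if_pos rfl,
      fun l hl => if_neg hl⟩
  have hψ' : ∀ {E : Type} [AddCommGroup E] [Module ℚ E] (z : List (Set (Pt n)) →₀ E),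
      z ∈ Finsupp.supported E ℚ {l | l ≠ []} →
      ker ψ z = ker kp (ker ka z) - z.mapDomain (List.map X.pt) := by
    intro E _ _ z hz
    rw [ker_ker, ← ker_map, ← ker_sub]
    exact ker_congr hψ hz
  have hnf : ∀ z ∈ Finsupp.supported ℚ ℚ {l' : List (Vx n) | ¬ Full c.M [] l'}, ker kp z = 0 := by
    intro z hz
    refine (Submodule.mem_bot ℚ).1 (map_mem_of_supported_one (ker kp) (fun l hl => ?_) hz)
    rw [ker_single_one, hkp.nonfull l hl]
    exact Submodule.zero_mem _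
  obtain ⟨h, hh0, hhs, hhc⟩ := exists_homotopy X ψ hψ0 (by
    intro l σ hσ hl
    by_cases e : l = []
    · simp [e, hψ0]
    suffices H : ψ l ∈ Finsupp.supported ℚ ℚ {l' | Inside l' σ ∧ l'.length = l.length} from
      fun l' hl' => H hl'
    rw [hψ l e]
    refine Submodule.sub_mem _ ?_ (Finsupp.single_mem_supported _ _ ⟨pt_inside hl, by simp⟩)
    refine map_mem_of_supported_one (s := {l' | X.CF c.M l' σ ∧ l'.length = l.length + c.M})
      (ker kp) (fun l' hl' => ?_) fun l' hl' => hka.supp l σ hl l' hl'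
    rw [ker_single_one]
    intro l'' hl''
    have := hkp.supp l' σ hσ hl'.1 l'' hl''
    exact ⟨this.1, by have := hl'.2; omega⟩) (by
    intro l σ hl
    rcases l with _ | ⟨τ, _ | ⟨ρ, l⟩⟩
    · simp [hψ0]
    · have hτ := (hl.2 τ (by simp)).1
      obtain ⟨y, hy⟩ := hkp.vertex τ hτ
      have := hnf _ (hka.vertex τ hτ)
      rw [map_sub, ker_single_one, sub_eq_zero] at this
      rw [hψ _ (by simp), this, hy]
      simp [bd_single_cons, hψ0]
    · have e1 : bd (Finsupp.single (τ :: ρ :: l) (1 : ℚ)) ∈ Finsupp.supported ℚ ℚ {l | l ≠ []} := by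
        refine Finsupp.supported_mono ?_ (bd_support _ _)
        rintro l' hl' rfl
        simpa using hl'.2
      have e2 := ker_chain (S := ∅) (k := kp) (z := ka (τ :: ρ :: l))
        (s := {l' | X.CF c.M l' σ ∧ l'.length = (τ :: ρ :: l).length + c.M}) (fun l' hl' => ?_)
        fun l' hl' => hka.supp _ σ hl l' hl'
      · rw [Finsupp.supported_empty, Submodule.mem_bot, sub_eq_zero] at e2
        have e3 := hnf _ (hka.chain _ σ hl)
        rw [map_sub, sub_eq_zero] at e3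
        rw [hψ _ (by simp), hψ' _ e1, map_sub, e2, e3, ← bd_mapDomain, Finsupp.mapDomain_single]
      · rw [hkp.chain l' σ hl'.1 (by have := hl'.2; simp at this; omega), sub_self]
        exact Submodule.zero_mem _)
  have h2 : ker kp (ker ka u) - u.mapDomain (List.map X.pt) ∈ X.B Inside k k := by
    have hu1 := C_supported hu.1
    rw [← hψ' u (Finsupp.supported_mono (by rintro l hl rfl; simpa using hl.2) hu1)]
    have e1 := map_mem_of_supported (S := ⊥)
      (ker ψ - bd ∘ₗ ker h - ker h ∘ₗ bd : (List (Set (Pt n)) →₀ Mv n) →ₗ[ℚ] (List (Pt n) →₀ Mv n))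
      (fun l hl β => ?_) hu1
    · simp only [LinearMap.sub_apply, LinearMap.comp_apply, Submodule.mem_bot] at e1
      have e2 : ker ψ u = bd (ker h u) + ker h (bd u) := by
        rw [← sub_eq_zero, ← e1]; abel
      rw [e2]
      refine Submodule.add_mem_sup ⟨_, ker_mem_C (fun l σ hσ hl e l' hl' => ?_) hu.1, rfl⟩
        (ker_mem_Z hh0 (fun l σ hσ hl l' hl' => (hhs l σ hσ hl l' hl').1) hu.2)
      have := hhs l σ hσ hl l' hl'
      exact ⟨this.1, by omega⟩
    · obtain ⟨⟨σ, -, hσ⟩, -⟩ := hl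
      simp only [LinearMap.sub_apply, LinearMap.comp_apply, Submodule.mem_bot]
      rw [ker_single, ker_single, hhc l σ hσ, map_add, bd_co, co_ker, ← bd_co, ← bd_co,
        co_span_single]
      abel
  have h3 : u.mapDomain (List.map X.pt) - ker kp (co (KK (c.M + 1)) w) ∈ X.B Inside k k := by
    have := Submodule.sub_mem _ h1 h2
    rwa [sub_sub_sub_cancel_left] at this
  have hin : ∀ (l l' : List (Pt n)) (σ : Set (Pt n)), l'.Sublist l → Inside l σ → Inside l' σ :=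
    fun l l' σ hs h x hx => h x (hs.subset hx)
  refine ⟨_, ⟨hpC k _ (co_mem_C _ hK hw), ?_⟩, ?_, h3⟩
  · refine ker_mem_Ch (G := fun l => if (∃ σ ∈ X.cells, X.CF c.M l σ) ∧ l.length = k + c.M + 1
      then wedge (c.Tl l) k else ⊥) kp (fun l l' hl' => ?_) (mem_Ch.2 fun l => ?_)
    · split_ifs with e
      · obtain ⟨⟨σ, hσ, hl⟩, -⟩ := e
        exact pow_le_pow_left' (Submodule.map_mono (hkp.supp l σ hσ hl l' hl').2.2) k
      · exact bot_le
    · split_ifs with e
      · obtain ⟨⟨σ, -, hl⟩, e⟩ := e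
        obtain ⟨a, ha⟩ := Submodule.mem_span_singleton.1 (hws l)
        rw [co_apply, ← ha, map_smul]
        exact Submodule.smul_mem _ _ (c.KK_prod (fun x hx => (hl.2 x hx).2.2) e)
      · rw [co_apply, (Finsupp.mem_supported' _ _).1 (C_supported hw) l e, map_zero]
        exact Submodule.zero_mem _
  · obtain ⟨_, ⟨y', -, rfl⟩, r', hr', e'⟩ := Submodule.mem_sup.1 h3
    have e1 : bd (ker kp (co (KK (c.M + 1)) w)) =
        (bd u).mapDomain (List.map X.pt) - bd r' := by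
      rw [← bd_mapDomain, ← map_sub, ← sub_eq_zero, ← map_sub, ← neg_eq_zero, ← map_neg,
        ← bd_bd y']
      congr 1
      rw [eq_sub_of_add_eq e']
      abel
    rw [e1, ← ker_map]
    refine Submodule.sub_mem _ ?_ (bd_mem_Z hin hr')
    have hu2 : bd u ∈ X.Z X.Flag X.I := hu.2
    rw [Z_eq] at hu2 ⊢
    refine ker_mem_Ch _ (fun l l' hl' => ?_) hu2
    obtain rfl : l' = l.map X.pt := by
      simpa using Finsupp.support_single_subset hl'
    by_cases e : l = []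
    · simp [e]
    · rw [if_neg e, if_neg (by simpa using e)]
      exact cf_le fun σ hσ hc => le_cf hσ (pt_inside hc)

theorem tropical_hodge {d k : ℕ} (X : TropCx n) (m : Set (Pt n) → Module.Dual ℚ (Fin n → ℚ))
    (hV : X.LocVan) (hL : X.HardLef d m) (u : List (Set (Pt n)) →₀ Mv n) (hu : u ∈ X.Cyc k k)
    (hw : X.wave u ∈ (X.C X.Flag (re (X.F (k + 1))) k).map bd ⊔ X.Z X.Flag (re X.I)) :
    ∃ c ∈ X.C Inside (X.F k) k ⊓ Straight k, bd c ∈ X.Z Inside X.I ∧
      u.mapDomain (List.map X.pt) - c ∈ X.B Inside k k := by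
  obtain ⟨c⟩ := exists_col X
  obtain ⟨v, hv, hbv, hKv⟩ := c.lift hL hu hw
  exact c.of_lift hV hu hv hbv hKv

end H5T
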