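import Pool.Agent.Lib.MP_e9c0f3_ag.H5T.Flags

/-! Lifting a Hodge class when the obstruction groups vanish. -/

namespace H5T

variable {n : ℕ} {X : TropCx n}

/-- The groups `H_(p, k - 1)` vanish for `p ≥ k + 2`. -/
def TropCx.Van (X : TropCx n) (k : ℕ) : Prop :=
  ∀ p q, k + 2 ≤ p → q + 1 = k → X.Cyc p q ≤ X.B X.Flag p q

theorem Col.van_exact (c : Col X) {k : ℕ} (h : X.Van k) : ∀ a ≤ c.M + 1, ∀ s d : ℤ,
    (k : ℤ) + 2 ≤ d - s → ∀ x ∈ c.AA [] a s d k, bd x ∈ X.ZA [] →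
      x ∈ (c.AA [] a s d (k + 1)).map bd ⊔ X.ZA []
  | 0, _ => by
    intro s d hd x hx hb
    by_cases hs : s < 0
    · exact Submodule.mem_sup_right (FG.AA_neg c (Or.inl hs) hx)
    rcases Nat.eq_zero_or_pos k with rfl | hk
    · exact Submodule.mem_sup_right (FG.AA_short c (by simp) hx)
    obtain ⟨q, rfl⟩ : ∃ q, k = q + 1 := ⟨k - 1, by omega⟩
    obtain ⟨p, rfl⟩ : ∃ p : ℕ, d = p := ⟨d.toNat, by omega⟩
    have e : ∀ g, c.AA [] 0 s p g = c.AA [] 0 0 p g := fun g => by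
      have : c.Af 0 s p = c.Af 0 0 p := by
        funext σ
        simp only [Col.Af, hs, lt_self_iff_false]
      simp only [Col.AA, Col.CA, this]
    rw [e] at hx ⊢
    push_cast at hx ⊢
    obtain ⟨u, hu, z, hz, rfl⟩ := FG.exists_C c hx
    exact Submodule.add_mem _ (FG.jj_B c (h p q (by omega) rfl (FG.mem_Cyc hu hz hb)))
      (Submodule.mem_sup_right hz)
  | a + 1, ha => fun s d hd =>
    (c.step [] (by omega)).exact (c.van_exact h a (by omega) s d hd)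
      (c.van_exact h a (by omega) (s - 1) (d - 1) (by omega))

/-- A Hodge class lifts to a cycle of the total space. -/
theorem Col.lift_van (c : Col X) {k : ℕ} (h : X.Van k ∨ c.M = 0)
    {u : List (Set (Pt n)) →₀ Mv n} (hu : u ∈ X.Cyc k k)
    (hw : X.wave u ∈ (X.C X.Flag (re (X.F (k + 1))) k).map bd ⊔ X.Z X.Flag (re X.I)) :
    ∃ v ∈ X.C X.Flag (c.Ft (k + (c.M + 1))) k, bd v ∈ X.Z X.Flag X.It ∧
      co (KK (c.M + 1)) v - u ∈ X.Z X.Flag X.I := by
  obtain ⟨x, hx, h2⟩ := c.fl34_iter hu hw (c.M + 1) le_rfl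
  have hS := c.step [] (le_refl c.M)
  have hmono : ∀ s d g, c.AA [] (c.M + 1) (s - 1) d g ≤ c.AA [] (c.M + 1) s d g :=
    fun s d g => c.fs_mono [] g (c.Af_mono (c.M + 1) s d)
  obtain ⟨x', hx', hD⟩ : ∃ x' ∈ c.AA [] (c.M + 1) ((c.M + 1 : ℕ) - 1) (k + (c.M + 1 : ℕ)) (k + 1),
      bd (x - x') ∈ X.ZA [] := by
    obtain ⟨_, ⟨a, ha, rfl⟩, y, hy, e⟩ := Submodule.mem_sup.1 hx.2.1
    have hy0 : bd y ∈ X.ZA [] := by
      rw [eq_sub_of_add_eq' e, map_sub, bd_bd, bd_bd, sub_self]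
      exact Submodule.zero_mem _
    rw [add_sub_cancel_right] at hy
    have hy1 : y ∈ (c.AA [] (c.M + 1) ((c.M + 1 : ℕ) - 2) (k + (c.M + 1 : ℕ)) (k + 1)).map bd ⊔
        X.ZA [] := by
      rcases h with h | h
      · exact c.van_exact h _ le_rfl _ _ (by omega) y hy hy0
      · refine Submodule.mem_sup_right ?_
        obtain ⟨v, hv, z, hz, rfl⟩ := Submodule.mem_sup.1 hy
        have : v = 0 := by
          ext1 l
          have := fl34_sup (H := fun _ => ⊥) LinearMap.id (fun σ h => h)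
            (fun σ β hβ => by rwa [c.Af_neg _ (Or.inl (by omega))] at hβ) (mem_Ch.1 hv l)
          simpa using this
        rwa [this, zero_add]
    obtain ⟨_, ⟨b, hb, rfl⟩, z, hz, e'⟩ := Submodule.mem_sup.1 hy1
    refine ⟨a + b, Submodule.add_mem _ ha (hmono _ _ _ (by rwa [sub_sub, one_add_one_eq_two])), ?_⟩
    rw [map_sub, map_add, ← e, ← e']
    convert hz using 1
    abel
  obtain ⟨v, hv, z, hz, e⟩ := Submodule.mem_sup.1 (Submodule.sub_mem _ hx.1 (hmono _ _ _ hx'))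
  obtain ⟨v', hv', z', hz', e'⟩ := Submodule.mem_sup.1 hx'
  have ev : v = x - x' - z := by rw [← e, add_sub_cancel_right]
  refine ⟨v, mem_Ch.2 fun l => ?_, ?_, ?_⟩
  · refine fl34_sup LinearMap.id (fun σ h => ⟨h.1, by exact_mod_cast h.2⟩) (fun σ β hβ => ?_)
      (mem_Ch.1 hv l)
    rw [Col.Ft]
    push_cast at hβ ⊢
    exact hβ
  · rw [ev, map_sub, ← fl34_ZA]
    exact Submodule.sub_mem _ hD (hS.DZ z hz)
  · have h0 : co (KK (c.M + 1)) v' = 0 := by
      ext1 l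
      have := fl34_sup (H := fun _ => ⊥) (KK (c.M + 1)) (fun σ h => h)
        (fun σ β hβ => c.KK_Af_low (by omega) hβ) (mem_Ch.1 hv' l)
      simpa using this
    have : co (KK (c.M + 1)) v - u = co (KK (c.M + 1)) x - u - co (KK (c.M + 1)) z' -
        co (KK (c.M + 1)) z := by
      rw [ev, ← e', map_sub, map_sub, map_add, h0]
      abel
    rw [this]
    exact Submodule.sub_mem _ (Submodule.sub_mem _ h2 (fl34_KKZ _ hz')) (fl34_KKZ _ hz)

end H5T
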