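import Pool.Agent.Lib.MP_e9c0f3_ag.H5T.Brid
import Pool.Agent.Lib.MP_e9c0f3_ag.H5T.Geo

/-! Flags and affine simplices: a chain of flags that bounds as a chain of affine simplices bounds
as a chain of flags. -/

open scoped Classical

noncomputable section

namespace H5T

variable {n : ℕ} {X : TropCx n}

theorem cmp_pt {σ ρ : Set (Pt n)} (hσ : σ ∈ X.cells) (hρ : ρ ∈ X.cells) (h : X.pt σ ∈ ρ) :
    σ ⊆ ρ := by
  by_contra hc
  obtain ⟨S, hS⟩ := X.poly σ hσ
  obtain ⟨_, -, h1, h2⟩ := G33.cutter S hS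
    ⟨Set.inter_subset_left, fun e => hc fun x hx => (e hx).2⟩ (X.inter_face σ hσ ρ hρ)
    ⟨intrinsicInterior_subset (X.pt_mem σ hσ), h⟩ (X.pt_mem σ hσ)
  exact h2 h1

theorem cmp_hull (X : TropCx n) : ∃ c : List (Pt n) → Set (Pt n), ∀ l, l ≠ [] →
    ∀ σ ∈ X.cells, Inside l σ → c l ∈ X.cells ∧ Inside l (c l) ∧ c l ⊆ σ := by
  have key : ∀ l : List (Pt n), ∃ τ, l ≠ [] → ∀ σ ∈ X.cells, Inside l σ →
      τ ∈ X.cells ∧ Inside l τ ∧ τ ⊆ σ := by
    intro l
    by_cases h : (X.cells.filter (Inside l)).Nonempty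
    swap
    · exact ⟨∅, fun _ σ hσ hl => absurd ⟨σ, Finset.mem_filter.2 ⟨hσ, hl⟩⟩ h⟩
    obtain ⟨τ, hτ⟩ := Finset.exists_minimal h
    obtain ⟨h1, h2⟩ := Finset.mem_filter.1 hτ.1
    refine ⟨τ, fun hl σ hσ hσl => ⟨h1, h2, fun x hx => ?_⟩⟩
    obtain ⟨y, hy⟩ := List.exists_mem_of_ne_nil l hl
    exact (hτ.2 (y := τ ∩ σ) (Finset.mem_filter.2 ⟨X.face_mem τ h1 _ (X.inter_face τ h1 σ hσ)
      ⟨y, h2 y hy, hσl y hy⟩, fun z hz => ⟨h2 z hz, hσl z hz⟩⟩) Set.inter_subset_left hx).2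
  choose c hc using key
  exact ⟨c, hc⟩

/-- The cone with apex `σ` on flags. -/
def kc (σ : Set (Pt n)) (l : List (Set (Pt n))) : List (Set (Pt n)) →₀ ℚ :=
  if σ ∈ l then 0 else Finsupp.single (σ :: l) 1

theorem kc_out {σ : Set (Pt n)} {z : List (Set (Pt n)) →₀ ℚ}
    (hz : z ∈ Finsupp.supported ℚ ℚ {l | σ ∉ l}) : ker (kc σ) z = cons σ z := by
  have := map_mem_of_supported_one (ker (kc σ) - cons σ) (S := ⊥)
    (fun l hl => by simp [kc, show σ ∉ l from hl]) hz
  simpa [sub_eq_zero] using this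

theorem kc_cons (σ : Set (Pt n)) (z : List (Set (Pt n)) →₀ ℚ) : ker (kc σ) (cons σ z) = 0 := by
  induction z using Finsupp.induction_linear with
  | zero => simp
  | add a b ha hb => simp only [map_add, ha, hb, add_zero]
  | single l β => simp [ker_single, kc]

theorem kc_id {σ : Set (Pt n)} {l : List (Set (Pt n))} (h : X.Flag l σ) :
    bd (kc σ l) + ker (kc σ) (bd (Finsupp.single l 1)) = Finsupp.single l 1 := by
  by_cases e : σ ∈ l
  · obtain ⟨τ, l, rfl⟩ := List.exists_cons_of_ne_nil (List.ne_nil_of_mem e)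
    have h1 := (List.pairwise_cons.1 h.1).1
    have h2 : σ ∉ l := fun hl => (h1 σ hl).2 (h.2 τ (by simp)).2
    obtain rfl : σ = τ := (List.mem_cons.1 e).resolve_right h2
    rw [kc, if_pos e, map_zero, zero_add, bd_single_cons, map_sub, kc_cons, ker_single_one, kc,
      if_neg h2, sub_zero]
  · rw [kc, if_neg e, bd_single_cons, kc_out, sub_add_cancel]
    exact Finsupp.supported_mono (fun l' hl' (hs : σ ∈ l') => e (hl'.1.subset hs))
      (bd_support l (1 : ℚ))

/-- The map from affine simplices to flags. -/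
def ps (c : List (Pt n) → Set (Pt n)) : ℕ → List (Pt n) → (List (Set (Pt n)) →₀ ℚ)
  | 0, _ => Finsupp.single [] 1
  | g + 1, l => ker (kc (c l)) (ker (ps c g) (bd (Finsupp.single l 1)))

theorem cmp_exists (X : TropCx n) : ∃ k : List (Pt n) → (List (Set (Pt n)) →₀ ℚ),
    k [] = Finsupp.single [] 1 ∧
    (∀ l, ∀ σ ∈ X.cells, Inside l σ → (∀ l' ∈ (k l).support, X.Flag l' σ ∧ l'.length = l.length) ∧
      bd (k l) = ker k (bd (Finsupp.single l 1))) ∧
    ∀ l σ, X.Flag l σ → k (l.map X.pt) = Finsupp.single l 1 := by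
  obtain ⟨c, hc⟩ := cmp_hull X
  obtain ⟨k, hk⟩ : ∃ k : List (Pt n) → (List (Set (Pt n)) →₀ ℚ), ∀ l, k l = ps c l.length l :=
    ⟨_, fun _ => rfl⟩
  have h0 : k [] = Finsupp.single [] 1 := by rw [hk]; rfl
  have h1 : ∀ l, l ≠ [] → k l = ker (kc (c l)) (ker k (bd (Finsupp.single l 1))) := by
    intro l hl
    obtain ⟨x, l, rfl⟩ := List.exists_cons_of_ne_nil hl
    rw [hk, List.length_cons, ps]
    congr 1
    refine ker_congr (fun l' hl' => ?_) (bd_support (x :: l) 1)
    have : l'.length = l.length := by simpa using hl'.2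
    rw [hk, this]
  refine ⟨k, h0, ?_, ?_⟩
  · suffices H : ∀ g, ∀ l : List (Pt n), l.length = g → ∀ σ ∈ X.cells, Inside l σ →
        k l ∈ Finsupp.supported ℚ ℚ {l' | X.Flag l' σ ∧ l'.length = g} ∧
          bd (k l) = ker k (bd (Finsupp.single l 1)) from
      fun l σ hσ hl => ⟨fun l' hl' => (H _ l rfl σ hσ hl).1 hl', (H _ l rfl σ hσ hl).2⟩
    intro g
    induction g with
    | zero =>
      intro l hl σ _ _
      rw [List.length_eq_zero_iff.1 hl, h0]
      exact ⟨Finsupp.single_mem_supported _ _ ⟨⟨List.Pairwise.nil, by simp⟩, rfl⟩, by simp⟩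
    | succ g ih =>
      intro l hl σ hσ hi
      have hne : l ≠ [] := by rintro rfl; simp at hl
      obtain ⟨c1, c2, c3⟩ := hc l hne σ hσ hi
      have ih' := fun l' (e : l'.Sublist l ∧ l'.length + 1 = l.length) =>
        ih l' (by omega) _ c1 fun x hx => c2 x (e.1.subset hx)
      have a1 : ker k (bd (Finsupp.single l (1 : ℚ))) ∈
          Finsupp.supported ℚ ℚ {l' | X.Flag l' (c l) ∧ l'.length = g} :=
        map_mem_of_supported_one (ker k) (fun l' e => by
          rw [ker_single_one]; exact (ih' l' e).1) (bd_support l 1)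
      have a2 := map_mem_of_supported_one
        (bd ∘ₗ ker k - ker k ∘ₗ bd : (List (Pt n) →₀ ℚ) →ₗ[ℚ] (List (Set (Pt n)) →₀ ℚ)) (S := ⊥)
        (fun l' e => by simp [(ih' l' e).2]) (bd_support l 1)
      have a3 := map_mem_of_supported_one
        (bd ∘ₗ ker (kc (c l)) + ker (kc (c l)) ∘ₗ bd - LinearMap.id :
          (List (Set (Pt n)) →₀ ℚ) →ₗ[ℚ] (List (Set (Pt n)) →₀ ℚ)) (S := ⊥)
        (fun l' e => by simp [kc_id e.1]) a1
      simp only [LinearMap.sub_apply, LinearMap.comp_apply, bd_bd, map_zero, sub_zero,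
        Submodule.mem_bot] at a2
      simp only [LinearMap.sub_apply, LinearMap.add_apply, LinearMap.comp_apply, a2, map_zero,
        add_zero, LinearMap.id_apply, Submodule.mem_bot, sub_eq_zero] at a3
      rw [h1 l hne]
      refine ⟨map_mem_of_supported_one (ker (kc (c l))) (fun l' e => ?_) a1, a3⟩
      rw [ker_single_one, kc]
      split_ifs with h
      · exact Submodule.zero_mem _
      · refine Finsupp.single_mem_supported _ _ ⟨⟨List.pairwise_cons.2 ⟨fun ρ hρ => ?_, e.1.1⟩,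
          fun ρ hρ => ?_⟩, by simp [e.2]⟩
        · exact (e.1.2 ρ hρ).2.ssubset_of_ne fun e' => h (e' ▸ hρ)
        · rcases List.mem_cons.1 hρ with rfl | hρ
          · exact ⟨c1, c3⟩
          · exact ⟨(e.1.2 ρ hρ).1, (e.1.2 ρ hρ).2.trans c3⟩
  · suffices H : ∀ g, ∀ l : List (Set (Pt n)), l.length = g → ∀ σ, X.Flag l σ →
        k (l.map X.pt) = Finsupp.single l 1 from fun l => H _ l rfl
    intro g
    induction g with
    | zero => intro l hl σ _; rw [List.length_eq_zero_iff.1 hl, List.map_nil, h0]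
    | succ g ih =>
      intro l hl σ hf
      obtain ⟨τ, l, rfl⟩ := List.exists_cons_of_length_eq_add_one hl
      have hτ := (hf.2 τ (by simp)).1
      have hf' : X.Flag (τ :: l) τ := ⟨hf.1, fun ρ hρ => ⟨(hf.2 ρ hρ).1, by
        rcases List.mem_cons.1 hρ with rfl | hρ
        · exact le_rfl
        · exact ((List.pairwise_cons.1 hf.1).1 ρ hρ).1⟩⟩
      obtain ⟨c1, c2, c3⟩ := hc _ (by simp) τ hτ (TropCx.pt_inside hf')
      have a1 := map_mem_of_supported_one
        (ker k ∘ₗ Finsupp.lmapDomain ℚ ℚ (List.map X.pt) - LinearMap.id :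
          (List (Set (Pt n)) →₀ ℚ) →ₗ[ℚ] (List (Set (Pt n)) →₀ ℚ)) (S := ⊥)
        (fun l' e => by simp [ih l' (by have := e.2; omega) σ (hf.sublist e.1)])
        (bd_support (τ :: l) 1)
      simp only [LinearMap.sub_apply, LinearMap.comp_apply, Finsupp.lmapDomain_apply,
        LinearMap.id_apply, Submodule.mem_bot, sub_eq_zero] at a1
      have a2 := kc_id hf'
      rw [kc, if_pos (by simp), map_zero, zero_add] at a2
      rw [h1 _ (by simp), c3.antisymm (cmp_pt hτ c1 (c2 _ (by simp))), ← a2, ← a1,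
        ← bd_mapDomain, Finsupp.mapDomain_single]

/-- The comparison map is injective in homology. -/
theorem TropCx.comparison (X : TropCx n) {p q : ℕ} {u : List (Set (Pt n)) →₀ Mv n}
    (hu : u ∈ X.C X.Flag (X.F p) q) (h : u.mapDomain (List.map X.pt) ∈ X.B Inside p q) :
    u ∈ X.B X.Flag p q := by
  obtain ⟨k, h0, h1, h2⟩ := cmp_exists X
  obtain ⟨_, ⟨y, hy, rfl⟩, r, hr, e⟩ := Submodule.mem_sup.1 h
  have e1 : ker k (u.mapDomain (List.map X.pt)) = u := by
    have := map_mem_of_supported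
      (ker k ∘ₗ Finsupp.lmapDomain (Mv n) ℚ (List.map X.pt) - LinearMap.id) (S := ⊥)
      (fun l hl β => by
        obtain ⟨⟨σ, -, hσ⟩, -⟩ := hl
        simp [ker_single, h2 l σ hσ]) (TropCx.C_supported hu)
    simpa [sub_eq_zero] using this
  have e2 := ker_chain (S := ∅) (k := k) (fun l hl => by
    obtain ⟨⟨σ, hσ, hl⟩, -⟩ := hl
    rw [(h1 l σ hσ hl).2, sub_self]
    exact Submodule.zero_mem _) (TropCx.C_supported hy)
  rw [Finsupp.supported_empty, Submodule.mem_bot, sub_eq_zero] at e2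
  rw [← e1, ← e, map_add, ← e2]
  refine Submodule.add_mem_sup (Submodule.mem_map_of_mem (TropCx.ker_mem_C
    (fun l σ hσ hl e l' hl' => ⟨((h1 l σ hσ hl).1 l' hl').1,
      ((h1 l σ hσ hl).1 l' hl').2.trans e⟩) hy)) ?_
  rw [TropCx.Z_eq] at hr ⊢
  refine ker_mem_Ch k (fun l l' hl' => ?_) hr
  by_cases e' : l = []
  · subst e'
    rw [h0] at hl'
    obtain rfl : l' = [] := by simpa using Finsupp.support_single_subset hl'
    simp
  · rw [if_neg e']
    split_ifs
    · exact le_top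
    · exact TropCx.cf_le fun σ hσ hc => TropCx.le_cf hσ ((h1 l σ hσ hc).1 l' hl').1

end H5T
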