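import Pool.Agent.Lib.MP_e9c0f3_ag.H5T.Col

/-! The subdivision chain map from flags to the mixed subdivision. -/

namespace H5T

variable {n : ℕ}

/-- A subdivision kernel. -/
structure IsAW (X : TropCx n) (M : ℕ) (k : List (Set (Pt n)) → (List (Vx n) →₀ ℚ)) : Prop where
  nil : k [] = 0
  supp : ∀ l σ, X.Flag l σ → ∀ l' ∈ (k l).support, X.CF M l' σ ∧ l'.length = l.length + M
  chain : ∀ l σ, X.Flag l σ → bd (k l) - ker k (bd (Finsupp.single l 1)) ∈
    Finsupp.supported ℚ ℚ {l' | ¬ Full M [] l'}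
  vertex : ∀ σ ∈ X.cells, k [σ] - Finsupp.single (vert M σ) 1 ∈
    Finsupp.supported ℚ ℚ {l' | ¬ Full M [] l'}

section Shuffle

variable {V W : Type}

/-- One more colour in front of a shuffle product. -/
noncomputable def awStep (a : ℕ) (f : List V → (List (V × ℕ) →₀ ℚ)) :
    List V → (List (V × ℕ) →₀ ℚ)
  | [] => 0
  | x :: l => cons (x, a) (awStep a f l + (-1 : ℚ) ^ l.length • f (x :: l))

/-- The shuffle product of a simplex with a list of colours. -/
noncomputable def awSh : List ℕ → List V → (List (V × ℕ) →₀ ℚ)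
  | [] => fun l => if l.length = 1 then Finsupp.single [] 1 else 0
  | a :: m => awStep a (awSh m)

/-- Chains on lists that miss a colour of `m`. -/
def awN (V : Type) (m : List ℕ) : Submodule ℚ (List (V × ℕ) →₀ ℚ) :=
  Finsupp.supported ℚ ℚ {l | ¬ ∀ b ∈ m, ∃ p ∈ l, p.2 = b}

theorem aw_nil (m : List ℕ) : awSh m ([] : List V) = 0 := by
  cases m <;> simp [awSh, awStep]

theorem aw_cons (a : ℕ) (m : List ℕ) (x : V) (l : List V) : awSh (a :: m) (x :: l) =
    cons (x, a) (awSh (a :: m) l + (-1 : ℚ) ^ l.length • awSh m (x :: l)) := rfl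

theorem aw_map_supp {M : Type} [AddCommGroup M] [Module ℚ M] (f : (List W →₀ ℚ) →ₗ[ℚ] M)
    {P : Set (List W)} {S : Submodule ℚ M} (h : ∀ l ∈ P, f (Finsupp.single l 1) ∈ S)
    {z : List W →₀ ℚ} (hz : z ∈ Finsupp.supported ℚ ℚ P) : f z ∈ S := by
  rw [Finsupp.supported_eq_span_single] at hz
  refine (Submodule.span_le (p := S.comap f)).2 ?_ hz
  rintro _ ⟨l, hl, rfl⟩
  exact h l hl

theorem aw_cons_supp (x : W) {P Q : Set (List W)} (h : ∀ l ∈ P, x :: l ∈ Q)
    {z : List W →₀ ℚ} (hz : z ∈ Finsupp.supported ℚ ℚ P) :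
    cons x z ∈ Finsupp.supported ℚ ℚ Q :=
  aw_map_supp (cons x) (fun l hl => by
    rw [cons_single]; exact Finsupp.single_mem_supported ℚ _ (h l hl)) hz

theorem aw_supp (R : V → V → Prop) (m : List ℕ) (hm : m.Pairwise (· < ·)) (l : List V)
    (hl : l.Pairwise R) : awSh m l ∈ Finsupp.supported ℚ ℚ {l' |
      l'.Pairwise (fun p q => (R p.1 q.1 ∧ p.2 ≤ q.2) ∨ ((p.1 = q.1 ∨ R p.1 q.1) ∧ p.2 < q.2)) ∧
      (∀ p ∈ l', p.1 ∈ l ∧ p.2 ∈ m) ∧ l'.length + 1 = l.length + m.length} := by
  induction m generalizing l with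
  | nil =>
    by_cases h : l.length = 1
    · simp only [awSh, if_pos h]
      exact Finsupp.single_mem_supported ℚ _ (by simp [h])
    · simp [awSh, h]
  | cons a m ihm =>
    obtain ⟨ha, hm'⟩ := List.pairwise_cons.1 hm
    induction l with
    | nil => simp [aw_nil]
    | cons x l ihl =>
      obtain ⟨hx, hl'⟩ := List.pairwise_cons.1 hl
      rw [aw_cons, map_add, map_smul]
      refine Submodule.add_mem _ (aw_cons_supp _ ?_ (ihl hl'))
        (Submodule.smul_mem _ _ (aw_cons_supp _ ?_ (ihm hm' _ hl)))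
      · rintro l' ⟨h1, h2, h3⟩
        refine ⟨List.pairwise_cons.2 ⟨fun q hq => Or.inl ⟨hx _ (h2 q hq).1, ?_⟩, h1⟩, ?_, ?_⟩
        · rcases List.mem_cons.1 (h2 q hq).2 with e | e
          · exact e.ge
          · exact (ha _ e).le
        · intro p hp
          rcases List.mem_cons.1 hp with rfl | hp
          · simp
          · exact ⟨List.mem_cons_of_mem _ (h2 p hp).1, (h2 p hp).2⟩
        · simp only [List.length_cons] at h3 ⊢
          omega
      · rintro l' ⟨h1, h2, h3⟩
        refine ⟨List.pairwise_cons.2 ⟨fun q hq => Or.inr ⟨?_, ha _ (h2 q hq).2⟩, h1⟩, ?_, ?_⟩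
        · rcases List.mem_cons.1 (h2 q hq).1 with e | e
          · exact Or.inl e.symm
          · exact Or.inr (hx _ e)
        · intro p hp
          rcases List.mem_cons.1 hp with rfl | hp
          · simp
          · exact ⟨(h2 p hp).1, List.mem_cons_of_mem _ (h2 p hp).2⟩
        · simp only [List.length_cons] at h3 ⊢
          omega

theorem aw_vertex (m : List ℕ) (x : V) :
    awSh m [x] = Finsupp.single (m.map fun a => (x, a)) 1 := by
  induction m with
  | nil => simp [awSh]
  | cons a m ih => simp [aw_cons, aw_nil, ih]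

theorem aw_bd_len (l : List V) :
    bd (Finsupp.single l (1 : ℚ)) ∈ Finsupp.supported ℚ ℚ {l' | l'.length + 1 = l.length} := by
  rw [bd_single]
  refine Submodule.sum_mem _ fun i hi =>
    Submodule.smul_mem _ _ (Finsupp.single_mem_supported ℚ _ ?_)
  have hi' := Finset.mem_range.1 hi
  show (l.eraseIdx i).length + 1 = l.length
  rw [List.length_eraseIdx_of_lt hi']
  omega

theorem aw_ker_nil (l : List V) : ker (awSh []) (bd (Finsupp.single l (1 : ℚ))) = 0 := by
  by_cases h : l.length = 2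
  · obtain ⟨x, y, rfl⟩ := List.length_eq_two.1 h
    simp [bd_single_cons, awSh]
  · refine (Submodule.mem_bot ℚ).1 (aw_map_supp _ (fun l' hl' => ?_) (aw_bd_len l))
    have h1 : l'.length + 1 = l.length := hl'
    have h2 : l'.length ≠ 1 := by omega
    simp [awSh, h2]

theorem aw_ker_cons (a : ℕ) (m : List ℕ) (x : V) (l : List V) :
    ker (awSh (a :: m)) (cons x (bd (Finsupp.single l (1 : ℚ)))) =
      cons (x, a) (ker (awSh (a :: m)) (bd (Finsupp.single l 1)) -
        (-1 : ℚ) ^ l.length • ker (awSh m) (cons x (bd (Finsupp.single l 1)))) := by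
  have h := aw_map_supp (S := ⊥)
    (ker (awSh (a :: m)) ∘ₗ cons x - cons (x, a) ∘ₗ
      (ker (awSh (a :: m)) - (-1 : ℚ) ^ l.length • ker (awSh m) ∘ₗ cons x))
    (fun l' hl' => by
      have h1 : l'.length + 1 = l.length := hl'
      simp [aw_cons, ← h1, pow_succ]) (aw_bd_len l)
  rw [Submodule.mem_bot, LinearMap.sub_apply, sub_eq_zero] at h
  simpa only [LinearMap.comp_apply, LinearMap.sub_apply, LinearMap.smul_apply] using h

theorem aw_N_cons (x : V) {a : ℕ} {m : List ℕ} (ha : a ∉ m) {z : List (V × ℕ) →₀ ℚ}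
    (hz : z ∈ awN V m) : cons (x, a) z ∈ awN V m := by
  unfold awN at hz ⊢
  refine aw_cons_supp _ ?_ hz
  intro l hl h
  refine hl fun b hb => ?_
  obtain ⟨p, hp, e⟩ := h b hb
  rcases List.mem_cons.1 hp with rfl | hp
  · exact absurd ((show a = b from e) ▸ hb) ha
  · exact ⟨p, hp, e⟩

theorem aw_chain (m : List ℕ) (hm : m.Pairwise (· < ·)) (l : List V) :
    bd (awSh m l) - ker (awSh m) (bd (Finsupp.single l 1)) ∈ awN V m := by
  induction m generalizing l with
  | nil =>
    rw [aw_ker_nil]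
    by_cases h : l.length = 1 <;> simp [awSh, h]
  | cons a m ih =>
    obtain ⟨ha, hm'⟩ := List.pairwise_cons.1 hm
    have ha' : a ∉ m := fun h => lt_irrefl _ (ha a h)
    have key : ∀ l : List V, bd (awSh (a :: m) l) - ker (awSh (a :: m)) (bd (Finsupp.single l 1)) +
        (-1 : ℚ) ^ l.length • awSh m l ∈ awN V m := by
      intro l
      induction l with
      | nil => simp [aw_nil]
      | cons x l ihl =>
        have h1 := aw_N_cons x ha' ihl
        have h2 := aw_N_cons x ha' (ih hm' (x :: l))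
        have h3 := (awN V m).neg_mem ((awN V m).add_mem h1
          ((awN V m).smul_mem ((-1 : ℚ) ^ l.length) h2))
        convert h3 using 1
        rw [aw_cons, bd_cons, bd_single_cons, map_sub, aw_ker_cons]
        simp only [map_add, map_sub, map_smul, ker_single_one, List.length_cons, pow_succ]
        module
    have h1 : awSh m l ∈ awN V (a :: m) := by
      refine Finsupp.supported_mono (fun l' hl' h => ?_)
        (aw_supp (fun _ _ => True) m hm' l (List.pairwise_of_forall fun _ _ => trivial))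
      obtain ⟨p, hp, e⟩ := h a List.mem_cons_self
      exact ha' (e ▸ (hl'.2.1 p hp).2)
    have h2 : awN V m ≤ awN V (a :: m) :=
      Finsupp.supported_mono fun l' hl' h => hl' fun b hb => h b (List.mem_cons_of_mem _ hb)
    have h3 := (awN V (a :: m)).sub_mem (h2 (key l))
      ((awN V (a :: m)).smul_mem ((-1 : ℚ) ^ l.length) h1)
    rwa [add_sub_cancel_right] at h3

end Shuffle

theorem exists_aw (X : TropCx n) (M : ℕ) : ∃ k, IsAW X M k := by
  have hm : (List.range (M + 1)).Pairwise (· < ·) := List.pairwise_lt_range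
  refine ⟨awSh (List.range (M + 1)), aw_nil _, fun l σ hl l' hl' => ?_, fun l σ _ => ?_,
    fun σ _ => ?_⟩
  · obtain ⟨h1, h2, h3⟩ := (Finsupp.mem_supported ℚ _).1 (aw_supp (· ⊃ ·) _ hm l hl.1) hl'
    refine ⟨⟨h1.imp ?_, fun p hp => ?_⟩, ?_⟩
    · rintro p q (⟨h, h'⟩ | ⟨h, h'⟩)
      · exact ⟨h.1, h', fun e => h.2 (by rw [e])⟩
      · exact ⟨h.elim (fun e => e.ge) fun e => e.1, h'.le, fun e => h'.ne (by rw [e])⟩
    · have := List.mem_range.1 (h2 p hp).2
      exact ⟨(hl.2 _ (h2 p hp).1).1, (hl.2 _ (h2 p hp).1).2, by omega⟩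
    · rw [List.length_range] at h3
      omega
  · have h0 := aw_chain _ hm l
    unfold awN at h0
    refine Finsupp.supported_mono ?_ h0
    intro l' hl' h
    refine hl' fun b hb => h.2 b ?_
    have := List.mem_range.1 hb
    omega
  · rw [aw_vertex, vert, sub_self]
    exact Submodule.zero_mem _

end H5T
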