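import Pool.Agent.Lib.MP_e9c0f3_ag.H5T.Defs

/-! Generic toolkit for chains on lists. -/

open scoped Classical

noncomputable section

namespace H5T

variable {V W U E E' : Type} [AddCommGroup E] [Module ℚ E] [AddCommGroup E'] [Module ℚ E']

/-- Straight chains: the coefficient of every simplex is parallel to the simplex. -/
def Straight {n : ℕ} (k : ℕ) : Submodule ℚ (List (Pt n) →₀ Mv n) :=
  Ch fun l => wedge (tang {x | x ∈ l}) k

theorem TropCx.sed_anti {n : ℕ} (X : TropCx n) :
    ∀ σ ∈ X.cells, ∀ ρ ∈ X.cells, ρ ⊆ σ → X.sed σ ≤ X.sed ρ :=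
  fun σ hσ ρ hρ h => Submodule.span_mono (X.ray_anti σ hσ ρ hρ h)

theorem TropCx.sed_disj {n : ℕ} (X : TropCx n) : ∀ σ ∈ X.cells, Disjoint (X.sed σ) (tang σ) :=
  X.ray_disj

theorem mem_Ch {G : List V → Submodule ℚ E} {z : List V →₀ E} : z ∈ Ch G ↔ ∀ l, z l ∈ G l := by
  simp [Ch, Submodule.mem_iInf]

theorem single_mem_Ch {G : List V → Submodule ℚ E} {l : List V} {β : E} (h : β ∈ G l) :
    Finsupp.single l β ∈ Ch G := by
  rw [mem_Ch]
  intro l'
  by_cases e : l = l'
  · subst e; simpa using h
  · simp [Finsupp.single_apply, e]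

theorem Ch_mono {G H : List V → Submodule ℚ E} (h : ∀ l, G l ≤ H l) : Ch G ≤ Ch H :=
  fun _ hz => mem_Ch.2 fun l => h l (mem_Ch.1 hz l)

/-- To map `Ch G` into a submodule it is enough to check single simplices. -/
theorem map_mem_of_Ch {M : Type} [AddCommGroup M] [Module ℚ M] {G : List V → Submodule ℚ E}
    (f : (List V →₀ E) →ₗ[ℚ] M) {S : Submodule ℚ M}
    (h : ∀ l, ∀ β ∈ G l, f (Finsupp.single l β) ∈ S) {z : List V →₀ E} (hz : z ∈ Ch G) :
    f z ∈ S := by
  rw [← Finsupp.sum_single z, Finsupp.sum, map_sum]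
  exact S.sum_mem fun l _ => h l _ (mem_Ch.1 hz l)

theorem Ch_le {G : List V → Submodule ℚ E} {S : Submodule ℚ (List V →₀ E)}
    (h : ∀ l, ∀ β ∈ G l, Finsupp.single l β ∈ S) : Ch G ≤ S :=
  fun _ hz => map_mem_of_Ch LinearMap.id h hz

theorem Ch_sup (G H : List V → Submodule ℚ E) : Ch (fun l => G l ⊔ H l) = Ch G ⊔ Ch H := by
  refine le_antisymm (Ch_le fun l β hβ => ?_)
    (sup_le (Ch_mono fun _ => le_sup_left) (Ch_mono fun _ => le_sup_right))
  obtain ⟨a, ha, b, hb, rfl⟩ := Submodule.mem_sup.1 hβ
  rw [Finsupp.single_add]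
  exact Submodule.add_mem_sup (single_mem_Ch ha) (single_mem_Ch hb)

theorem supported_eq_Ch (p : List V → Prop) :
    Finsupp.supported E ℚ {l | p l} = Ch fun l => if p l then ⊤ else ⊥ := by
  ext z
  rw [Finsupp.mem_supported', mem_Ch]
  refine forall_congr' fun l => ?_
  by_cases h : p l <;> simp [h]

/-- The cone with apex `x`. -/
def cons (x : V) : (List V →₀ E) →ₗ[ℚ] (List V →₀ E) := Finsupp.lmapDomain E ℚ (List.cons x)

@[simp] theorem cons_single (x : V) (l : List V) (β : E) :
    cons x (Finsupp.single l β) = Finsupp.single (x :: l) β := by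
  simp [cons]

theorem bd_single (l : List V) (β : E) : bd (Finsupp.single l β) =
    ∑ i ∈ Finset.range l.length, (-1 : ℚ) ^ i • Finsupp.single (l.eraseIdx i) β := by
  simp [bd, LinearMap.sum_apply]

@[simp] theorem bd_single_nil (β : E) : bd (Finsupp.single ([] : List V) β) = 0 := by
  simp [bd_single]

theorem bd_single_cons (x : V) (l : List V) (β : E) : bd (Finsupp.single (x :: l) β) =
    Finsupp.single l β - cons x (bd (Finsupp.single l β)) := by
  rw [bd_single, bd_single, List.length_cons, Finset.sum_range_succ', map_sum, add_comm,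
    sub_eq_add_neg, ← Finset.sum_neg_distrib]
  simp [pow_succ]

theorem bd_cons (x : V) (z : List V →₀ E) : bd (cons x z) = z - cons x (bd z) := by
  induction z using Finsupp.induction_linear with
  | zero => simp
  | add a b ha hb => simp only [map_add, ha, hb]; abel
  | single l β => rw [cons_single, bd_single_cons]

theorem bd_bd (z : List V →₀ E) : bd (bd z) = 0 := by
  induction z using Finsupp.induction_linear with
  | zero => simp
  | add a b ha hb => simp only [map_add, ha, hb, add_zero]
  | single l β =>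
    induction l with
    | nil => simp
    | cons x l ih => rw [bd_single_cons, map_sub, bd_cons, ih]; simp

theorem bd_mem_Ch {G H : List V → Submodule ℚ E}
    (h : ∀ l l', l'.Sublist l → l'.length + 1 = l.length → G l ≤ H l') {z : List V →₀ E}
    (hz : z ∈ Ch G) : bd z ∈ Ch H := by
  refine map_mem_of_Ch bd (fun l β hβ => ?_) hz
  rw [bd_single]
  refine Submodule.sum_mem _ fun i hi => Submodule.smul_mem _ _ (single_mem_Ch ?_)
  have hi' := Finset.mem_range.1 hi
  exact h l _ (List.eraseIdx_sublist l i) (by rw [List.length_eraseIdx_of_lt hi']; omega) hβ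

/-- A linear map applied to all coefficients. -/
def co (f : E →ₗ[ℚ] E') : (List V →₀ E) →ₗ[ℚ] (List V →₀ E') := Finsupp.mapRange.linearMap f

@[simp] theorem co_apply (f : E →ₗ[ℚ] E') (z : List V →₀ E) (l : List V) :
    co f z l = f (z l) := rfl

@[simp] theorem co_single (f : E →ₗ[ℚ] E') (l : List V) (β : E) :
    co f (Finsupp.single l β) = Finsupp.single l (f β) := by
  simp [co]

theorem bd_co (f : E →ₗ[ℚ] E') (z : List V →₀ E) : bd (co f z) = co f (bd z) := by
  induction z using Finsupp.induction_linear with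
  | zero => simp
  | add a b ha hb => simp only [map_add, ha, hb]
  | single l β => simp [bd_single]

theorem co_mem_Ch {G : List V → Submodule ℚ E} {H : List V → Submodule ℚ E'} (f : E →ₗ[ℚ] E')
    (h : ∀ l, ∀ β ∈ G l, f β ∈ H l) {z : List V →₀ E} (hz : z ∈ Ch G) : co f z ∈ Ch H :=
  mem_Ch.2 fun l => h l _ (mem_Ch.1 hz l)

/-- A linear map that depends on the simplex, applied to the coefficients. -/
def coL (f : List V → E →ₗ[ℚ] E') : (List V →₀ E) →ₗ[ℚ] (List V →₀ E') :=
  Finsupp.lsum ℚ fun l => Finsupp.lsingle l ∘ₗ f l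

@[simp] theorem coL_single (f : List V → E →ₗ[ℚ] E') (l : List V) (β : E) :
    coL f (Finsupp.single l β) = Finsupp.single l (f l β) := by
  simp [coL]

@[simp] theorem coL_apply (f : List V → E →ₗ[ℚ] E') (z : List V →₀ E) (l : List V) :
    coL f z l = f l (z l) := by
  induction z using Finsupp.induction_linear with
  | zero => simp
  | add a b ha hb => simp only [map_add, Finsupp.add_apply, ha, hb]
  | single l' β =>
    by_cases e : l' = l
    · subst e; simp
    · simp [Finsupp.single_apply, e]

@[simp] theorem cap_nil (c : V → V → E →ₗ[ℚ] E') (β : E) :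
    cap c (Finsupp.single [] β) = 0 := by simp [cap]

@[simp] theorem cap_one (c : V → V → E →ₗ[ℚ] E') (x : V) (β : E) :
    cap c (Finsupp.single [x] β) = 0 := by simp [cap]

@[simp] theorem cap_two (c : V → V → E →ₗ[ℚ] E') (x y : V) (l : List V) (β : E) :
    cap c (Finsupp.single (x :: y :: l) β) = Finsupp.single (y :: l) (c x y β) := by simp [cap]

/-- The operator on chains with coefficients in `E` given by a rational kernel `k`. -/
def ker (k : List V → (List W →₀ ℚ)) : (List V →₀ E) →ₗ[ℚ] (List W →₀ E) :=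
  Finsupp.lsum ℚ fun l => Finsupp.linearCombination ℚ (fun l' => Finsupp.lsingle l') (k l)

theorem ker_single (k : List V → (List W →₀ ℚ)) (l : List V) (β : E) :
    ker k (Finsupp.single l β) = co (LinearMap.toSpanSingleton ℚ E β) (k l) := by
  simp only [ker, Finsupp.lsum_single]
  induction k l using Finsupp.induction_linear with
  | zero => simp
  | add a b ha hb => simp only [map_add, LinearMap.add_apply, ha, hb]
  | single l' c => simp

@[simp] theorem ker_single_one (k : List V → (List W →₀ ℚ)) (l : List V) :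
    ker k (Finsupp.single l (1 : ℚ)) = k l := by
  rw [ker_single]; ext l'; simp

theorem ker_single_apply (k : List V → (List W →₀ ℚ)) (l : List V) (β : E) (l' : List W) :
    ker k (Finsupp.single l β) l' = k l l' • β := by
  rw [ker_single]; simp

theorem co_ker (f : E →ₗ[ℚ] E') (k : List V → (List W →₀ ℚ)) (z : List V →₀ E) :
    co f (ker k z) = ker k (co f z) := by
  induction z using Finsupp.induction_linear with
  | zero => simp
  | add a b ha hb => simp only [map_add, ha, hb]
  | single l β => ext l'; simp [ker_single_apply]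

theorem ker_mem_Ch {G : List V → Submodule ℚ E} {H : List W → Submodule ℚ E}
    (k : List V → (List W →₀ ℚ)) (h : ∀ l, ∀ l' ∈ (k l).support, G l ≤ H l') {z : List V →₀ E}
    (hz : z ∈ Ch G) : ker k z ∈ Ch H := by
  refine map_mem_of_Ch (ker k) (fun l β hβ => mem_Ch.2 fun l' => ?_) hz
  rw [ker_single_apply]
  by_cases e : l' ∈ (k l).support
  · exact Submodule.smul_mem _ _ (h l l' e hβ)
  · simp [Finsupp.notMem_support_iff.1 e]

theorem co_span_single (l : List V) (β : E) :
    co (LinearMap.toSpanSingleton ℚ E β) (Finsupp.single l (1 : ℚ)) = Finsupp.single l β := by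
  simp

theorem co_supported (f : E →ₗ[ℚ] E') {s : Set (List V)} {z : List V →₀ E}
    (hz : z ∈ Finsupp.supported E ℚ s) : co f z ∈ Finsupp.supported E' ℚ s := by
  rw [Finsupp.mem_supported'] at hz ⊢
  intro l hl
  simp [hz l hl]

end H5T
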