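import Pool.Agent.Lib.MP_e9c0f3_ag.H5T.Col

/-! Geometric realisation of the mixed cells by affine simplices. -/

open scoped Classical

noncomputable section

namespace H5T

variable {n : ℕ} {X : TropCx n}

/-- A triangulation kernel for the mixed cells. -/
structure IsPhi (c : Col X) (k : List (Vx n) → (List (Pt n) →₀ ℚ)) : Prop where
  nonfull : ∀ l, ¬ Full c.M [] l → k l = 0
  supp : ∀ l, ∀ σ ∈ X.cells, X.CF c.M l σ → ∀ l' ∈ (k l).support,
    Inside l' σ ∧ l'.length + c.M = l.length ∧ c.Tl l ≤ tang {x | x ∈ l'}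
  chain : ∀ l σ, X.CF c.M l σ → l.length ≠ c.M + 1 →
    bd (k l) = ker k (bd (Finsupp.single l 1))
  vertex : ∀ σ ∈ X.cells, ∃ y, k (vert c.M σ) = Finsupp.single [y] 1
  point : ∀ l σ, X.CF c.M l σ → l.length = c.M + 1 →
    bd (k l) ∈ Finsupp.supported ℚ ℚ {l' | l' = []}

namespace PhiAux

/-- One if the colours of the list are `a, …, M` in this order, zero otherwise. -/
def eps (M : ℕ) : ℕ → List (Vx n) → ℚ
  | a, [] => if a = M + 1 then 1 else 0
  | a, x :: l => if x.2 = a then eps M (a + 1) l else 0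

/-- The linear extension of `eps`. -/
def Eps (M a : ℕ) : (List (Vx n) →₀ ℚ) →ₗ[ℚ] ℚ := Finsupp.linearCombination ℚ (eps M a)

theorem Eps_single (M a : ℕ) (l : List (Vx n)) (β : ℚ) :
    Eps M a (Finsupp.single l β) = β * eps M a l := by
  simp [Eps]

theorem Eps_cons (M a : ℕ) (x : Vx n) (z : List (Vx n) →₀ ℚ) :
    Eps M a (cons x z) = if x.2 = a then Eps M (a + 1) z else 0 := by
  induction z using Finsupp.induction_linear with
  | zero => simp
  | add u v hu hv => rw [map_add, map_add, hu, hv, map_add]; split_ifs <;> simp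
  | single l β => rw [cons_single, Eps_single, Eps_single, eps]; split_ifs <;> simp

theorem Eps_bd (M : ℕ) (l : List (Vx n)) : ∀ a, l.Pairwise (fun x y => x.2 ≤ y.2) →
    (∀ x ∈ l, a ≤ x.2 ∧ x.2 ≤ M) → Eps M a (bd (Finsupp.single l 1)) = 0 := by
  induction l with
  | nil => intro a _ _; simp
  | cons x l ih =>
    intro a hp hl
    obtain ⟨hp1, hp2⟩ := List.pairwise_cons.1 hp
    have hx := hl x List.mem_cons_self
    rw [bd_single_cons, map_sub, Eps_cons, Eps_single, one_mul, sub_eq_zero]
    cases l with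
    | nil =>
      have : a ≠ M + 1 := by omega
      simp [eps, this]
    | cons y l =>
      have hy := hp1 y List.mem_cons_self
      by_cases hya : y.2 = a
      · have h1 : x.2 = a := by omega
        have h2 : y.2 ≠ a + 1 := by omega
        rw [if_pos h1, bd_single_cons, map_sub, Eps_cons, if_neg h2, Eps_single, eps, if_pos hya]
        ring
      · rw [eps, if_neg hya]
        split_ifs with h1
        · refine (ih (a + 1) hp2 fun w hw => ⟨?_, (hl w (List.mem_cons_of_mem _ hw)).2⟩).symm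
          rcases List.mem_cons.1 hw with rfl | hw'
          · omega
          · have := (List.pairwise_cons.1 hp2).1 w hw'
            omega
        · rfl

theorem eps_ne (M : ℕ) (l : List (Vx n)) : ∀ a, eps M a l ≠ 0 →
    (∀ x ∈ l, a ≤ x.2) ∧ ∀ b, a ≤ b → b ≤ M → ∃ x ∈ l, x.2 = b := by
  induction l with
  | nil =>
    intro a h
    have h1 : a = M + 1 := by
      by_contra h2
      exact h (by simp [eps, h2])
    exact ⟨by simp, fun b h2 h3 => by omega⟩
  | cons x l ih =>
    intro a h
    have h1 : x.2 = a := by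
      by_contra h2
      exact h (by simp [eps, h2])
    rw [eps, if_pos h1] at h
    obtain ⟨h2, h3⟩ := ih _ h
    refine ⟨fun y hy => ?_, fun b h4 h5 => ?_⟩
    · rcases List.mem_cons.1 hy with rfl | hy
      · omega
      · have := h2 y hy; omega
    · by_cases h6 : b = a
      · exact ⟨x, List.mem_cons_self, by omega⟩
      · obtain ⟨y, hy, e⟩ := h3 b (by omega) h5
        exact ⟨y, List.mem_cons_of_mem _ hy, e⟩

theorem eps_vert (M : ℕ) (σ : Set (Pt n)) (m : ℕ) : ∀ a, a + m = M + 1 →
    eps M a ((List.range' a m).map fun b => ((σ, b) : Vx n)) = 1 := by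
  induction m with
  | zero => intro a h; simp [eps, ← h]
  | succ m ih =>
    intro a h
    rw [List.range'_succ, List.map_cons, eps, if_pos rfl]
    exact ih _ (by omega)

theorem set_cons {α : Type} {x : α} {l l0 : List α} (h : l.Perm (x :: l0)) :
    {y | y ∈ l} = insert x {y | y ∈ l0} := by
  ext y
  simp [h.mem_iff]

theorem span_zero (c : Col X) (l : List (Vx n)) : ∀ a, eps c.M a l ≠ 0 →
    ∀ u ∈ Submodule.span ℚ (c.e '' {x | x ∈ l}), u.2 = 0 → u = 0 := by
  induction l with
  | nil => intro a _ u hu _; simpa using hu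
  | cons x l ih =>
    intro a h u hu h0
    have h1 : x.2 = a := by
      by_contra h2
      exact h (by simp [eps, h2])
    rw [eps, if_pos h1] at h
    rw [set_cons (List.Perm.refl _), Set.image_insert_eq, Submodule.mem_span_insert] at hu
    obtain ⟨r, u0, hu0, rfl⟩ := hu
    have h2 : lam a u0 = 0 := by
      have h3 : Submodule.span ℚ (c.e '' {x | x ∈ l}) ≤ LinearMap.ker (lam a) := by
        rw [Submodule.span_le]
        rintro _ ⟨y, hy, rfl⟩
        have h4 := (eps_ne c.M l _ h).1 y hy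
        have h5 : a ≠ y.2 := by omega
        simp [lam, Col.e, h5]
      exact h3 hu0
    have h4 : r = 0 := by
      have h5 := congrFun h0 a
      have h6 : u0.2 a = 0 := h2
      simpa [Col.e, h1, h6] using h5
    subst h4
    rw [zero_smul, zero_add] at h0 ⊢
    exact ih _ h u0 hu0 h0

/-- The sum of the rays of colour `a`. -/
def EE (c : Col X) (a : ℕ) (l : List (Vx n)) : Nt n :=
  (l.map fun x => if x.2 = a then c.e x else 0).sum

theorem EE_cons (c : Col X) (a : ℕ) (x : Vx n) (l : List (Vx n)) :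
    EE c a (x :: l) = (if x.2 = a then c.e x else 0) + EE c a l := by
  simp [EE]

theorem EE_perm (c : Col X) (a : ℕ) {l l' : List (Vx n)} (h : l.Perm l') :
    EE c a l = EE c a l' := (h.map _).sum_eq

theorem EE_mem (c : Col X) (a : ℕ) (l : List (Vx n)) :
    EE c a l ∈ Submodule.span ℚ (c.e '' {x | x ∈ l}) := by
  refine list_sum_mem fun u hu => ?_
  obtain ⟨x, hx, rfl⟩ := List.mem_map.1 hu
  split_ifs
  · exact Submodule.subset_span ⟨x, hx, rfl⟩
  · exact Submodule.zero_mem _

theorem EE_snd (c : Col X) (a : ℕ) (l : List (Vx n)) :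
    (EE c a l).2 = Pi.single a ((EE c a l).2 a) := by
  induction l with
  | nil => simp [EE]
  | cons x l ih =>
    rw [EE_cons]
    split_ifs with h
    · rw [Prod.snd_add, Pi.add_apply, Pi.single_add, ← ih]
      simp [Col.e, h]
    · rw [zero_add]; exact ih

/-- The mean of the points of colour `a`. -/
def avg (c : Col X) (a : ℕ) (l : List (Vx n)) : Fin n → ℚ := ((EE c a l).2 a)⁻¹ • (EE c a l).1

/-- The centre of a mixed cell. -/
def cpt (c : Col X) (l : List (Vx n)) : Pt n :=
  ∑ a ∈ Finset.range (c.M + 1), c.t a • rv (avg c a l)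

theorem avg_mem (c : Col X) {σ : Set (Pt n)} (hσ : σ ∈ X.cells) {a : ℕ} (ha : a ≤ c.M)
    (l : List (Vx n)) : (∀ x ∈ l, x.1 ∈ X.cells ∧ x.1 ⊆ σ) →
    (EE c a l = 0 ∧ ∀ x ∈ l, x.2 ≠ a) ∨ (0 < (EE c a l).2 a ∧ rv (avg c a l) ∈ c.K σ a) := by
  induction l with
  | nil => intro _; exact Or.inl ⟨by simp [EE], by simp⟩
  | cons x l ih =>
    intro hl
    have hx := hl x List.mem_cons_self
    have ih' := ih fun y hy => hl y (List.mem_cons_of_mem _ hy)
    by_cases h : x.2 = a
    · have hb : rv (c.bb x.1 a) ∈ c.K σ a := c.K_mem σ hσ x.1 hx.1 hx.2 a ha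
      have e1 : (EE c a (x :: l)).2 a = 1 + (EE c a l).2 a := by
        rw [EE_cons, if_pos h]; simp [Col.e, h]
      have e2 : (EE c a (x :: l)).1 = c.bb x.1 a + (EE c a l).1 := by
        rw [EE_cons, if_pos h]; simp [Col.e, h]
      right
      rcases ih' with ⟨h1, -⟩ | ⟨h1, h2⟩
      · rw [avg, e1, e2, h1]
        simpa using hb
      · refine ⟨by rw [e1]; linarith, ?_⟩
        set N : ℚ := (EE c a l).2 a with hN
        have e3 : avg c a (x :: l) = (1 + N)⁻¹ • c.bb x.1 a + (N / (1 + N)) • avg c a l := by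
          rw [avg, e1, e2, avg, ← hN, smul_add, smul_smul]
          congr 2
          field_simp
        rw [e3, map_add, map_smul, map_smul, ← Rat.cast_smul_eq_qsmul ℝ,
          ← Rat.cast_smul_eq_qsmul ℝ (N / (1 + N))]
        refine c.K_convex σ hσ a ha hb h2 (by positivity) (by positivity) ?_
        have h3 : (1 + N)⁻¹ + N / (1 + N) = 1 := by field_simp
        exact_mod_cast h3
    · have e1 : EE c a (x :: l) = EE c a l := by rw [EE_cons, if_neg h, zero_add]
      rcases ih' with ⟨h1, h2⟩ | ⟨h1, h2⟩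
      · refine Or.inl ⟨e1.trans h1, fun y hy => ?_⟩
        rcases List.mem_cons.1 hy with rfl | hy
        · exact h
        · exact h2 y hy
      · exact Or.inr ⟨by rw [e1]; exact h1, by rw [avg, e1]; exact h2⟩

theorem avg_full (c : Col X) {σ : Set (Pt n)} (hσ : σ ∈ X.cells) {l : List (Vx n)}
    (hl : X.CF c.M l σ) (hf : Full c.M [] l) {a : ℕ} (ha : a ≤ c.M) :
    0 < (EE c a l).2 a ∧ rv (avg c a l) ∈ c.K σ a := by
  rcases avg_mem c hσ ha l fun x hx => ⟨(hl.2 x hx).1, (hl.2 x hx).2.1⟩ with ⟨-, h⟩ | h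
  · obtain ⟨x, hx, e⟩ := hf.2 a ha
    exact absurd e (h x hx)
  · exact h

theorem tang_le {ρ σ : Set (Pt n)} (h : ρ ⊆ σ) : tang ρ ≤ tang σ :=
  fun _ hv => vectorSpan_mono ℝ h hv

/-- The directions of a cell come from a facet and the segment between the two centres. -/
theorem Tl_step (c : Col X) {x : Vx n} {l l0 : List (Vx n)} (hp : l.Perm (x :: l0))
    (hx : x.2 ≤ c.M) (hN : 0 < (EE c x.2 l0).2 x.2) {S : Set (Pt n)} (h0 : c.Tl l0 ≤ tang S)
    (h1 : cpt c l ∈ S) (h2 : cpt c l0 ∈ S) : c.Tl l ≤ tang S := by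
  set N : ℚ := (EE c x.2 l0).2 x.2 with hNd
  have e1 : (EE c x.2 l).2 x.2 = 1 + N := by
    rw [EE_perm c _ hp, EE_cons, if_pos rfl]; simp [Col.e, hNd]
  have e2 : (EE c x.2 l).1 = c.bb x.1 x.2 + (EE c x.2 l0).1 := by
    rw [EE_perm c _ hp, EE_cons, if_pos rfl]; simp [Col.e]
  have e3 : cpt c l - cpt c l0 = c.t x.2 • rv (avg c x.2 l - avg c x.2 l0) := by
    rw [cpt, cpt, ← Finset.sum_sub_distrib, Finset.sum_eq_single x.2]
    · rw [map_sub, smul_sub]
    · intro b _ hb
      rw [avg, avg, EE_perm c _ hp, EE_cons, if_neg hb.symm, zero_add, sub_self]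
    · intro h
      exact absurd (Finset.mem_range.2 (by omega)) h
  have h3 : avg c x.2 l - avg c x.2 l0 ∈ tang S := by
    have h4 : cpt c l - cpt c l0 ∈ vectorSpan ℝ S := vsub_mem_vectorSpan ℝ h1 h2
    rw [e3] at h4
    have h5 : rv (avg c x.2 l - avg c x.2 l0) ∈ vectorSpan ℝ S :=
      (Submodule.smul_mem_iff (vectorSpan ℝ S) (c.t_pos _ hx).ne').1 h4
    exact h5
  have e4 : c.bb x.1 x.2 - avg c x.2 l0 = (1 + N) • (avg c x.2 l - avg c x.2 l0) := by
    have h5 : (1 + N) ≠ 0 := by positivity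
    have h6 : (1 + N) * N⁻¹ = 1 + N⁻¹ := by field_simp; ring
    rw [avg, avg, e1, e2, ← hNd, smul_sub, smul_smul, smul_smul, mul_inv_cancel₀ h5, h6, one_smul,
      add_smul, one_smul]
    abel
  have h4 : c.bb x.1 x.2 - avg c x.2 l0 ∈ tang S := by
    rw [e4]; exact Submodule.smul_mem _ _ h3
  intro v hv
  have hv' : ((v, 0) : Nt n) ∈ Submodule.span ℚ (c.e '' {y | y ∈ l}) := hv
  rw [set_cons hp, Set.image_insert_eq, Submodule.mem_span_insert] at hv'
  obtain ⟨r, u0, hu0, e5⟩ := hv'
  have h5 : v - r • (c.bb x.1 x.2 - avg c x.2 l0) ∈ c.Tl l0 := by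
    have e6 : ((v - r • (c.bb x.1 x.2 - avg c x.2 l0), 0) : Nt n) =
        u0 + r • N⁻¹ • EE c x.2 l0 := by
      have e7 : N⁻¹ • EE c x.2 l0 = (avg c x.2 l0, Pi.single x.2 1) := by
        refine Prod.ext rfl ?_
        rw [Prod.smul_snd, EE_snd, ← hNd, ← Pi.single_smul, smul_eq_mul, inv_mul_cancel₀ hN.ne']
      have e8 : u0 = (v, 0) - r • c.e x := by rw [e5]; abel
      rw [e7, e8]
      refine Prod.ext ?_ ?_
      · simp only [Col.e, Prod.fst_add, Prod.fst_sub, Prod.smul_fst, smul_sub]; abel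
      · simp [Col.e]
    show ((v - r • (c.bb x.1 x.2 - avg c x.2 l0), 0) : Nt n) ∈
      Submodule.span ℚ (c.e '' {y | y ∈ l0})
    rw [e6]
    exact Submodule.add_mem _ hu0
      (Submodule.smul_mem _ _ (Submodule.smul_mem _ _ (EE_mem c _ l0)))
  have h6 := Submodule.add_mem _ (h0 h5) (Submodule.smul_mem _ r h4)
  rwa [sub_add_cancel] at h6

theorem facet_ext {V W : Type} [AddCommGroup W] [Module ℚ W] (f g : (List V →₀ ℚ) →ₗ[ℚ] W)
    (l : List V) (h : ∀ i < l.length,
      f (Finsupp.single (l.eraseIdx i) 1) = g (Finsupp.single (l.eraseIdx i) 1)) :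
    f (bd (Finsupp.single l 1)) = g (bd (Finsupp.single l 1)) := by
  rw [bd_single, map_sum, map_sum]
  exact Finset.sum_congr rfl fun i hi => by rw [map_smul, map_smul, h i (Finset.mem_range.1 hi)]

/-- The kernel, by recursion on the length. -/
def kk (c : Col X) : ℕ → List (Vx n) → (List (Pt n) →₀ ℚ)
  | 0, _ => 0
  | g + 1, l => if g = c.M then eps c.M 0 l • Finsupp.single [cpt c l] 1 else
      if Full c.M [] l then cons (cpt c l) (ker (kk c g) (bd (Finsupp.single l 1))) else 0

/-- The kernel. -/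
def kf (c : Col X) (l : List (Vx n)) : List (Pt n) →₀ ℚ := kk c l.length l

theorem kf_base (c : Col X) {l : List (Vx n)} (h : l.length = c.M + 1) :
    kf c l = eps c.M 0 l • Finsupp.single [cpt c l] 1 := by
  rw [kf, h, kk, if_pos rfl]

theorem kf_step (c : Col X) {l : List (Vx n)} (h : l.length ≠ c.M + 1) :
    kf c l = if Full c.M [] l then cons (cpt c l) (ker (kf c) (bd (Finsupp.single l 1)))
      else 0 := by
  cases l with
  | nil => simp [kf, kk]
  | cons x l =>
    have h1 : l.length ≠ c.M := fun e => h (by simp [e])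
    rw [kf, List.length_cons, kk, if_neg h1]
    congr 2
    refine facet_ext _ _ _ fun i hi => ?_
    rw [ker_single_one, ker_single_one, kf, List.length_eraseIdx_of_lt hi]
    rfl

theorem kf_nonfull (c : Col X) (l : List (Vx n)) (h : ¬ Full c.M [] l) : kf c l = 0 := by
  by_cases h1 : l.length = c.M + 1
  · have h2 : eps c.M 0 l = 0 := by
      by_contra h3
      exact h ⟨List.nil_subset _, fun a ha => (eps_ne c.M l 0 h3).2 a (Nat.zero_le _) ha⟩
    rw [kf_base c h1, h2, zero_smul]
  · rw [kf_step c h1, if_neg h]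

theorem CF_erase {M : ℕ} {l : List (Vx n)} {σ : Set (Pt n)} (h : X.CF M l σ) (i : ℕ) :
    X.CF M (l.eraseIdx i) σ :=
  ⟨h.1.sublist (List.eraseIdx_sublist l i),
    fun x hx => h.2 x ((List.eraseIdx_sublist l i).subset hx)⟩

theorem kf_bd_base (c : Col X) {l : List (Vx n)} (h : l.length = c.M + 1) :
    bd (kf c l) = eps c.M 0 l • Finsupp.single [] 1 := by
  rw [kf_base c h, map_smul, bd_single_cons, bd_single_nil, map_zero, sub_zero]

theorem kf_chain (c : Col X) (σ : Set (Pt n)) (g : ℕ) : ∀ l : List (Vx n), l.length = g →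
    X.CF c.M l σ → l.length ≠ c.M + 1 → bd (kf c l) = ker (kf c) (bd (Finsupp.single l 1)) := by
  induction g with
  | zero =>
    intro l h _ _
    rw [List.length_eq_zero_iff.1 h]
    simp [kf, kk]
  | succ g ih =>
    intro l h hl h1
    rw [kf_step c h1]
    split_ifs with hf
    · rw [bd_cons, sub_eq_self]
      have h2 : bd (ker (kf c) (bd (Finsupp.single l (1 : ℚ)))) = 0 := by
        by_cases h3 : g = c.M + 1
        · have h4 := facet_ext (bd ∘ₗ ker (kf c))
            ((LinearMap.toSpanSingleton ℚ _ (Finsupp.single ([] : List (Pt n)) (1 : ℚ))) ∘ₗ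
              Eps c.M 0) l fun i hi => by
              rw [LinearMap.comp_apply, LinearMap.comp_apply, ker_single_one, Eps_single, one_mul,
                kf_bd_base c (by rw [List.length_eraseIdx_of_lt hi]; omega)]
              rfl
          rw [LinearMap.comp_apply, LinearMap.comp_apply, Eps_bd c.M l 0
            (hl.1.imp fun h => h.2.1) fun x hx => ⟨Nat.zero_le _, (hl.2 x hx).2.2⟩, map_zero] at h4
          exact h4
        · have h4 := facet_ext (bd ∘ₗ ker (kf c)) (ker (kf c) ∘ₗ bd) l fun i hi => by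
            have h5 : (l.eraseIdx i).length = g := by rw [List.length_eraseIdx_of_lt hi]; omega
            rw [LinearMap.comp_apply, LinearMap.comp_apply, ker_single_one,
              ih _ h5 (CF_erase hl i) (by omega)]
          rw [LinearMap.comp_apply, LinearMap.comp_apply, bd_bd, map_zero] at h4
          exact h4
      rw [h2, map_zero]
    · rw [map_zero]
      refine (facet_ext _ 0 l fun i _ => ?_).symm
      rw [ker_single_one, LinearMap.zero_apply]
      refine kf_nonfull c _ fun h2 => hf ⟨List.nil_subset _, fun a ha => ?_⟩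
      obtain ⟨x, hx, e⟩ := h2.2 a ha
      exact ⟨x, (List.eraseIdx_sublist l i).subset hx, e⟩

theorem kf_supp (c : Col X) {σ : Set (Pt n)} (hσ : σ ∈ X.cells) (g : ℕ) :
    ∀ l : List (Vx n), l.length = g → X.CF c.M l σ → ∀ l' ∈ (kf c l).support,
      Inside l' σ ∧ l'.length + c.M = l.length ∧ c.Tl l ≤ tang {x | x ∈ l'} ∧ cpt c l ∈ l' := by
  induction g with
  | zero =>
    intro l h _ l' hl'
    rw [List.length_eq_zero_iff.1 h] at hl'
    simp [kf, kk] at hl'
  | succ g ih =>
    intro l h hl l' hl'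
    have hf : Full c.M [] l := by
      by_contra h1
      rw [kf_nonfull c l h1] at hl'
      simp at hl'
    have hc : cpt c l ∈ σ := c.K_sum σ hσ _ fun a ha => (avg_full c hσ hl hf ha).2
    by_cases h1 : l.length = c.M + 1
    · rw [kf_base c h1] at hl'
      have h2 : eps c.M 0 l ≠ 0 := fun e => by simp [e] at hl'
      have h3 : l' = [cpt c l] :=
        Finset.mem_singleton.1 (Finsupp.support_single_subset (Finsupp.support_smul hl'))
      subst h3
      refine ⟨fun x hx => by rw [List.mem_singleton.1 hx]; exact hc, by simp [h1, add_comm],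
        fun v hv => ?_, List.mem_singleton_self _⟩
      have h4 : v = 0 := congrArg Prod.fst (span_zero c l 0 h2 (v, 0) hv rfl)
      rw [h4]
      exact Submodule.zero_mem _
    · rw [kf_step c h1, if_pos hf] at hl'
      obtain ⟨l'', h2, rfl⟩ := Finset.mem_image.1 (Finsupp.mapDomain_support hl')
      obtain ⟨i, hi, h3⟩ : ∃ i < l.length, l'' ∈ (kf c (l.eraseIdx i)).support := by
        by_contra h4
        have h5 := facet_ext (Finsupp.lapply l'' ∘ₗ ker (kf c)) 0 l fun i hi => by
          rw [LinearMap.comp_apply, ker_single_one, LinearMap.zero_apply]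
          exact Finsupp.notMem_support_iff.1 fun h6 => h4 ⟨i, hi, h6⟩
        exact Finsupp.mem_support_iff.1 h2 h5
      have h4 : (l.eraseIdx i).length = g := by rw [List.length_eraseIdx_of_lt hi]; omega
      obtain ⟨a1, a2, a3, a4⟩ := ih _ h4 (CF_erase hl i) l'' h3
      have hf' : Full c.M [] (l.eraseIdx i) := by
        by_contra h5
        rw [kf_nonfull c _ h5] at h3
        simp at h3
      have hx := (hl.2 l[i] (List.getElem_mem hi)).2.2
      refine ⟨fun x hx => ?_, by rw [List.length_cons]; omega, ?_, List.mem_cons_self⟩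
      · rcases List.mem_cons.1 hx with rfl | hx
        · exact hc
        · exact a1 x hx
      · exact Tl_step c (List.getElem_cons_eraseIdx_perm hi).symm hx
          (avg_full c hσ (CF_erase hl i) hf' hx).1
          (a3.trans (tang_le fun y hy => List.mem_cons_of_mem _ hy)) List.mem_cons_self
          (List.mem_cons_of_mem _ a4)

end PhiAux

theorem exists_phi (c : Col X) : ∃ k, IsPhi c k := by
  refine ⟨PhiAux.kf c, PhiAux.kf_nonfull c, fun l σ hσ hl l' hl' => ?_,
    fun l σ hl h => PhiAux.kf_chain c σ _ l rfl hl h, fun σ _ => ?_, fun l σ _ h => ?_⟩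
  · obtain ⟨h1, h2, h3, -⟩ := PhiAux.kf_supp c hσ _ l rfl hl l' hl'
    exact ⟨h1, h2, h3⟩
  · refine ⟨PhiAux.cpt c (vert c.M σ), ?_⟩
    have h : PhiAux.eps c.M 0 (vert c.M σ) = 1 := by
      rw [vert, List.range_eq_range']
      exact PhiAux.eps_vert c.M σ _ 0 (zero_add _)
    rw [PhiAux.kf_base c (by simp [vert]), h, one_smul]
  · rw [PhiAux.kf_bd_base c h]
    exact Submodule.smul_mem _ _ (Finsupp.single_mem_supported ℚ _ rfl)

end H5T
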