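import Pool.Agent.Lib.MP_e9c0f3_ag.H5T.Col

/-! Straightening a cycle, one vertex at a time. -/

open ExteriorAlgebra
open scoped Classical

noncomputable section

namespace H5T

variable {V N : Type} [AddCommGroup N] [Module ℚ N]

/-- Chains of length `g` with coefficients of degree `d`. -/
def Cn (G : ℕ → List V → Submodule ℚ (ExteriorAlgebra ℚ N)) (d g : ℕ) :
    Submodule ℚ (List V →₀ ExteriorAlgebra ℚ N) := Ch fun l => if l.length = g then G d l else ⊥

/-- Null chains, localised at `J`. -/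
def Nn (Fu : List V → Prop) (I : List V → Submodule ℚ (ExteriorAlgebra ℚ N)) (J : List V) :
    Submodule ℚ (List V →₀ ExteriorAlgebra ℚ N) := Ch fun l => if Fu l ∧ J ⊆ l then I l else ⊤

theorem str_ctr_mul (φ : Module.Dual ℚ N) (v : N) (β : ExteriorAlgebra ℚ N) :
    ctr φ (mul v β) = φ v • β - mul v (ctr φ β) :=
  CliffordAlgebra.contractLeft_ι_mul φ v β

theorem str_mul_self (v : N) (β : ExteriorAlgebra ℚ N) : mul v (mul v β) = 0 := by
  simp [mul, ← mul_assoc]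

theorem str_mul_swap (v w : N) (β : ExteriorAlgebra ℚ N) :
    mul v (mul w β) = - mul w (mul v β) := by
  have h := ι_add_mul_swap (R := ℚ) v w
  simp only [mul, LinearMap.mulLeft_apply, ← mul_assoc]
  rw [eq_neg_iff_add_eq_zero, ← add_mul, h, zero_mul]

theorem str_map_sup {E : Type} [AddCommGroup E] [Module ℚ E] (f : E →ₗ[ℚ] E)
    {A B A' B' : Submodule ℚ E} (hA : ∀ β ∈ A, f β ∈ A') (hB : ∀ β ∈ B, f β ∈ B') {β : E}
    (h : β ∈ A ⊔ B) : f β ∈ A' ⊔ B' := by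
  obtain ⟨a, ha, b, hb, rfl⟩ := Submodule.mem_sup.1 h
  rw [map_add]
  exact Submodule.add_mem_sup (hA a ha) (hB b hb)

/-- The coefficient space of `Cn`. -/
def strG (G : ℕ → List V → Submodule ℚ (ExteriorAlgebra ℚ N)) (d g : ℕ) (l : List V) :
    Submodule ℚ (ExteriorAlgebra ℚ N) := if l.length = g then G d l else ⊥

/-- Chains that are straight at the vertices in `S`, localised at `J`. -/
def strD (e : V → N) (Fu : List V → Prop)
    (G : ℕ → List V → Submodule ℚ (ExteriorAlgebra ℚ N))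
    (I : List V → Submodule ℚ (ExteriorAlgebra ℚ N)) (S : Finset V) (J : List V) (d g : ℕ) :
    Submodule ℚ (List V →₀ ExteriorAlgebra ℚ N) :=
  Ch fun l => if Fu l ∧ J ⊆ l then
    (strG G d g l ⊔ I l) ⊓ ⨅ x ∈ l, ⨅ _ : x ∈ S, (I l).comap (mul (e x)) else ⊤

/-- The hypotheses of the straightening theorem. -/
structure StrH (e : V → N) (Gd Fu : List V → Prop)
    (G : ℕ → List V → Submodule ℚ (ExteriorAlgebra ℚ N))
    (I : List V → Submodule ℚ (ExteriorAlgebra ℚ N)) : Prop where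
  bad : ∀ l, ¬ Gd l → (∀ d, G d l = ⊥) ∧ I l = ⊥
  fu : ∀ l l', l'.Sublist l → Fu l' → Fu l
  hG : ∀ d l l', l'.Sublist l → G d l ≤ G d l'
  hI : ∀ l l', l'.Sublist l → I l ≤ I l'
  hmul : ∀ d l, ∀ x ∈ l, ∀ β ∈ G d l, mul (e x) β ∈ G (d + 1) l
  hctr : ∀ d l φ, ∀ β ∈ G (d + 1) l, ctr φ β ∈ G d l
  hImul : ∀ l v, ∀ β ∈ I l, mul v β ∈ I l
  dual : ∀ J l, Gd l → J ⊆ l → ∀ i ∈ J, ∃ φ : Module.Dual ℚ N, φ (e i) = 1 ∧
      (∀ j ∈ J, j ≠ i → φ (e j) = 0) ∧ ∀ l', J ⊆ l' → ∀ β ∈ I l', ctr φ β ∈ I l'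
  ex : ∀ J, J ≠ [] → ∀ d g, g < d → ∀ z ∈ Cn G d g, bd z ∈ Nn Fu I J →
      z ∈ (Cn G d (g + 1)).map bd ⊔ Nn Fu I J

section

variable {e : V → N} {Gd Fu : List V → Prop}
  {G : ℕ → List V → Submodule ℚ (ExteriorAlgebra ℚ N)}
  {I : List V → Submodule ℚ (ExteriorAlgebra ℚ N)} {S : Finset V} {J : List V} {d g : ℕ}
  {z : List V →₀ ExteriorAlgebra ℚ N}

theorem str_mem_N : z ∈ Nn Fu I J ↔ ∀ l, Fu l → J ⊆ l → z l ∈ I l := by
  rw [Nn, mem_Ch]
  refine forall_congr' fun l => ?_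
  by_cases h : Fu l ∧ J ⊆ l
  · simp [h]
  · rw [if_neg h]
    exact ⟨fun _ h1 h2 => (h ⟨h1, h2⟩).elim, fun _ => trivial⟩

theorem str_mem_D : z ∈ strD e Fu G I S J d g ↔ ∀ l, Fu l → J ⊆ l →
    z l ∈ strG G d g l ⊔ I l ∧ ∀ x ∈ l, x ∈ S → mul (e x) (z l) ∈ I l := by
  rw [strD, mem_Ch]
  refine forall_congr' fun l => ?_
  by_cases h : Fu l ∧ J ⊆ l
  · simp [h, Submodule.mem_iInf]
  · rw [if_neg h]
    exact ⟨fun _ h1 h2 => (h ⟨h1, h2⟩).elim, fun _ => trivial⟩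

theorem str_mem_C : z ∈ Cn G d g ↔ ∀ l, z l ∈ strG G d g l := mem_Ch

theorem str_D_le : strD e Fu G I S J d g ≤ Cn G d g ⊔ Nn Fu I J := by
  rw [Cn, Nn, ← Ch_sup]
  refine Ch_mono fun l => ?_
  by_cases h : Fu l ∧ J ⊆ l
  · rw [if_pos h, if_pos h]
    exact inf_le_left
  · rw [if_neg h, if_neg h]
    exact le_sup_right

theorem str_C_le : Cn G d g ≤ strD e Fu G I ∅ J d g := fun _ hz =>
  str_mem_D.2 fun l _ _ => ⟨Submodule.mem_sup_left (str_mem_C.1 hz l), by simp⟩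

theorem str_D_anti {S' : Finset V} (h : S' ⊆ S) :
    strD e Fu G I S J d g ≤ strD e Fu G I S' J d g := fun _ hz =>
  str_mem_D.2 fun l h1 h2 => ⟨(str_mem_D.1 hz l h1 h2).1,
    fun x hx hS => (str_mem_D.1 hz l h1 h2).2 x hx (h hS)⟩

namespace StrH

variable (H : StrH e Gd Fu G I)
include H

theorem G_mul {l : List V} {x : V} (hx : x ∈ l) {β : ExteriorAlgebra ℚ N}
    (h : β ∈ strG G d g l ⊔ I l) : mul (e x) β ∈ strG G (d + 1) g l ⊔ I l := by
  refine str_map_sup _ (fun a ha => ?_) (H.hImul l _) h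
  unfold strG at ha ⊢
  split_ifs at ha ⊢
  · exact H.hmul d l x hx a ha
  · rw [(Submodule.mem_bot ℚ).1 ha]; simp

theorem G_ctr {l : List V} {φ : Module.Dual ℚ N} (hφ : ∀ β ∈ I l, ctr φ β ∈ I l)
    {β : ExteriorAlgebra ℚ N}
    (h : β ∈ strG G (d + 1) g l ⊔ I l) : ctr φ β ∈ strG G d g l ⊔ I l := by
  refine str_map_sup _ (fun a ha => ?_) hφ h
  unfold strG at ha ⊢
  split_ifs at ha ⊢
  · exact H.hctr d l φ a ha
  · rw [(Submodule.mem_bot ℚ).1 ha]; simp

theorem G_bad {l : List V} (hl : ¬ Gd l) {β : ExteriorAlgebra ℚ N}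
    (h : β ∈ strG G d g l ⊔ I l) : β = 0 := by
  unfold strG at h
  rw [(H.bad l hl).1 d, (H.bad l hl).2] at h
  simpa using h

theorem bd_N (hz : z ∈ Nn Fu I J) : bd z ∈ Nn Fu I J := by
  refine bd_mem_Ch (fun l l' hs _ => ?_) hz
  by_cases h : Fu l' ∧ J ⊆ l'
  · rw [if_pos h, if_pos ⟨H.fu l l' hs h.1, List.Subset.trans h.2 hs.subset⟩]
    exact H.hI l l' hs
  · rw [if_neg h]
    exact le_top

theorem bd_D (hz : z ∈ strD e Fu G I S J d (g + 1)) : bd z ∈ strD e Fu G I S J d g := by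
  refine bd_mem_Ch (fun l l' hs hl => ?_) hz
  by_cases h : Fu l' ∧ J ⊆ l'
  · rw [if_pos h, if_pos ⟨H.fu l l' hs h.1, List.Subset.trans h.2 hs.subset⟩]
    refine inf_le_inf (sup_le_sup ?_ (H.hI l l' hs)) ?_
    · unfold strG
      by_cases h2 : l.length = g + 1
      · rw [if_pos h2, if_pos (by omega)]
        exact H.hG d l l' hs
      · rw [if_neg h2]
        exact bot_le
    · refine le_iInf₂ fun x hx => le_iInf fun hS => ?_
      refine le_trans (iInf₂_le x (hs.subset hx)) (le_trans (iInf_le _ hS) ?_)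
      exact Submodule.comap_mono (H.hI l l' hs)
  · rw [if_neg h]
    exact le_top

/-- One more vertex. -/
theorem lift {i : V} {y : List V →₀ ExteriorAlgebra ℚ N} (hy : y ∈ strD e Fu G I S J d g)
    (hE : co (mul (e i)) y ∈ strD e Fu G I (insert i S) (i :: J) (d + 1) g →
      ∃ x' ∈ strD e Fu G I (insert i S) (i :: J) (d + 1) (g + 1),
        co (mul (e i)) y - bd x' ∈ Nn Fu I (i :: J)) :
    ∃ x ∈ strD e Fu G I S J d (g + 1), y - bd x ∈ strD e Fu G I (insert i S) J d g := by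
  by_cases hiS : i ∈ S
  · exact ⟨0, Submodule.zero_mem _, by simpa [Finset.insert_eq_of_mem hiS] using hy⟩
  obtain ⟨x', hx', hb⟩ := hE (str_mem_D.2 fun l h1 h2 => by
    have hi : i ∈ l := h2 (by simp)
    obtain ⟨a1, a2⟩ := str_mem_D.1 hy l h1 fun _ h => h2 (List.mem_cons_of_mem _ h)
    refine ⟨H.G_mul hi a1, fun x hx hS => ?_⟩
    rw [co_apply]
    rcases Finset.mem_insert.1 hS with rfl | hS
    · rw [str_mul_self]; exact Submodule.zero_mem _
    · rw [str_mul_swap]; exact Submodule.neg_mem _ (H.hImul l _ _ (a2 x hx hS)))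
  have hφ : ∀ l, ∃ f : ExteriorAlgebra ℚ N →ₗ[ℚ] ExteriorAlgebra ℚ N, Fu l → J ⊆ l →
      (f (x' l) ∈ strG G d (g + 1) l ⊔ I l ∧ ∀ x ∈ l, x ∈ S → mul (e x) (f (x' l)) ∈ I l) ∧
      (i ∈ l → mul (e i) (f (x' l)) - x' l ∈ I l) := by
    intro l
    by_cases hi : i ∈ l
    swap
    · exact ⟨0, fun _ _ => ⟨by simp, fun h => (hi h).elim⟩⟩
    by_cases hl : Gd l
    swap
    · refine ⟨0, fun h1 h2 => ⟨by simp, fun _ => ?_⟩⟩
      rw [H.G_bad hl (str_mem_D.1 hx' l h1 (List.cons_subset.2 ⟨hi, h2⟩)).1]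
      simp
    obtain ⟨φ, p1, p2, p3⟩ := H.dual l l hl (List.Subset.refl _) i hi
    have p4 := p3 l (List.Subset.refl _)
    refine ⟨ctr φ, fun h1 h2 => ?_⟩
    obtain ⟨a1, a2⟩ := str_mem_D.1 hx' l h1 (List.cons_subset.2 ⟨hi, h2⟩)
    refine ⟨⟨H.G_ctr p4 a1, fun x hx hS => ?_⟩, fun _ => ?_⟩
    · have q := p4 _ (a2 x hx (Finset.mem_insert_of_mem hS))
      rw [str_ctr_mul, p2 x hx (fun h => hiS (h ▸ hS)), zero_smul, zero_sub] at q
      exact (Submodule.neg_mem_iff _).1 q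
    · have q := p4 _ (a2 i hi (Finset.mem_insert_self _ _))
      rw [str_ctr_mul, p1, one_smul] at q
      rw [← neg_sub]
      exact Submodule.neg_mem _ q
  choose f hf using hφ
  have hx : coL f x' ∈ strD e Fu G I S J d (g + 1) :=
    str_mem_D.2 fun l h1 h2 => by rw [coL_apply]; exact (hf l h1 h2).1
  have hn : co (mul (e i)) (coL f x') - x' ∈ Nn Fu I (i :: J) :=
    str_mem_N.2 fun l h1 h2 => by
      rw [Finsupp.sub_apply, co_apply, coL_apply]
      exact (hf l h1 (List.cons_subset.1 h2).2).2 (List.cons_subset.1 h2).1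
  have hk : co (mul (e i)) (y - bd (coL f x')) ∈ Nn Fu I (i :: J) := by
    have q := Submodule.sub_mem _ hb (H.bd_N hn)
    rw [map_sub, bd_co] at q
    rw [map_sub]
    convert q using 1
    abel
  refine ⟨coL f x', hx, str_mem_D.2 fun l h1 h2 => ?_⟩
  obtain ⟨a1, a2⟩ := str_mem_D.1 (Submodule.sub_mem _ hy (H.bd_D hx)) l h1 h2
  refine ⟨a1, fun x hx hS => ?_⟩
  rcases Finset.mem_insert.1 hS with rfl | hS
  · exact str_mem_N.1 hk l h1 (List.cons_subset.2 ⟨hx, h2⟩)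
  · exact a2 x hx hS

/-- Local exactness when only the vertices of `J` are straight. -/
theorem base (hJ : J ≠ []) (hg : g < d) (hJS : ∀ x ∈ J, x ∈ S)
    (hz : z ∈ strD e Fu G I S J d g) (hc : bd z ∈ Nn Fu I J) (T : Finset V)
    (hT : ∀ x ∈ T, x ∈ J) :
    ∃ y ∈ strD e Fu G I T J d (g + 1), z - bd y ∈ Nn Fu I J := by
  induction T using Finset.induction_on with
  | empty =>
    obtain ⟨z0, h0, n, hn, rfl⟩ := Submodule.mem_sup.1 (str_D_le hz)
    have h1 : bd z0 ∈ Nn Fu I J := by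
      have q := Submodule.sub_mem _ hc (H.bd_N hn)
      rwa [map_add, add_sub_cancel_right] at q
    obtain ⟨_, ⟨y, hy, rfl⟩, n', hn', rfl⟩ := Submodule.mem_sup.1 (H.ex J hJ d g hg z0 h0 h1)
    refine ⟨y, str_C_le hy, ?_⟩
    convert Submodule.add_mem _ hn hn' using 1
    abel
  | insert i T hi ih =>
    obtain ⟨y, hy, hb⟩ := ih fun x hx => hT x (Finset.mem_insert_of_mem hx)
    have hiJ := hT i (Finset.mem_insert_self _ _)
    by_cases h0 : ∃ l, Gd l ∧ J ⊆ l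
    swap
    · refine ⟨0, Submodule.zero_mem _, str_mem_N.2 fun l h1 h2 => ?_⟩
      rw [map_zero, sub_zero, H.G_bad (fun h => h0 ⟨l, h, h2⟩) (str_mem_D.1 hz l h1 h2).1]
      exact Submodule.zero_mem _
    obtain ⟨l0, g0, j0⟩ := h0
    obtain ⟨φ, p1, p2, p3⟩ := H.dual J l0 g0 j0 i hiJ
    obtain ⟨d, rfl⟩ : ∃ d', d = d' + 1 := ⟨d - 1, by omega⟩
    refine ⟨co (mul (e i) ∘ₗ ctr φ) y, str_mem_D.2 fun l h1 h2 => ?_,
      str_mem_N.2 fun l h1 h2 => ?_⟩
    · obtain ⟨a1, a2⟩ := str_mem_D.1 hy l h1 h2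
      rw [co_apply, LinearMap.comp_apply]
      refine ⟨H.G_mul (h2 hiJ) (H.G_ctr (p3 l h2) a1), fun x hx hS => ?_⟩
      rcases Finset.mem_insert.1 hS with rfl | hS
      · rw [str_mul_self]; exact Submodule.zero_mem _
      · have q := p3 l h2 _ (a2 x hx hS)
        rw [str_ctr_mul, p2 x (hT x (Finset.mem_insert_of_mem hS)) (fun h => hi (h ▸ hS)),
          zero_smul, zero_sub] at q
        rw [str_mul_swap, ← map_neg]
        exact H.hImul l _ _ q
    · have q1 := p3 l h2 _ ((str_mem_D.1 hz l h1 h2).2 i (h2 hiJ) (hJS i hiJ))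
      have q2 := H.hImul l (e i) _ (p3 l h2 _ (str_mem_N.1 hb l h1 h2))
      rw [str_ctr_mul, p1, one_smul] at q1
      rw [Finsupp.sub_apply, map_sub, map_sub] at q2
      rw [bd_co, Finsupp.sub_apply, co_apply, LinearMap.comp_apply]
      convert Submodule.add_mem _ q1 q2 using 1
      abel

/-- Local exactness of the straight chains. -/
theorem loc (n : ℕ) : ∀ (S : Finset V) (J : List V) (d g : ℕ)
    (z : List V →₀ ExteriorAlgebra ℚ N), (S \ J.toFinset).card = n → J ≠ [] → g < d →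
    (∀ x ∈ J, x ∈ S) → z ∈ strD e Fu G I S J d g → bd z ∈ Nn Fu I J →
    ∃ y ∈ strD e Fu G I S J d (g + 1), z - bd y ∈ Nn Fu I J := by
  induction n with
  | zero =>
    intro S J d g z hn hJ hg hJS hz hc
    refine H.base hJ hg hJS hz hc S fun x hx => ?_
    have q := Finset.sdiff_eq_empty_iff_subset.1 (Finset.card_eq_zero.1 hn) hx
    simpa using q
  | succ n ih =>
    intro S J d g z hn hJ hg hJS hz hc
    obtain ⟨i, hi⟩ := Finset.card_pos.1 (show 0 < (S \ J.toFinset).card by omega)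
    obtain ⟨hiS, hiJ⟩ := Finset.mem_sdiff.1 hi
    rw [List.mem_toFinset] at hiJ
    have c0 : ((S \ J.toFinset).erase i).card = n := by
      rw [Finset.card_erase_of_mem hi]; omega
    have c1 : (S.erase i \ J.toFinset).card = n := by
      rw [← c0]; congr 1; ext x; simp [and_assoc]
    have c2 : (S \ (i :: J).toFinset).card = n := by
      rw [← c0]; congr 1; ext x; simp only [Finset.mem_sdiff, List.mem_toFinset, List.mem_cons,
        Finset.mem_erase]; tauto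
    obtain ⟨y, hy, hb⟩ := ih (S.erase i) J d g z c1 hJ hg
      (fun x hx => Finset.mem_erase.2 ⟨fun h => hiJ (h ▸ hx), hJS x hx⟩)
      (str_D_anti (Finset.erase_subset _ _) hz) hc
    obtain ⟨x, -, hx⟩ := H.lift (i := i) hy fun hu => by
      rw [Finset.insert_erase hiS] at hu ⊢
      refine ih S (i :: J) (d + 1) (g + 1) _ c2 (by simp) (by omega) ?_ hu ?_
      · intro x hx
        rcases List.mem_cons.1 hx with rfl | hx
        · exact hiS
        · exact hJS x hx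
      · refine str_mem_N.2 fun l h1 h2 => ?_
        obtain ⟨b1, b2⟩ := List.cons_subset.1 h2
        have q := Submodule.sub_mem _ ((str_mem_D.1 hz l h1 b2).2 i b1 hiS)
          (H.hImul l (e i) _ (str_mem_N.1 hb l h1 b2))
        rw [Finsupp.sub_apply, map_sub, sub_sub_cancel] at q
        rwa [bd_co, co_apply]
    rw [Finset.insert_erase hiS] at hx
    exact ⟨_, hx, by rwa [map_sub, bd_bd, sub_zero]⟩

/-- A cycle is homologous to one that is straight at the vertices in `T`. -/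
theorem glob (hz : z ∈ Cn G d d) (hc : bd z ∈ Nn Fu I []) (T : Finset V) :
    ∃ y ∈ strD e Fu G I T [] d d, z - y ∈ (Cn G d (d + 1)).map bd ⊔ Nn Fu I [] := by
  induction T using Finset.induction_on with
  | empty => exact ⟨z, str_C_le hz, by simp⟩
  | insert i T hi ih =>
    obtain ⟨y, hy, hb⟩ := ih
    have hy' : bd y ∈ Nn Fu I [] := by
      obtain ⟨_, ⟨u, -, rfl⟩, n, hn, q⟩ := Submodule.mem_sup.1 hb
      have q2 := Submodule.sub_mem _ hc (H.bd_N hn)
      have q3 : y = z - n - bd u := by rw [sub_right_comm, sub_sub, q]; abel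
      rw [q3, map_sub, bd_bd, sub_zero, map_sub]
      exact q2
    obtain ⟨x, hx, hx'⟩ := H.lift (i := i) hy fun hu =>
      H.loc _ (insert i T) [i] (d + 1) d _ rfl (by simp) (by omega) (by simp) hu
        (str_mem_N.2 fun l h1 _ => by
          rw [bd_co, co_apply]
          exact H.hImul l _ _ (str_mem_N.1 hy' l h1 (List.nil_subset _)))
    refine ⟨_, hx', ?_⟩
    obtain ⟨x0, h0, n, hn, rfl⟩ := Submodule.mem_sup.1 (str_D_le hx)
    have q : bd (x0 + n) ∈ (Cn G d (d + 1)).map bd ⊔ Nn Fu I [] := by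
      rw [map_add]
      exact Submodule.add_mem_sup (Submodule.mem_map_of_mem h0) (H.bd_N hn)
    convert Submodule.add_mem _ hb q using 1
    abel

theorem top {l : List V} (hl : Gd l) (h0 : G 0 l = Submodule.span ℚ {1}) (m : List V)
    (hm : m.Nodup) (hml : m ⊆ l) {β : ExteriorAlgebra ℚ N} (hβ : β ∈ G m.length l ⊔ I l)
    (hk : ∀ x ∈ m, mul (e x) β ∈ I l) :
    β ∈ (G m.length l ⊓ Submodule.span ℚ {(m.map fun x => ι ℚ (e x)).prod}) ⊔ I l := by
  induction m generalizing β with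
  | nil => simpa [h0] using hβ
  | cons i m ih =>
    obtain ⟨hi, hml⟩ := List.cons_subset.1 hml
    obtain ⟨him, hm⟩ := List.nodup_cons.1 hm
    obtain ⟨φ, p1, p2, p3⟩ := H.dual l l hl (List.Subset.refl _) i hi
    have p4 := p3 l (List.Subset.refl _)
    have q1 := ih hm hml (str_map_sup (ctr φ) (H.hctr _ l φ) p4 hβ) fun x hx => by
      have q := p4 _ (hk x (List.mem_cons_of_mem _ hx))
      rw [str_ctr_mul, p2 x (hml hx) (fun h => him (h ▸ hx)), zero_smul, zero_sub] at q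
      exact (Submodule.neg_mem_iff _).1 q
    have q2 := p4 _ (hk i (by simp))
    rw [str_ctr_mul, p1, one_smul] at q2
    have q3 : mul (e i) (ctr φ β) ∈ (G (i :: m).length l ⊓
        Submodule.span ℚ {((i :: m).map fun x => ι ℚ (e x)).prod}) ⊔ I l := by
      refine str_map_sup _ (fun a ha => Submodule.mem_inf.2
        ⟨H.hmul _ l i hi a (Submodule.mem_inf.1 ha).1, ?_⟩) (H.hImul l _) q1
      obtain ⟨c, rfl⟩ := Submodule.mem_span_singleton.1 (Submodule.mem_inf.1 ha).2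
      rw [map_smul]
      exact Submodule.smul_mem _ _ (Submodule.subset_span (by simp [mul]))
    simpa using Submodule.add_mem _ (Submodule.mem_sup_right q2) q3

end StrH

end

theorem straighten (e : V → N) (U : Finset V) (Gd Fu : List V → Prop)
    (G : ℕ → List V → Submodule ℚ (ExteriorAlgebra ℚ N))
    (I : List V → Submodule ℚ (ExteriorAlgebra ℚ N))
    (hU : ∀ l, Gd l → l.Nodup ∧ ∀ x ∈ l, x ∈ U)
    (hbad : ∀ l, ¬ Gd l → (∀ d, G d l = ⊥) ∧ I l = ⊥)
    (hFu : ∀ l l', l'.Sublist l → Fu l' → Fu l) (hFu0 : ¬ Fu [])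
    (hG : ∀ d l l', l'.Sublist l → G d l ≤ G d l')
    (hI : ∀ l l', l'.Sublist l → I l ≤ I l')
    (hG0 : ∀ l, Gd l → G 0 l = Submodule.span ℚ {1})
    (hmul : ∀ d l, ∀ x ∈ l, ∀ β ∈ G d l, mul (e x) β ∈ G (d + 1) l)
    (hctr : ∀ d l φ, ∀ β ∈ G (d + 1) l, ctr φ β ∈ G d l)
    (hImul : ∀ l v, ∀ β ∈ I l, mul v β ∈ I l)
    (hdual : ∀ J l, Gd l → J ⊆ l → ∀ i ∈ J, ∃ φ : Module.Dual ℚ N, φ (e i) = 1 ∧
      (∀ j ∈ J, j ≠ i → φ (e j) = 0) ∧ ∀ l', J ⊆ l' → ∀ β ∈ I l', ctr φ β ∈ I l')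
    (hex : ∀ J, J ≠ [] → ∀ d g, g < d → ∀ z ∈ Cn G d g, bd z ∈ Nn Fu I J →
      z ∈ (Cn G d (g + 1)).map bd ⊔ Nn Fu I J)
    {d : ℕ} {z : List V →₀ ExteriorAlgebra ℚ N} (hz : z ∈ Cn G d d) (hc : bd z ∈ Nn Fu I []) :
    ∃ w ∈ Cn G d d, (∀ l, w l ∈ Submodule.span ℚ {(l.map fun x => ι ℚ (e x)).prod}) ∧
      z - w ∈ (Cn G d (d + 1)).map bd ⊔ Nn Fu I [] := by
  have H : StrH e Gd Fu G I := ⟨hbad, hFu, hG, hI, hmul, hctr, hImul, hdual, hex⟩
  obtain ⟨y, hy, hb⟩ := H.glob hz hc U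
  have hle : strD e Fu G I U [] d d ≤ (Ch fun l => strG G d d l ⊓
      Submodule.span ℚ {(l.map fun x => ι ℚ (e x)).prod}) ⊔ Nn Fu I [] := by
    rw [Nn, ← Ch_sup]
    refine fun u hu => mem_Ch.2 fun l => ?_
    by_cases h : Fu l ∧ [] ⊆ l
    swap
    · rw [if_neg h]; exact Submodule.mem_sup_right trivial
    rw [if_pos h]
    obtain ⟨a1, a2⟩ := str_mem_D.1 hu l h.1 h.2
    by_cases hl : Gd l
    swap
    · rw [H.G_bad hl a1]; exact Submodule.zero_mem _
    unfold strG at a1 ⊢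
    by_cases h2 : l.length = d
    · rw [if_pos h2] at a1 ⊢
      subst h2
      exact H.top hl (hG0 l hl) l (hU l hl).1 (List.Subset.refl _) a1
        fun x hx => a2 x hx ((hU l hl).2 x hx)
    · rw [if_neg h2] at a1 ⊢
      exact Submodule.mem_sup_right (by simpa using a1)
  obtain ⟨w, hw, n, hn, rfl⟩ := Submodule.mem_sup.1 (hle hy)
  refine ⟨w, str_mem_C.2 fun l => (mem_Ch.1 hw l).1, fun l => (mem_Ch.1 hw l).2, ?_⟩
  convert Submodule.add_mem _ hb (Submodule.mem_sup_right hn) using 1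
  abel

end H5T
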