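import Pool.Agent.Lib.MP_e9c0f3_ag.H5T.Htpy
import Pool.Agent.Lib.MP_e9c0f3_ag.H5T.Str
import Pool.Agent.Lib.MP_e9c0f3_ag.H5T.AW
import Pool.Agent.Lib.MP_e9c0f3_ag.H5T.Phi

/-! Transfer of chains along kernels. -/

open scoped Classical

noncomputable section

namespace H5T

variable {n : ℕ} {V W U E E' : Type} [AddCommGroup E] [Module ℚ E] [AddCommGroup E'] [Module ℚ E']

theorem ker_ker (k : List V → (List W →₀ ℚ)) (k' : List W → (List U →₀ ℚ)) (z : List V →₀ E) :
    ker k' (ker k z) = ker (fun l => ker k' (k l)) z := by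
  induction z using Finsupp.induction_linear with
  | zero => simp
  | add a b ha hb => simp only [map_add, ha, hb]
  | single l β => rw [ker_single, ker_single, co_ker]

theorem ker_chain {k : List V → (List W →₀ ℚ)} {s : Set (List V)} {S : Set (List W)}
    (h : ∀ l ∈ s, bd (k l) - ker k (bd (Finsupp.single l 1)) ∈ Finsupp.supported ℚ ℚ S)
    {z : List V →₀ E} (hz : z ∈ Finsupp.supported E ℚ s) :
    bd (ker k z) - ker k (bd z) ∈ Finsupp.supported E ℚ S := by
  refine map_mem_of_supported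
    (bd ∘ₗ ker k - ker k ∘ₗ bd : (List V →₀ E) →ₗ[ℚ] (List W →₀ E)) (fun l hl β => ?_) hz
  have := co_supported (LinearMap.toSpanSingleton ℚ E β) (h l hl)
  rw [map_sub, ← bd_co, ← ker_single, co_ker, ← bd_co, co_span_single] at this
  exact this

namespace TropCx

variable (X : TropCx n)

/-- The coefficient space at the simplex `l`. -/
def cf (car : List V → Set (Pt n) → Prop) (G : Set (Pt n) → Submodule ℚ E) (l : List V) :
    Submodule ℚ E := ⨆ σ ∈ X.cells, ⨆ _ : car l σ, G σ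

variable {X}

theorem le_cf {car : List V → Set (Pt n) → Prop} {G : Set (Pt n) → Submodule ℚ E} {l : List V}
    {σ : Set (Pt n)} (hσ : σ ∈ X.cells) (h : car l σ) : G σ ≤ X.cf car G l :=
  le_iSup₂_of_le σ hσ (le_iSup_of_le h le_rfl)

theorem cf_le {car : List V → Set (Pt n) → Prop} {G : Set (Pt n) → Submodule ℚ E} {l : List V}
    {S : Submodule ℚ E} (h : ∀ σ ∈ X.cells, car l σ → G σ ≤ S) : X.cf car G l ≤ S :=
  iSup₂_le fun σ hσ => iSup_le (h σ hσ)

theorem cf_map {car : List V → Set (Pt n) → Prop} {G : Set (Pt n) → Submodule ℚ E} {l : List V}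
    {S : Submodule ℚ E'} (f : E →ₗ[ℚ] E') (h : ∀ σ ∈ X.cells, car l σ → ∀ β ∈ G σ, f β ∈ S) :
    ∀ β ∈ X.cf car G l, f β ∈ S :=
  fun _ hβ => (cf_le (S := S.comap f) h) hβ

theorem cf_eq_bot {car : List V → Set (Pt n) → Prop} {G : Set (Pt n) → Submodule ℚ E} {l : List V}
    (h : ¬ ∃ σ ∈ X.cells, car l σ) : X.cf car G l = ⊥ :=
  le_bot_iff.1 (cf_le fun σ hσ hc => absurd ⟨σ, hσ, hc⟩ h)

theorem C_eq (car : List V → Set (Pt n) → Prop) (G : Set (Pt n) → Submodule ℚ E) (q : ℕ) :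
    X.C car G q = Ch fun l => if l.length = q + 1 then X.cf car G l else ⊥ := by
  unfold C cf
  congr 1
  funext l
  by_cases e : l.length = q + 1 <;> simp [e]

theorem Z_eq (car : List V → Set (Pt n) → Prop) (G : Set (Pt n) → Submodule ℚ E) :
    X.Z car G = Ch fun l => if l = [] then ⊤ else X.cf car G l := rfl

theorem ZZ_eq (M : ℕ) (J : List (Vx n)) (I : Set (Pt n) → Submodule ℚ E) :
    X.ZZ M J I = Ch fun l => if Full M [] l ∧ J ⊆ l then X.cf (X.CF M) I l else ⊤ := by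
  rw [ZZ, Z_eq, supported_eq_Ch, ← Ch_sup]
  congr 1
  funext l
  by_cases e : Full M [] l ∧ J ⊆ l
  · have h1 : Full M J l := ⟨e.2, e.1.2⟩
    have h2 : l ≠ [] := by
      rintro rfl
      simpa using e.1.2 0 (Nat.zero_le _)
    simp [e, h1, h2]
  · have h1 : ¬ Full M J l := fun h => e ⟨⟨List.nil_subset _, h.2⟩, h.1⟩
    simp [e, h1]

theorem C_supported {car : List V → Set (Pt n) → Prop} {G : Set (Pt n) → Submodule ℚ E} {q : ℕ}
    {z : List V →₀ E} (hz : z ∈ X.C car G q) :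
    z ∈ Finsupp.supported E ℚ {l | (∃ σ ∈ X.cells, car l σ) ∧ l.length = q + 1} := by
  rw [C_eq, mem_Ch] at hz
  rw [Finsupp.mem_supported']
  intro l hl
  have := hz l
  by_cases e : l.length = q + 1
  · rw [if_pos e, cf_eq_bot fun h => hl ⟨h, e⟩] at this
    exact this
  · rwa [if_neg e] at this

theorem ker_mem_C {car : List V → Set (Pt n) → Prop} {car' : List W → Set (Pt n) → Prop}
    {G : Set (Pt n) → Submodule ℚ E} {q q' : ℕ} {k : List V → (List W →₀ ℚ)}
    (h : ∀ l, ∀ σ ∈ X.cells, car l σ → l.length = q + 1 → ∀ l' ∈ (k l).support,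
      car' l' σ ∧ l'.length = q' + 1) {z : List V →₀ E} (hz : z ∈ X.C car G q) :
    ker k z ∈ X.C car' G q' := by
  refine ker_mem_Ch k (fun l l' hl' => ?_) hz
  refine iSup₂_le fun σ hσ => iSup_le fun hc => ?_
  exact le_iSup₂_of_le σ hσ (le_iSup_of_le (h l σ hσ hc.1 hc.2 l' hl') le_rfl)

theorem ker_mem_Z {car : List V → Set (Pt n) → Prop} {car' : List W → Set (Pt n) → Prop}
    {G : Set (Pt n) → Submodule ℚ E} {k : List V → (List W →₀ ℚ)} (h0 : k [] = 0)
    (h : ∀ l, ∀ σ ∈ X.cells, car l σ → ∀ l' ∈ (k l).support, car' l' σ) {z : List V →₀ E}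
    (hz : z ∈ X.Z car G) : ker k z ∈ X.Z car' G := by
  rw [Z_eq] at hz ⊢
  refine ker_mem_Ch k (fun l l' hl' => ?_) hz
  have e : l ≠ [] := by
    rintro rfl
    simp [h0] at hl'
  rw [if_neg e]
  split_ifs
  · exact le_top
  · exact cf_le fun σ hσ hc => le_cf hσ (h l σ hσ hc l' hl')

theorem co_mem_C {car : List V → Set (Pt n) → Prop} {G : Set (Pt n) → Submodule ℚ E}
    {G' : Set (Pt n) → Submodule ℚ E'} {q : ℕ} (f : E →ₗ[ℚ] E')
    (h : ∀ σ ∈ X.cells, ∀ β ∈ G σ, f β ∈ G' σ) {z : List V →₀ E} (hz : z ∈ X.C car G q) :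
    co f z ∈ X.C car G' q := by
  rw [C_eq] at hz ⊢
  refine co_mem_Ch f (fun l β hβ => ?_) hz
  split_ifs at hβ ⊢
  · exact cf_map f (fun σ hσ hc β hβ => le_cf hσ hc (h σ hσ β hβ)) β hβ
  · rw [Submodule.mem_bot] at hβ ⊢
    rw [hβ, map_zero]

theorem co_mem_ZZ {M : ℕ} {J : List (Vx n)} {G : Set (Pt n) → Submodule ℚ E}
    {G' : Set (Pt n) → Submodule ℚ E'} (f : E →ₗ[ℚ] E')
    (h : ∀ σ ∈ X.cells, ∀ β ∈ G σ, f β ∈ G' σ) {z : List (Vx n) →₀ E} (hz : z ∈ X.ZZ M J G) :
    co f z ∈ X.ZZ M J G' := by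
  rw [ZZ_eq] at hz ⊢
  refine co_mem_Ch f (fun l β hβ => ?_) hz
  split_ifs at hβ ⊢
  · exact cf_map f (fun σ hσ hc β hβ => le_cf hσ hc (h σ hσ β hβ)) β hβ
  · trivial

theorem bd_mem_Z {car : List V → Set (Pt n) → Prop} {G : Set (Pt n) → Submodule ℚ E}
    (h : ∀ l l' σ, l'.Sublist l → car l σ → car l' σ) {z : List V →₀ E} (hz : z ∈ X.Z car G) :
    bd z ∈ X.Z car G := by
  rw [Z_eq] at hz ⊢
  refine bd_mem_Ch (fun l l' hs hl => ?_) hz
  have e : l ≠ [] := by
    rintro rfl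
    simp at hl
  rw [if_neg e]
  split_ifs
  · exact le_top
  · exact cf_le fun σ hσ hc => le_cf hσ (h l l' σ hs hc)

theorem CF.sublist {M : ℕ} {l l' : List (Vx n)} {σ : Set (Pt n)} (h : X.CF M l σ)
    (hs : l'.Sublist l) : X.CF M l' σ :=
  ⟨h.1.sublist hs, fun x hx => h.2 x (hs.subset hx)⟩

theorem pt_inside {l : List (Set (Pt n))} {σ : Set (Pt n)} (h : X.Flag l σ) :
    Inside (l.map X.pt) σ := by
  intro x hx
  obtain ⟨ρ, hρ, rfl⟩ := List.mem_map.1 hx
  exact (h.2 ρ hρ).2 (intrinsicInterior_subset (X.pt_mem ρ (h.2 ρ hρ).1))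

end TropCx

theorem bd_mapDomain (f : V → W) (z : List V →₀ E) :
    bd (z.mapDomain (List.map f)) = (bd z).mapDomain (List.map f) := by
  induction z using Finsupp.induction_linear with
  | zero => simp
  | add a b ha hb => simp only [map_add, Finsupp.mapDomain_add, ha, hb]
  | single l β =>
    rw [Finsupp.mapDomain_single, bd_single, bd_single, Finsupp.mapDomain_finset_sum,
      List.length_map]
    refine Finset.sum_congr rfl fun i _ => ?_
    rw [Finsupp.mapDomain_smul, Finsupp.mapDomain_single, List.eraseIdx_map]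

theorem ker_map (f : V → W) (z : List V →₀ E) :
    ker (fun l => Finsupp.single (l.map f) 1) z = z.mapDomain (List.map f) := by
  induction z using Finsupp.induction_linear with
  | zero => simp
  | add a b ha hb => simp only [map_add, Finsupp.mapDomain_add, ha, hb]
  | single l β => rw [ker_single, Finsupp.mapDomain_single, co_span_single]

theorem ker_sub (k k' : List V → (List W →₀ ℚ)) (z : List V →₀ E) :
    ker (fun l => k l - k' l) z = ker k z - ker k' z := by
  induction z using Finsupp.induction_linear with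
  | zero => simp
  | add a b ha hb => simp only [map_add, ha, hb]; abel
  | single l β => simp only [ker_single, map_sub]

end H5T
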