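import Pool.Agent.Lib.MP_e9c0f3_ag.H5T.Indep

/-! Exterior algebra of the total space, cell by cell. -/

open ExteriorAlgebra

namespace H5T

variable {n : ℕ} {X : TropCx n}

section
variable {N : Type} [AddCommGroup N] [Module ℚ N]

theorem ctr_mul (φ : Module.Dual ℚ N) (v : N) (x : ExteriorAlgebra ℚ N) :
    ctr φ (mul v x) = φ v • x - mul v (ctr φ x) := by
  exact CliffordAlgebra.contractLeft_ι_mul φ v x

theorem mul_mul_self (v : N) (x : ExteriorAlgebra ℚ N) : mul v (mul v x) = 0 := by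
  change ι ℚ v * (ι ℚ v * x) = 0
  rw [← mul_assoc, ι_sq_zero, zero_mul]

theorem mul_comm' (v w : N) (x : ExteriorAlgebra ℚ N) : mul v (mul w x) = - mul w (mul v x) := by
  change ι ℚ v * (ι ℚ w * x) = - (ι ℚ w * (ι ℚ v * x))
  rw [eq_neg_iff_add_eq_zero, ← mul_assoc, ← mul_assoc, ← add_mul, ι_add_mul_swap, zero_mul]

theorem ctr_comm (φ ψ : Module.Dual ℚ N) (x : ExteriorAlgebra ℚ N) :
    ctr φ (ctr ψ x) = - ctr ψ (ctr φ x) := by
  exact CliffordAlgebra.contractLeft_comm φ ψ x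

theorem mul_sub_vec (v w : N) (x : ExteriorAlgebra ℚ N) : mul (v - w) x = mul v x - mul w x := by
  change ι ℚ (v - w) * x = ι ℚ v * x - ι ℚ w * x
  rw [map_sub, sub_mul]

theorem ctr_sub_vec (φ ψ : Module.Dual ℚ N) (x : ExteriorAlgebra ℚ N) :
    ctr (φ - ψ) x = ctr φ x - ctr ψ x := by
  unfold ctr
  rw [map_sub, LinearMap.sub_apply]

theorem coef_ctr_one (φ : Module.Dual ℚ N) (r : ℚ) :
    ctr φ (algebraMap ℚ (ExteriorAlgebra ℚ N) r) = 0 :=
  CliffordAlgebra.contractLeft_algebraMap _ φ r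

theorem coef_map_mul {N' : Type} [AddCommGroup N'] [Module ℚ N'] (f : N →ₗ[ℚ] N') (v : N)
    (x : ExteriorAlgebra ℚ N) :
    ExteriorAlgebra.map f (mul v x) = mul (f v) (ExteriorAlgebra.map f x) := by
  change ExteriorAlgebra.map f (ι ℚ v * x) = ι ℚ (f v) * _
  rw [map_mul, ExteriorAlgebra.map_apply_ι]

theorem coef_ctr_map {N' : Type} [AddCommGroup N'] [Module ℚ N'] (f : N →ₗ[ℚ] N')
    (φ : Module.Dual ℚ N') (x : ExteriorAlgebra ℚ N) :
    ctr φ (ExteriorAlgebra.map f x) = ExteriorAlgebra.map f (ctr (φ ∘ₗ f) x) := by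
  induction x using CliffordAlgebra.left_induction with
  | algebraMap r => rw [AlgHom.commutes, coef_ctr_one, coef_ctr_one, map_zero]
  | add x y hx hy => rw [map_add, map_add, hx, hy, map_add, map_add]
  | ι_mul x v hx =>
    change ctr φ (ExteriorAlgebra.map f (mul v x)) = ExteriorAlgebra.map f (ctr _ (mul v x))
    rw [coef_map_mul, ctr_mul, ctr_mul, hx, map_sub, map_smul, coef_map_mul]
    rfl

theorem coef_ctr_pow (φ : Module.Dual ℚ N) (T : Submodule ℚ N) (p : ℕ)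
    {x : ExteriorAlgebra ℚ N} (hx : x ∈ (T.map (ι ℚ)) ^ (p + 1)) :
    ctr φ x ∈ (T.map (ι ℚ)) ^ p := by
  induction p generalizing x with
  | zero =>
    rw [_root_.pow_succ'] at hx
    refine Submodule.mul_induction_on hx (fun a ha y hy => ?_) fun a b ha hb => ?_
    · obtain ⟨v, -, rfl⟩ := ha
      have h1 := hy
      rw [pow_zero] at h1
      obtain ⟨r, rfl⟩ := Submodule.mem_one.1 h1
      change ctr φ (mul v _) ∈ _
      rw [ctr_mul, coef_ctr_one, map_zero, sub_zero]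
      exact Submodule.smul_mem _ _ hy
    · rw [map_add]
      exact add_mem ha hb
  | succ p ih =>
    rw [_root_.pow_succ'] at hx
    refine Submodule.mul_induction_on hx (fun a ha y hy => ?_) fun a b ha hb => ?_
    · obtain ⟨v, hv, rfl⟩ := ha
      change ctr φ (mul v _) ∈ _
      rw [ctr_mul]
      refine sub_mem (Submodule.smul_mem _ _ hy) ?_
      rw [_root_.pow_succ']
      exact Submodule.mul_mem_mul (Submodule.mem_map_of_mem hv) (ih hy)
    · rw [map_add]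
      exact add_mem ha hb

theorem coef_mul_ideal (v : N) (T : Submodule ℚ N) {x : ExteriorAlgebra ℚ N}
    (hx : x ∈ T.map (ι ℚ) * (⊤ : Submodule ℚ (ExteriorAlgebra ℚ N))) :
    mul v x ∈ T.map (ι ℚ) * (⊤ : Submodule ℚ (ExteriorAlgebra ℚ N)) := by
  refine Submodule.mul_induction_on hx (fun a ha y _ => ?_) fun a b ha hb => ?_
  · obtain ⟨w, hw, rfl⟩ := ha
    change mul v (mul w y) ∈ _
    rw [mul_comm']
    exact neg_mem (Submodule.mul_mem_mul (Submodule.mem_map_of_mem hw) Submodule.mem_top)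
  · rw [map_add]
    exact add_mem ha hb

theorem coef_ctr_ideal (φ : Module.Dual ℚ N) (T : Submodule ℚ N) (h : ∀ w ∈ T, φ w = 0)
    {x : ExteriorAlgebra ℚ N}
    (hx : x ∈ T.map (ι ℚ) * (⊤ : Submodule ℚ (ExteriorAlgebra ℚ N))) :
    ctr φ x ∈ T.map (ι ℚ) * (⊤ : Submodule ℚ (ExteriorAlgebra ℚ N)) := by
  refine Submodule.mul_induction_on hx (fun a ha y _ => ?_) fun a b ha hb => ?_
  · obtain ⟨w, hw, rfl⟩ := ha
    change ctr φ (mul w y) ∈ _
    rw [ctr_mul, h w hw, zero_smul, zero_sub]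
    exact neg_mem (Submodule.mul_mem_mul (Submodule.mem_map_of_mem hw) Submodule.mem_top)
  · rw [map_add]
    exact add_mem ha hb

theorem coef_map_ideal {N' : Type} [AddCommGroup N'] [Module ℚ N'] (f : N →ₗ[ℚ] N')
    {T : Submodule ℚ N} {T' : Submodule ℚ N'} (h : ∀ w ∈ T, f w ∈ T') {x : ExteriorAlgebra ℚ N}
    (hx : x ∈ T.map (ι ℚ) * (⊤ : Submodule ℚ (ExteriorAlgebra ℚ N))) :
    ExteriorAlgebra.map f x ∈ T'.map (ι ℚ) * (⊤ : Submodule ℚ (ExteriorAlgebra ℚ N')) := by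
  refine Submodule.mul_induction_on hx (fun a ha y _ => ?_) fun a b ha hb => ?_
  · obtain ⟨w, hw, rfl⟩ := ha
    rw [map_mul, ExteriorAlgebra.map_apply_ι]
    exact Submodule.mul_mem_mul (Submodule.mem_map_of_mem (h w hw)) Submodule.mem_top
  · rw [map_add]
    exact add_mem ha hb

end

theorem pr_jj (x : Mv n) : pr (jj x) = x := by
  change ExteriorAlgebra.map _ (ExteriorAlgebra.map _ x) = x
  rw [← AlgHom.comp_apply, ExteriorAlgebra.map_comp_map, LinearMap.fst_comp_inl,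
    ExteriorAlgebra.map_id, AlgHom.id_apply]

theorem jj_mul (v : Fin n → ℚ) (x : Mv n) : jj (mul v x) = mul (v, 0) (jj x) := by
  exact coef_map_mul _ v x

theorem ctr_jj (φ : Module.Dual ℚ (Nt n)) (x : Mv n) :
    ctr φ (jj x) = jj (ctr (φ ∘ₗ LinearMap.inl ℚ (Fin n → ℚ) (ℕ → ℚ)) x) := by
  exact coef_ctr_map _ φ x

theorem pr_ctr (ψ : Module.Dual ℚ (Fin n → ℚ)) (x : Mt n) :
    pr (ctr (ψ ∘ₗ LinearMap.fst ℚ (Fin n → ℚ) (ℕ → ℚ)) x) = ctr ψ (pr x) := by
  exact (coef_ctr_map _ ψ x).symm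

namespace TropCx

theorem F_anti (p : ℕ) {ρ σ : Set (Pt n)} (h : ρ ⊆ σ) : X.F p σ ≤ X.F p ρ := by
  exact iSup₂_le fun η hη => iSup_le fun k =>
    le_iSup₂_of_le η hη (le_iSup_of_le (h.trans k) le_rfl)

theorem F_zero {σ : Set (Pt n)} (hσ : σ ∈ X.cells) : X.F 0 σ = Submodule.span ℚ {1} := by
  unfold F wedge
  simp only [pow_zero, Submodule.one_eq_span]
  exact le_antisymm (iSup₂_le fun η _ => iSup_le fun _ => le_rfl)
    (le_iSup₂_of_le σ hσ (le_iSup_of_le subset_rfl le_rfl))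

theorem mul_mem_F {p : ℕ} {σ : Set (Pt n)} {v : Fin n → ℚ} (hv : v ∈ tang σ) {x : Mv n}
    (hx : x ∈ X.F p σ) : mul v x ∈ X.F (p + 1) σ := by
  have key : X.F p σ ≤ (X.F (p + 1) σ).comap (mul v) :=
    iSup₂_le fun η hη => iSup_le fun k y hy => by
      have h1 : wedge (tang η) (p + 1) ≤ X.F (p + 1) σ :=
        le_iSup₂_of_le η hη (le_iSup_of_le k le_rfl)
      refine h1 ?_
      unfold wedge
      rw [_root_.pow_succ']
      exact Submodule.mul_mem_mul (Submodule.mem_map_of_mem (tang_mono k hv)) hy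
  exact key hx

theorem ctr_mem_F {p : ℕ} {σ : Set (Pt n)} (φ : Module.Dual ℚ (Fin n → ℚ)) {x : Mv n}
    (hx : x ∈ X.F (p + 1) σ) : ctr φ x ∈ X.F p σ := by
  have key : X.F (p + 1) σ ≤ (X.F p σ).comap (ctr φ) :=
    iSup₂_le fun η hη => iSup_le fun k y hy => by
      have h1 : wedge (tang η) p ≤ X.F p σ := le_iSup₂_of_le η hη (le_iSup_of_le k le_rfl)
      exact h1 (coef_ctr_pow φ _ p hy)
  exact key hx

theorem I_anti {ρ σ : Set (Pt n)} (hσ : σ ∈ X.cells) (hρ : ρ ∈ X.cells) (h : ρ ⊆ σ) :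
    X.I σ ≤ X.I ρ := by
  exact mul_le_mul_left (Submodule.map_mono (X.sed_anti σ hσ ρ hρ h)) _

theorem It_anti {ρ σ : Set (Pt n)} (hσ : σ ∈ X.cells) (hρ : ρ ∈ X.cells) (h : ρ ⊆ σ) :
    X.It σ ≤ X.It ρ := by
  exact mul_le_mul_left (Submodule.map_mono (Submodule.map_mono (X.sed_anti σ hσ ρ hρ h))) _

theorem mul_mem_I {σ : Set (Pt n)} (v : Fin n → ℚ) {x : Mv n} (hx : x ∈ X.I σ) :
    mul v x ∈ X.I σ := by
  exact coef_mul_ideal v _ hx

theorem mul_mem_It {σ : Set (Pt n)} (v : Nt n) {x : Mt n} (hx : x ∈ X.It σ) :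
    mul v x ∈ X.It σ := by
  exact coef_mul_ideal v _ hx

theorem ctr_mem_It {σ : Set (Pt n)} {φ : Module.Dual ℚ (Nt n)}
    (hφ : ∀ v ∈ X.sed σ, φ (v, 0) = 0) {x : Mt n} (hx : x ∈ X.It σ) : ctr φ x ∈ X.It σ := by
  refine coef_ctr_ideal φ _ (fun w hw => ?_) hx
  obtain ⟨v, hv, rfl⟩ := hw
  exact hφ v hv

theorem jj_mem_It {σ : Set (Pt n)} {x : Mv n} (hx : x ∈ X.I σ) : jj x ∈ X.It σ := by
  exact coef_map_ideal _ (fun v hv => Submodule.mem_map_of_mem hv) hx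

theorem pr_mem_I {σ : Set (Pt n)} {x : Mt n} (hx : x ∈ X.It σ) : pr x ∈ X.I σ := by
  refine coef_map_ideal _ (fun w hw => ?_) hx
  obtain ⟨v, hv, rfl⟩ := hw
  exact hv

theorem KK_mem_I (a : ℕ) {σ : Set (Pt n)} {x : Mt n} (hx : x ∈ X.It σ) : KK a x ∈ X.I σ := by
  induction a generalizing x with
  | zero => exact pr_mem_I hx
  | succ a ih => exact ih (ctr_mem_It (fun v _ => rfl) hx)

end TropCx

end H5T
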