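import Pool.Agent.Lib.MP_e9c0f3_ag.H5T.Coef

/-! The filtered multi-tangent spaces of the total space. -/

open ExteriorAlgebra

namespace H5T

variable {n : ℕ} {X : TropCx n}

theorem c2_F_zero_le (X : TropCx n) (σ : Set (Pt n)) : X.F 0 σ ≤ Submodule.span ℚ {1} := by
  unfold TropCx.F
  refine iSup_le fun η => iSup_le fun _ => iSup_le fun _ => ?_
  unfold wedge
  rw [pow_zero, Submodule.one_eq_span]

theorem c2_ctr_one {N : Type} [AddCommGroup N] [Module ℚ N] (φ : Module.Dual ℚ N) :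
    ctr φ (1 : ExteriorAlgebra ℚ N) = 0 := by
  unfold ctr
  exact CliffordAlgebra.contractLeft_one _ _

theorem c2_ctr_zero {N : Type} [AddCommGroup N] [Module ℚ N] (x : ExteriorAlgebra ℚ N) :
    ctr (0 : Module.Dual ℚ N) x = 0 := by
  have h := ctr_sub_vec (0 : Module.Dual ℚ N) 0 x
  rw [sub_self, sub_self] at h
  exact h

theorem c2_jj_one : jj (1 : Mv n) = 1 := by
  unfold jj
  simp

namespace Col

variable (c : Col X)

theorem c2_Af_zero (s d : ℤ) (σ : Set (Pt n)) :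
    c.Af 0 s d σ = if s < 0 ∨ d < 0 then ⊥ else (X.F d.toNat σ).map jj := rfl

theorem c2_Af_succ (a : ℕ) (s d : ℤ) (σ : Set (Pt n)) :
    c.Af (a + 1) s d σ =
      c.Af a s d σ ⊔ (c.Af a (s - 1) (d - 1) σ).map (mul (c.e (σ, a))) := rfl

theorem c2_mem_zero {s d : ℤ} {σ : Set (Pt n)} {x : Mt n} (hx : x ∈ c.Af 0 s d σ) :
    x = 0 ∨ (0 ≤ s ∧ 0 ≤ d ∧ ∃ y ∈ X.F d.toNat σ, jj y = x) := by
  rw [c2_Af_zero] at hx
  by_cases h : s < 0 ∨ d < 0
  · rw [if_pos h] at hx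
    exact Or.inl (by simpa using hx)
  · rw [if_neg h] at hx
    obtain ⟨y, hy, rfl⟩ := hx
    exact Or.inr ⟨by omega, by omega, y, hy, rfl⟩

theorem c2_jj_mem {s d : ℤ} (hs : 0 ≤ s) (hd : 0 ≤ d) {σ : Set (Pt n)} {y : Mv n}
    (hy : y ∈ X.F d.toNat σ) : jj y ∈ c.Af 0 s d σ := by
  rw [c2_Af_zero, if_neg (by omega)]
  exact ⟨y, hy, rfl⟩

theorem c2_mem_succ {a : ℕ} {s d : ℤ} {σ : Set (Pt n)} {x : Mt n}
    (hx : x ∈ c.Af (a + 1) s d σ) :
    ∃ y ∈ c.Af a s d σ, ∃ z ∈ c.Af a (s - 1) (d - 1) σ, x = y + mul (c.e (σ, a)) z := by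
  rw [c2_Af_succ] at hx
  obtain ⟨y, hy, w, ⟨z, hz, rfl⟩, rfl⟩ := Submodule.mem_sup.1 hx
  exact ⟨y, hy, z, hz, rfl⟩

theorem c2_left {a : ℕ} {s d : ℤ} {σ : Set (Pt n)} {x : Mt n} (hx : x ∈ c.Af a s d σ) :
    x ∈ c.Af (a + 1) s d σ := by
  rw [c2_Af_succ]
  exact Submodule.mem_sup_left hx

theorem c2_right {a : ℕ} {s d s' d' : ℤ} {σ : Set (Pt n)} {x : Mt n} (hx : x ∈ c.Af a s' d' σ)
    (hs : s' = s - 1) (hd : d' = d - 1) : mul (c.e (σ, a)) x ∈ c.Af (a + 1) s d σ := by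
  subst hs hd
  rw [c2_Af_succ]
  exact Submodule.mem_sup_right ⟨x, hx, rfl⟩

theorem c2_cast {a : ℕ} {s d s' d' : ℤ} {σ : Set (Pt n)} {x : Mt n} (hx : x ∈ c.Af a s' d' σ)
    (hs : s' = s) (hd : d' = d) : x ∈ c.Af a s d σ := by
  subst hs hd
  exact hx

theorem Af_neg (a : ℕ) {s d : ℤ} (h : s < 0 ∨ d < 0) (σ : Set (Pt n)) : c.Af a s d σ = ⊥ := by
  induction a generalizing s d with
  | zero => rw [c2_Af_zero, if_pos h]
  | succ a ih =>
    rw [c2_Af_succ, ih h, ih (s := s - 1) (d := d - 1) (by omega), Submodule.map_bot, sup_idem]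

theorem Af_mono (a : ℕ) (s d : ℤ) (σ : Set (Pt n)) : c.Af a (s - 1) d σ ≤ c.Af a s d σ := by
  induction a generalizing s d with
  | zero =>
    intro x hx
    rcases c.c2_mem_zero hx with rfl | ⟨hs, hd, y, hy, rfl⟩
    · exact zero_mem _
    · exact c.c2_jj_mem (by omega) hd hy
  | succ a ih =>
    rw [c2_Af_succ, c2_Af_succ]
    exact sup_le_sup (ih s d) (Submodule.map_mono (ih (s - 1) (d - 1)))

theorem c2_stab {a : ℕ} {s s' : ℤ} (h : (a : ℤ) ≤ s) (h' : (a : ℤ) ≤ s') (d : ℤ)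
    (σ : Set (Pt n)) : c.Af a s d σ = c.Af a s' d σ := by
  induction a generalizing s s' d with
  | zero =>
    rw [c2_Af_zero, c2_Af_zero]
    have h1 : (s < 0 ∨ d < 0) ↔ (s' < 0 ∨ d < 0) := by
      constructor <;> intro h2 <;> omega
    simp only [h1]
  | succ a ih =>
    rw [c2_Af_succ, c2_Af_succ, ih (s := s) (s' := s') (by omega) (by omega),
      ih (s := s - 1) (s' := s' - 1) (by omega) (by omega)]

theorem Af_stab {a : ℕ} {s : ℤ} (h : (a : ℤ) ≤ s) (d : ℤ) (σ : Set (Pt n)) :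
    c.Af a s d σ = c.Af a a d σ :=
  c.c2_stab h le_rfl d σ

theorem mul_tang_mem_Af (a : ℕ) {s d : ℤ} {σ : Set (Pt n)} {v : Fin n → ℚ} (hv : v ∈ tang σ)
    {x : Mt n} (hx : x ∈ c.Af a s d σ) : mul (v, 0) x ∈ c.Af a s (d + 1) σ := by
  induction a generalizing s d x with
  | zero =>
    rcases c.c2_mem_zero hx with rfl | ⟨hs, hd, y, hy, rfl⟩
    · rw [map_zero]
      exact zero_mem _
    · rw [← jj_mul]
      refine c.c2_jj_mem hs (by omega) ?_
      have h1 : (d + 1).toNat = d.toNat + 1 := by omega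
      rw [h1]
      exact TropCx.mul_mem_F hv hy
  | succ a ih =>
    obtain ⟨y, hy, z, hz, rfl⟩ := c.c2_mem_succ hx
    rw [map_add, mul_comm']
    exact add_mem (c.c2_left (ih hy)) (neg_mem (c.c2_right (ih hz) rfl (by ring)))

theorem e_sub {ρ σ : Set (Pt n)} (a : ℕ) :
    c.e (σ, a) - c.e (ρ, a) = (c.bb σ a - c.bb ρ a, 0) := by
  unfold e
  simp

theorem c2_bb_mem {a : ℕ} (ha : a ≤ c.M) {ρ σ : Set (Pt n)} (hσ : σ ∈ X.cells)
    (hρ : ρ ∈ X.cells) (h : ρ ⊆ σ) : c.bb σ a - c.bb ρ a ∈ tang σ :=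
  c.sub_mem σ hσ ρ hρ h a ha

theorem c2_mul_e {ρ σ : Set (Pt n)} (a : ℕ) (x : Mt n) :
    mul (c.e (σ, a)) x = mul (c.e (ρ, a)) x + mul (c.bb σ a - c.bb ρ a, 0) x := by
  rw [← c.e_sub, mul_sub_vec]
  abel

theorem Af_anti {a : ℕ} (ha : a ≤ c.M + 1) (s d : ℤ) {ρ σ : Set (Pt n)} (hσ : σ ∈ X.cells)
    (hρ : ρ ∈ X.cells) (h : ρ ⊆ σ) : c.Af a s d σ ≤ c.Af a s d ρ := by
  induction a generalizing s d with
  | zero =>
    intro x hx
    rcases c.c2_mem_zero hx with rfl | ⟨hs, hd, y, hy, rfl⟩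
    · exact zero_mem _
    · exact c.c2_jj_mem hs hd (TropCx.F_anti _ h hy)
  | succ a ih =>
    intro x hx
    obtain ⟨y, hy, z, hz, rfl⟩ := c.c2_mem_succ hx
    rw [c.c2_mul_e (ρ := ρ)]
    refine add_mem (c.c2_left (ih (by omega) s d hy)) (add_mem ?_ ?_)
    · exact c.c2_right (ih (by omega) _ _ hz) rfl rfl
    · refine c.c2_left (ih (by omega) s d (c.Af_mono a s d σ ?_))
      exact c.c2_cast (c.mul_tang_mem_Af a (c.c2_bb_mem (by omega) hσ hρ h) hz) rfl (by ring)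

/-- Any contraction lowers the degree. -/
theorem ctr_mem_Af (a : ℕ) (φ : Module.Dual ℚ (Nt n)) {s d : ℤ} {σ : Set (Pt n)} {x : Mt n}
    (hx : x ∈ c.Af a s d σ) : ctr φ x ∈ c.Af a s (d - 1) σ := by
  induction a generalizing s d x with
  | zero =>
    rcases c.c2_mem_zero hx with rfl | ⟨hs, hd, y, hy, rfl⟩
    · rw [map_zero]
      exact zero_mem _
    · rw [ctr_jj]
      by_cases hd0 : d = 0
      · subst hd0
        obtain ⟨r, rfl⟩ := Submodule.mem_span_singleton.1 (c2_F_zero_le X σ hy)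
        rw [map_smul, c2_ctr_one, smul_zero, map_zero]
        exact zero_mem _
      · refine c.c2_jj_mem hs (by omega) ?_
        have h1 : d.toNat = (d - 1).toNat + 1 := by omega
        rw [h1] at hy
        exact TropCx.ctr_mem_F _ hy
  | succ a ih =>
    obtain ⟨y, hy, z, hz, rfl⟩ := c.c2_mem_succ hx
    rw [map_add, ctr_mul]
    refine add_mem (c.c2_left (ih hy)) (_root_.sub_mem ?_ (c.c2_right (ih hz) rfl rfl))
    exact Submodule.smul_mem _ _ (c.c2_left (c.Af_mono a s (d - 1) σ hz))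

theorem ctr_lam_Af {a b : ℕ} (hab : a ≤ b) {s d : ℤ} {σ : Set (Pt n)} {x : Mt n}
    (hx : x ∈ c.Af a s d σ) : ctr (lam b) x = 0 := by
  induction a generalizing s d x with
  | zero =>
    rcases c.c2_mem_zero hx with rfl | ⟨_, _, y, _, rfl⟩
    · rw [map_zero]
    · have h0 : (lam b : Module.Dual ℚ (Nt n)) ∘ₗ LinearMap.inl ℚ (Fin n → ℚ) (ℕ → ℚ) = 0 := by
        refine LinearMap.ext fun v => ?_
        simp [lam]
      rw [ctr_jj, h0, c2_ctr_zero, map_zero]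
  | succ a ih =>
    obtain ⟨y, hy, z, hz, rfl⟩ := c.c2_mem_succ hx
    have h0 : lam b (c.e (σ, a)) = 0 := by
      have hne : b ≠ a := by omega
      simp [lam, e, hne]
    rw [map_add, ctr_mul, ih (by omega) hy, ih (by omega) hz, h0]
    simp

theorem c2_mul_e_mem {a A : ℕ} (h : a < A) {s d : ℤ} {σ : Set (Pt n)} {x : Mt n}
    (hx : x ∈ c.Af A s d σ) : mul (c.e (σ, a)) x ∈ c.Af A (s + 1) (d + 1) σ := by
  induction A generalizing s d x with
  | zero => omega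
  | succ A ih =>
    obtain ⟨y, hy, z, hz, rfl⟩ := c.c2_mem_succ hx
    rw [map_add]
    by_cases hA : a = A
    · subst hA
      rw [mul_mul_self, add_zero]
      exact c.c2_right hy (by ring) (by ring)
    · rw [mul_comm']
      exact add_mem (c.c2_left (ih (by omega) hy))
        (neg_mem (c.c2_right (ih (by omega) hz) (by ring) (by ring)))

theorem mul_e_mem_Ft {d : ℕ} {ρ σ : Set (Pt n)} (hσ : σ ∈ X.cells) (hρ : ρ ∈ X.cells)
    (h : ρ ⊆ σ) {a : ℕ} (ha : a ≤ c.M) {x : Mt n} (hx : x ∈ c.Ft d σ) :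
    mul (c.e (ρ, a)) x ∈ c.Ft (d + 1) σ := by
  unfold Ft at hx ⊢
  have h1 : mul (c.e (ρ, a)) x = mul (c.e (σ, a)) x - mul (c.bb σ a - c.bb ρ a, 0) x := by
    rw [c.c2_mul_e (ρ := ρ) (σ := σ)]
    abel
  rw [h1]
  refine _root_.sub_mem ?_ ?_
  · have h2 := c.c2_mul_e_mem (a := a) (by omega) hx
    rw [c.c2_stab (s' := (c.M : ℤ) + 1) (by push_cast; omega) (by push_cast; omega)] at h2
    exact c.c2_cast h2 rfl (by push_cast; ring)
  · exact c.c2_cast (c.mul_tang_mem_Af _ (c.c2_bb_mem ha hσ hρ h) hx) rfl (by push_cast; ring)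

theorem ctr_mem_Ft (φ : Module.Dual ℚ (Nt n)) {d : ℕ} {σ : Set (Pt n)} {x : Mt n}
    (hx : x ∈ c.Ft (d + 1) σ) : ctr φ x ∈ c.Ft d σ := by
  unfold Ft at hx ⊢
  exact c.c2_cast (c.ctr_mem_Af _ φ hx) rfl (by push_cast; ring)

theorem c2_Af_deg_zero {σ : Set (Pt n)} (hσ : σ ∈ X.cells) (a : ℕ) {s : ℤ} (hs : 0 ≤ s) :
    c.Af a s 0 σ = Submodule.span ℚ {1} := by
  induction a with
  | zero =>
    rw [c2_Af_zero, if_neg (by omega), Int.toNat_zero, TropCx.F_zero hσ, Submodule.map_span,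
      Set.image_singleton, c2_jj_one]
  | succ a ih =>
    rw [c2_Af_succ, ih, c.Af_neg a (s := s - 1) (d := 0 - 1) (Or.inr (by omega)),
      Submodule.map_bot, sup_bot_eq]

theorem Ft_zero {σ : Set (Pt n)} (hσ : σ ∈ X.cells) : c.Ft 0 σ = Submodule.span ℚ {1} := by
  unfold Ft
  exact c.c2_Af_deg_zero hσ _ (by positivity)

end Col

end H5T
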