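import Pool.Agent.Lib.MP_e9c0f3_ag.H5T.Coef2

/-! Contraction of all colours. -/

open ExteriorAlgebra

namespace H5T

variable {n : ℕ} {X : TropCx n}

section
variable {N : Type} [AddCommGroup N] [Module ℚ N]

theorem c3_ctr_mul (φ : Module.Dual ℚ N) (v : N) (x : ExteriorAlgebra ℚ N) :
    ctr φ (ι ℚ v * x) = φ v • x - ι ℚ v * ctr φ x := ctr_mul φ v x

theorem c3_mem_succ {W : Submodule ℚ N} {w : N} (hw : w ∈ W) {m : ℕ} {x : ExteriorAlgebra ℚ N}
    (hx : x ∈ (W.map (ι ℚ)) ^ m) : ι ℚ w * x ∈ (W.map (ι ℚ)) ^ (m + 1) := by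
  rw [pow_succ']
  exact Submodule.mul_mem_mul (Submodule.mem_map_of_mem hw) hx

theorem c3_split (φ : Module.Dual ℚ N) (u u0 : N) (y : ExteriorAlgebra ℚ N) :
    ctr φ (ι ℚ u * y) =
      φ u • (y - ι ℚ u0 * ctr φ y) - ι ℚ (u - φ u • u0) * ctr φ y := by
  rw [c3_ctr_mul, map_sub, map_smul, sub_mul, smul_sub, smul_mul_assoc]
  abel

theorem c3_rest (φ : Module.Dual ℚ N) (u u0 : N) (y : ExteriorAlgebra ℚ N) :
    ι ℚ u * y - ι ℚ u0 * ctr φ (ι ℚ u * y) =
      ι ℚ (u - φ u • u0) * (y - ι ℚ u0 * ctr φ y) := by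
  have h1 : ι ℚ u0 * (ι ℚ u0 * ctr φ y) = 0 := mul_mul_self u0 _
  have h2 : ι ℚ u0 * (ι ℚ u * ctr φ y) = - (ι ℚ u * (ι ℚ u0 * ctr φ y)) := mul_comm' u0 u _
  rw [c3_ctr_mul, map_sub, map_smul, sub_mul, mul_sub, mul_sub, smul_mul_assoc, mul_sub, h1, h2,
    mul_smul_comm, sub_zero]
  abel

theorem c3_aux (φ : Module.Dual ℚ N) {U W : Submodule ℚ N} (u0 : N)
    (h : ∀ u ∈ U, u - φ u • u0 ∈ W) {m : ℕ} {y : ExteriorAlgebra ℚ N}
    (hy : y ∈ (U.map (ι ℚ)) ^ m) :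
    y - ι ℚ u0 * ctr φ y ∈ (W.map (ι ℚ)) ^ m ∧
      ∀ w ∈ W, ι ℚ w * ctr φ y ∈ (W.map (ι ℚ)) ^ m := by
  induction hy using Submodule.pow_induction_on_left' with
  | algebraMap r =>
    have h0 : ctr φ (algebraMap ℚ (ExteriorAlgebra ℚ N) r) = 0 :=
      CliffordAlgebra.contractLeft_algebraMap _ _ _
    rw [h0]
    refine ⟨?_, fun w _ => ?_⟩
    · rw [mul_zero, sub_zero, pow_zero]
      exact Submodule.algebraMap_mem r
    · rw [mul_zero]
      exact Submodule.zero_mem _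
  | add x y i hx hy ihx ihy =>
    refine ⟨?_, fun w hw => ?_⟩
    · have := Submodule.add_mem _ ihx.1 ihy.1
      rw [map_add, mul_add]
      convert this using 1
      abel
    · rw [map_add, mul_add]
      exact Submodule.add_mem _ (ihx.2 w hw) (ihy.2 w hw)
  | mem_mul m hm i x hx ih =>
    obtain ⟨u, hu, rfl⟩ := hm
    refine ⟨?_, fun w hw => ?_⟩
    · rw [c3_rest]
      exact c3_mem_succ (h u hu) ih.1
    · refine c3_mem_succ hw ?_
      rw [c3_split φ u u0]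
      exact Submodule.sub_mem _ (Submodule.smul_mem _ _ ih.1) (ih.2 _ (h u hu))

theorem c3_ctr_pow (φ : Module.Dual ℚ N) (U : Submodule ℚ N) {p : ℕ} {y : ExteriorAlgebra ℚ N}
    (hy : y ∈ (U.map (ι ℚ)) ^ (p + 1)) :
    ctr φ y ∈ ((U ⊓ LinearMap.ker φ).map (ι ℚ)) ^ p := by
  have hu0 : ∃ u0 : N, ∀ u ∈ U, u - φ u • u0 ∈ U ⊓ LinearMap.ker φ := by
    by_cases hz : ∀ u ∈ U, φ u = 0
    · refine ⟨0, fun u hu => ?_⟩
      rw [smul_zero, sub_zero]
      exact ⟨hu, hz u hu⟩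
    · push Not at hz
      obtain ⟨v, hv, hv0⟩ := hz
      refine ⟨(φ v)⁻¹ • v, fun u hu => ⟨?_, ?_⟩⟩
      · exact U.sub_mem hu (U.smul_mem _ (U.smul_mem _ hv))
      · change φ _ = 0
        rw [map_sub, map_smul, map_smul, smul_eq_mul, smul_eq_mul, inv_mul_cancel₀ hv0, mul_one,
          sub_self]
  obtain ⟨u0, h⟩ := hu0
  rw [pow_succ'] at hy
  refine Submodule.mul_induction_on hy ?_ ?_
  · rintro _ ⟨u, hu, rfl⟩ x hx
    have ih := c3_aux φ u0 h hx
    rw [c3_split φ u u0]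
    exact Submodule.sub_mem _ (Submodule.smul_mem _ _ ih.1) (ih.2 _ (h u hu))
  · intro x y hx hy
    rw [map_add]
    exact Submodule.add_mem _ hx hy

theorem c3_prod_mem {V : Type} (U : Submodule ℚ N) (g : V → N) (l : List V)
    (hl : ∀ x ∈ l, g x ∈ U) :
    (l.map fun x => ι ℚ (g x)).prod ∈ (U.map (ι ℚ)) ^ l.length := by
  induction l with
  | nil =>
    rw [List.map_nil, List.prod_nil, List.length_nil, pow_zero]
    exact Submodule.one_le.mp le_rfl
  | cons x l ih =>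
    rw [List.map_cons, List.prod_cons, List.length_cons]
    exact c3_mem_succ (hl x (List.mem_cons_self ..))
      (ih fun y hy => hl y (List.mem_cons_of_mem _ hy))

end

theorem c3_KK_pow (k a : ℕ) : ∀ U : Submodule ℚ (Nt n), (∀ u ∈ U, ∀ b, a ≤ b → u.2 b = 0) →
    ∀ y ∈ (U.map (ι ℚ)) ^ (k + a),
      KK a y ∈ wedge (U.comap (LinearMap.inl ℚ (Fin n → ℚ) (ℕ → ℚ))) k := by
  induction a with
  | zero =>
    intro U hU y hy
    have h1 : pr y ∈ ((U.map (ι ℚ)) ^ k).map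
        (ExteriorAlgebra.map (LinearMap.fst ℚ (Fin n → ℚ) (ℕ → ℚ))).toLinearMap :=
      Submodule.mem_map_of_mem hy
    rw [Submodule.map_pow] at h1
    refine (pow_le_pow_left' ?_ k : _ ≤ wedge _ k) h1
    rintro _ ⟨_, ⟨u, hu, rfl⟩, rfl⟩
    refine ⟨u.1, ?_, ?_⟩
    · have h2 : u.2 = 0 := funext fun b => hU u hu b (Nat.zero_le b)
      change (u.1, (0 : ℕ → ℚ)) ∈ U
      rw [← h2]
      exact hu
    · simp
  | succ a ih =>
    intro U hU y hy
    have h1 := c3_ctr_pow (lam a) U (p := k + a) hy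
    have h2 := ih (U ⊓ LinearMap.ker (lam a)) (fun u hu b hb => by
      rcases hb.eq_or_lt with rfl | hb
      · exact hu.2
      · exact hU u hu.1 b hb) _ h1
    refine (pow_le_pow_left' ?_ k : wedge _ k ≤ wedge _ k) h2
    exact Submodule.map_mono (Submodule.comap_mono inf_le_left)

namespace Col

variable (c : Col X)

theorem c3_step {a : ℕ} {s d : ℤ} {σ : Set (Pt n)} {x : Mt n}
    (hx : x ∈ c.Af (a + 1) s d σ) :
    ∃ z ∈ c.Af a (s - 1) (d - 1) σ, KK (a + 1) x = KK a z := by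
  obtain ⟨y, hy, _, ⟨z, hz, rfl⟩, rfl⟩ := Submodule.mem_sup.mp hx
  refine ⟨z, hz, ?_⟩
  have h1 : lam a (c.e (σ, a)) = 1 := by simp [lam, e]
  change KK a (ctr (lam a) _) = _
  rw [map_add, c.ctr_lam_Af le_rfl hy, ctr_mul, c.ctr_lam_Af le_rfl hz, h1, map_zero, one_smul,
    sub_zero, zero_add]

theorem KK_Af_low {a : ℕ} {s d : ℤ} (hs : s < a) {σ : Set (Pt n)} {x : Mt n}
    (hx : x ∈ c.Af a s d σ) : KK a x = 0 := by
  induction a generalizing s d x with
  | zero =>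
    have h : c.Af 0 s d σ = ⊥ := c.Af_neg 0 (Or.inl (by simpa using hs)) σ
    rw [h, Submodule.mem_bot] at hx
    rw [hx, map_zero]
  | succ a ih =>
    obtain ⟨z, hz, h⟩ := c.c3_step hx
    rw [h]
    exact ih (by push_cast at hs; omega) hz

theorem KK_mem_F (a p : ℕ) {s : ℤ} {σ : Set (Pt n)} {x : Mt n}
    (hx : x ∈ c.Af a s ((p + a : ℕ) : ℤ) σ) : KK a x ∈ X.F p σ := by
  induction a generalizing s x with
  | zero =>
    unfold Af at hx
    split_ifs at hx with h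
    · rw [Submodule.mem_bot] at hx
      rw [hx, map_zero]
      exact Submodule.zero_mem _
    · obtain ⟨y, hy, rfl⟩ := hx
      change pr (jj y) ∈ _
      rw [pr_jj]
      simpa using hy
  | succ a ih =>
    obtain ⟨z, hz, h⟩ := c.c3_step hx
    rw [h]
    have e1 : ((p + (a + 1) : ℕ) : ℤ) - 1 = ((p + a : ℕ) : ℤ) := by push_cast; ring
    rw [e1] at hz
    exact ih hz

/-- The contracted product of the rays of a mixed cell is parallel to the cell. -/
theorem KK_prod {l : List (Vx n)} (hl : ∀ x ∈ l, x.2 ≤ c.M) {k : ℕ}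
    (hk : l.length = k + (c.M + 1)) :
    KK (c.M + 1) (l.map fun x => ι ℚ (c.e x)).prod ∈ wedge (c.Tl l) k := by
  refine c3_KK_pow k (c.M + 1) _ ?_ _ ?_
  · intro u hu b hb
    induction hu using Submodule.span_induction with
    | mem u hu =>
      obtain ⟨x, hx, rfl⟩ := hu
      have hne : b ≠ x.2 := by
        have := hl x hx
        omega
      simp [e, Pi.single_eq_of_ne hne]
    | zero => rfl
    | add u v _ _ hu hv => simp [hu, hv]
    | smul r u _ hu => simp [hu]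
  · rw [← hk]
    exact c3_prod_mem _ c.e l fun x hx => Submodule.subset_span ⟨x, hx, rfl⟩

end Col

end H5T
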