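import Pool.Agent.Lib.MP_e9c0f3_ag.H5T.Base

/-! Colours: the real constants of a complex are spread over finitely many rational
specialisations. Definitions only. -/

open ExteriorAlgebra
open scoped Classical

noncomputable section

namespace H5T

/-- The lattice of the total space. -/
abbrev Nt (n : ℕ) := (Fin n → ℚ) × (ℕ → ℚ)

/-- Multivectors of the total space. -/
abbrev Mt (n : ℕ) := ExteriorAlgebra ℚ (Nt n)

/-- Coloured cells. -/
abbrev Vx (n : ℕ) := Set (Pt n) × ℕ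

variable {n : ℕ}

/-- Colours `0, …, M`. -/
structure Col (X : TropCx n) where
  M : ℕ
  t : ℕ → ℝ
  f : ℕ → ℝ →ₗ[ℚ] ℚ
  K : Set (Pt n) → ℕ → Set (Pt n)
  t_pos : ∀ a ≤ M, 0 < t a
  sub_mem : ∀ σ ∈ X.cells, ∀ ρ ∈ X.cells, ρ ⊆ σ → ∀ a ≤ M,
    ((fun i => f a (X.pt σ i)) - fun i => f a (X.pt ρ i)) ∈ tang σ
  sep : ∀ σ ∈ X.cells, ∀ ρ ∈ X.cells, ρ ⊂ σ → ∃ φ : Module.Dual ℚ (Nt n),
    (∀ v ∈ tang ρ, φ (v, 0) = 0) ∧
    (∀ a ≤ M, φ (fun i => f a (X.pt ρ i), Pi.single a 1) = 0) ∧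
    ∀ a ≤ M, φ (fun i => f a (X.pt σ i), Pi.single a 1) ≠ 0
  K_convex : ∀ σ ∈ X.cells, ∀ a ≤ M, Convex ℝ (K σ a)
  K_mem : ∀ σ ∈ X.cells, ∀ ρ ∈ X.cells, ρ ⊆ σ → ∀ a ≤ M, rv (fun i => f a (X.pt ρ i)) ∈ K σ a
  K_sum : ∀ σ ∈ X.cells, ∀ y : ℕ → Pt n, (∀ a ≤ M, y a ∈ K σ a) →
    ∑ a ∈ Finset.range (M + 1), t a • y a ∈ σ

/-- The inclusion of multivectors of the fibre into those of the total space. -/
def jj : Mv n →ₗ[ℚ] Mt n := (ExteriorAlgebra.map (LinearMap.inl ℚ (Fin n → ℚ) (ℕ → ℚ))).toLinearMap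

/-- The projection back. -/
def pr : Mt n →ₗ[ℚ] Mv n := (ExteriorAlgebra.map (LinearMap.fst ℚ (Fin n → ℚ) (ℕ → ℚ))).toLinearMap

/-- The colour coordinate `a`. -/
def lam (a : ℕ) : Module.Dual ℚ (Nt n) := LinearMap.proj a ∘ₗ LinearMap.snd ℚ (Fin n → ℚ) (ℕ → ℚ)

/-- Left multiplication by a vector. -/
def mul {N : Type} [AddCommGroup N] [Module ℚ N] (v : N) :
    ExteriorAlgebra ℚ N →ₗ[ℚ] ExteriorAlgebra ℚ N := LinearMap.mulLeft ℚ (ι ℚ v)

/-- Contract the colours `a - 1, …, 0` in this order and project to the fibre. -/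
def KK : ℕ → Mt n →ₗ[ℚ] Mv n
  | 0 => pr
  | a + 1 => KK a ∘ₗ ctr (lam a)

/-- The sedentarity ideal of the total space. -/
def TropCx.It (X : TropCx n) (σ : Set (Pt n)) : Submodule ℚ (Mt n) :=
  ((X.sed σ).map (LinearMap.inl ℚ (Fin n → ℚ) (ℕ → ℚ))).map (ι ℚ) * ⊤

/-- Strictly decreasing chains of coloured cells below `σ`, with colours at most `M`. -/
def TropCx.CF (X : TropCx n) (M : ℕ) (l : List (Vx n)) (σ : Set (Pt n)) : Prop :=
  l.Pairwise (fun x y => y.1 ⊆ x.1 ∧ x.2 ≤ y.2 ∧ x ≠ y) ∧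
    ∀ x ∈ l, x.1 ∈ X.cells ∧ x.1 ⊆ σ ∧ x.2 ≤ M

/-- `l` contains `J` and uses all colours `0, …, M`. -/
def Full (M : ℕ) (J l : List (Vx n)) : Prop := J ⊆ l ∧ ∀ a ≤ M, ∃ x ∈ l, x.2 = a

/-- Null chains of the mixed subdivision, localised at `J`. -/
def TropCx.ZZ {E : Type} [AddCommGroup E] [Module ℚ E] (X : TropCx n) (M : ℕ) (J : List (Vx n))
    (I : Set (Pt n) → Submodule ℚ E) : Submodule ℚ (List (Vx n) →₀ E) :=
  X.Z (X.CF M) I ⊔ Finsupp.supported E ℚ {l | ¬ Full M J l}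

/-- The vertex of the mixed subdivision at the cell `σ`. -/
def vert (M : ℕ) (σ : Set (Pt n)) : List (Vx n) := (List.range (M + 1)).map fun a => (σ, a)

namespace Col

variable {X : TropCx n} (c : Col X)

/-- The rational specialisation number `a` of the point of `σ`. -/
def bb (σ : Set (Pt n)) (a : ℕ) : Fin n → ℚ := fun i => c.f a (X.pt σ i)

/-- The ray of the total space at a coloured cell. -/
def e (x : Vx n) : Nt n := (c.bb x.1 x.2, Pi.single x.2 1)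

/-- Multi-tangent spaces of the total space over the first `a` colours, filtered by the number
`s` of colour factors, in degree `d`. -/
def Af : ℕ → ℤ → ℤ → Set (Pt n) → Submodule ℚ (Mt n)
  | 0, s, d, σ => if s < 0 ∨ d < 0 then ⊥ else (X.F d.toNat σ).map jj
  | a + 1, s, d, σ => Af a s d σ ⊔ (Af a (s - 1) (d - 1) σ).map (mul (c.e (σ, a)))

/-- The multi-tangent space of the total space. -/
def Ft (d : ℕ) (σ : Set (Pt n)) : Submodule ℚ (Mt n) := c.Af (c.M + 1) (c.M + 1) d σ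

/-- Directions of the mixed cell `l`. -/
def Tl (l : List (Vx n)) : Submodule ℚ (Fin n → ℚ) :=
  (Submodule.span ℚ (c.e '' {x | x ∈ l})).comap (LinearMap.inl ℚ (Fin n → ℚ) (ℕ → ℚ))

end Col

end H5T
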