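import Mathlib

/-! Tropical homology (Itenberg, Katzarkov, Mikhalkin, Zharkov) of polyhedral complexes with
rational slopes, real edge lengths and sedentary boundary faces. -/

open Matrix ExteriorAlgebra
open scoped TensorProduct Classical

noncomputable section

namespace H5T

/-- Points of `ℝ^n`. -/
abbrev Pt (n : ℕ) := Fin n → ℝ

/-- Rational multivectors. -/
abbrev Mv (n : ℕ) := ExteriorAlgebra ℚ (Fin n → ℚ)

/-- Short names for the structures that come from Mathlib. -/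
instance mvRing (n : ℕ) : Ring (Mv n) := CliffordAlgebra.instRing _

instance mvAlgebra (n : ℕ) : Algebra ℚ (Mv n) := CliffordAlgebra.instAlgebra _

instance mvGroup (n : ℕ) : AddCommGroup (Mv n) := inferInstance

instance mvMonoid (n : ℕ) : AddCommMonoid (Mv n) := inferInstance

instance mvZero (n : ℕ) : Zero (Mv n) := inferInstance

instance mvModule (n : ℕ) : Module ℚ (Mv n) := inferInstance

/-- Real multivectors. -/
abbrev MvR (n : ℕ) := ℝ ⊗[ℚ] Mv n

instance mvRGroup (n : ℕ) : AddCommGroup (MvR n) := inferInstance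

instance mvRModule (n : ℕ) : Module ℚ (MvR n) := inferInstance

variable {n : ℕ} {V E E' : Type} [AddCommGroup E] [Module ℚ E] [AddCommGroup E'] [Module ℚ E']

/-- Contraction with a linear form. -/
def ctr (f : Module.Dual ℚ E) : ExteriorAlgebra ℚ E →ₗ[ℚ] ExteriorAlgebra ℚ E :=
  CliffordAlgebra.contractLeft f

/-- A rational vector as a real vector. -/
def rv : (Fin n → ℚ) →ₗ[ℚ] Pt n := (Algebra.linearMap ℚ ℝ).compLeft (Fin n)

/-- The rational vectors parallel to `S`. -/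
def tang (S : Set (Pt n)) : Submodule ℚ (Fin n → ℚ) :=
  ((vectorSpan ℝ S).restrictScalars ℚ).comap rv

/-- The `p`-th exterior power of a subspace. -/
def wedge (T : Submodule ℚ (Fin n → ℚ)) (p : ℕ) : Submodule ℚ (Mv n) := (T.map (ι ℚ)) ^ p

/-- A finite polyhedral complex in `ℝ^n` with rational slopes and real constants, a point in the
relative interior of every cell, and the directions `ray σ` of the ends cut off at the cell `σ`. -/
structure TropCx (n : ℕ) where
  cells : Finset (Set (Pt n))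
  pt : Set (Pt n) → Pt n
  ray : Set (Pt n) → Finset (Fin n → ℚ)
  poly : ∀ σ ∈ cells, ∃ S : Finset ((Fin n → ℚ) × ℝ), σ = {x | ∀ h ∈ S, h.2 ≤ rv h.1 ⬝ᵥ x}
  face_mem : ∀ σ ∈ cells, ∀ ρ, IsExposed ℝ σ ρ → ρ.Nonempty → ρ ∈ cells
  inter_face : ∀ σ ∈ cells, ∀ ρ ∈ cells, IsExposed ℝ σ (σ ∩ ρ)
  pt_mem : ∀ σ ∈ cells, pt σ ∈ intrinsicInterior ℝ σ
  ray_anti : ∀ σ ∈ cells, ∀ ρ ∈ cells, ρ ⊆ σ → ray σ ⊆ ray ρ
  ray_indep : ∀ σ ∈ cells, LinearIndepOn ℚ id (ray σ : Set (Fin n → ℚ))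
  ray_disj : ∀ σ ∈ cells, Disjoint (Submodule.span ℚ (ray σ : Set (Fin n → ℚ))) (tang σ)

/-- Chains whose coefficient at the simplex `l` lies in `G l`. -/
def Ch (G : List V → Submodule ℚ E) : Submodule ℚ (List V →₀ E) :=
  ⨅ l, (G l).comap (Finsupp.lapply l)

/-- The simplicial boundary. -/
def bd : (List V →₀ E) →ₗ[ℚ] (List V →₀ E) :=
  Finsupp.lsum ℚ fun l =>
    ∑ i ∈ Finset.range l.length, (-1 : ℚ) ^ i • Finsupp.lsingle (l.eraseIdx i)

/-- Cap product with the `1`-cochain `c`: drop the first vertex, act on the coefficient by the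
value of `c` on the first edge. -/
def cap (c : V → V → E →ₗ[ℚ] E') : (List V →₀ E) →ₗ[ℚ] (List V →₀ E') :=
  Finsupp.lsum ℚ fun l => match l with
    | x :: y :: l => Finsupp.lsingle (y :: l) ∘ₗ c x y
    | _ => 0

/-- Extension of scalars to `ℝ`. -/
def re (G : Set (Pt n) → Submodule ℚ (Mv n)) (σ : Set (Pt n)) :
    Submodule ℚ (MvR n) := ((G σ).baseChange ℝ).restrictScalars ℚ

/-- The Lefschetz operator: cap product with the divisor class with local slopes `m`. -/
def lef (m : Set (Pt n) → Module.Dual ℚ (Fin n → ℚ)) :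
    Module.End ℚ (List (Set (Pt n)) →₀ Mv n) :=
  cap fun σ ρ => ctr (m σ - m ρ)

namespace TropCx

variable (X : TropCx n)

/-- The sedentarity subspace. -/
def sed (σ : Set (Pt n)) : Submodule ℚ (Fin n → ℚ) := Submodule.span ℚ (X.ray σ : Set (Fin n → ℚ))

/-- The multi-tangent space `F_p(σ)`, before division by the sedentarity. -/
def F (p : ℕ) (σ : Set (Pt n)) : Submodule ℚ (Mv n) :=
  ⨆ η ∈ X.cells, ⨆ _ : σ ⊆ η, wedge (tang η) p

/-- The ideal generated by the sedentarity subspace. -/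
def I (σ : Set (Pt n)) : Submodule ℚ (Mv n) := (X.sed σ).map (ι ℚ) * ⊤

/-- `l` is a strictly decreasing flag of cells contained in `σ`. -/
def Flag (l : List (Set (Pt n))) (σ : Set (Pt n)) : Prop :=
  l.Pairwise (· ⊃ ·) ∧ ∀ ρ ∈ l, ρ ∈ X.cells ∧ ρ ⊆ σ

/-- `q`-chains on the simplices `l` carried by a cell `σ`, with coefficients in `G σ`. -/
def C (car : List V → Set (Pt n) → Prop) (G : Set (Pt n) → Submodule ℚ E) (q : ℕ) :
    Submodule ℚ (List V →₀ E) :=
  Ch fun l => ⨆ σ ∈ X.cells, ⨆ _ : car l σ ∧ l.length = q + 1, G σ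

/-- Chains that are zero: coefficients in `G σ`, and any coefficient on the empty simplex. -/
def Z (car : List V → Set (Pt n) → Prop) (G : Set (Pt n) → Submodule ℚ E) :
    Submodule ℚ (List V →₀ E) :=
  Ch fun l => if l = [] then ⊤ else ⨆ σ ∈ X.cells, ⨆ _ : car l σ, G σ

/-- Boundaries of bidegree `(p, q)`. -/
def B (car : List V → Set (Pt n) → Prop) (p q : ℕ) :
    Submodule ℚ (List V →₀ Mv n) :=
  (X.C car (X.F p) (q + 1)).map bd ⊔ X.Z car X.I

/-- Cycles of bidegree `(p, q)` of the barycentric subdivision. -/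
def Cyc (p q : ℕ) : Submodule ℚ (List (Set (Pt n)) →₀ Mv n) :=
  X.C X.Flag (X.F p) q ⊓ (X.Z X.Flag X.I).comap bd

/-- The eigenwave operator. -/
def wave :
    (List (Set (Pt n)) →₀ Mv n) →ₗ[ℚ] (List (Set (Pt n)) →₀ MvR n) :=
  cap fun σ ρ => ∑ i, TensorProduct.mk ℚ ℝ (Mv n) (X.pt σ i - X.pt ρ i) ∘ₗ
    LinearMap.mulLeft ℚ (ι ℚ (Pi.single i 1))

/-- Local homology vanishes in bidegrees `(p, q)` with `q < p`, at every simplex `φ` of the
barycentric subdivision. -/
def LocVan : Prop :=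
  ∀ φ : List (Set (Pt n)), φ ≠ [] → ∀ p q, q < p → ∀ z ∈ X.C X.Flag (X.F p) q,
    bd z ∈ X.Z X.Flag X.I ⊔ Finsupp.supported _ ℚ {l | ¬ φ ⊆ l} →
    z ∈ X.B X.Flag p q ⊔ Finsupp.supported _ ℚ {l | ¬ φ ⊆ l}

/-- Hard Lefschetz in dimension `d` for the divisor class with local slopes `m`. -/
def HardLef (d : ℕ) (m : Set (Pt n) → Module.Dual ℚ (Fin n → ℚ)) : Prop :=
  (∀ σ ∈ X.cells, Module.finrank ℚ (tang σ) ≤ d) ∧
  (∀ σ ∈ X.cells, ∀ ρ ∈ X.cells, ρ ⊆ σ → ∀ v ∈ X.sed σ, m σ v = m ρ v) ∧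
  ∀ p q j, p + q + j = d →
    (∀ z ∈ X.Cyc (p + j) (q + j), (lef m ^ j) z ∈ X.B X.Flag p q →
      z ∈ X.B X.Flag (p + j) (q + j)) ∧
    ∀ z ∈ X.Cyc p q, ∃ y ∈ X.Cyc (p + j) (q + j), z - (lef m ^ j) y ∈ X.B X.Flag p q

end TropCx

/-- All vertices of the affine simplex `l` lie in `σ`. -/
def Inside (l : List (Pt n)) (σ : Set (Pt n)) : Prop := ∀ x ∈ l, x ∈ σ

/-- Points and rational directions. A list of them stands for the convex hull of the points plus
the cone spanned by the directions. -/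
abbrev PD (n : ℕ) := Pt n ⊕ (Fin n → ℚ)

/-- The rational vectors parallel to the polyhedron given by `l`. -/
def tangE (l : List (PD n)) : Submodule ℚ (Fin n → ℚ) :=
  ((vectorSpan ℝ {x | Sum.inl x ∈ l} ⊔ Submodule.span ℝ (rv '' {d | Sum.inr d ∈ l})).restrictScalars
    ℚ).comap rv

/-- `l` has a point, its points lie in `σ` and its directions are rays of `σ`. -/
def TropCx.Car (X : TropCx n) (l : List (PD n)) (σ : Set (Pt n)) : Prop :=
  (∃ x, Sum.inl x ∈ l) ∧ (∀ x, Sum.inl x ∈ l → x ∈ σ) ∧ ∀ d, Sum.inr d ∈ l → d ∈ X.ray σ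

/-- Tropical `k`-cycles in the union of the polyhedra `σ + cone (ray σ)`: every polyhedron carries
a multivector parallel to it, and the boundary vanishes at every face that has a point. -/
def TropCx.TropCyc (X : TropCx n) (k : ℕ) (W : List (PD n) →₀ Mv n) : Prop :=
  W ∈ X.C X.Car (fun _ => ⊤) k ∧ (∀ l, W l ∈ wedge (tangE l) k) ∧
    ∀ l, (∃ x, Sum.inl x ∈ l) → bd W l = 0

/-- The bounded part of a chain: the polyhedra without directions. -/
def cut (W : List (PD n) →₀ Mv n) : List (Pt n) →₀ Mv n :=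
  W.comapDomain (List.map Sum.inl) (List.map_injective_iff.2 Sum.inl_injective).injOn

/-- The rays of the fan of a product of projective spaces: the indicator vectors of the blocks of
coordinates and the vectors `-e_i`. -/
def fan {m : ℕ} (blk : Fin n → Fin m) : Fin m ⊕ Fin n → Fin n → ℚ :=
  Sum.elim (fun t i => if blk i = t then 1 else 0) fun i => -Pi.single i 1

/-- The monomials that are maximal at `x` in the tropical polynomial `max (ex a · x + co a)` of
their colour. -/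
def tops {s c : ℕ} (col : Fin s → Fin c) (ex : Fin s → Fin n → ℚ) (co : Fin s → ℝ) (x : Pt n) :
    Set (Fin s) :=
  {a | ∀ b, col b = col a → rv (ex b) ⬝ᵥ x + co b ≤ rv (ex a) ⬝ᵥ x + co a}

/-- The coordinates that occur in the polynomials with colour in `B`. -/
def used {s c : ℕ} (col : Fin s → Fin c) (ex : Fin s → Fin n → ℚ) (B : Finset (Fin c)) :
    Set (Fin n) :=
  {i | ∃ a b, col a ∈ B ∧ col b = col a ∧ ex a i ≠ ex b i}

/-- `X` is the intersection of the corner loci of `c` tropical polynomials, whose Cayley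
subdivision is a triangulation, cut off far out by the product of simplices `fan j · x ≤ R`: a
simple complete intersection in a product of tropical projective spaces. -/
def TropCx.IsCI (X : TropCx n) {m s c : ℕ} (blk : Fin n → Fin m) (col : Fin s → Fin c)
    (ex : Fin s → Fin n → ℚ) (co : Fin s → ℝ) (R : ℝ) : Prop :=
  0 < R ∧ (∀ x, LinearIndependent ℚ fun a : tops col ex co x =>
    ((Pi.single (col a) 1 : Fin c → ℚ), ex a)) ∧
  (∀ x j, (∀ i, rv (fan blk i) ⬝ᵥ x ≤ R) → rv (fan blk j) ⬝ᵥ x = R →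
    ∀ a ∈ tops col ex co x, ∀ b, col b = col a → ex b ⬝ᵥ fan blk j ≤ ex a ⬝ᵥ fan blk j) ∧
  (∀ σ, σ ∈ X.cells ↔ σ.Nonempty ∧ ∃ (τ : Set (Fin s)) (J : Set (Fin m ⊕ Fin n)),
    (∀ i, (τ ∩ col ⁻¹' {i}).Nontrivial) ∧ σ = {x | τ ⊆ tops col ex co x ∧
      (∀ i, rv (fan blk i) ⬝ᵥ x ≤ R) ∧ ∀ j ∈ J, rv (fan blk j) ⬝ᵥ x = R}) ∧
  ∀ σ ∈ X.cells, ↑(X.ray σ) = fan blk '' {j | ∀ x ∈ σ, rv (fan blk j) ⬝ᵥ x = R}

end H5T
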