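import Mathlib

/-! Degeneration of a filtered complex with a Lefschetz operator (the argument of Deligne). -/

namespace H5T

variable {M : Type} [AddCommGroup M] [Module ℚ M]

/-- `A s d g` : filtration step `s`, coefficient degree `d`, length `g`; `Z` : null chains.
Hard Lefschetz holds on the first page, centred at weight `d - s + g = n`. -/
structure Good (A : ℤ → ℤ → ℤ → Submodule ℚ M) (Z : Submodule ℚ M) (D L : M →ₗ[ℚ] M)
    (n b : ℤ) : Prop where
  null_le : ∀ s d g, Z ≤ A s d g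
  neg : ∀ s d g, s < 0 → A s d g ≤ Z
  mono : ∀ s d g, A (s - 1) d g ≤ A s d g
  DD : ∀ x, D (D x) = 0
  DL : ∀ x, D (L x) + L (D x) ∈ Z
  mapD : ∀ s d g, ∀ x ∈ A s d g, D x ∈ A s d (g - 1)
  mapL : ∀ s d g, ∀ x ∈ A s d g, L x ∈ A s (d - 1) (g - 1)
  bound : ∀ s d g, b < d - s + g → A s d g ≤ A (s - 1) d g
  inj : ∀ s d g (j : ℕ), d - s + g = n + j → ∀ x ∈ A s d g, D x ∈ A (s - 1) d (g - 1) →
    (L ^ j) x ∈ (A s (d - j) (g - j + 1)).map D ⊔ A (s - 1) (d - j) (g - j) →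
    x ∈ (A s d (g + 1)).map D ⊔ A (s - 1) d g
  surj : ∀ s d g (j : ℕ), d - s + g + j = n → ∀ y ∈ A s d g, D y ∈ A (s - 1) d (g - 1) →
    ∃ x ∈ A s (d + j) (g + j), D x ∈ A (s - 1) (d + j) (g + j - 1) ∧
      y - (L ^ j) x ∈ (A s d (g + 1)).map D ⊔ A (s - 1) d g

section
variable {A : ℤ → ℤ → ℤ → Submodule ℚ M} {Z : Submodule ℚ M} {D L : M →ₗ[ℚ] M} {n b : ℤ}

theorem dl_cast {s d g s' d' g' : ℤ} {x : M} (hx : x ∈ A s d g) (hs : s = s') (hd : d = d')
    (hg : g = g') : x ∈ A s' d' g' := by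
  subst hs hd hg; exact hx

theorem Good.dl_DZ (h : Good A Z D L n b) {x : M} (hx : x ∈ Z) : D x ∈ Z :=
  h.neg (-1) 0 (0 - 1) (by norm_num) (h.mapD _ _ _ x (h.null_le (-1) 0 0 hx))

theorem Good.dl_LZ (h : Good A Z D L n b) {x : M} (hx : x ∈ Z) : L x ∈ Z :=
  h.neg (-1) (0 - 1) (0 - 1) (by norm_num) (h.mapL _ _ _ x (h.null_le (-1) 0 0 hx))

theorem Good.dl_mono (h : Good A Z D L n b) {s s' d g : ℤ} (hs : s ≤ s') {x : M}
    (hx : x ∈ A s d g) : x ∈ A s' d g := by
  obtain ⟨k, rfl⟩ := Int.le.dest hs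
  clear hs
  induction k with
  | zero => exact dl_cast hx (by simp) rfl rfl
  | succ k ih => exact h.mono _ _ _ (dl_cast ih (by push_cast; ring) rfl rfl)

theorem Good.dl_pow (h : Good A Z D L n b) (j : ℕ) {s d g : ℤ} {x : M} (hx : x ∈ A s d g) :
    (L ^ j) x ∈ A s (d - j) (g - j) := by
  induction j with
  | zero => exact dl_cast hx rfl (by simp) (by simp)
  | succ j ih =>
    rw [pow_succ', Module.End.mul_apply]
    exact dl_cast (h.mapL _ _ _ _ ih) rfl (by push_cast; ring) (by push_cast; ring)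

/-- `D` and the powers of `L` commute up to sign and null chains. -/
theorem Good.dl_comm (h : Good A Z D L n b) (j : ℕ) :
    ∃ e : ℚ, e * e = 1 ∧ ∀ x, D ((L ^ j) x) - e • (L ^ j) (D x) ∈ Z := by
  induction j with
  | zero => exact ⟨1, by norm_num, fun x => by simp⟩
  | succ j ih =>
    obtain ⟨e, he, ih⟩ := ih
    refine ⟨-e, by rw [neg_mul_neg, he], fun x => ?_⟩
    have h1 := h.DL ((L ^ j) x)
    have h2 := h.dl_LZ (ih x)
    have h3 := Z.sub_mem h1 h2
    rw [pow_succ', Module.End.mul_apply, Module.End.mul_apply]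
    convert h3 using 1
    rw [map_sub, map_smul, neg_smul]
    abel

theorem dl_B1 {s d g : ℤ} {x : M} :
    x ∈ (A s d (g + 1)).map D ⊔ A (s - 1) d g ↔
      ∃ a ∈ A s d (g + 1), x - D a ∈ A (s - 1) d g := by
  constructor
  · intro hx
    obtain ⟨y, hy, c, hc, rfl⟩ := Submodule.mem_sup.1 hx
    obtain ⟨a, ha, rfl⟩ := Submodule.mem_map.1 hy
    exact ⟨a, ha, by simpa using hc⟩
  · rintro ⟨a, ha, hc⟩
    exact Submodule.mem_sup.2 ⟨D a, Submodule.mem_map_of_mem ha, x - D a, hc, by abel⟩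

/-- Injectivity on the second page. -/
theorem Good.dl_inj2 (h : Good A Z D L n b) {s d g : ℤ} {j : ℕ} (hw : d - s + g = n + j) {x : M}
    (hx : x ∈ A s d g) (hD : D x ∈ A (s - 1) d (g - 1)) {a : M}
    (ha : a ∈ A (s + 1) (d - j) (g - j + 1)) (hc : (L ^ j) x - D a ∈ A (s - 1) (d - j) (g - j)) :
    ∃ a' ∈ A (s + 1) d (g + 1), x - D a' ∈ A (s - 1) d g := by
  have hDa : D a ∈ A (s + 1 - 1) (d - j) (g - j + 1 - 1) := by
    have h1 := (A s (d - j) (g - j)).sub_mem (h.dl_pow j hx) (h.mono _ _ _ hc)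
    rw [sub_sub_cancel] at h1
    exact dl_cast h1 (by ring) rfl (by ring)
  obtain ⟨a', ha', hDa', hr⟩ := h.surj (s + 1) (d - j) (g - j + 1) j (by linarith) a ha hDa
  obtain ⟨u, -, hf⟩ := dl_B1.1 hr
  obtain ⟨e, -, he⟩ := h.dl_comm j
  have ha1 : a' ∈ A (s + 1) d (g + 1) := dl_cast ha' rfl (by ring) (by ring)
  have hDa1 : D a' ∈ A s d g := dl_cast hDa' (by ring) (by ring) (by ring)
  have hy : x - e • D a' ∈ A s d g := sub_mem hx (Submodule.smul_mem _ _ hDa1)
  have hDy : D (x - e • D a') ∈ A (s - 1) d (g - 1) := by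
    rw [map_sub, map_smul, h.DD, smul_zero, sub_zero]; exact hD
  have hL : (L ^ j) (x - e • D a') ∈
      (A s (d - j) (g - j + 1)).map D ⊔ A (s - 1) (d - j) (g - j) := by
    refine dl_B1.2 ⟨a - (L ^ j) a' - D u, dl_cast hf (by ring) rfl rfl, ?_⟩
    have h2 := add_mem hc (h.null_le (s - 1) (d - j) (g - j) (he a'))
    convert h2 using 1
    simp only [map_sub, map_smul, h.DD]
    abel
  obtain ⟨v, hv, hv2⟩ := dl_B1.1 (h.inj s d g j hw _ hy hDy hL)
  refine ⟨e • a' + v, add_mem (Submodule.smul_mem _ _ ha1) (h.dl_mono (by linarith) hv), ?_⟩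
  convert hv2 using 1
  rw [map_add, map_smul]
  abel

/-- Surjectivity on the second page. -/
theorem Good.dl_surj2 (h : Good A Z D L n b) {s d g : ℤ} {j : ℕ} (hw : d - s + g + j = n) {y : M}
    (hy : y ∈ A s d g) (hD : D y ∈ A (s - 2) d (g - 1)) :
    ∃ x ∈ A s (d + j) (g + j), D x ∈ A (s - 2) (d + j) (g + j - 1) ∧
      ∃ c ∈ A (s - 1) d g, D (y - (L ^ j) x - c) = 0 := by
  obtain ⟨x, hx, hDx, hr⟩ := h.surj s d g j hw y hy (h.dl_mono (by linarith) hD)
  obtain ⟨u, -, hf⟩ := dl_B1.1 hr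
  obtain ⟨e, he1, he⟩ := h.dl_comm j
  have hL : (L ^ j) (D x) ∈ (A (s - 1) (d + j - j) (g + j - 1 - j + 1)).map D ⊔
      A (s - 1 - 1) (d + j - j) (g + j - 1 - j) := by
    refine dl_B1.2 ⟨-e • (y - (L ^ j) x - D u),
      Submodule.smul_mem _ _ (dl_cast hf rfl (by ring) (by ring)), ?_⟩
    have h1 : D y ∈ A (s - 1 - 1) (d + j - j) (g + j - 1 - j) :=
      dl_cast hD (by ring) (by ring) (by ring)
    have h2 := Submodule.smul_mem _ e (sub_mem h1 (h.null_le _ _ _ (he x)))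
    convert h2 using 1
    simp only [map_sub, map_smul, h.DD, smul_sub, smul_smul, he1, one_smul, neg_smul, map_neg,
      smul_zero]
    abel
  have hDD : D (D x) ∈ A (s - 1 - 1) (d + j) (g + j - 1 - 1) := by rw [h.DD]; exact zero_mem _
  obtain ⟨c, hc, hc2⟩ := dl_B1.1 (h.inj (s - 1) (d + j) (g + j - 1) j (by linarith) _ hDx hDD hL)
  have hc1 : c ∈ A (s - 1) (d + j) (g + j) := dl_cast hc rfl rfl (by ring)
  refine ⟨x - c, sub_mem hx (h.mono _ _ _ hc1), ?_, y - (L ^ j) x - D u + (L ^ j) c, ?_, ?_⟩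
  · rw [map_sub]; exact dl_cast hc2 (by ring) rfl rfl
  · exact add_mem hf (dl_cast (h.dl_pow j hc1) rfl (by ring) (by ring))
  · rw [← h.DD u]
    congr 1
    rw [map_sub]
    abel

/-- `x` becomes a cycle after a change in the lower step. -/
def dlR (A : ℤ → ℤ → ℤ → Submodule ℚ M) (Z : Submodule ℚ M) (D : M →ₗ[ℚ] M) (s d g : ℤ)
    (x : M) : Prop := ∃ x' ∈ A (s - 1) d g, D (x - x') ∈ Z

/-- All classes of the second page in step `s` survive. -/
def dlQ (A : ℤ → ℤ → ℤ → Submodule ℚ M) (Z : Submodule ℚ M) (D : M →ₗ[ℚ] M) (s : ℤ) : Prop :=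
  ∀ d g x, x ∈ A s d g → D x ∈ A (s - 2) d (g - 1) → dlR A Z D s d g x

theorem Good.dl_Rpow (h : Good A Z D L n b) (j : ℕ) {s d g : ℤ} {x : M}
    (hx : dlR A Z D s d g x) : dlR A Z D s (d - j) (g - j) ((L ^ j) x) := by
  obtain ⟨x', hx', hz⟩ := hx
  obtain ⟨e, -, he⟩ := h.dl_comm j
  refine ⟨(L ^ j) x', h.dl_pow j hx', ?_⟩
  have h1 : (L ^ j) (D (x - x')) ∈ Z :=
    h.neg (-1) _ _ (by norm_num) (h.dl_pow j (h.null_le (-1) 0 0 hz))
  have h2 := add_mem (he (x - x')) (Submodule.smul_mem _ e h1)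
  rwa [sub_add_cancel, map_sub (L ^ j)] at h2

theorem Good.dl_down (h : Good A Z D L n b) {s : ℤ} (hQ : ∀ s' < s, dlQ A Z D s') {t d g : ℤ}
    (k : ℕ) (hk : t + 1 + k < s) {c : M} (hc : c ∈ A (t + 1 + k) d (g + 1))
    (hD : D c ∈ A t d g) : ∃ a ∈ A (t + 1) d (g + 1), D c - D a ∈ Z := by
  induction k generalizing c with
  | zero => exact ⟨c, dl_cast hc (by simp) rfl rfl, by simp⟩
  | succ k ih =>
    obtain ⟨x', hx', hz⟩ := hQ _ hk d (g + 1) c hc
      (h.dl_mono (by push_cast; omega) (dl_cast hD rfl rfl (by ring)))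
    rw [map_sub] at hz
    have h1 : D x' ∈ A t d g := by
      have := sub_mem hD (h.null_le t d g hz)
      rwa [sub_sub_cancel] at this
    obtain ⟨a, ha, hz2⟩ := ih (by push_cast at hk; omega)
      (dl_cast hx' (by push_cast; ring) rfl rfl) h1
    refine ⟨a, ha, ?_⟩
    have := add_mem hz hz2
    rwa [sub_add_sub_cancel] at this

theorem Good.dl_prim (h : Good A Z D L n b) {s : ℤ} (hQ : ∀ s' < s, dlQ A Z D s') {d g : ℤ}
    {m : ℕ} (hm : d - s + g + 1 = n + m) {x : M} (hD : D x ∈ A (s - 2) d (g - 1))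
    (hR : dlR A Z D s (d - m) (g - m) ((L ^ m) x)) : dlR A Z D s d g x := by
  have key : ∀ i : ℕ, ∃ x' ∈ A (s - 1) d g, D (x - x') ∈ A (s - 2 - i) d (g - 1) := by
    intro i
    induction i with
    | zero => exact ⟨0, zero_mem _, by rw [sub_zero]; exact dl_cast hD (by simp) rfl rfl⟩
    | succ i ih =>
      obtain ⟨x', hx', hy⟩ := ih
      obtain ⟨c, hc, hz⟩ := h.dl_Rpow i hR
      rw [← Module.End.mul_apply, ← pow_add] at hz
      obtain ⟨e, he1, he⟩ := h.dl_comm (i + m)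
      have hc0 : c - (L ^ (i + m)) x' ∈
          A (s - 2 - i + 1 + i) (d - (i + m : ℕ)) (g - 1 - (i + m : ℕ) + 1) :=
        sub_mem (dl_cast hc (by ring) (by push_cast; ring) (by push_cast; ring))
          (dl_cast (h.dl_pow _ hx') (by ring) rfl (by ring))
      have hz1 : D (c - (L ^ (i + m)) x') - e • (L ^ (i + m)) (D (x - x')) ∈ Z := by
        have := sub_mem (he (x - x')) hz
        convert this using 1
        simp only [map_sub]
        abel
      have hDc0 : D (c - (L ^ (i + m)) x') ∈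
          A (s - 2 - i) (d - (i + m : ℕ)) (g - 1 - (i + m : ℕ)) := by
        have := add_mem (h.null_le _ _ _ hz1) (Submodule.smul_mem _ e (h.dl_pow (i + m) hy))
        rwa [sub_add_cancel] at this
      obtain ⟨a, ha, hz2⟩ := h.dl_down hQ i (by linarith) hc0 hDc0
      have hDD : D (D (x - x')) ∈ A (s - 2 - i - 1) d (g - 1 - 1) := by
        rw [h.DD]; exact zero_mem _
      have hfin : (L ^ (i + m)) (D (x - x')) - D (e • a) ∈
          A (s - 2 - i - 1) (d - (i + m : ℕ)) (g - 1 - (i + m : ℕ)) := by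
        have := Submodule.smul_mem _ e (sub_mem hz2 hz1)
        refine h.null_le _ _ _ ?_
        convert this using 1
        simp only [map_smul, smul_sub, smul_smul, he1, one_smul]
        abel
      obtain ⟨a', ha', hr⟩ := h.dl_inj2 (j := i + m) (by push_cast; linarith) hy hDD
        (Submodule.smul_mem _ e ha) hfin
      refine ⟨x' + a', add_mem hx' (h.dl_mono (by omega) (dl_cast ha' rfl rfl (by ring))), ?_⟩
      rw [← sub_sub, map_sub]
      exact dl_cast hr (by push_cast; ring) rfl rfl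
  obtain ⟨x', hx', hy⟩ := key s.toNat
  exact ⟨x', hx', h.neg _ _ _ (by omega) hy⟩

theorem Good.dl_from (h : Good A Z D L n b) {s d g : ℤ} {j : ℕ} (hw : d - s + g + j = n)
    (hup : ∀ x, x ∈ A s (d + j) (g + j) → D x ∈ A (s - 2) (d + j) (g + j - 1) →
      dlR A Z D s (d + j) (g + j) x)
    {y : M} (hy : y ∈ A s d g) (hD : D y ∈ A (s - 2) d (g - 1)) : dlR A Z D s d g y := by
  obtain ⟨x, hx, hDx, c, hc, h0⟩ := h.dl_surj2 hw hy hD
  obtain ⟨x', hx', hz⟩ := h.dl_Rpow j (hup x hx hDx)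
  refine ⟨c + x', add_mem hc (dl_cast hx' rfl (by ring) (by ring)), ?_⟩
  have : y - (c + x') = (y - (L ^ j) x - c) + ((L ^ j) x - x') := by abel
  rw [this, map_add, h0, zero_add]
  exact hz

theorem Good.dl_pos (h : Good A Z D L n b) {s : ℤ} (hQ : ∀ s' < s, dlQ A Z D s') (k : ℕ) :
    ∀ d g x, n ≤ d - s + g → b - k < d - s + g → x ∈ A s d g → D x ∈ A (s - 2) d (g - 1) →
      dlR A Z D s d g x := by
  induction k with
  | zero =>
    intro d g x _ hb hx _
    exact ⟨x, h.bound s d g (by simpa using hb) hx, by simp⟩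
  | succ k ih =>
    intro d g x hn hb hx hD
    obtain ⟨w, hw⟩ := Int.le.dest hn
    refine h.dl_prim hQ (m := w + 1) (by push_cast; linarith) hD ?_
    obtain ⟨e, -, he⟩ := h.dl_comm (w + 1)
    refine h.dl_from (j := w + 2) (by push_cast; linarith) (fun y hy hDy => ?_)
      (h.dl_pow _ hx) ?_
    · exact ih _ _ y (by push_cast; linarith) (by push_cast at hb ⊢; linarith) hy hDy
    · have := add_mem (h.null_le _ _ _ (he x)) (Submodule.smul_mem _ e (h.dl_pow (w + 1) hD))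
      rw [sub_add_cancel] at this
      exact dl_cast this rfl rfl (by ring)

theorem Good.dl_step (h : Good A Z D L n b) {s : ℤ} (hQ : ∀ s' < s, dlQ A Z D s') :
    dlQ A Z D s := by
  intro d g x hx hD
  rcases le_total n (d - s + g) with hn | hn
  · exact h.dl_pos hQ ((b - (d - s + g)).toNat + 1) d g x hn (by omega) hx hD
  · obtain ⟨j, hj⟩ := Int.le.dest hn
    exact h.dl_from hj (fun y hy hDy =>
      h.dl_pos hQ ((b - (d + j - s + (g + j))).toNat + 1) _ _ y (by omega) (by omega) hy hDy) hx hD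

theorem Good.dl_all (h : Good A Z D L n b) (k : ℕ) : ∀ s < (k : ℤ), dlQ A Z D s := by
  induction k with
  | zero =>
    intro s hs d g x _ hD
    exact ⟨0, zero_mem _, by rw [sub_zero]; exact h.neg _ _ _ (by omega) hD⟩
  | succ k ih =>
    intro s hs
    exact h.dl_step fun s' hs' => ih s' (by omega)

end

/-- A class of the first page killed by the first differential lifts to a cycle. -/
theorem Good.lift {A : ℤ → ℤ → ℤ → Submodule ℚ M} {Z : Submodule ℚ M} {D L : M →ₗ[ℚ] M}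
    {n b : ℤ} (h : Good A Z D L n b) {s d g : ℤ} {x : M} (hx : x ∈ A s d g)
    (hD : D x ∈ (A (s - 1) d g).map D ⊔ A (s - 2) d (g - 1)) :
    ∃ x' ∈ A (s - 1) d g, D (x - x') ∈ Z := by
  obtain ⟨y, hy, c, hc, hyc⟩ := Submodule.mem_sup.1 hD
  obtain ⟨a, ha, rfl⟩ := Submodule.mem_map.1 hy
  have h1 : D (x - a) ∈ A (s - 2) d (g - 1) := by
    rw [map_sub, ← hyc, add_sub_cancel_left]; exact hc
  obtain ⟨x', hx', hz⟩ := h.dl_all (s.toNat + 1) s (by omega) d g (x - a)
    (sub_mem hx (h.mono _ _ _ ha)) h1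
  exact ⟨a + x', add_mem ha hx', by rw [← sub_sub]; exact hz⟩

end H5T
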