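import Pool.Agent.Lib.MP_e9c0f3_ag.H5T.Base

/-! Tropical cycles with unbounded cells. -/

open scoped Classical

noncomputable section

namespace H5T

variable {n : ℕ}

/-- Simplicial sedentarity: compatible bases `ray σ` of the subspaces `sed σ`. The variety is the
union of the polyhedra `σ + cone (ray σ)`. -/
structure Rays (X : TropCx n) where
  ray : Set (Pt n) → Finset (Fin n → ℚ)
  span_ray : ∀ σ ∈ X.cells, X.sed σ = Submodule.span ℚ (ray σ)
  indep : ∀ σ ∈ X.cells, LinearIndepOn ℚ id (ray σ : Set (Fin n → ℚ))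
  anti : ∀ σ ∈ X.cells, ∀ ρ ∈ X.cells, ρ ⊆ σ → ray σ ⊆ ray ρ

/-- `l` has a point, its points lie in `σ` and its directions are rays of `σ`. -/
def Rays.Car {X : TropCx n} (R : Rays X) (l : List (PD n)) (σ : Set (Pt n)) : Prop :=
  (∃ x, Sum.inl x ∈ l) ∧ (∀ x, Sum.inl x ∈ l → x ∈ σ) ∧ ∀ d, Sum.inr d ∈ l → d ∈ R.ray σ

/-- Tropical `k`-cycles: every polyhedron carries a multivector parallel to it, and the boundary
vanishes at every face that has a point. -/
def Rays.Cycle {X : TropCx n} (R : Rays X) (k : ℕ) (W : List (PD n) →₀ Mv n) : Prop :=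
  W ∈ X.C R.Car (fun _ => ⊤) k ∧ (∀ l, W l ∈ wedge (tangE l) k) ∧
    ∀ l, (∃ x, Sum.inl x ∈ l) → bd W l = 0

/-- The rays that come with the complex. -/
def TropCx.rays (X : TropCx n) : Rays X :=
  ⟨X.ray, fun _ _ => rfl, X.ray_indep, X.ray_anti⟩

end H5T
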