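import Pool.Agent.Lib.MP_e9c0f3_ag.H5T.EndsA
import Pool.Agent.Lib.MP_e9c0f3_ag.H5T.EndsDefs

/-! A straight cycle of the truncated complex is the bounded part of a tropical cycle. -/

open ExteriorAlgebra
open scoped Classical

noncomputable section

namespace H5T

variable {n : ℕ} {X : TropCx n}

namespace EA

/-- The real directions of a list. -/
def dirE (l : List (PD n)) : Submodule ℝ (Pt n) :=
  vectorSpan ℝ {x | Sum.inl x ∈ l} ⊔ Submodule.span ℝ (rv '' {d | Sum.inr d ∈ l})

theorem tangE_eq (l : List (PD n)) : tangE l = rat (dirE l) := rfl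

theorem dirE_mono {l l' : List (PD n)} (h : l ⊆ l') : dirE l ≤ dirE l' :=
  sup_le_sup (vectorSpan_mono ℝ fun _ hx => h hx)
    (Submodule.span_mono (Set.image_mono fun _ hx => h hx))

theorem exists_extra {l g : List (PD n)} (hs : l.Sublist g) (hl : l.length + 1 = g.length) :
    ∃ y, ∀ x ∈ g, x ∈ l ∨ x = y := by
  obtain ⟨r, hr⟩ := hs.exists_perm_append
  have h1 := hr.length_eq
  rw [List.length_append] at h1
  obtain ⟨y, rfl⟩ := List.length_eq_one_iff.1 (show r.length = 1 by omega)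
  exact ⟨y, fun x hx => by simpa using hr.subset hx⟩

theorem dirE_step {l g : List (PD n)} {p : Pt n} (hp : Sum.inl p ∈ l) {y : PD n}
    (h : ∀ x ∈ g, x ∈ l ∨ x = y) : ∃ w, dirE g ≤ dirE l ⊔ Submodule.span ℝ {w} := by
  refine ⟨Sum.elim (fun x => x - p) (fun d => rv d) y, sup_le ?_ ?_⟩
  · have key : ∀ x, Sum.inl x ∈ g → x - p ∈
        dirE l ⊔ Submodule.span ℝ {Sum.elim (fun x => x - p) (fun d => rv d) y} := by
      intro x hx
      rcases h _ hx with h1 | rfl
      · exact Submodule.mem_sup_left (Submodule.mem_sup_left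
          (vsub_mem_vectorSpan ℝ (s := {x | Sum.inl x ∈ l}) h1 hp))
      · exact Submodule.mem_sup_right (Submodule.mem_span_singleton_self _)
    rw [vectorSpan_def, Submodule.span_le]
    rintro _ ⟨a, ha, b, hb, rfl⟩
    have := sub_mem (key a ha) (key b hb)
    rwa [sub_sub_sub_cancel_right] at this
  · rw [Submodule.span_le]
    rintro _ ⟨d, hd, rfl⟩
    rcases h _ hd with h1 | rfl
    · exact Submodule.mem_sup_left (Submodule.mem_sup_right (Submodule.subset_span ⟨d, h1, rfl⟩))
    · exact Submodule.mem_sup_right (Submodule.mem_span_singleton_self _)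

theorem bd_apply_mem {V E : Type} [AddCommGroup E] [Module ℚ E] {G : List V → Submodule ℚ E}
    {l : List V} {S : Submodule ℚ E}
    (h : ∀ g, l.Sublist g → l.length + 1 = g.length → G g ≤ S) {z : List V →₀ E}
    (hz : z ∈ Ch G) : bd z l ∈ S := by
  have := mem_Ch.1 (bd_mem_Ch (H := fun l' => if l' = l then S else ⊤) (fun g l' hs hl => ?_) hz) l
  · simpa using this
  · split_ifs with e
    · subst e; exact h g hs hl
    · exact le_top

variable (R : Rays X)

/-- Straight coefficients on lists that do not use the rays in `s`. -/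
def G (k : ℕ) (s : Finset (Fin n → ℚ)) (l : List (PD n)) : Submodule ℚ (Mv n) :=
  if (∃ σ ∈ X.cells, R.Car l σ) ∧ l.length = k + 1 ∧ ∀ d, Sum.inr d ∈ l → d ∉ s
  then wedge (tangE l) k else ⊥

/-- The ideal of the rays in `s`. -/
def J (s : Finset (Fin n → ℚ)) (l : List (PD n)) : Submodule ℚ (Mv n) :=
  if ∃ x, Sum.inl x ∈ l then
    ⨆ σ ∈ X.cells, ⨆ _ : ∀ x, Sum.inl x ∈ l → x ∈ σ,
      (Submodule.span ℚ ((R.ray σ ∩ s : Finset _) : Set (Fin n → ℚ))).map (ι ℚ) * ⊤
  else ⊤

theorem J_anti (s : Finset (Fin n → ℚ)) {l l' : List (PD n)}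
    (h : ∀ x, Sum.inl x ∈ l' → Sum.inl x ∈ l) : J R s l ≤ J R s l' := by
  unfold J
  by_cases h1 : ∃ x, Sum.inl x ∈ l'
  · obtain ⟨x, hx⟩ := h1
    rw [if_pos ⟨x, h x hx⟩, if_pos ⟨x, hx⟩]
    exact iSup₂_mono fun σ _ => iSup_le fun hσ => le_iSup_of_le (fun y hy => hσ y (h y hy)) le_rfl
  · rw [if_neg h1]
    exact le_top

/-- The boundary splits into a part along the ray `d` and a part in the ideal of the others. -/
theorem split {k : ℕ} {s : Finset (Fin n → ℚ)} {d : Fin n → ℚ} (hd : d ∉ s)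
    {W : List (PD n) →₀ Mv n} (hW : W ∈ Ch (G R k (insert d s)))
    (hb : bd W ∈ Ch (J R (insert d s))) (l : List (PD n)) :
    bd W l ∈ G R k s (Sum.inr d :: l) ⊔ J R s l := by
  by_cases hp : ∃ x, Sum.inl x ∈ l
  swap
  · rw [J, if_neg hp]; simp
  by_cases h0 : bd W l = 0
  · rw [h0]; exact zero_mem _
  obtain ⟨p, hp⟩ := hp
  -- the list is a facet of a list in the support
  have hex : ∃ g, l.Sublist g ∧ l.length + 1 = g.length ∧ G R k (insert d s) g ≠ ⊥ := by
    by_contra hn
    refine h0 ((Submodule.mem_bot ℚ).1 (bd_apply_mem (fun g h1 h2 => ?_) hW))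
    by_contra h3
    exact hn ⟨g, h1, h2, fun e => h3 e.le⟩
  obtain ⟨g0, hg1, hg2, hg3⟩ := hex
  obtain ⟨⟨σ, hσ, hc⟩, hlen, hdir⟩ : (∃ σ ∈ X.cells, R.Car g0 σ) ∧ g0.length = k + 1 ∧
      ∀ e, Sum.inr e ∈ g0 → e ∉ insert d s := by
    by_contra hn
    exact hg3 (if_neg hn)
  obtain ⟨ρ, hρ, hin, hmin⟩ := exists_min X (P := {x | Sum.inl x ∈ l}) ⟨p, hp⟩ hσ
    fun x hx => hc.2.1 x (hg1.subset hx)
  have hray : ∀ e, Sum.inr e ∈ l → e ∈ R.ray ρ := fun e he =>
    R.anti σ hσ ρ hρ (hmin σ hσ fun x hx => hc.2.1 x (hg1.subset hx)) (hc.2.2 e (hg1.subset he))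
  obtain ⟨m, rfl⟩ : ∃ m, k = m + 1 := ⟨k - 1, by have := List.length_pos_of_mem hp; omega⟩
  set U := tang ρ ⊔ Submodule.span ℚ {e | Sum.inr e ∈ l} with hU
  set D := Submodule.span ℚ ((R.ray ρ ∩ insert d s : Finset _) : Set (Fin n → ℚ)) with hD
  have hreal : dirE l ≤ real U := by
    refine sup_le ((vectorSpan_mono ℝ hin).trans
      ((dir_le_real X hρ).trans (real_mono le_sup_left))) ?_
    rw [Submodule.span_le]
    rintro _ ⟨e, he, rfl⟩
    exact rv_mem_real.2 (Submodule.mem_sup_right (Submodule.subset_span he))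
  have hT : tangE l ≤ U := fun a ha => rv_mem_real.1 (hreal ha)
  have hdis : Disjoint U D := by
    have h1 : Disjoint {e | Sum.inr e ∈ l}
        ((R.ray ρ ∩ insert d s : Finset _) : Set (Fin n → ℚ)) :=
      Set.disjoint_left.2 fun e he h => hdir e (hg1.subset he) (Finset.mem_inter.1 h).2
    have h2 := ((linearIndepOn_union_iff h1).1 ((R.indep ρ hρ).mono
      (Set.union_subset hray fun e he => (Finset.mem_inter.1 he).1))).2.2
    rw [Set.image_id, Set.image_id] at h2
    rw [Submodule.disjoint_def]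
    intro x hx hxD
    obtain ⟨t, ht, u, hu, rfl⟩ := Submodule.mem_sup.1 hx
    have h3 : t ∈ X.sed ρ := by
      rw [R.span_ray ρ hρ]
      have := sub_mem (Submodule.span_mono (fun e he => (Finset.mem_inter.1 he).1) hxD :
        t + u ∈ Submodule.span ℚ (R.ray ρ : Set _)) (Submodule.span_mono hray hu)
      rwa [add_sub_cancel_right] at this
    have h4 : t = 0 := Submodule.disjoint_def.1 (X.sed_disj ρ hρ) t h3 ht
    rw [h4, zero_add] at hxD ⊢
    exact Submodule.disjoint_def.1 h2 u hu hxD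
  have h1 : bd W l ∈ (⊤ : Submodule ℚ (Fin n → ℚ)).map (ι ℚ) * wedge (tangE l) m ⊔
      wedge U (m + 1) := by
    refine bd_apply_mem (fun g hs hl => ?_) hW
    unfold G
    split_ifs
    swap
    · exact bot_le
    obtain ⟨y, hy⟩ := exists_extra hs hl
    obtain ⟨w, hw⟩ := dirE_step hp hy
    rcases rat_step hreal hw with h | ⟨a, h⟩
    · exact (wedge_mono h _).trans le_sup_right
    · intro c hc
      obtain ⟨u, hu, z, hz, rfl⟩ := wedge_sup _ a m c (wedge_mono h _ hc)
      exact Submodule.add_mem_sup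
        (Submodule.mul_mem_mul (Submodule.mem_map_of_mem Submodule.mem_top) hu)
        (wedge_mono hT _ hz)
  have h2 : bd W l ∈ D.map (ι ℚ) * (⊤ : Submodule ℚ (Mv n)) := by
    have h3 := mem_Ch.1 hb l
    rw [J, if_pos ⟨p, hp⟩] at h3
    refine SetLike.le_def.1 ?_ h3
    refine iSup₂_le fun η hη => iSup_le fun h => ?_
    exact mul_le_mul' (Submodule.map_mono (Submodule.span_mono (Finset.coe_subset.2
      (Finset.inter_subset_inter_right (R.anti η hη ρ hρ (hmin η hη h)))))) le_rfl
  refine Submodule.mul_induction_on (mem_ideal_split hT hdis h1 h2) (fun u hu y hy => ?_)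
    fun u v hu hv => add_mem hu hv
  obtain ⟨w, hw, rfl⟩ := hu
  induction hw using Submodule.span_induction with
  | mem e he =>
    obtain ⟨he1, he2⟩ := Finset.mem_inter.1 he
    rcases Finset.mem_insert.1 he2 with rfl | he2
    · refine Submodule.mem_sup_left ?_
      rw [G, if_pos]
      · refine mul_mem_wedge ?_ (wedge_mono ?_ _ hy)
        · exact Submodule.mem_sup_right (Submodule.subset_span ⟨e, List.mem_cons_self, rfl⟩)
        · exact fun a ha => dirE_mono (List.subset_cons_self _ _) ha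
      · refine ⟨⟨ρ, hρ, ⟨p, List.mem_cons_of_mem _ hp⟩, fun x hx => hin (by simpa using hx),
          fun f hf => ?_⟩, by rw [List.length_cons]; omega, fun f hf => ?_⟩
        · rcases List.mem_cons.1 hf with h | h
          · rw [Sum.inr.inj h]; exact he1
          · exact hray f h
        · rcases List.mem_cons.1 hf with h | h
          · rw [Sum.inr.inj h]; exact hd
          · exact fun h' => hdir f (hg1.subset h) (Finset.mem_insert_of_mem h')
    · refine Submodule.mem_sup_right ?_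
      rw [J, if_pos ⟨p, hp⟩]
      refine Submodule.mem_iSup_of_mem ρ (Submodule.mem_iSup_of_mem hρ
        (Submodule.mem_iSup_of_mem hin (Submodule.mul_mem_mul (Submodule.mem_map_of_mem
          (Submodule.subset_span ?_)) Submodule.mem_top)))
      exact Finset.mem_coe.2 (Finset.mem_inter.2 ⟨he1, he2⟩)
  | zero => rw [map_zero, zero_mul]; exact zero_mem _
  | add a b _ _ ha hb => rw [map_add, add_mul]; exact add_mem ha hb
  | smul c a _ ha => rw [map_smul, smul_mul_assoc]; exact Submodule.smul_mem _ _ ha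

theorem all_rays {k : ℕ} (s : Finset (Fin n → ℚ)) :
    ∀ W : List (PD n) →₀ Mv n, W ∈ Ch (G R k s) → bd W ∈ Ch (J R s) →
      ∃ W' ∈ Ch (G R k ∅), bd W' ∈ Ch (J R ∅) ∧
        ∀ l : List (Pt n), W' (l.map Sum.inl) = W (l.map Sum.inl) := by
  induction s using Finset.induction_on with
  | empty => exact fun W h1 h2 => ⟨W, h1, h2, fun _ => rfl⟩
  | insert d s hd ih =>
    intro W h1 h2
    have h3 : bd W ∈ Ch fun l => G R k s (Sum.inr d :: l) ⊔ J R s l :=
      mem_Ch.2 (split R hd h1 h2)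
    rw [Ch_sup] at h3
    obtain ⟨γ, hγ, β, hβ, e⟩ := Submodule.mem_sup.1 h3
    have h4 : W ∈ Ch (G R k s) := by
      refine Ch_mono (fun l => ?_) h1
      by_cases h : (∃ σ ∈ X.cells, R.Car l σ) ∧ l.length = k + 1 ∧
          ∀ e, Sum.inr e ∈ l → e ∉ insert d s
      · rw [G, G, if_pos h,
          if_pos ⟨h.1, h.2.1, fun e he h' => h.2.2 e he (Finset.mem_insert_of_mem h')⟩]
      · rw [G, if_neg h]; exact bot_le
    have h5 : cons (Sum.inr d) γ ∈ Ch (G R k s) :=
      map_mem_of_Ch (cons (Sum.inr d)) (fun l b hb => by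
        rw [cons_single]; exact single_mem_Ch hb) hγ
    have h6 : bd γ = - bd β := by
      rw [eq_neg_iff_add_eq_zero, ← map_add, e, bd_bd]
    have h7 : cons (Sum.inr d) (bd β) ∈ Ch (J R s) :=
      map_mem_of_Ch (cons (Sum.inr d)) (fun l b hb => by
        rw [cons_single]
        exact single_mem_Ch (J_anti R s (fun x hx => by simpa using hx) hb))
        (bd_mem_Ch (fun l l' hs _ => J_anti R s fun x hx => hs.subset hx) hβ)
    obtain ⟨W', h8, h9, h10⟩ := ih (W - cons (Sum.inr d) γ) (sub_mem h4 h5) (by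
      rw [map_sub, bd_cons, h6, map_neg, ← e, sub_neg_eq_add, add_sub_add_left_eq_sub]
      exact sub_mem hβ h7)
    refine ⟨W', h8, h9, fun l => ?_⟩
    rw [h10, Finsupp.sub_apply, sub_eq_self]
    refine Finsupp.mapDomain_of_notMem_range _ _ ?_
    rintro ⟨l', hl'⟩
    have : Sum.inr d ∈ l.map (Sum.inl : Pt n → PD n) := hl' ▸ List.mem_cons_self
    simp at this

theorem bd_map {V V' E : Type} [AddCommGroup E] [Module ℚ E] (f : V → V') (z : List V →₀ E) :
    bd (Finsupp.lmapDomain E ℚ (List.map f) z) = Finsupp.lmapDomain E ℚ (List.map f) (bd z) := by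
  induction z using Finsupp.induction_linear with
  | zero => simp
  | add a b ha hb => simp only [map_add, ha, hb]
  | single l β =>
    rw [Finsupp.lmapDomain_apply, Finsupp.mapDomain_single, bd_single, bd_single, map_sum,
      List.length_map]
    refine Finset.sum_congr rfl fun i _ => ?_
    rw [map_smul, Finsupp.lmapDomain_apply, Finsupp.mapDomain_single, List.eraseIdx_map]

end EA

open EA in
/-- A straight cycle of the truncated complex is the bounded part of a tropical cycle. -/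
theorem Rays.exists_cycle (R : Rays X) {k : ℕ} {G : Set (Pt n) → Submodule ℚ (Mv n)}
    {z : List (Pt n) →₀ Mv n} (hz : z ∈ X.C Inside G k) (hs : z ∈ Straight k)
    (hb : bd z ∈ X.Z Inside X.I) :
    ∃ W, R.Cycle k W ∧ ∀ l : List (Pt n), W (l.map Sum.inl) = z l := by
  set s := X.cells.biUnion R.ray with hs'
  have hset : ∀ l : List (Pt n), {x | Sum.inl x ∈ l.map (Sum.inl : Pt n → PD n)} = {x | x ∈ l} :=
    fun l => by ext x; simp
  have h1 : Finsupp.lmapDomain (Mv n) ℚ (List.map Sum.inl) z ∈ Ch (EA.G R k s) := by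
    refine map_mem_of_Ch (G := fun l => EA.G R k s (l.map Sum.inl)) _ (fun l b hb => ?_)
      (mem_Ch.2 fun l => ?_)
    · rw [Finsupp.lmapDomain_apply, Finsupp.mapDomain_single]
      exact single_mem_Ch hb
    · by_cases h : ∃ σ ∈ X.cells, Inside l σ ∧ l.length = k + 1
      · obtain ⟨σ, hσ, hin, hl⟩ := h
        obtain ⟨x, hx⟩ := List.exists_mem_of_length_pos (show 0 < l.length by omega)
        rw [EA.G, if_pos ⟨⟨σ, hσ, ⟨x, by simpa using hx⟩, fun y hy => hin y (by simpa using hy),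
          fun d hd => by simp at hd⟩, by simpa using hl, fun d hd => by simp at hd⟩]
        refine wedge_mono (fun a ha => ?_) k (mem_Ch.1 hs l)
        refine Submodule.mem_sup_left ?_
        rw [hset]
        exact ha
      · refine SetLike.le_def.1 ?_ (mem_Ch.1 hz l)
        exact iSup₂_le fun σ hσ => iSup_le fun h' => absurd ⟨σ, hσ, h'⟩ h
  have h2 : bd (Finsupp.lmapDomain (Mv n) ℚ (List.map Sum.inl) z) ∈ Ch (J R s) := by
    rw [bd_map]
    refine map_mem_of_Ch _ (fun l b hb => ?_) hb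
    rw [Finsupp.lmapDomain_apply, Finsupp.mapDomain_single]
    refine single_mem_Ch ?_
    unfold J
    split_ifs with h
    swap
    · trivial
    rw [if_neg (by rintro rfl; simp at h)] at hb
    refine SetLike.le_def.1 ?_ hb
    refine iSup₂_mono fun σ hσ => iSup_le fun h' => le_iSup_of_le
      (fun x hx => h' x (by simpa using hx)) ?_
    rw [Finset.inter_eq_left.2 (Finset.subset_biUnion_of_mem R.ray hσ), ← R.span_ray σ hσ]
    exact le_rfl
  obtain ⟨W, h3, h4, h5⟩ := all_rays R s _ h1 h2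
  refine ⟨W, ⟨Ch_mono (fun l => ?_) h3, fun l => ?_, fun l hl => ?_⟩, fun l => ?_⟩
  · unfold EA.G
    split_ifs with h
    · obtain ⟨⟨σ, hσ, hc⟩, hl, -⟩ := h
      exact le_iSup₂_of_le σ hσ (le_iSup_of_le ⟨hc, hl⟩ le_top)
    · exact bot_le
  · have := mem_Ch.1 h3 l
    unfold EA.G at this
    split_ifs at this
    · exact this
    · rw [(Submodule.mem_bot ℚ).1 this]; exact zero_mem _
  · have := mem_Ch.1 h4 l
    rw [J, if_pos hl] at this
    simpa using this
  · rw [h5, Finsupp.lmapDomain_apply,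
      Finsupp.mapDomain_apply (List.map_injective_iff.2 Sum.inl_injective)]

theorem Rays.exists_cycle_cut (R : Rays X) {k : ℕ} {G : Set (Pt n) → Submodule ℚ (Mv n)}
    {z : List (Pt n) →₀ Mv n} (hz : z ∈ X.C Inside G k) (hs : z ∈ Straight k)
    (hb : bd z ∈ X.Z Inside X.I) : ∃ W, R.Cycle k W ∧ cut W = z := by
  obtain ⟨W, h1, h2⟩ := R.exists_cycle hz hs hb
  exact ⟨W, h1, Finsupp.ext h2⟩

end H5T
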