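import Pool.Agent.Lib.MP_e9c0f3_ag.H5T.Geo

/-! Linear algebra for the unbounded ends of a straight cycle. -/

open Matrix ExteriorAlgebra
open scoped Classical

noncomputable section

namespace H5T

variable {n : ℕ}

namespace EA

theorem wedge_mono {T T' : Submodule ℚ (Fin n → ℚ)} (h : T ≤ T') (p : ℕ) :
    wedge T p ≤ wedge T' p := by
  induction p with
  | zero => simp [wedge]
  | succ p ih =>
    simp only [wedge, pow_succ'] at ih ⊢
    exact mul_le_mul' (Submodule.map_mono h) ih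

theorem wedge_succ (T : Submodule ℚ (Fin n → ℚ)) (p : ℕ) :
    wedge T (p + 1) = T.map (ι ℚ) * wedge T p := pow_succ' _ _

theorem mul_mem_wedge {T : Submodule ℚ (Fin n → ℚ)} {p : ℕ} {v : Fin n → ℚ} (hv : v ∈ T)
    {y : Mv n} (hy : y ∈ wedge T p) : ι ℚ v * y ∈ wedge T (p + 1) := by
  rw [wedge_succ]
  exact Submodule.mul_mem_mul (Submodule.mem_map_of_mem hv) hy

/-- Exterior powers of a subspace enlarged by one vector. -/
theorem wedge_sup (T : Submodule ℚ (Fin n → ℚ)) (a : Fin n → ℚ) (p : ℕ) :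
    ∀ c ∈ wedge (T ⊔ Submodule.span ℚ {a}) (p + 1),
      ∃ y ∈ wedge T p, ∃ z ∈ wedge T (p + 1), c = ι ℚ a * y + z := by
  have key : ∀ (q : ℕ) (P : Mv n → Prop), (∀ u v, P u → P v → P (u + v)) →
      (∀ t ∈ T, ∀ r : ℚ, ∀ y ∈ wedge (T ⊔ Submodule.span ℚ {a}) q, P (ι ℚ (t + r • a) * y)) →
      ∀ c ∈ wedge (T ⊔ Submodule.span ℚ {a}) (q + 1), P c := by
    intro q P h1 h2 c hc
    rw [wedge_succ] at hc
    refine Submodule.mul_induction_on hc (fun u hu y hy => ?_) h1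
    obtain ⟨w, hw, rfl⟩ := hu
    obtain ⟨t, ht, s, hs, rfl⟩ := Submodule.mem_sup.1 hw
    obtain ⟨r, rfl⟩ := Submodule.mem_span_singleton.1 hs
    exact h2 t ht r y hy
  have hadd : ∀ (q : ℕ) (u v : Mv n),
      (∃ y ∈ wedge T q, ∃ z ∈ wedge T (q + 1), u = ι ℚ a * y + z) →
      (∃ y ∈ wedge T q, ∃ z ∈ wedge T (q + 1), v = ι ℚ a * y + z) →
      ∃ y ∈ wedge T q, ∃ z ∈ wedge T (q + 1), u + v = ι ℚ a * y + z := by
    rintro q _ _ ⟨y, hy, z, hz, rfl⟩ ⟨y', hy', z', hz', rfl⟩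
    exact ⟨y + y', add_mem hy hy', z + z', add_mem hz hz', by rw [mul_add]; abel⟩
  induction p with
  | zero =>
    refine key 0 _ (hadd 0) fun t ht r y hy => ?_
    have hy' : y ∈ wedge T 0 := by simpa [wedge] using hy
    refine ⟨r • y, Submodule.smul_mem _ _ hy', ι ℚ t * y, mul_mem_wedge ht hy', ?_⟩
    rw [map_add, map_smul, add_mul, smul_mul_assoc, mul_smul_comm, add_comm]
  | succ p ih =>
    refine key (p + 1) _ (hadd (p + 1)) fun t ht r c hc => ?_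
    obtain ⟨y, hy, z, hz, rfl⟩ := ih c hc
    refine ⟨r • z - ι ℚ t * y, sub_mem (Submodule.smul_mem _ _ hz) (mul_mem_wedge ht hy),
      ι ℚ t * z, mul_mem_wedge ht hz, ?_⟩
    have h1 : ι ℚ t * ι ℚ a = -(ι ℚ a * ι ℚ t) :=
      eq_neg_of_add_eq_zero_left (ι_add_mul_swap t a)
    have h2 : (ι ℚ a * ι ℚ a : Mv n) = 0 := ι_sq_zero a
    rw [map_add, map_smul, add_mul, mul_add, smul_mul_assoc, mul_add, ← mul_assoc, ← mul_assoc,
      h1, h2, mul_sub, mul_smul_comm, neg_mul, mul_assoc, zero_mul, zero_add]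
    abel

theorem map_wedge {U : Submodule ℚ (Fin n → ℚ)} (q : (Fin n → ℚ) →ₗ[ℚ] (Fin n → ℚ))
    (hq : ∀ u ∈ U, q u = u) (p : ℕ) : ∀ y ∈ wedge U p, ExteriorAlgebra.map q y = y := by
  induction p with
  | zero =>
    intro y hy
    obtain ⟨r, rfl⟩ := Submodule.mem_one.1 (by simpa [wedge] using hy : y ∈ (1 : Submodule ℚ _))
    exact AlgHom.commutes _ r
  | succ p ih =>
    intro y hy
    rw [wedge_succ] at hy
    refine Submodule.mul_induction_on hy (fun u hu y hy => ?_) fun u v hu hv => ?_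
    · obtain ⟨w, hw, rfl⟩ := hu
      rw [map_mul, ExteriorAlgebra.map_apply_ι, hq w hw, ih y hy]
    · rw [map_add, hu, hv]

/-- A multivector divisible by `T` that lies in the ideal of `D` has its last factor in `D`. -/
theorem mem_ideal_split {T U D : Submodule ℚ (Fin n → ℚ)} (hT : T ≤ U) (hd : Disjoint U D)
    {m : ℕ} {β : Mv n}
    (h1 : β ∈ (⊤ : Submodule ℚ (Fin n → ℚ)).map (ι ℚ) * wedge T m ⊔ wedge U (m + 1))
    (h2 : β ∈ D.map (ι ℚ) * (⊤ : Submodule ℚ (Mv n))) : β ∈ D.map (ι ℚ) * wedge T m := by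
  obtain ⟨U', hU, hc⟩ := hd.exists_isCompl
  set q := U'.projection D hc with hq
  have hqU : ∀ u ∈ U, q u = u := fun u hu => Submodule.projection_apply_of_mem_left hc (hU hu)
  have h3 : ExteriorAlgebra.map q β = 0 := by
    refine Submodule.mul_induction_on h2 (fun u hu y _ => ?_) fun u v hu hv => ?_
    · obtain ⟨w, hw, rfl⟩ := hu
      rw [map_mul, ExteriorAlgebra.map_apply_ι, Submodule.projection_apply_of_mem_right hc hw,
        map_zero, zero_mul]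
    · rw [map_add, hu, hv, add_zero]
  have h4 : β - ExteriorAlgebra.map q β ∈ D.map (ι ℚ) * wedge T m := by
    obtain ⟨a, ha, b, hb, rfl⟩ := Submodule.mem_sup.1 h1
    rw [map_add, map_wedge q hqU _ b hb, add_sub_add_right_eq_sub]
    refine Submodule.mul_induction_on ha (fun u hu y hy => ?_) fun u v hu hv => ?_
    · obtain ⟨w, -, rfl⟩ := hu
      rw [map_mul, ExteriorAlgebra.map_apply_ι, map_wedge q (fun u hu => hqU u (hT hu)) _ y hy,
        ← sub_mul, ← map_sub]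
      exact Submodule.mul_mem_mul
        (Submodule.mem_map_of_mem (Submodule.sub_projection_mem hc w)) hy
    · rw [map_add, add_sub_add_comm]
      exact add_mem hu hv
  rwa [h3, sub_zero] at h4

/-- The real subspace cut out by the rational covectors that kill `U`. -/
def real (U : Submodule ℚ (Fin n → ℚ)) : Submodule ℝ (Pt n) where
  carrier := {y | ∀ h : Fin n → ℚ, (∀ u ∈ U, h ⬝ᵥ u = 0) → rv h ⬝ᵥ y = 0}
  add_mem' := fun ha hb h hh => by rw [dotProduct_add, ha h hh, hb h hh, add_zero]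
  zero_mem' := fun h _ => dotProduct_zero _
  smul_mem' := fun c y hy h hh => by rw [dotProduct_smul, hy h hh, smul_zero]

theorem exists_sep {U : Submodule ℚ (Fin n → ℚ)} {a : Fin n → ℚ} (ha : a ∉ U) :
    ∃ h : Fin n → ℚ, (∀ u ∈ U, h ⬝ᵥ u = 0) ∧ h ⬝ᵥ a ≠ 0 := by
  obtain ⟨f, hf, hU⟩ := U.exists_dual_map_eq_bot_of_notMem ha inferInstance
  have hd : ∀ v, (fun i => f (Pi.single i 1)) ⬝ᵥ v = f v := fun v => by
    rw [LinearMap.pi_apply_eq_sum_univ f v, dotProduct]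
    refine Finset.sum_congr rfl fun i _ => ?_
    rw [smul_eq_mul, mul_comm]
    congr 2
    ext j
    simp [Pi.single_apply, eq_comm]
  refine ⟨fun i => f (Pi.single i 1), fun u hu => ?_, by rwa [hd]⟩
  rw [hd]
  exact (Submodule.mem_bot ℚ).1 (hU ▸ Submodule.mem_map_of_mem hu)

theorem rv_mem_real {U : Submodule ℚ (Fin n → ℚ)} {a : Fin n → ℚ} : rv a ∈ real U ↔ a ∈ U := by
  constructor
  · intro h
    by_contra ha
    obtain ⟨f, h1, h2⟩ := exists_sep ha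
    have := h f h1
    rw [G33.rv_dot] at this
    exact h2 (by exact_mod_cast this)
  · intro ha h hh
    rw [G33.rv_dot, hh a ha, Rat.cast_zero]

theorem real_mono {U U' : Submodule ℚ (Fin n → ℚ)} (h : U ≤ U') : real U ≤ real U' :=
  fun _ hy f hf => hy f fun u hu => hf u (h hu)

/-- The rational points of a real subspace. -/
def rat (W : Submodule ℝ (Pt n)) : Submodule ℚ (Fin n → ℚ) := (W.restrictScalars ℚ).comap rv

theorem mem_rat {W : Submodule ℝ (Pt n)} {a : Fin n → ℚ} : a ∈ rat W ↔ rv a ∈ W := Iff.rfl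

/-- One more real direction gives at most one more rational direction outside `U`. -/
theorem rat_step {U : Submodule ℚ (Fin n → ℚ)} {W W' : Submodule ℝ (Pt n)} {w : Pt n}
    (h1 : W ≤ real U) (h2 : W' ≤ W ⊔ Submodule.span ℝ {w}) :
    rat W' ≤ U ∨ ∃ a, rat W' ≤ rat W ⊔ Submodule.span ℚ {a} := by
  by_cases hU : rat W' ≤ U
  · exact Or.inl hU
  right
  obtain ⟨a, ha, haU⟩ := SetLike.not_le_iff_exists.1 hU
  obtain ⟨f, hf1, hf2⟩ := exists_sep haU
  obtain ⟨v, hv, s, hs, hvs⟩ := Submodule.mem_sup.1 (h2 (mem_rat.1 ha))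
  obtain ⟨r, rfl⟩ := Submodule.mem_span_singleton.1 hs
  refine ⟨a, fun b hb => ?_⟩
  obtain ⟨v', hv', s', hs', hvs'⟩ := Submodule.mem_sup.1 (h2 (mem_rat.1 hb))
  obtain ⟨r', rfl⟩ := Submodule.mem_span_singleton.1 hs'
  have e1 : ((f ⬝ᵥ a : ℚ) : ℝ) = r * (rv f ⬝ᵥ w) := by
    rw [← G33.rv_dot, ← hvs, dotProduct_add, h1 hv f hf1, zero_add, dotProduct_smul, smul_eq_mul]
  have e2 : ((f ⬝ᵥ b : ℚ) : ℝ) = r' * (rv f ⬝ᵥ w) := by
    rw [← G33.rv_dot, ← hvs', dotProduct_add, h1 hv' f hf1, zero_add, dotProduct_smul,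
      smul_eq_mul]
  have e3 : ((f ⬝ᵥ a : ℚ) : ℝ) ≠ 0 := by exact_mod_cast hf2
  have e4 : (((f ⬝ᵥ b) / (f ⬝ᵥ a) : ℚ) : ℝ) * r = r' := by
    have e5 : rv f ⬝ᵥ w ≠ 0 := fun h => e3 (by rw [e1, h, mul_zero])
    have e6 : r ≠ 0 := fun h => e3 (by rw [e1, h, zero_mul])
    rw [Rat.cast_div, e1, e2]
    field_simp
  refine Submodule.mem_sup.2 ⟨b - ((f ⬝ᵥ b) / (f ⬝ᵥ a)) • a, ?_, ((f ⬝ᵥ b) / (f ⬝ᵥ a)) • a,
    Submodule.smul_mem _ _ (Submodule.mem_span_singleton_self a), sub_add_cancel _ _⟩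
  rw [mem_rat, map_sub, map_smul, ← hvs, ← hvs', ← Rat.cast_smul_eq_qsmul ℝ, smul_add, smul_smul,
    e4, add_sub_add_right_eq_sub]
  exact sub_mem hv' (Submodule.smul_mem _ _ hv)

/-- The cells have rational direction spaces. -/
theorem dir_le_real (X : TropCx n) {σ : Set (Pt n)} (hσ : σ ∈ X.cells) :
    vectorSpan ℝ σ ≤ real (tang σ) := by
  intro w hw h hh
  obtain ⟨S, hS⟩ := X.poly σ hσ
  have hp : X.pt σ ∈ σ := intrinsicInterior_subset (X.pt_mem σ hσ)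
  have hmem : ∀ x ∈ σ, ∀ g ∈ S, g.2 ≤ rv g.1 ⬝ᵥ x := fun x hx => by
    rw [hS] at hx; exact hx
  refine (Module.forall_dual_apply_eq_zero_iff ℚ _).1 fun f => ?_
  rw [G33.map_dot]
  refine hh _ ?_
  change rv (fun i => f (w i)) ∈ vectorSpan ℝ σ
  have h3 := G33.mem_dir S (p := X.pt σ) (w := rv fun i => f (w i)) (hmem _ hp) fun g hg ht => by
    have h4 := G33.kill (G33.tight (X.pt_mem σ hσ) (fun x hx => hmem x hx g hg) ht) w hw
    rw [G33.rv_dot, ← G33.map_dot, h4, map_zero, Rat.cast_zero]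
  rwa [← hS] at h3

/-- The smallest cell that contains a nonempty set. -/
theorem exists_min (X : TropCx n) {P σ : Set (Pt n)} (hP : P.Nonempty) (hσ : σ ∈ X.cells)
    (h : P ⊆ σ) : ∃ ρ ∈ X.cells, P ⊆ ρ ∧ ∀ η ∈ X.cells, P ⊆ η → ρ ⊆ η := by
  obtain ⟨ρ, hρ⟩ := (X.cells.filter fun η => P ⊆ η).exists_minimal
    ⟨σ, Finset.mem_filter.2 ⟨hσ, h⟩⟩
  obtain ⟨h1, h2⟩ := Finset.mem_filter.1 hρ.1
  refine ⟨ρ, h1, h2, fun η hη h3 => ?_⟩
  have h4 : P ⊆ ρ ∩ η := Set.subset_inter h2 h3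
  have h5 := X.face_mem ρ h1 _ (X.inter_face ρ h1 η hη) (hP.mono h4)
  have h6 : ρ ≤ ρ ∩ η := hρ.2 (Finset.mem_filter.2 ⟨h5, h4⟩) Set.inter_subset_left
  exact fun x hx => (h6 hx).2

end EA

end H5T
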