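import Pool.Agent.Lib.MP_e9c0f3_ag.H5T.Brid

/-! The hypotheses are satisfiable: the tropical projective line, cut off to a segment of real
length `a` whose two end points are sedentary. -/

open ExteriorAlgebra Matrix
open scoped Classical

noncomputable section

namespace H5T

/-- The generator of the multivectors of degree one. -/
def exE : Mv 1 := ι ℚ (fun _ => (1 : ℚ))

/-- The augmentation ideal. -/
def exM : Submodule ℚ (Mv 1) := (⊤ : Submodule ℚ (Fin 1 → ℚ)).map (ι ℚ) * ⊤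

theorem ex_iota (u : Fin 1 → ℚ) : ι ℚ u = u 0 • exE := by
  rw [exE, ← map_smul]
  congr 1
  funext i
  rw [Subsingleton.elim i 0]
  simp

theorem ex_mem_one {β : Mv 1} : β ∈ wedge (⊤ : Submodule ℚ (Fin 1 → ℚ)) 1 ↔
    ∃ c : ℚ, β = c • exE := by
  rw [wedge, pow_one]
  constructor
  · rintro ⟨u, -, rfl⟩
    exact ⟨u 0, ex_iota u⟩
  · rintro ⟨c, rfl⟩
    exact Submodule.smul_mem _ _ ⟨_, trivial, rfl⟩

theorem ex_mem_zero {β : Mv 1} : β ∈ wedge (⊤ : Submodule ℚ (Fin 1 → ℚ)) 0 ↔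
    ∃ c : ℚ, β = c • (1 : Mv 1) := by
  rw [wedge, pow_zero, Submodule.mem_one]
  simp only [Algebra.algebraMap_eq_smul_one, eq_comm]

theorem ex_two (p : ℕ) : wedge (⊤ : Submodule ℚ (Fin 1 → ℚ)) (p + 2) = ⊥ := by
  have h : (⊤ : Submodule ℚ (Fin 1 → ℚ)).map (ι ℚ) * (⊤ : Submodule ℚ (Fin 1 → ℚ)).map (ι ℚ)
      = ⊥ := by
    refine le_bot_iff.1 (Submodule.mul_le.2 ?_)
    rintro _ ⟨u, -, rfl⟩ _ ⟨u', -, rfl⟩
    rw [ex_iota u, ex_iota u']
    simp [exE]
  rw [wedge, pow_add, pow_two, h, Submodule.mul_bot]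

theorem ex_E_mem (c : ℚ) : c • exE ∈ exM := by
  refine Submodule.smul_mem _ _ ?_
  rw [← mul_one exE]
  exact Submodule.mul_mem_mul ⟨_, trivial, rfl⟩ trivial

theorem ex_aug {β : Mv 1} (h : β ∈ exM) : algebraMapInv β = 0 := by
  have : exM ≤ LinearMap.ker (algebraMapInv : Mv 1 →ₐ[ℚ] ℚ).toLinearMap := by
    refine Submodule.mul_le.2 ?_
    rintro _ ⟨u, -, rfl⟩ x -
    simp [algebraMapInv]
  exact this h

/-- The combinatorial shape of the example. -/
structure ExS (X : TropCx 1) (s v w : Set (Pt 1)) : Prop where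
  hc : ∀ σ, σ ∈ X.cells ↔ σ = s ∨ σ = v ∨ σ = w
  vs : v ⊆ s
  ws : w ⊆ s
  sv : ¬ s ⊆ v
  sw : ¬ s ⊆ w
  vw : ¬ v ⊆ w
  wv : ¬ w ⊆ v
  ht : tang s = ⊤
  h1 : X.sed s = ⊥
  h2 : X.sed v = ⊤
  h3 : X.sed w = ⊤

namespace ExS

variable {X : TropCx 1} {s v w : Set (Pt 1)} (H : ExS X s v w)
include H

theorem cs : s ∈ X.cells := (H.hc _).2 (.inl rfl)
theorem cv : v ∈ X.cells := (H.hc _).2 (.inr (.inl rfl))
theorem cw : w ∈ X.cells := (H.hc _).2 (.inr (.inr rfl))
theorem nsv : s ≠ v := fun h => H.sv h.subset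
theorem nsw : s ≠ w := fun h => H.sw h.subset
theorem nvw : v ≠ w := fun h => H.vw h.subset

theorem sub {σ : Set (Pt 1)} (h : σ ∈ X.cells) : σ ⊆ s := by
  rcases (H.hc _).1 h with rfl | rfl | rfl
  exacts [subset_rfl, H.vs, H.ws]

theorem two {x y : Set (Pt 1)} (hx : x ∈ X.cells) (hy : y ∈ X.cells) (h : y ⊂ x) :
    x = s ∧ (y = v ∨ y = w) := by
  have h1 := h.1
  have h2 := h.2
  rcases (H.hc _).1 hx with rfl | rfl | rfl <;> rcases (H.hc _).1 hy with rfl | rfl | rfl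
  all_goals first
    | exact absurd subset_rfl h2
    | exact ⟨rfl, .inl rfl⟩
    | exact ⟨rfl, .inr rfl⟩
    | exact absurd h1 H.sv
    | exact absurd h1 H.sw
    | exact absurd h1 H.vw
    | exact absurd h1 H.wv

theorem F_eq (p : ℕ) {σ : Set (Pt 1)} (h : σ ∈ X.cells) : X.F p σ = wedge ⊤ p := by
  refine le_antisymm (iSup₂_le fun η _ => iSup_le fun _ => ?_) ?_
  · exact pow_le_pow_left' (Submodule.map_mono le_top) p
  · exact le_iSup₂_of_le s H.cs (le_iSup_of_le (H.sub h) (by rw [H.ht]))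

theorem I_s : X.I s = ⊥ := by simp [TropCx.I, H.h1]
theorem I_v : X.I v = exM := by rw [TropCx.I, H.h2, exM]
theorem I_w : X.I w = exM := by rw [TropCx.I, H.h3, exM]

theorem I_le {σ : Set (Pt 1)} (h : σ ∈ X.cells) : X.I σ ≤ exM := by
  rcases (H.hc _).1 h with rfl | rfl | rfl
  exacts [H.I_s ▸ bot_le, H.I_v.le, H.I_w.le]

omit H in
theorem flag1 {x σ : Set (Pt 1)} (hx : x ∈ X.cells) (h : x ⊆ σ) : X.Flag [x] σ :=
  ⟨List.pairwise_singleton _ _, by simp [hx, h]⟩

theorem flag2 {x : Set (Pt 1)} (hx : x = v ∨ x = w) : X.Flag [s, x] s := by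
  rcases hx with rfl | rfl
  · exact ⟨List.pairwise_pair.2 ⟨H.vs, H.sv⟩, by simp [H.cs, H.cv, H.vs]⟩
  · exact ⟨List.pairwise_pair.2 ⟨H.ws, H.sw⟩, by simp [H.cs, H.cw, H.ws]⟩

/-- Check a bound for chains on the flags of the right length. -/
theorem C_le {p q : ℕ} {S : Submodule ℚ (List (Set (Pt 1)) →₀ Mv 1)}
    (h : ∀ l, X.Flag l s → l.length = q + 1 → ∀ β ∈ wedge ⊤ p, Finsupp.single l β ∈ S) :
    X.C X.Flag (X.F p) q ≤ S := by
  rw [TropCx.C_eq]
  refine Ch_le fun l β hβ => ?_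
  split_ifs at hβ with e
  · refine TropCx.cf_map (S := S) (Finsupp.lsingle l) (fun σ hσ hf β hβ => ?_) β hβ
    exact h l ⟨hf.1, fun ρ hρ => ⟨(hf.2 ρ hρ).1, H.sub (hf.2 ρ hρ).1⟩⟩ e β (H.F_eq p hσ ▸ hβ)
  · rw [(Submodule.mem_bot ℚ).1 hβ]
    simp

theorem mem_C {p q : ℕ} {l : List (Set (Pt 1))} (hf : X.Flag l s) (e : l.length = q + 1)
    {β : Mv 1} (hβ : β ∈ wedge ⊤ p) : Finsupp.single l β ∈ X.C X.Flag (X.F p) q := by
  rw [TropCx.C_eq]
  refine single_mem_Ch ?_
  rw [if_pos e]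
  exact TropCx.le_cf H.cs hf (H.F_eq p H.cs ▸ hβ)

theorem mem_Z {x : Set (Pt 1)} (hx : x = v ∨ x = w) {β : Mv 1} (hβ : β ∈ exM) :
    Finsupp.single [x] β ∈ X.Z X.Flag X.I := by
  rw [TropCx.Z_eq]
  refine single_mem_Ch ?_
  rw [if_neg (by simp)]
  rcases hx with rfl | rfl
  · exact TropCx.le_cf H.cv (flag1 H.cv subset_rfl) (H.I_v ▸ hβ)
  · exact TropCx.le_cf H.cw (flag1 H.cw subset_rfl) (H.I_w ▸ hβ)

theorem Z_s {z : List (Set (Pt 1)) →₀ Mv 1} (hz : z ∈ X.Z X.Flag X.I)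
    (l : List (Set (Pt 1))) : z (s :: l) = 0 := by
  have h := mem_Ch.1 (X.Z_eq X.Flag X.I ▸ hz) (s :: l)
  rw [if_neg (by simp)] at h
  refine (TropCx.cf_le (S := ⊥) fun σ hσ hf => ?_) h
  have h2 := (hf.2 s (by simp)).2
  rcases (H.hc _).1 hσ with rfl | rfl | rfl
  exacts [H.I_s.le, absurd h2 H.sv, absurd h2 H.sw]

theorem Z_x {z : List (Set (Pt 1)) →₀ Mv 1} (hz : z ∈ X.Z X.Flag X.I) (x : Set (Pt 1)) :
    z [x] ∈ exM := by
  have h := mem_Ch.1 (X.Z_eq X.Flag X.I ▸ hz) [x]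
  rw [if_neg (by simp)] at h
  exact (TropCx.cf_le fun σ hσ _ => H.I_le hσ) h

theorem len1 {l : List (Set (Pt 1))} (hf : X.Flag l s) (e : l.length = 0 + 1) :
    l = [s] ∨ l = [v] ∨ l = [w] := by
  obtain ⟨x, rfl⟩ := List.length_eq_one_iff.1 e
  simpa using (H.hc _).1 (hf.2 x (by simp)).1

theorem len2 {l : List (Set (Pt 1))} (hf : X.Flag l s) (e : l.length = 1 + 1) :
    l = [s, v] ∨ l = [s, w] := by
  obtain ⟨x, y, rfl⟩ := List.length_eq_two.1 e
  have h := List.pairwise_pair.1 hf.1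
  obtain ⟨rfl, rfl | rfl⟩ := H.two (hf.2 x (by simp)).1 (hf.2 y (by simp)).1 h
  exacts [.inl rfl, .inr rfl]

theorem len3 {l : List (Set (Pt 1))} (hf : X.Flag l s) : l.length ≠ 2 + 1 := by
  intro e
  obtain ⟨x, y, z, rfl⟩ := List.length_eq_three.1 e
  have h := hf.1
  simp only [List.pairwise_cons, List.mem_cons, forall_eq_or_imp] at h
  have h1 := (H.two (hf.2 x (by simp)).1 (hf.2 y (by simp)).1 h.1.1).2
  have h2 := (H.two (hf.2 y (by simp)).1 (hf.2 z (by simp)).1 h.2.1.1).1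
  rcases h1 with h1 | h1
  exacts [H.nsv (h2.symm.trans h1), H.nsw (h2.symm.trans h1)]

omit H in
theorem bd2 (x y : Set (Pt 1)) (β : Mv 1) :
    bd (Finsupp.single [x, y] β) = Finsupp.single [y] β - Finsupp.single [x] β := by
  rw [bd_single_cons, bd_single_cons]
  simp

theorem edge_B {p : ℕ} {x : Set (Pt 1)} (hx : x = v ∨ x = w) {β : Mv 1} (hβ : β ∈ wedge ⊤ p) :
    Finsupp.single [x] β - Finsupp.single [s] β ∈ X.B X.Flag p 0 := by
  rw [← bd2]
  exact Submodule.mem_sup_left (Submodule.mem_map_of_mem (H.mem_C (H.flag2 hx) rfl hβ))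

theorem locVan : X.LocVan := by
  intro φ _ p q hq z hz _
  refine Submodule.mem_sup_left (H.C_le (fun l hf e β hβ => ?_) hz)
  obtain _ | _ | p := p
  · omega
  · obtain rfl : q = 0 := by omega
    obtain ⟨c, hc⟩ := ex_mem_one.1 hβ
    have hm : β ∈ exM := hc ▸ ex_E_mem c
    rcases H.len1 hf e with rfl | rfl | rfl
    · have := Submodule.sub_mem _ (Submodule.mem_sup_right (H.mem_Z (.inl rfl) hm))
        (H.edge_B (.inl rfl) hβ)
      rwa [sub_sub_cancel] at this
    · exact Submodule.mem_sup_right (H.mem_Z (.inl rfl) hm)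
    · exact Submodule.mem_sup_right (H.mem_Z (.inr rfl) hm)
  · rw [ex_two, Submodule.mem_bot] at hβ
    simp [hβ]

/-- The fundamental class. -/
theorem fund (c : ℚ) :
    Finsupp.single [s, v] (c • exE) - Finsupp.single [s, w] (c • exE) ∈ X.Cyc 1 1 := by
  have h := ex_mem_one.2 ⟨c, rfl⟩
  refine ⟨Submodule.sub_mem _ (H.mem_C (H.flag2 (.inl rfl)) rfl h)
    (H.mem_C (H.flag2 (.inr rfl)) rfl h), ?_⟩
  change bd _ ∈ X.Z X.Flag X.I
  rw [map_sub, bd2, bd2, sub_sub_sub_cancel_right]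
  exact Submodule.sub_mem _ (H.mem_Z (.inl rfl) (ex_E_mem c)) (H.mem_Z (.inr rfl) (ex_E_mem c))

theorem cyc11 {z : List (Set (Pt 1)) →₀ Mv 1} (hz : z ∈ X.Cyc 1 1) : ∃ c : ℚ,
    z = Finsupp.single [s, v] (c • exE) - Finsupp.single [s, w] (c • exE) := by
  have h : X.C X.Flag (X.F 1) 1 ≤ (wedge ⊤ 1).map (Finsupp.lsingle [s, v]) ⊔
      (wedge ⊤ 1).map (Finsupp.lsingle [s, w]) := by
    refine H.C_le fun l hf e β hβ => ?_
    rcases H.len2 hf e with rfl | rfl
    exacts [Submodule.mem_sup_left ⟨β, hβ, rfl⟩, Submodule.mem_sup_right ⟨β, hβ, rfl⟩]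
  obtain ⟨_, ⟨β, hβ, rfl⟩, _, ⟨γ, -, rfl⟩, rfl⟩ := Submodule.mem_sup.1 (h hz.1)
  obtain ⟨c, rfl⟩ := ex_mem_one.1 hβ
  have h2 := H.Z_s hz.2 []
  simp only [Finsupp.lsingle_apply, map_add, bd2] at h2
  simp [H.nsv.symm, H.nsw.symm] at h2
  refine ⟨c, ?_⟩
  rw [Finsupp.lsingle_apply, Finsupp.lsingle_apply, sub_eq_add_neg, ← Finsupp.single_neg]
  congr 2
  exact neg_add_eq_zero.1 ((add_comm _ _).trans h2)

theorem not_B : ¬ X.Cyc 1 1 ≤ X.B X.Flag 1 1 := by
  intro h
  have h0 : X.C X.Flag (X.F 1) 2 ≤ ⊥ := H.C_le fun l hf e => absurd e (H.len3 hf)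
  have h1 := h (H.fund 1)
  rw [TropCx.B, le_bot_iff.1 h0, Submodule.map_bot, bot_sup_eq] at h1
  have h2 := H.Z_s h1 [v]
  simp [H.nvw.symm, exE] at h2
  exact one_ne_zero (congrFun h2 0)

omit H in
/-- The degree of a `0`-chain. -/
def deg (s v w : Set (Pt 1)) : (List (Set (Pt 1)) →₀ Mv 1) →ₗ[ℚ] ℚ :=
  (algebraMapInv : Mv 1 →ₐ[ℚ] ℚ).toLinearMap ∘ₗ
    (Finsupp.lapply [s] + Finsupp.lapply [v] + Finsupp.lapply [w])

theorem deg_single {x : Set (Pt 1)} (hx : x = s ∨ x = v ∨ x = w) (β : Mv 1) :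
    deg s v w (Finsupp.single [x] β) = algebraMapInv β := by
  have h1 := H.nsv
  have h2 := H.nsw
  have h3 := H.nvw
  rcases hx with rfl | rfl | rfl <;>
    simp [deg, h1, h2, h3, h1.symm, h2.symm, h3.symm]

theorem deg_B {z : List (Set (Pt 1)) →₀ Mv 1} (hz : z ∈ X.B X.Flag 0 0) : deg s v w z = 0 := by
  have : X.B X.Flag 0 0 ≤ LinearMap.ker (deg s v w) := by
    refine sup_le (Submodule.map_le_iff_le_comap.2 (H.C_le fun l hf e β _ => ?_)) fun z hz => ?_
    · rcases H.len2 hf e with rfl | rfl <;>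
        simp [bd2, H.deg_single]
    · simp [deg, ex_aug (H.Z_x hz _)]
  exact this hz

theorem L_fund (c : ℚ) :
    cap (fun σ ρ => CliffordAlgebra.contractLeft
      ((if σ = w then LinearMap.proj 0 else 0 : Module.Dual ℚ (Fin 1 → ℚ)) -
        (if ρ = w then LinearMap.proj 0 else 0)))
      (Finsupp.single [s, v] (c • exE) - Finsupp.single [s, w] (c • exE)) =
      Finsupp.single [w] (c • (1 : Mv 1)) := by
  rw [map_sub, cap_two, cap_two, if_neg H.nsw, if_neg H.nvw, if_pos rfl]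
  simp [exE, CliffordAlgebra.contractLeft_ι]

theorem hardLef : X.HardLef 1 fun σ => if σ = w then LinearMap.proj 0 else 0 := by
  refine ⟨fun σ _ => (Submodule.finrank_le _).trans (by simp), fun σ hσ ρ hρ h u hu => ?_,
    fun p q j hj => ?_⟩
  · rcases h.eq_or_ssubset with rfl | h
    · rfl
    · obtain ⟨rfl, -⟩ := H.two hσ hρ h
      rw [H.h1, Submodule.mem_bot] at hu
      simp [hu]
  obtain rfl | rfl : j = 0 ∨ j = 1 := by omega
  · exact ⟨fun z _ h => by simpa using h, fun z hz => ⟨z, hz, by simp⟩⟩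
  obtain rfl : p = 0 := by omega
  obtain rfl : q = 0 := by omega
  simp only [pow_one, zero_add, lef, ctr]
  refine ⟨fun z hz h => ?_, fun z hz => ⟨_, H.fund (deg s v w z), ?_⟩⟩
  · obtain ⟨c, rfl⟩ := H.cyc11 hz
    rw [H.L_fund] at h
    have h2 := H.deg_B h
    rw [H.deg_single (.inr (.inr rfl))] at h2
    obtain rfl : c = 0 := by simpa using h2
    simp
  · rw [H.L_fund]
    refine H.C_le (S := (X.B X.Flag 0 0).comap (LinearMap.id -
      Finsupp.lsingle [w] ∘ₗ LinearMap.toSpanSingleton ℚ (Mv 1) 1 ∘ₗ deg s v w))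
      (fun l hf e β hβ => ?_) hz.1
    have e1 := H.edge_B (.inl rfl) hβ
    have e2 := H.edge_B (.inr rfl) hβ
    obtain ⟨c, rfl⟩ := ex_mem_zero.1 hβ
    rw [Submodule.mem_comap]
    rcases H.len1 hf e with rfl | rfl | rfl
    · simpa [H.deg_single] using Submodule.neg_mem _ e2
    · simpa [H.deg_single] using Submodule.sub_mem _ e1 e2
    · simp [H.deg_single]

end ExS

theorem ex_dot (c : ℚ) (x : Pt 1) : rv (fun _ => c) ⬝ᵥ x = c * x 0 := by
  simp [rv, dotProduct]

theorem ex_lin (l : StrongDual ℝ (Pt 1)) (x : Pt 1) : l x = l (fun _ => 1) * x 0 := by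
  rw [mul_comm, ← smul_eq_mul, ← map_smul]
  congr 1
  funext i
  rw [Subsingleton.elim i 0]
  simp

theorem ex_pt (c : ℝ) : {x : Pt 1 | x 0 = c} = {fun _ => c} := by
  ext x
  simp [funext_iff, Fin.forall_fin_one]

theorem ex_tang (c : ℝ) : tang {x : Pt 1 | x 0 = c} = ⊥ := by
  rw [ex_pt, tang, vectorSpan_singleton]
  refine le_bot_iff.1 fun u hu => ?_
  have h : rv u = 0 := hu
  funext i
  simpa [rv] using congrFun h i

theorem exists_line (a : ℝ) (ha : 0 < a) : ∃ X : TropCx 1,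
    ExS X {x | 0 ≤ x 0 ∧ x 0 ≤ a} {x | x 0 = 0} {x | x 0 = a} ∧
      X.ray {x | 0 ≤ x 0 ∧ x 0 ≤ a} = ∅ ∧ X.ray {x | x 0 = 0} = {-1} ∧
      X.ray {x | x 0 = a} = {1} := by
  set s : Set (Pt 1) := {x | 0 ≤ x 0 ∧ x 0 ≤ a} with hs
  set v : Set (Pt 1) := {x | x 0 = 0} with hv
  set w : Set (Pt 1) := {x | x 0 = a} with hw
  have vs : v ⊆ s := fun x hx => ⟨hx.ge, hx.le.trans ha.le⟩
  have ws : w ⊆ s := fun x hx => ⟨ha.le.trans hx.ge, hx.le⟩
  have wv : ¬ w ⊆ v := fun h => ha.ne' (h (a := fun _ => a) rfl)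
  have vw : ¬ v ⊆ w := fun h => ha.ne (h (a := fun _ => 0) rfl)
  have sv : ¬ s ⊆ v := fun h => wv (ws.trans h)
  have sw : ¬ s ⊆ w := fun h => vw (vs.trans h)
  have nvs : v ≠ s := fun h => sv h.symm.subset
  have nws : w ≠ s := fun h => sw h.symm.subset
  have nwv : w ≠ v := fun h => wv h.subset
  have hc : ∀ σ, σ ∈ ({s, v, w} : Finset (Set (Pt 1))) ↔ σ = s ∨ σ = v ∨ σ = w := by simp
  have ev : IsExposed ℝ s v := fun _ => ⟨-ContinuousLinearMap.proj 0, by
    ext x
    refine ⟨fun hx => ⟨vs hx, fun y hy => ?_⟩, fun hx => ?_⟩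
    · simpa [show x 0 = 0 from hx] using hy.1
    · have := hx.2 (fun _ => 0) (vs rfl)
      exact le_antisymm (by simpa using this) hx.1.1⟩
  have ew : IsExposed ℝ s w := fun _ => ⟨ContinuousLinearMap.proj 0, by
    ext x
    refine ⟨fun hx => ⟨ws hx, fun y hy => ?_⟩, fun hx => ?_⟩
    · simpa [show x 0 = a from hx] using hy.2
    · have := hx.2 (fun _ => a) (ws rfl)
      exact le_antisymm hx.1.2 (by simpa using this)⟩
  have dvw : v ∩ w = ∅ := Set.eq_empty_of_forall_notMem fun x hx =>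
    ha.ne (hx.1.symm.trans hx.2)
  let X : TropCx 1 :=
    { cells := {s, v, w}
      pt := fun σ => if σ = s then fun _ => a / 2 else if σ = v then fun _ => 0 else fun _ => a
      ray := fun σ => if σ = s then ∅ else if σ = v then {-1} else {1}
      poly := by
        intro σ hσ
        rcases (hc _).1 hσ with rfl | rfl | rfl
        · refine ⟨{(fun _ => 1, 0), (fun _ => -1, -a)}, ?_⟩
          ext x
          simp [hs, ex_dot]
        · refine ⟨{(fun _ => 1, 0), (fun _ => -1, 0)}, ?_⟩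
          ext x
          simp [hv, ex_dot]
          exact ⟨fun h => ⟨h.ge, h.le⟩, fun h => le_antisymm h.2 h.1⟩
        · refine ⟨{(fun _ => 1, a), (fun _ => -1, -a)}, ?_⟩
          ext x
          simp [hw, ex_dot]
          exact ⟨fun h => ⟨h.ge, h.le⟩, fun h => le_antisymm h.2 h.1⟩
      face_mem := by
        intro σ hσ ρ he hn
        have hsub := he.subset
        rw [hc]
        rcases (hc _).1 hσ with rfl | rfl | rfl
        · obtain ⟨l, rfl⟩ := he hn
          obtain ⟨c, hl⟩ : ∃ c : ℝ, ∀ x, l x = c * x 0 := ⟨_, ex_lin l⟩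
          simp only [hl]
          rcases lt_trichotomy c 0 with h | h | h
          · refine .inr (.inl (Set.ext fun x => ⟨fun hx => ?_, fun hx => ⟨vs hx, fun y hy => ?_⟩⟩))
            · have h1 := hx.2 (fun _ => 0) (vs rfl)
              have h2 := hx.1.1
              exact le_antisymm (by nlinarith) h2
            · have h1 : x 0 = 0 := hx
              have h2 := hy.1
              rw [h1]
              nlinarith
          · exact .inl (by simp [h])
          · refine .inr (.inr (Set.ext fun x => ⟨fun hx => ?_, fun hx => ⟨ws hx, fun y hy => ?_⟩⟩))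
            · have h1 := hx.2 (fun _ => a) (ws rfl)
              exact le_antisymm hx.1.2 (le_of_mul_le_mul_left h1 h)
            · have h1 : x 0 = a := hx
              rw [h1]
              exact mul_le_mul_of_nonneg_left hy.2 h.le
        · rw [hv, ex_pt] at hsub ⊢
          exact .inr (.inl (hn.subset_singleton_iff.1 hsub))
        · rw [hw, ex_pt] at hsub ⊢
          exact .inr (.inr (hn.subset_singleton_iff.1 hsub))
      inter_face := by
        intro σ hσ ρ hρ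
        rcases (hc _).1 hσ with rfl | rfl | rfl <;> rcases (hc _).1 hρ with rfl | rfl | rfl
        · rw [Set.inter_self]
        · rwa [Set.inter_eq_right.2 vs]
        · rwa [Set.inter_eq_right.2 ws]
        · rw [Set.inter_eq_left.2 vs]
        · rw [Set.inter_self]
        · rw [dvw]; exact isExposed_empty
        · rw [Set.inter_eq_left.2 ws]
        · rw [Set.inter_comm, dvw]; exact isExposed_empty
        · rw [Set.inter_self]
      pt_mem := by
        intro σ hσ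
        rcases (hc _).1 hσ with rfl | rfl | rfl
        · rw [if_pos rfl]
          refine interior_subset_intrinsicInterior (mem_interior.2
            ⟨(fun x : Pt 1 => x 0) ⁻¹' Set.Ioo 0 a, fun x hx => ⟨hx.1.le, hx.2.le⟩,
              isOpen_Ioo.preimage (continuous_apply 0), ?_⟩)
          constructor <;> linarith
        · rw [if_neg nvs, if_pos rfl, hv, ex_pt, intrinsicInterior_singleton]
          rfl
        · rw [if_neg nws, if_neg nwv, hw, ex_pt, intrinsicInterior_singleton]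
          rfl
      ray_anti := by
        intro σ hσ ρ hρ h
        rcases (hc _).1 hσ with rfl | rfl | rfl
        · rw [if_pos rfl]; exact Finset.empty_subset _
        · rcases (hc _).1 hρ with rfl | rfl | rfl
          exacts [absurd h sv, subset_rfl, absurd h wv]
        · rcases (hc _).1 hρ with rfl | rfl | rfl
          exacts [absurd h sw, absurd h vw, subset_rfl]
      ray_indep := by
        intro σ _
        split_ifs
        · simp
        · rw [Finset.coe_singleton]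
          exact LinearIndepOn.singleton fun h => by simpa using congrFun h 0
        · rw [Finset.coe_singleton]
          exact LinearIndepOn.singleton fun h => by simpa using congrFun h 0
      ray_disj := by
        intro σ hσ
        rcases (hc _).1 hσ with rfl | rfl | rfl
        · rw [if_pos rfl]; simp
        · rw [hv, ex_tang]; exact disjoint_bot_right
        · rw [hw, ex_tang]; exact disjoint_bot_right }
  have hsp : ∀ c : Fin 1 → ℚ, c 0 ≠ 0 → Submodule.span ℚ ({c} : Set (Fin 1 → ℚ)) = ⊤ := by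
    intro c hc0
    refine eq_top_iff.2 fun u _ => Submodule.mem_span_singleton.2 ⟨u 0 / c 0, ?_⟩
    funext i
    rw [Subsingleton.elim i 0]
    simp [hc0]
  have s1 : X.sed s = ⊥ := by
    have : X.ray s = ∅ := if_pos rfl
    simp [TropCx.sed, this]
  have s2 : X.sed v = ⊤ := by
    have : X.ray v = {-1} := (if_neg nvs).trans (if_pos rfl)
    rw [TropCx.sed, this, Finset.coe_singleton]
    exact hsp _ (by simp)
  have s3 : X.sed w = ⊤ := by
    have : X.ray w = {1} := (if_neg nws).trans (if_neg nwv)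
    rw [TropCx.sed, this, Finset.coe_singleton]
    exact hsp _ (by simp)
  have ht : tang s = ⊤ := by
    refine eq_top_iff.2 fun u _ => ?_
    have h := Submodule.smul_mem _ ((u 0 : ℝ) / a)
      (vsub_mem_vectorSpan ℝ (ws (a := fun _ => a) rfl) (vs (a := fun _ => 0) rfl))
    change rv u ∈ vectorSpan ℝ s
    convert h using 1
    funext i
    rw [Subsingleton.elim i 0]
    simp [rv, ha.ne']
  have H : ExS X s v w :=
    ⟨hc, vs, ws, sv, sw, vw, wv, ht, s1, s2, s3⟩
  exact ⟨X, H, if_pos rfl, (if_neg nvs).trans (if_pos rfl), (if_neg nws).trans (if_neg nwv)⟩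

theorem example_line (a : ℝ) (ha : 0 < a) : ∃ (X : TropCx 1)
    (m : Set (Pt 1) → Module.Dual ℚ (Fin 1 → ℚ)),
    {x : Pt 1 | 0 ≤ x 0 ∧ x 0 ≤ a} ∈ X.cells ∧ X.LocVan ∧ X.HardLef 1 m ∧
      ¬ X.Cyc 1 1 ≤ X.B X.Flag 1 1 := by
  obtain ⟨X, H, -⟩ := exists_line a ha
  exact ⟨X, _, H.cs, H.locVan, H.hardLef, H.not_B⟩

end H5T
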