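import Pool.Agent.Lib.MP_e9c0f3_ag.H5T.FlagStep

/-! Hard Lefschetz on the first page, with no colour. -/

noncomputable section

namespace H5T

variable {n : ℕ} {X : TropCx n}

namespace FG

theorem ZA_nil : X.ZA [] = X.Z X.Flag X.It := by
  refine sup_eq_left.2 fun z hz => ?_
  rw [Finsupp.mem_supported'] at hz
  have h0 : z = 0 := Finsupp.ext fun l => hz l (by simp)
  exact h0 ▸ Submodule.zero_mem _

theorem flag_sub {l l' : List (Set (Pt n))} {σ : Set (Pt n)} (h : X.Flag l σ)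
    (hl : l'.Sublist l) : X.Flag l' σ :=
  ⟨h.1.sublist hl, fun ρ hρ => h.2 ρ (hl.subset hρ)⟩

section
variable {E E' : Type} [AddCommGroup E] [Module ℚ E] [AddCommGroup E'] [Module ℚ E']

theorem map_iSup_mem {P : Set (Pt n) → Prop} {G : Set (Pt n) → Submodule ℚ E}
    {S : Submodule ℚ E'} (f : E →ₗ[ℚ] E')
    (h : ∀ σ ∈ X.cells, P σ → ∀ β ∈ G σ, f β ∈ S) {β : E}
    (hβ : β ∈ ⨆ σ ∈ X.cells, ⨆ _ : P σ, G σ) : f β ∈ S :=
  (iSup₂_le fun σ hσ => iSup_le fun hP => h σ hσ hP :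
    (⨆ σ ∈ X.cells, ⨆ _ : P σ, G σ) ≤ S.comap f) hβ

theorem mem_iSup_of {P : Set (Pt n) → Prop} {G : Set (Pt n) → Submodule ℚ E} {σ : Set (Pt n)}
    (hσ : σ ∈ X.cells) (hP : P σ) {β : E} (hβ : β ∈ G σ) :
    β ∈ ⨆ σ ∈ X.cells, ⨆ _ : P σ, G σ :=
  Submodule.mem_iSup_of_mem σ (Submodule.mem_iSup_of_mem hσ (Submodule.mem_iSup_of_mem hP hβ))

theorem single_nil_mem (G : Set (Pt n) → Submodule ℚ E) (β : E) :
    Finsupp.single [] β ∈ X.Z X.Flag G :=
  single_mem_Ch (by simp)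

theorem bd_Z {G : Set (Pt n) → Submodule ℚ E} {z : List (Set (Pt n)) →₀ E}
    (hz : z ∈ X.Z X.Flag G) : bd z ∈ X.Z X.Flag G := by
  refine bd_mem_Ch (fun l l' h1 h2 => ?_) hz
  have h3 : l ≠ [] := fun h => by simp [h] at h2
  rw [if_neg h3]
  split_ifs
  · exact le_top
  · exact fun β hβ => map_iSup_mem LinearMap.id
      (fun σ hσ hP β hβ => mem_iSup_of hσ (flag_sub hP h1) hβ) hβ

theorem co_Z {G : Set (Pt n) → Submodule ℚ E} {H : Set (Pt n) → Submodule ℚ E'}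
    (f : E →ₗ[ℚ] E') (h : ∀ σ, ∀ β ∈ G σ, f β ∈ H σ) {z : List (Set (Pt n)) →₀ E}
    (hz : z ∈ X.Z X.Flag G) : co f z ∈ X.Z X.Flag H := by
  refine co_mem_Ch f (fun l β hβ => ?_) hz
  split_ifs at hβ ⊢
  · trivial
  · exact map_iSup_mem f (fun σ hσ hP β hβ => mem_iSup_of hσ hP (h σ β hβ)) hβ

theorem co_cap {V : Type} (f : E →ₗ[ℚ] E') {a : V → V → E →ₗ[ℚ] E} {b : V → V → E' →ₗ[ℚ] E'}
    (h : ∀ x y β, f (a x y β) = b x y (f β)) (j : ℕ) (z : List V →₀ E) :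
    co f (((cap a : Module.End ℚ _) ^ j) z) = ((cap b : Module.End ℚ _) ^ j) (co f z) := by
  have h1 : ∀ z : List V →₀ E, co f (cap a z) = cap b (co f z) := fun z => by
    induction z using Finsupp.induction_linear with
    | zero => simp
    | add u v hu hv => simp only [map_add, hu, hv]
    | single l β => rcases l with _ | ⟨x, _ | ⟨y, l⟩⟩ <;> simp [h]
  induction j with
  | zero => rfl
  | succ j ih => rw [pow_succ', pow_succ', Module.End.mul_apply, Module.End.mul_apply, h1, ih]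

theorem cap_cons_cons {V : Type} (a : V → V → E →ₗ[ℚ] E) (x y : V) (z : List V →₀ E) :
    cap a (cons x (cons y z)) = cons y (co (a x y) z) := by
  induction z using Finsupp.induction_linear with
  | zero => simp
  | add u v hu hv => simp only [map_add, hu, hv]
  | single l β => simp

theorem bd_cap {a : Set (Pt n) → Set (Pt n) → E →ₗ[ℚ] E} (G : Set (Pt n) → Submodule ℚ E)
    (h : ∀ x y w β, a x y β + a y w β = a x w β) (z : List (Set (Pt n)) →₀ E) :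
    bd (cap a z) + cap a (bd z) ∈ X.Z X.Flag G := by
  induction z using Finsupp.induction_linear with
  | zero => simp
  | add u v hu hv =>
    rw [map_add, map_add, map_add, map_add, add_add_add_comm]
    exact Submodule.add_mem _ hu hv
  | single l β =>
    rcases l with _ | ⟨x, _ | ⟨y, l⟩⟩
    · simp
    · simp [bd_single_cons]
    · have h1 : bd (cap a (Finsupp.single (x :: y :: l) β)) +
          cap a (bd (Finsupp.single (x :: y :: l) β)) = Finsupp.single l (a x y β) +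
          cap a (Finsupp.single (y :: l) β) - cap a (Finsupp.single (x :: l) β) := by
        rw [cap_two, bd_single_cons, bd_single_cons, bd_single_cons]
        simp only [map_sub, cons_single, cap_cons_cons, ← bd_co, co_single]
        abel
      rw [h1]
      rcases l with _ | ⟨w, l⟩
      · simpa using single_nil_mem G _
      · rw [cap_two, cap_two, ← Finsupp.single_add, h, sub_self]
        exact Submodule.zero_mem _

end

variable {m : Set (Pt n) → Module.Dual ℚ (Fin n → ℚ)} (c : Col X)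

theorem Lt_Z (hm : ∀ σ ∈ X.cells, ∀ ρ ∈ X.cells, ρ ⊆ σ → ∀ v ∈ X.sed σ, m σ v = m ρ v)
    {z : List (Set (Pt n)) →₀ Mt n} (hz : z ∈ X.Z X.Flag X.It) : Lt m z ∈ X.Z X.Flag X.It := by
  refine map_mem_of_Ch (Lt m) (fun l β hβ => ?_) hz
  rcases l with _ | ⟨x, _ | ⟨y, l⟩⟩
  · simp [Lt]
  · simp [Lt]
  rw [Lt, cap_two]
  refine single_mem_Ch ?_
  rw [if_neg (List.cons_ne_nil _ _)] at hβ ⊢
  refine map_iSup_mem _ (fun σ hσ hP β hβ => mem_iSup_of hσ
    (flag_sub hP (List.sublist_cons_self _ _)) (TropCx.ctr_mem_It (fun v hv => ?_) hβ)) hβ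
  obtain ⟨h1, h2⟩ := hP.2 x (by simp)
  have h3 : y ⊂ x := (List.pairwise_cons.1 hP.1).1 y (by simp)
  have h4 := hm x h1 y (hP.2 y (by simp)).1 h3.1 v (X.sed_anti σ hσ x h1 h2 hv)
  simp [h4]

theorem Lt_CA (s e g : ℤ) {z : List (Set (Pt n)) →₀ Mt n} (hz : z ∈ c.CA 0 s e g) :
    Lt m z ∈ c.CA 0 s (e - 1) (g - 1) := by
  refine map_mem_of_Ch (Lt m) (fun l β hβ => ?_) hz
  rcases l with _ | ⟨x, _ | ⟨y, l⟩⟩
  · simp [Lt]
  · simp [Lt]
  rw [Lt, cap_two]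
  refine single_mem_Ch (map_iSup_mem _ (fun σ hσ hP β hβ => mem_iSup_of hσ
    ⟨flag_sub hP.1 (List.sublist_cons_self _ _), ?_⟩ (c.ctr_mem_Af 0 _ hβ)) hβ)
  have h1 := hP.2
  simp only [List.length_cons] at h1 ⊢
  omega

theorem AA_le {s e g : ℤ} (h : ∀ l σ, l ≠ [] → X.Flag l σ → (l.length : ℤ) = g →
    c.Af 0 s e σ = ⊥) : c.AA [] 0 s e g ≤ X.ZA [] := by
  refine sup_le (le_trans (Ch_mono fun l => ?_) le_sup_left) le_rfl
  split_ifs with h0
  · exact le_top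
  · exact iSup₂_le fun σ _ => iSup_le fun hP => (h l σ h0 hP.1 hP.2).trans_le bot_le

theorem AA_neg {s e g : ℤ} (h : s < 0 ∨ e < 0) : c.AA [] 0 s e g ≤ X.ZA [] :=
  AA_le c fun _ σ _ _ _ => c.Af_neg 0 h σ

theorem AA_short {s e g : ℤ} (h : g ≤ 0) : c.AA [] 0 s e g ≤ X.ZA [] :=
  AA_le c fun l _ h1 _ h2 => absurd (List.length_eq_zero_iff.1 (by omega)) h1

theorem AA_big {d : ℕ} (hd : ∀ σ ∈ X.cells, Module.finrank ℚ (tang σ) ≤ d) {s e g : ℤ}
    (h : d < e ∨ d + 1 < g) : c.AA [] 0 s e g ≤ X.ZA [] := by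
  refine AA_le c fun l σ _ h1 h2 => ?_
  rcases h with h | h
  · rw [Col.Af, TropCx.F_eq_bot hd (by omega), Submodule.map_bot, ite_self]
  · have := c.flag_length hd h1
    omega

theorem AA_ne {s : ℤ} (hs : s ≠ 0) (e g : ℤ) : c.AA [] 0 s e g ≤ c.AA [] 0 (s - 1) e g := by
  rcases hs.lt_or_gt with h | h
  · exact (AA_neg c (Or.inl h)).trans le_sup_right
  · refine sup_le_sup_right (Ch_mono fun l => le_of_eq ?_) _
    simp only [c.Af_stab (a := 0) (s := s) (by omega), c.Af_stab (a := 0) (s := s - 1) (by omega)]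

theorem Af_zero (p : ℕ) (σ : Set (Pt n)) : c.Af 0 0 p σ = (X.F p σ).map jj := by
  rw [Col.Af, if_neg (by omega), Int.toNat_natCast]

theorem jj_C {p q : ℕ} {u : List (Set (Pt n)) →₀ Mv n} (hu : u ∈ X.C X.Flag (X.F p) q) :
    co jj u ∈ c.AA [] 0 0 p (q + 1) :=
  Submodule.mem_sup_left (co_mem_Ch jj (fun l β hβ => map_iSup_mem jj
    (fun σ hσ hP β hβ => mem_iSup_of hσ ⟨hP.1, by rw [hP.2]; rfl⟩
      (Af_zero c p σ ▸ Submodule.mem_map_of_mem hβ)) hβ) hu)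

theorem jj_Z {u : List (Set (Pt n)) →₀ Mv n} (hu : u ∈ X.Z X.Flag X.I) : co jj u ∈ X.ZA [] :=
  ZA_nil (X := X) ▸ co_Z jj (fun _ _ => TropCx.jj_mem_It) hu

theorem pr_Z {z : List (Set (Pt n)) →₀ Mt n} (hz : z ∈ X.ZA []) : co pr z ∈ X.Z X.Flag X.I :=
  co_Z pr (fun _ _ => TropCx.pr_mem_I) (ZA_nil (X := X) ▸ hz)

theorem pr_jj_co (u : List (Set (Pt n)) →₀ Mv n) : co pr (co jj u) = u :=
  Finsupp.ext fun l => pr_jj (u l)

theorem exists_C {p q : ℕ} {x : List (Set (Pt n)) →₀ Mt n} (hx : x ∈ c.AA [] 0 0 p (q + 1)) :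
    ∃ u ∈ X.C X.Flag (X.F p) q, ∃ z ∈ X.ZA [], x = co jj u + z := by
  obtain ⟨y, hy, z, hz, rfl⟩ := Submodule.mem_sup.1 hx
  have h : y ∈ (X.C X.Flag (X.F p) q).map (co jj) := by
    refine Ch_le (fun l β hβ => ?_) hy
    refine map_iSup_mem (Finsupp.lsingle l) (fun σ hσ hP β hβ => ?_) hβ
    rw [Af_zero] at hβ
    obtain ⟨γ, hγ, rfl⟩ := hβ
    exact ⟨Finsupp.single l γ, single_mem_Ch (mem_iSup_of hσ ⟨hP.1, by exact_mod_cast hP.2⟩ hγ),
      co_single _ _ _⟩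
  obtain ⟨u, hu, rfl⟩ := h
  exact ⟨u, hu, z, hz, rfl⟩

theorem jj_B {p q : ℕ} {u : List (Set (Pt n)) →₀ Mv n} (hu : u ∈ X.B X.Flag p q) :
    co jj u ∈ (c.AA [] 0 0 p (q + 1 + 1)).map bd ⊔ X.ZA [] := by
  obtain ⟨_, ⟨w, hw, rfl⟩, z, hz, rfl⟩ := Submodule.mem_sup.1 hu
  rw [map_add, ← bd_co]
  exact Submodule.add_mem_sup (Submodule.mem_map_of_mem (jj_C c hw)) (jj_Z hz)

theorem pr_B {p q : ℕ} {x : List (Set (Pt n)) →₀ Mt n}
    (hx : x ∈ (c.AA [] 0 0 p (q + 1 + 1)).map bd ⊔ X.ZA []) : co pr x ∈ X.B X.Flag p q := by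
  obtain ⟨_, ⟨w, hw, rfl⟩, z, hz, rfl⟩ := Submodule.mem_sup.1 hx
  obtain ⟨u, hu, z', hz', rfl⟩ := exists_C c (q := q + 1) hw
  rw [map_add, ← bd_co, map_add, pr_jj_co, map_add, add_assoc]
  exact Submodule.add_mem_sup (Submodule.mem_map_of_mem hu)
    (Submodule.add_mem _ (bd_Z (pr_Z hz')) (pr_Z hz))

theorem mem_Cyc {p q : ℕ} {u : List (Set (Pt n)) →₀ Mv n} {z : List (Set (Pt n)) →₀ Mt n}
    (hu : u ∈ X.C X.Flag (X.F p) q) (hz : z ∈ X.ZA []) (h : bd (co jj u + z) ∈ X.ZA []) :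
    u ∈ X.Cyc p q := by
  have h1 := pr_Z h
  rw [← bd_co, map_add, pr_jj_co, map_add] at h1
  exact ⟨hu, (Submodule.add_mem_iff_left _ (bd_Z (pr_Z hz))).1 h1⟩

theorem jj_L (j : ℕ) (u : List (Set (Pt n)) →₀ Mv n) :
    co jj (((cap fun σ ρ => ctr (m σ - m ρ) : Module.End ℚ _) ^ j) u) = (Lt m ^ j) (co jj u) := by
  unfold Lt
  refine co_cap jj (fun x y β => ?_) j u
  rw [ctr_jj, LinearMap.comp_assoc, LinearMap.fst_comp_inl, LinearMap.comp_id]

end FG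

open FG in
theorem Col.good_zero (c : Col X) {d : ℕ} {m : Set (Pt n) → Module.Dual ℚ (Fin n → ℚ)}
    (hL : X.HardLef d m) :
    Good (c.AA [] 0) (X.ZA []) bd (Lt m) (d + 1) (2 * d + 1) := by
  obtain ⟨hd, hm, hH⟩ := hL
  have hS := c.step [] (Nat.zero_le c.M)
  have hZ : ∀ e g, c.AA [] 0 (0 - 1) e g = X.ZA [] := fun e g =>
    le_antisymm (AA_neg c (Or.inl (by omega))) le_sup_right
  have hLZ : ∀ z ∈ X.ZA [], Lt m z ∈ X.ZA [] := fun z hz => by
    rw [ZA_nil] at hz ⊢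
    exact Lt_Z hm hz
  have hLj : ∀ (j : ℕ), ∀ z ∈ X.ZA [], (Lt m ^ j) z ∈ X.ZA [] := fun j z hz => by
    induction j with
    | zero => exact hz
    | succ j ih => exact pow_succ' (Lt m) j ▸ hLZ _ ih
  refine ⟨hS.null_le, fun s e g h => AA_neg c (Or.inl h), hS.mono, bd_bd, fun x => ?_, hS.mapD,
    fun s e g x hx => ?_, fun s e g h => ?_, fun s e g j h x hx hD hLx => ?_,
    fun s e g j h y hy hD => ?_⟩
  · rw [ZA_nil]
    refine bd_cap _ (fun x y w β => ?_) x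
    simp only [LinearMap.sub_comp, ctr_sub_vec]
    abel
  · obtain ⟨y, hy, z, hz, rfl⟩ := Submodule.mem_sup.1 hx
    rw [map_add]
    exact Submodule.add_mem_sup (Lt_CA c s e g hy) (hLZ z hz)
  · by_cases hs : s = 0
    · exact (AA_big c hd (by omega)).trans le_sup_right
    · exact AA_ne c hs e g
  · by_cases hs : s = 0
    swap
    · exact Submodule.mem_sup_right (AA_ne c hs e g hx)
    subst hs
    rw [hZ] at hD hLx ⊢
    by_cases h1 : (d : ℤ) < e ∨ (d : ℤ) + 1 < g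
    · exact Submodule.mem_sup_right (AA_big c hd h1 hx)
    obtain ⟨p, rfl⟩ : ∃ p : ℕ, e = (p + j : ℕ) := ⟨(e - j).toNat, by omega⟩
    obtain ⟨q, rfl⟩ : ∃ q : ℕ, g = (q + j : ℕ) + 1 := ⟨(g - 1 - j).toNat, by omega⟩
    obtain ⟨u, hu, z, hz, rfl⟩ := exists_C c hx
    rw [show ((p + j : ℕ) : ℤ) - j = p by omega,
      show ((q + j : ℕ) : ℤ) + 1 - j + 1 = q + 1 + 1 by omega, map_add,
      Submodule.add_mem_iff_left _ (Submodule.mem_sup_right (hLj j z hz)), ← jj_L] at hLx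
    have h2 := pr_B c hLx
    rw [pr_jj_co] at h2
    exact Submodule.add_mem _ (jj_B c ((hH p q j (by omega)).1 u (mem_Cyc hu hz hD) h2))
      (Submodule.mem_sup_right hz)
  · have h0 : y ∈ c.AA [] 0 (s - 1) e g → ∃ x ∈ c.AA [] 0 s (e + j) (g + j),
        bd x ∈ c.AA [] 0 (s - 1) (e + j) (g + j - 1) ∧
        y - (Lt m ^ j) x ∈ (c.AA [] 0 s e (g + 1)).map bd ⊔ c.AA [] 0 (s - 1) e g := fun h1 =>
      ⟨0, Submodule.zero_mem _, by simp, by simpa using Submodule.mem_sup_right h1⟩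
    by_cases hs : s = 0
    swap
    · exact h0 (AA_ne c hs e g hy)
    by_cases h1 : e < 0
    · exact h0 (Submodule.mem_sup_right (AA_neg c (Or.inr h1) hy))
    by_cases h2 : g ≤ 0
    · exact h0 (Submodule.mem_sup_right (AA_short c h2 hy))
    subst hs
    rw [hZ] at hD
    rw [hZ, hZ]
    obtain ⟨p, rfl⟩ : ∃ p : ℕ, e = p := ⟨e.toNat, by omega⟩
    obtain ⟨q, rfl⟩ : ∃ q : ℕ, g = q + 1 := ⟨(g - 1).toNat, by omega⟩
    obtain ⟨u, hu, z, hz, rfl⟩ := exists_C c hy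
    obtain ⟨w, hw, h3⟩ := (hH p q j (by omega)).2 u (mem_Cyc hu hz hD)
    refine ⟨co jj w, ?_, ?_, ?_⟩
    · rw [show (p : ℤ) + j = (p + j : ℕ) by omega,
        show (q : ℤ) + 1 + j = (q + j : ℕ) + 1 by omega]
      exact jj_C c hw.1
    · rw [bd_co]
      exact jj_Z hw.2
    · rw [← jj_L, add_sub_right_comm, ← map_sub]
      exact Submodule.add_mem _ (jj_B c h3) (Submodule.mem_sup_right hz)

end H5T
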