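import Pool.Agent.Lib.MP_e9c0f3_ag.H5T.Deligne

/-! Adding one colour to a filtered complex. -/

namespace H5T

variable {M : Type} [AddCommGroup M] [Module ℚ M]

/-- `A'` is `A` extended by one odd variable: `Θ` multiplies by it, `κ` contracts it. -/
structure Step (A A' : ℤ → ℤ → ℤ → Submodule ℚ M) (Z : Submodule ℚ M) (D Θ κ : M →ₗ[ℚ] M) :
    Prop where
  eq : ∀ s d g, A' s d g = A s d g ⊔ (A (s - 1) (d - 1) g).map Θ
  null_le : ∀ s d g, Z ≤ A s d g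
  mono : ∀ s d g, A (s - 1) d g ≤ A s d g
  DD : ∀ x, D (D x) = 0
  mapD : ∀ s d g, ∀ x ∈ A s d g, D x ∈ A s d (g - 1)
  DZ : ∀ x ∈ Z, D x ∈ Z
  ΘZ : ∀ x ∈ Z, Θ x ∈ Z
  κZ : ∀ x ∈ Z, κ x ∈ Z
  κA : ∀ s d g, ∀ x ∈ A s d g, κ x ∈ Z
  κΘ : ∀ s d g, ∀ x ∈ A s d g, κ (Θ x) - x ∈ Z
  κD : ∀ x, κ (D x) = D (κ x)
  DΘ : ∀ s d g, ∀ x ∈ A s d g, D (Θ x) - Θ (D x) ∈ A s (d + 1) (g - 1)

variable {A A' : ℤ → ℤ → ℤ → Submodule ℚ M} {Z : Submodule ℚ M} {D L Θ κ : M →ₗ[ℚ] M}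

theorem h43_cast {A : ℤ → ℤ → ℤ → Submodule ℚ M} {s d g s' d' g' : ℤ} {x : M}
    (hx : x ∈ A s d g) (h1 : s = s') (h2 : d = d')
    (h3 : g = g') : x ∈ A s' d' g' := by
  subst h1 h2 h3; exact hx

theorem Step.h43_dec (h : Step A A' Z D Θ κ) {s d g : ℤ} {x : M} (hx : x ∈ A' s d g) :
    ∃ a ∈ A s d g, ∃ b ∈ A (s - 1) (d - 1) g, x = a + Θ b := by
  rw [h.eq] at hx
  obtain ⟨a, ha, y, hy, rfl⟩ := Submodule.mem_sup.1 hx
  obtain ⟨b, hb, rfl⟩ := Submodule.mem_map.1 hy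
  exact ⟨a, ha, b, hb, rfl⟩

theorem Step.h43_le (h : Step A A' Z D Θ κ) {s d g : ℤ} {x : M} (hx : x ∈ A s d g) :
    x ∈ A' s d g := by
  rw [h.eq]; exact Submodule.mem_sup_left hx

theorem Step.h43_Θ (h : Step A A' Z D Θ κ) {s d g : ℤ} {x : M} (hx : x ∈ A (s - 1) (d - 1) g) :
    Θ x ∈ A' s d g := by
  rw [h.eq]; exact Submodule.mem_sup_right (Submodule.mem_map_of_mem hx)

theorem Step.h43_κ (h : Step A A' Z D Θ κ) {s d g s' d' g' : ℤ} {a b : M} (ha : a ∈ A s d g)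
    (hb : b ∈ A s' d' g') : κ (a + Θ b) - b ∈ Z := by
  have e : κ (a + Θ b) - b = κ a + (κ (Θ b) - b) := by rw [map_add]; abel
  rw [e]
  exact Z.add_mem (h.κA _ _ _ a ha) (h.κΘ _ _ _ b hb)

theorem Step.h43_κ_mem (h : Step A A' Z D Θ κ) {s d g : ℤ} {x : M} (hx : x ∈ A' s d g) :
    κ x ∈ A (s - 1) (d - 1) g := by
  obtain ⟨a, ha, b, hb, rfl⟩ := h.h43_dec hx
  have e : κ (a + Θ b) = (κ (a + Θ b) - b) + b := by abel
  rw [e]
  exact Submodule.add_mem _ (h.null_le _ _ _ (h.h43_κ ha hb)) hb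

theorem Step.h43_sub (h : Step A A' Z D Θ κ) {s d g : ℤ} {x : M} (hx : x ∈ A' s d g) :
    x - Θ (κ x) ∈ A s d g := by
  obtain ⟨a, ha, b, hb, rfl⟩ := h.h43_dec hx
  have e : a + Θ b - Θ (κ (a + Θ b)) = a - Θ (κ (a + Θ b) - b) := by
    rw [map_sub Θ]; abel
  rw [e]
  exact Submodule.sub_mem _ ha (h.null_le _ _ _ (h.ΘZ _ (h.h43_κ ha hb)))

theorem Step.h43_down (h : Step A A' Z D Θ κ) {s d g s' d' g' : ℤ} {x : M}
    (h0 : x ∈ A s' d' g') (hx : x ∈ A' s d g) : x ∈ A s d g := by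
  have e : x = (x - Θ (κ x)) + Θ (κ x) := by abel
  rw [e]
  exact Submodule.add_mem _ (h.h43_sub hx) (h.null_le _ _ _ (h.ΘZ _ (h.κA _ _ _ x h0)))

theorem Step.h43_DΘ (h : Step A A' Z D Θ κ) {s d g : ℤ} {x : M} (hx : x ∈ A s (d - 1) (g + 1)) :
    D (Θ x) - Θ (D x) ∈ A s d g :=
  h43_cast (h.DΘ _ _ _ x hx) (by omega) (by omega) (by omega)

theorem Step.h43_mapD (h : Step A A' Z D Θ κ) {s d g : ℤ} {x : M} (hx : x ∈ A' s d g) :
    D x ∈ A' s d (g - 1) := by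
  obtain ⟨a, ha, b, hb, rfl⟩ := h.h43_dec hx
  have e : D (a + Θ b) = D a + (D (Θ b) - Θ (D b)) + Θ (D b) := by rw [map_add]; abel
  rw [e]
  refine Submodule.add_mem _ (h.h43_le (Submodule.add_mem _ (h.mapD _ _ _ a ha) ?_))
    (h.h43_Θ (h.mapD _ _ _ b hb))
  exact h.mono _ _ _ (h.h43_DΘ (h43_cast hb (by omega) (by omega) (by omega)))

theorem Step.h43_down2 (h : Step A A' Z D Θ κ) {s d g g1 s' d' g' : ℤ} {w : M} (e1 : g1 = g + 1)
    (h0 : w ∈ A s' d' g') (hw : w ∈ (A' s d g1).map D ⊔ A' (s - 1) d g) :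
    w ∈ (A s d g1).map D ⊔ A (s - 1) d g := by
  subst e1
  obtain ⟨u, hu, v, hv, rfl⟩ := Submodule.mem_sup.1 hw
  obtain ⟨y, hy, rfl⟩ := Submodule.mem_map.1 hu
  obtain ⟨a2, ha2, b2, hb2, rfl⟩ := h.h43_dec hy
  obtain ⟨a3, ha3, b3, hb3, rfl⟩ := h.h43_dec hv
  have hz : D b2 + b3 ∈ Z := by
    have e : D b2 + b3 = κ (D (a2 + Θ b2) + (a3 + Θ b3)) - D (κ (a2 + Θ b2) - b2)
        - (κ (a3 + Θ b3) - b3) := by
      rw [map_add κ (D (a2 + Θ b2)), h.κD, map_sub D]; abel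
    rw [e]
    exact Z.sub_mem (Z.sub_mem (h.κA _ _ _ _ h0) (h.DZ _ (h.h43_κ ha2 hb2))) (h.h43_κ ha3 hb3)
  have e : D (a2 + Θ b2) + (a3 + Θ b3)
      = D a2 + (a3 + (D (Θ b2) - Θ (D b2)) + Θ (D b2 + b3)) := by
    rw [map_add D, map_add Θ]; abel
  rw [e]
  exact Submodule.add_mem_sup (Submodule.mem_map_of_mem ha2)
    (Submodule.add_mem _ (Submodule.add_mem _ ha3 (h.h43_DΘ hb2)) (h.null_le _ _ _ (h.ΘZ _ hz)))

theorem h43_pow_mem {A : ℤ → ℤ → ℤ → Submodule ℚ M}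
    (hL : ∀ s d g, ∀ x ∈ A s d g, L x ∈ A s (d - 1) (g - 1)) (j : ℕ) {s d g : ℤ} {x : M}
    (hx : x ∈ A s d g) : (L ^ j) x ∈ A s (d - j) (g - j) := by
  induction j with
  | zero => simpa using hx
  | succ j ih =>
    rw [pow_succ', Module.End.mul_apply]
    exact h43_cast (hL _ _ _ _ ih) rfl (by push_cast; ring) (by push_cast; ring)

theorem Good.h43_LZ {n b : ℤ} (hA : Good A Z D L n b) {x : M} (hx : x ∈ Z) : L x ∈ Z :=
  hA.neg (-1) _ _ (by norm_num) (hA.mapL (-1) 0 0 x (hA.null_le _ _ _ hx))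

theorem Good.h43_powD {n b : ℤ} (hA : Good A Z D L n b) (j : ℕ) (y : M) :
    (L ^ j) (D y) - D (((-1 : ℚ) ^ j) • (L ^ j) y) ∈ Z := by
  induction j with
  | zero => simp
  | succ j ih =>
    have e : (L ^ (j + 1)) (D y) - D (((-1 : ℚ) ^ (j + 1)) • (L ^ (j + 1)) y)
        = L ((L ^ j) (D y) - D (((-1 : ℚ) ^ j) • (L ^ j) y))
          + (D (L (((-1 : ℚ) ^ j) • (L ^ j) y)) + L (D (((-1 : ℚ) ^ j) • (L ^ j) y))) := by
      simp only [pow_succ' L, Module.End.mul_apply, map_sub, map_smul, pow_succ (-1 : ℚ),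
        mul_neg, mul_one, neg_smul, map_neg]
      abel
    rw [e]
    exact Z.add_mem (hA.h43_LZ ih) (hA.DL _)

theorem h43_κ_pow (κL : ∀ x, κ (L x) + L (κ x) = 0) (j : ℕ) (x : M) :
    (L ^ j) (κ x) = ((-1 : ℚ) ^ j) • κ ((L ^ j) x) := by
  induction j with
  | zero => simp
  | succ j ih =>
    have e : L (κ ((L ^ j) x)) = - κ (L ((L ^ j) x)) :=
      eq_neg_of_add_eq_zero_right (κL _)
    simp only [pow_succ' L, Module.End.mul_apply, ih, map_smul, e, pow_succ (-1 : ℚ),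
      mul_neg, mul_one, neg_smul, smul_neg]

theorem h43_Θ_pow {n b : ℤ} (hA : Good A Z D L n b)
    (LΘ : ∀ s d g, ∀ x ∈ A s d g, L (Θ x) + Θ (L x) ∈ A s d (g - 1)) (j : ℕ) {s d g : ℤ} {x : M}
    (hx : x ∈ A s d g) :
    (L ^ j) (((-1 : ℚ) ^ j) • Θ x) - Θ ((L ^ j) x) ∈ A s (d + 1 - j) (g - j) := by
  induction j with
  | zero => simp
  | succ j ih =>
    have e : (L ^ (j + 1)) (((-1 : ℚ) ^ (j + 1)) • Θ x) - Θ ((L ^ (j + 1)) x)
        = - L ((L ^ j) (((-1 : ℚ) ^ j) • Θ x) - Θ ((L ^ j) x))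
          - (L (Θ ((L ^ j) x)) + Θ (L ((L ^ j) x))) := by
      simp only [pow_succ' L, Module.End.mul_apply, map_sub, pow_succ (-1 : ℚ),
        mul_neg, mul_one, neg_smul, map_neg]
      abel
    rw [e]
    refine Submodule.sub_mem _ (Submodule.neg_mem _ ?_) ?_
    · exact h43_cast (hA.mapL _ _ _ _ ih) rfl (by push_cast; ring) (by push_cast; ring)
    · exact h43_cast (LΘ _ _ _ _ (h43_pow_mem hA.mapL j hx)) rfl (by push_cast; ring)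
        (by push_cast; ring)

theorem Step.h43_mapL {n b : ℤ} (h : Step A A' Z D Θ κ) (hA : Good A Z D L n b)
    (LΘ : ∀ s d g, ∀ x ∈ A s d g, L (Θ x) + Θ (L x) ∈ A s d (g - 1)) (s d g : ℤ) (x : M)
    (hx : x ∈ A' s d g) : L x ∈ A' s (d - 1) (g - 1) := by
  obtain ⟨a, ha, b, hb, rfl⟩ := h.h43_dec hx
  have e : L (a + Θ b) = L a + (L (Θ b) + Θ (L b)) - Θ (L b) := by rw [map_add]; abel
  rw [e]
  exact Submodule.sub_mem _ (h.h43_le (Submodule.add_mem _ (hA.mapL _ _ _ a ha)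
    (h.mono _ _ _ (LΘ _ _ _ b hb)))) (h.h43_Θ (hA.mapL _ _ _ b hb))

theorem Step.h43_κ_page (h : Step A A' Z D Θ κ) {s d g g1 : ℤ} {w : M}
    (hw : w ∈ (A' s d g1).map D ⊔ A' (s - 1) d g) :
    κ w ∈ (A (s - 1) (d - 1) g1).map D ⊔ A (s - 1 - 1) (d - 1) g := by
  obtain ⟨u, hu, v, hv, rfl⟩ := Submodule.mem_sup.1 hw
  obtain ⟨y, hy, rfl⟩ := Submodule.mem_map.1 hu
  rw [map_add, h.κD]
  exact Submodule.add_mem_sup (Submodule.mem_map_of_mem (h.h43_κ_mem hy)) (h.h43_κ_mem hv)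

theorem Step.h43_page_le (h : Step A A' Z D Θ κ) {s d g s1 g1 : ℤ} {w : M}
    (hw : w ∈ (A s1 d g1).map D ⊔ A s d g) : w ∈ (A' s1 d g1).map D ⊔ A' s d g := by
  obtain ⟨u, hu, v, hv, rfl⟩ := Submodule.mem_sup.1 hw
  obtain ⟨y, hy, rfl⟩ := Submodule.mem_map.1 hu
  exact Submodule.add_mem_sup (Submodule.mem_map_of_mem (h.h43_le hy)) (h.h43_le hv)

theorem Step.h43_Θ_page (h : Step A A' Z D Θ κ) {s d g : ℤ} {w : M}
    (hw : w ∈ (A (s - 1) (d - 1) (g + 1)).map D ⊔ A (s - 1 - 1) (d - 1) g) :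
    Θ w ∈ (A' s d (g + 1)).map D ⊔ A' (s - 1) d g := by
  obtain ⟨u, hu, v, hv, rfl⟩ := Submodule.mem_sup.1 hw
  obtain ⟨y, hy, rfl⟩ := Submodule.mem_map.1 hu
  have e : Θ (D y + v) = D (Θ y) + (Θ v - (D (Θ y) - Θ (D y))) := by rw [map_add]; abel
  rw [e]
  exact Submodule.add_mem_sup (Submodule.mem_map_of_mem (h.h43_Θ hy))
    (Submodule.sub_mem _ (h.h43_Θ hv) (h.h43_le (h.h43_DΘ hy)))

theorem Step.h43_inj {n b : ℤ} (h : Step A A' Z D Θ κ) (hA : Good A Z D L n b)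
    (κL : ∀ x, κ (L x) + L (κ x) = 0)
    (LΘ : ∀ s d g, ∀ x ∈ A s d g, L (Θ x) + Θ (L x) ∈ A s d (g - 1))
    (s d g : ℤ) (j : ℕ) (hw : d - s + g = n + j) (x : M) (hx : x ∈ A' s d g)
    (hD : D x ∈ A' (s - 1) d (g - 1))
    (hL : (L ^ j) x ∈ (A' s (d - j) (g - j + 1)).map D ⊔ A' (s - 1) (d - j) (g - j)) :
    x ∈ (A' s d (g + 1)).map D ⊔ A' (s - 1) d g := by
  have hβ : κ x ∈ A (s - 1) (d - 1) g := h.h43_κ_mem hx
  have hDβ : D (κ x) ∈ A (s - 1 - 1) (d - 1) (g - 1) := by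
    rw [← h.κD]; exact h.h43_κ_mem hD
  have hLβ : (L ^ j) (κ x) ∈ (A (s - 1) (d - 1 - j) (g - j + 1)).map D
      ⊔ A (s - 1 - 1) (d - 1 - j) (g - j) := by
    rw [h43_κ_pow κL, show d - 1 - (j : ℤ) = d - j - 1 by ring]
    exact Submodule.smul_mem _ _ (h.h43_κ_page hL)
  have h1 := hA.inj (s - 1) (d - 1) g j (by omega) _ hβ hDβ hLβ
  obtain ⟨u, hu, b2, hb2, e⟩ := Submodule.mem_sup.1 h1
  obtain ⟨b1, hb1, rfl⟩ := Submodule.mem_map.1 hu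
  have hΘ1 : Θ b1 ∈ A' s d (g + 1) := h.h43_Θ hb1
  have hΘ2 : Θ b2 ∈ A' (s - 1) d g := h.h43_Θ hb2
  have ha0 : x - D (Θ b1) - Θ b2 ∈ A s d g := by
    have e2 : x - D (Θ b1) - Θ b2 = (x - Θ (κ x)) - (D (Θ b1) - Θ (D b1)) := by
      rw [← e, map_add]; abel
    rw [e2]
    exact Submodule.sub_mem _ (h.h43_sub hx) (h.mono _ _ _ (h.h43_DΘ hb1))
  have hDa0 : D (x - D (Θ b1) - Θ b2) ∈ A (s - 1) d (g - 1) := by
    refine h.h43_down (h.mapD _ _ _ _ ha0) ?_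
    rw [map_sub, map_sub, h.DD, sub_zero]
    exact Submodule.sub_mem _ hD (h.h43_mapD hΘ2)
  have hLa0 : (L ^ j) (x - D (Θ b1) - Θ b2) ∈ (A s (d - j) (g - j + 1)).map D
      ⊔ A (s - 1) (d - j) (g - j) := by
    refine h.h43_down2 rfl (h43_pow_mem hA.mapL j ha0) ?_
    rw [map_sub, map_sub]
    refine Submodule.sub_mem _ (Submodule.sub_mem _ hL ?_)
      (Submodule.mem_sup_right (h43_pow_mem (h.h43_mapL hA LΘ) j hΘ2))
    have e3 : (L ^ j) (D (Θ b1)) = D (((-1 : ℚ) ^ j) • (L ^ j) (Θ b1))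
        + ((L ^ j) (D (Θ b1)) - D (((-1 : ℚ) ^ j) • (L ^ j) (Θ b1))) := by abel
    rw [e3]
    exact Submodule.add_mem_sup (Submodule.mem_map_of_mem (Submodule.smul_mem _ _
      (h43_cast (h43_pow_mem (h.h43_mapL hA LΘ) j hΘ1) (by omega) (by omega) (by omega))))
      (h.h43_le (h.null_le _ _ _ (hA.h43_powD j _)))
  have h2 := h.h43_page_le (hA.inj s d g j hw _ ha0 hDa0 hLa0)
  have e4 : x = (x - D (Θ b1) - Θ b2) + (D (Θ b1) + Θ b2) := by abel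
  rw [e4]
  exact Submodule.add_mem _ h2 (Submodule.add_mem_sup (Submodule.mem_map_of_mem hΘ1) hΘ2)

theorem Step.h43_surj {n b : ℤ} (h : Step A A' Z D Θ κ) (hA : Good A Z D L n b)
    (LΘ : ∀ s d g, ∀ x ∈ A s d g, L (Θ x) + Θ (L x) ∈ A s d (g - 1))
    (s d g : ℤ) (j : ℕ) (hw : d - s + g + j = n) (y : M) (hy : y ∈ A' s d g)
    (hD : D y ∈ A' (s - 1) d (g - 1)) :
    ∃ x ∈ A' s (d + j) (g + j), D x ∈ A' (s - 1) (d + j) (g + j - 1) ∧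
      y - (L ^ j) x ∈ (A' s d (g + 1)).map D ⊔ A' (s - 1) d g := by
  have hβ : κ y ∈ A (s - 1) (d - 1) g := h.h43_κ_mem hy
  have hDβ : D (κ y) ∈ A (s - 1 - 1) (d - 1) (g - 1) := by
    rw [← h.κD]; exact h.h43_κ_mem hD
  obtain ⟨b1, hb1, hDb1, hr⟩ := hA.surj (s - 1) (d - 1) g j (by omega) _ hβ hDβ
  have ha : y - Θ (κ y) ∈ A s d g := h.h43_sub hy
  have hDa : D (y - Θ (κ y)) ∈ A (s - 1) d (g - 1) := by
    refine h.h43_down (h.mapD _ _ _ _ ha) ?_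
    have e : D (y - Θ (κ y)) = D y - (D (Θ (κ y)) - Θ (D (κ y))) - Θ (D (κ y)) := by
      rw [map_sub]; abel
    rw [e]
    exact Submodule.sub_mem _ (Submodule.sub_mem _ hD (h.h43_le (h.h43_DΘ (h43_cast hβ (by omega) (by omega) (by omega)))))
      (h.h43_Θ hDβ)
  obtain ⟨x0, hx0, hDx0, hr0⟩ := hA.surj s d g j hw _ ha hDa
  refine ⟨x0 + ((-1 : ℚ) ^ j) • Θ b1, Submodule.add_mem _ (h.h43_le hx0)
    (Submodule.smul_mem _ _ (h.h43_Θ (h43_cast hb1 (by omega) (by omega) (by omega)))), ?_, ?_⟩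
  · rw [map_add, map_smul]
    refine Submodule.add_mem _ (h.h43_le hDx0) (Submodule.smul_mem _ _ ?_)
    have e : D (Θ b1) = (D (Θ b1) - Θ (D b1)) + Θ (D b1) := by abel
    rw [e]
    exact Submodule.add_mem _ (h.h43_le (h.h43_DΘ (h43_cast hb1 (by omega) (by omega) (by omega)))) (h.h43_Θ (h43_cast hDb1 (by omega) (by omega) (by omega)))
  · have e : y - (L ^ j) (x0 + ((-1 : ℚ) ^ j) • Θ b1)
        = (y - Θ (κ y) - (L ^ j) x0) + Θ (κ y - (L ^ j) b1)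
          - ((L ^ j) (((-1 : ℚ) ^ j) • Θ b1) - Θ ((L ^ j) b1)) := by
      rw [map_add, map_sub Θ]; abel
    rw [e]
    exact Submodule.sub_mem _ (Submodule.add_mem _ (h.h43_page_le hr0) (h.h43_Θ_page hr))
      (Submodule.mem_sup_right (h.h43_le (h43_cast (h43_Θ_pow hA LΘ j hb1) (by omega) (by omega) (by omega))))

theorem Step.good {n b : ℤ} (h : Step A A' Z D Θ κ) (hA : Good A Z D L n b)
    (κL : ∀ x, κ (L x) + L (κ x) = 0)
    (LΘ : ∀ s d g, ∀ x ∈ A s d g, L (Θ x) + Θ (L x) ∈ A s d (g - 1)) :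
    Good A' Z D L n b := by
  refine ⟨fun s d g x hx => h.h43_le (h.null_le s d g hx), fun s d g hs x hx => ?_,
    fun s d g x hx => ?_, h.DD, hA.DL, fun s d g x hx => h.h43_mapD hx, h.h43_mapL hA LΘ,
    fun s d g hb x hx => ?_, h.h43_inj hA κL LΘ, h.h43_surj hA LΘ⟩
  · obtain ⟨a, ha, c, hc, rfl⟩ := h.h43_dec hx
    exact Z.add_mem (hA.neg _ _ _ hs ha) (h.ΘZ _ (hA.neg _ _ _ (by omega) hc))
  · obtain ⟨a, ha, c, hc, rfl⟩ := h.h43_dec hx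
    exact Submodule.add_mem _ (h.h43_le (h.mono _ _ _ ha)) (h.h43_Θ (h.mono _ _ _ hc))
  · obtain ⟨a, ha, c, hc, rfl⟩ := h.h43_dec hx
    exact Submodule.add_mem _ (h.h43_le (hA.bound _ _ _ hb ha))
      (h.h43_Θ (hA.bound _ _ _ (by omega) hc))

/-- Exactness passes to the extension. -/
theorem Step.exact (h : Step A A' Z D Θ κ) {s d g : ℤ}
    (h1 : ∀ x ∈ A s d g, D x ∈ Z → x ∈ (A s d (g + 1)).map D ⊔ Z)
    (h2 : ∀ x ∈ A (s - 1) (d - 1) g, D x ∈ Z → x ∈ (A (s - 1) (d - 1) (g + 1)).map D ⊔ Z) :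
    ∀ x ∈ A' s d g, D x ∈ Z → x ∈ (A' s d (g + 1)).map D ⊔ Z := by
  intro x hx hD
  have hβ : κ x ∈ A (s - 1) (d - 1) g := h.h43_κ_mem hx
  have hDβ : D (κ x) ∈ Z := by rw [← h.κD]; exact h.κZ _ hD
  obtain ⟨u, hu, z, hz, e⟩ := Submodule.mem_sup.1 (h2 _ hβ hDβ)
  obtain ⟨b1, hb1, rfl⟩ := Submodule.mem_map.1 hu
  have ha0 : x - D (Θ b1) ∈ A s d g := by
    have e2 : x - D (Θ b1) = (x - Θ (κ x)) + Θ z - (D (Θ b1) - Θ (D b1)) := by
      rw [← e, map_add]; abel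
    rw [e2]
    exact Submodule.sub_mem _ (Submodule.add_mem _ (h.h43_sub hx) (h.null_le _ _ _ (h.ΘZ _ hz)))
      (h.mono _ _ _ (h.h43_DΘ hb1))
  have hDa0 : D (x - D (Θ b1)) ∈ Z := by rw [map_sub, h.DD, sub_zero]; exact hD
  obtain ⟨u, hu, z', hz', e'⟩ := Submodule.mem_sup.1 (h1 _ ha0 hDa0)
  obtain ⟨a1, ha1, rfl⟩ := Submodule.mem_map.1 hu
  have e3 : x = D (a1 + Θ b1) + z' := by
    have : x = (D a1 + z') + D (Θ b1) := by rw [e']; abel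
    rw [map_add, this]; abel
  rw [e3]
  exact Submodule.add_mem_sup (Submodule.mem_map_of_mem
    (Submodule.add_mem _ (h.h43_le ha1) (h.h43_Θ hb1))) hz'

/-- The property of the iterated product `Θ_(a-1) ⋯ Θ_0 u`: its boundary, and its images under
the operators `N b`, vanish on the first page one step down. -/
def Killed (A : ℤ → ℤ → ℤ → Submodule ℚ M) (D : M →ₗ[ℚ] M) (N : ℕ → M →ₗ[ℚ] M) (m : ℕ)
    (s d g : ℤ) (x : M) : Prop :=
  x ∈ A s d g ∧ D x ∈ (A (s - 1) d g).map D ⊔ A (s - 2) d (g - 1) ∧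
    ∀ b ≤ m, N b x ∈ (A s (d + 1) g).map D ⊔ A (s - 1) (d + 1) (g - 1)

theorem Step.killed (h : Step A A' Z D Θ κ) {N : ℕ → M →ₗ[ℚ] M} {m a : ℕ} (ha : a ≤ m)
    (hN : ∀ x, D (Θ x) - Θ (D x) - N a x ∈ Z)
    (NΘ : ∀ b ≤ m, ∀ s d g, ∀ x ∈ A s d g, N b (Θ x) + Θ (N b x) ∈ A s (d + 2) (g - 1))
    {s d g : ℤ} {x : M} (hx : Killed A D N m s d g x) :
    Killed A' D N m (s + 1) (d + 1) g (Θ x) := by
  obtain ⟨h0, h1, h2⟩ := hx
  refine ⟨h.h43_Θ (h43_cast h0 (by omega) (by omega) (by omega)), ?_, fun b hb => ?_⟩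
  · have e : D (Θ x) = (D (Θ x) - Θ (D x) - N a x) + Θ (D x) + N a x := by abel
    rw [e]
    refine Submodule.add_mem _ (Submodule.add_mem _
      (Submodule.mem_sup_right (h.h43_le (h.null_le _ _ _ (hN x)))) ?_) ?_
    · have h3 := h.h43_Θ_page (s := s) (d := d + 1) (g := g - 1) (w := D x) (by
        rw [show d + 1 - 1 = d by ring, show g - 1 + 1 = g by ring,
          show s - 1 - 1 = s - 2 by ring]
        exact h1)
      rw [show g - 1 + 1 = g by ring] at h3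
      rw [show s + 1 - 1 = s by ring, show s + 1 - 2 = s - 1 by ring]
      exact h3
    · rw [show s + 1 - 1 = s by ring, show s + 1 - 2 = s - 1 by ring]
      exact h.h43_page_le (h2 a ha)
  · have e : N b (Θ x) = (N b (Θ x) + Θ (N b x)) - Θ (N b x) := by abel
    rw [e]
    refine Submodule.sub_mem _
      (Submodule.mem_sup_right (h.h43_le (h43_cast (NΘ b hb _ _ _ x h0) (by omega) (by omega) (by omega)))) ?_
    have h3 := h.h43_Θ_page (s := s + 1) (d := d + 1 + 1) (g := g - 1) (w := N b x) (by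
      rw [show d + 1 + 1 - 1 = d + 1 by ring, show g - 1 + 1 = g by ring,
        show s + 1 - 1 = s by ring]
      exact h2 b hb)
    rw [show g - 1 + 1 = g by ring] at h3
    exact h3

/-- Contraction lowers the filtration and lands in `A`. -/
theorem Step.κ_mem (h : Step A A' Z D Θ κ) {s d g : ℤ} {x : M} (hx : x ∈ A' s d g) :
    κ x ∈ A (s - 1) (d - 1) g := by
  exact h.h43_κ_mem hx

end H5T
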