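import Pool.Agent.Lib.MP_e9c0f3_ag.H5T.Coef3
import Pool.Agent.Lib.MP_e9c0f3_ag.H5T.Step

/-! The filtered barycentric complex of the total space, one colour at a time. -/

noncomputable section

namespace H5T

variable {n : ℕ} {X : TropCx n}

/-- Null chains, localised at the flag `φ` (no localisation for `φ = []`). -/
def TropCx.ZA (X : TropCx n) (φ : List (Set (Pt n))) : Submodule ℚ (List (Set (Pt n)) →₀ Mt n) :=
  X.Z X.Flag X.It ⊔ Finsupp.supported _ ℚ {l | ¬ φ ⊆ l}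

/-- The Lefschetz operator of the total space. -/
def Lt (m : Set (Pt n) → Module.Dual ℚ (Fin n → ℚ)) :
    (List (Set (Pt n)) →₀ Mt n) →ₗ[ℚ] (List (Set (Pt n)) →₀ Mt n) :=
  cap fun σ ρ => ctr ((m σ - m ρ) ∘ₗ LinearMap.fst ℚ (Fin n → ℚ) (ℕ → ℚ))

theorem fs_flag_sub {l l' : List (Set (Pt n))} {σ : Set (Pt n)} (h : X.Flag l σ)
    (hl : l'.Sublist l) : X.Flag l' σ :=
  ⟨h.1.sublist hl, fun ρ hρ => h.2 ρ (hl.subset hρ)⟩

theorem fs_flag_head {t : List (Set (Pt n))} {σ τ : Set (Pt n)} (h : X.Flag (σ :: t) τ) :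
    X.Flag (σ :: t) σ := by
  refine ⟨h.1, fun ρ hρ => ⟨(h.2 ρ hρ).1, ?_⟩⟩
  rcases List.mem_cons.1 hρ with rfl | hρ
  · exact subset_rfl
  · exact ((List.pairwise_cons.1 h.1).1 ρ hρ).subset

theorem fs_nil (φ : List (Set (Pt n))) (β : Mt n) : Finsupp.single [] β ∈ X.ZA φ :=
  Submodule.mem_sup_left (single_mem_Ch (by simp))

theorem fs_it (φ : List (Set (Pt n))) {l : List (Set (Pt n))} {σ : Set (Pt n)}
    (hσ : σ ∈ X.cells) (h : X.Flag l σ) {β : Mt n} (hβ : β ∈ X.It σ) :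
    Finsupp.single l β ∈ X.ZA φ := by
  refine Submodule.mem_sup_left (single_mem_Ch ?_)
  split_ifs
  · trivial
  · exact Submodule.mem_iSup_of_mem σ (Submodule.mem_iSup_of_mem hσ
      (Submodule.mem_iSup_of_mem h hβ))

theorem fs_out {φ l : List (Set (Pt n))} (h : ¬ φ ⊆ l) (β : Mt n) :
    Finsupp.single l β ∈ X.ZA φ :=
  Submodule.mem_sup_right (Finsupp.single_mem_supported ℚ β h)

/-- To map the null chains into a submodule it is enough to check three kinds of simplices. -/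
theorem fs_Z_elim {P : Type} [AddCommGroup P] [Module ℚ P] {φ : List (Set (Pt n))}
    (f : (List (Set (Pt n)) →₀ Mt n) →ₗ[ℚ] P) {S : Submodule ℚ P}
    (h1 : ∀ β, f (Finsupp.single [] β) ∈ S)
    (h2 : ∀ σ t, X.Flag (σ :: t) σ → ∀ β ∈ X.It σ, f (Finsupp.single (σ :: t) β) ∈ S)
    (h3 : ∀ l, ¬ φ ⊆ l → ∀ β, f (Finsupp.single l β) ∈ S) : ∀ x ∈ X.ZA φ, f x ∈ S := by
  have : X.ZA φ ≤ S.comap f := by
    refine sup_le (fun x hx => map_mem_of_Ch f (fun l β hβ => ?_) hx) fun x hx => ?_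
    · rcases l with _ | ⟨σ, t⟩
      · exact h1 β
      rw [if_neg (List.cons_ne_nil σ t)] at hβ
      have e : (⨆ τ ∈ X.cells, ⨆ _ : X.Flag (σ :: t) τ, X.It τ) ≤
          S.comap (f ∘ₗ Finsupp.lsingle (σ :: t)) :=
        iSup₂_le fun τ hτ => iSup_le fun h γ hγ => h2 σ t (fs_flag_head h) γ
          (TropCx.It_anti hτ (h.2 σ List.mem_cons_self).1 (h.2 σ List.mem_cons_self).2 hγ)
      exact e hβ
    · rw [supported_eq_Ch] at hx
      refine map_mem_of_Ch f (fun l β hβ => ?_) hx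
      by_cases h : φ ⊆ l
      · rw [if_neg (not_not.2 h), Submodule.mem_bot] at hβ
        simp [hβ]
      · exact h3 l h β
  exact fun x hx => this hx

theorem fs_bd_Z (φ : List (Set (Pt n))) : ∀ x ∈ X.ZA φ, bd x ∈ X.ZA φ := by
  refine fs_Z_elim bd (fun β => by simp) (fun σ t h β hβ => ?_) fun l h β => ?_
  · rw [bd_single]
    exact Submodule.sum_mem _ fun i _ => Submodule.smul_mem _ _
      (fs_it φ (h.2 σ List.mem_cons_self).1 (fs_flag_sub h (List.eraseIdx_sublist _ i)) hβ)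
  · rw [bd_single]
    exact Submodule.sum_mem _ fun i _ => Submodule.smul_mem _ _
      (fs_out (fun e => h (List.Subset.trans e (List.eraseIdx_sublist l i).subset)) β)

theorem fs_coL_Z (φ : List (Set (Pt n))) (f : List (Set (Pt n)) → Mt n →ₗ[ℚ] Mt n)
    (hf : ∀ σ t, ∀ β ∈ X.It σ, f (σ :: t) β ∈ X.It σ) : ∀ x ∈ X.ZA φ, coL f x ∈ X.ZA φ := by
  refine fs_Z_elim (coL f) (fun β => ?_) (fun σ t h β hβ => ?_) fun l h β => ?_ <;>
    rw [coL_single]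
  exacts [fs_nil φ _, fs_it φ (h.2 σ List.mem_cons_self).1 h (hf σ t β hβ), fs_out h _]

theorem fs_cap_Z (φ : List (Set (Pt n))) (f : Set (Pt n) → Set (Pt n) → Mt n →ₗ[ℚ] Mt n)
    (hf : ∀ σ ∈ X.cells, ∀ ρ ∈ X.cells, ρ ⊆ σ → ∀ β ∈ X.It σ, f σ ρ β ∈ X.It σ) :
    ∀ x ∈ X.ZA φ, cap f x ∈ X.ZA φ := by
  refine fs_Z_elim (cap f) (fun β => by simp) (fun σ t h β hβ => ?_) fun l h β => ?_
  · rcases t with _ | ⟨ρ, t⟩
    · simp
    have hσ := (h.2 σ List.mem_cons_self).1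
    have hρ := h.2 ρ (List.mem_cons_of_mem _ List.mem_cons_self)
    rw [cap_two]
    exact fs_it φ hσ (fs_flag_sub h (List.sublist_cons_self _ _)) (hf σ hσ ρ hρ.1 hρ.2 β hβ)
  · rcases l with _ | ⟨σ, _ | ⟨ρ, t⟩⟩
    · simp
    · simp
    rw [cap_two]
    exact fs_out (fun e => h (List.Subset.trans e (List.subset_cons_self _ _))) _

theorem fs_lam_Z (φ : List (Set (Pt n))) (a : ℕ) :
    ∀ x ∈ X.ZA φ, co (ctr (lam a)) x ∈ X.ZA φ := by
  refine fs_Z_elim (co (ctr (lam a))) (fun β => ?_) (fun σ t h β hβ => ?_) fun l h β => ?_ <;>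
    rw [co_single]
  exacts [fs_nil φ _, fs_it φ (h.2 σ List.mem_cons_self).1 h
    (TropCx.ctr_mem_It (fun _ _ => rfl) hβ), fs_out h _]

namespace Col

variable (c : Col X)

/-- Flag chains of length `g` with coefficients in `Af a s d`. -/
def CA (a : ℕ) (s d g : ℤ) : Submodule ℚ (List (Set (Pt n)) →₀ Mt n) :=
  Ch fun l => ⨆ σ ∈ X.cells, ⨆ _ : X.Flag l σ ∧ (l.length : ℤ) = g, c.Af a s d σ

/-- The same, with the null chains. -/
def AA (φ : List (Set (Pt n))) (a : ℕ) (s d g : ℤ) : Submodule ℚ (List (Set (Pt n)) →₀ Mt n) :=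
  c.CA a s d g ⊔ X.ZA φ

/-- Multiplication by the ray of the top cell in colour `a`. -/
def Th (a : ℕ) : (List (Set (Pt n)) →₀ Mt n) →ₗ[ℚ] (List (Set (Pt n)) →₀ Mt n) :=
  coL fun l => match l with
    | [] => 0
    | σ :: _ => mul (c.e (σ, a))

/-- The monodromy operator of colour `b`. -/
def Nb (b : ℕ) : (List (Set (Pt n)) →₀ Mt n) →ₗ[ℚ] (List (Set (Pt n)) →₀ Mt n) :=
  cap fun σ ρ => mul (c.bb σ b - c.bb ρ b, 0)

theorem fs_ca (φ : List (Set (Pt n))) {a : ℕ} {s d g : ℤ} {l : List (Set (Pt n))}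
    {σ : Set (Pt n)} (hσ : σ ∈ X.cells) (h : X.Flag l σ) (hg : (l.length : ℤ) = g) {β : Mt n}
    (hβ : β ∈ c.Af a s d σ) : Finsupp.single l β ∈ c.AA φ a s d g :=
  Submodule.mem_sup_left (single_mem_Ch (Submodule.mem_iSup_of_mem σ
    (Submodule.mem_iSup_of_mem hσ (Submodule.mem_iSup_of_mem ⟨h, hg⟩ hβ))))

/-- To map the filtered chains into a submodule it is enough to check the null chains and the
flags carried by their top cell. -/
theorem fs_A_elim {P : Type} [AddCommGroup P] [Module ℚ P] {φ : List (Set (Pt n))} {a : ℕ}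
    (ha : a ≤ c.M + 1) {s d g : ℤ} (f : (List (Set (Pt n)) →₀ Mt n) →ₗ[ℚ] P) {S : Submodule ℚ P}
    (h1 : ∀ x ∈ X.ZA φ, f x ∈ S)
    (h2 : ∀ σ t, X.Flag (σ :: t) σ → (t.length : ℤ) + 1 = g → ∀ β ∈ c.Af a s d σ,
      f (Finsupp.single (σ :: t) β) ∈ S) : ∀ x ∈ c.AA φ a s d g, f x ∈ S := by
  have : c.AA φ a s d g ≤ S.comap f := by
    refine sup_le (fun x hx => map_mem_of_Ch f (fun l β hβ => ?_) hx) h1
    rcases l with _ | ⟨σ, t⟩
    · exact h1 _ (fs_nil φ β)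
    have e : (⨆ τ ∈ X.cells, ⨆ _ : X.Flag (σ :: t) τ ∧ (((σ :: t).length : ℕ) : ℤ) = g,
        c.Af a s d τ) ≤ S.comap (f ∘ₗ Finsupp.lsingle (σ :: t)) :=
      iSup₂_le fun τ hτ => iSup_le fun h γ hγ => h2 σ t (fs_flag_head h.1) (by simpa using h.2) γ
        (c.Af_anti ha s d hτ (h.1.2 σ List.mem_cons_self).1 (h.1.2 σ List.mem_cons_self).2 hγ)
    exact e hβ
  exact fun x hx => this hx

theorem fs_mono (φ : List (Set (Pt n))) {a a' : ℕ} {s d s' d' : ℤ} (g : ℤ)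
    (h : ∀ σ, c.Af a s d σ ≤ c.Af a' s' d' σ) : c.AA φ a s d g ≤ c.AA φ a' s' d' g :=
  sup_le_sup_right (Ch_mono fun _ => iSup₂_mono fun σ _ => iSup_mono fun _ => h σ) _

theorem fs_Th_nil (a : ℕ) (β : Mt n) : c.Th a (Finsupp.single [] β) = 0 := by
  simp [Th]

theorem fs_Th_cons (a : ℕ) (σ : Set (Pt n)) (t : List (Set (Pt n))) (β : Mt n) :
    c.Th a (Finsupp.single (σ :: t) β) = Finsupp.single (σ :: t) (mul (c.e (σ, a)) β) := by
  simp [Th]

theorem fs_Th_cone (a : ℕ) (σ : Set (Pt n)) (z : List (Set (Pt n)) →₀ Mt n) :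
    c.Th a (cons σ z) = cons σ (co (mul (c.e (σ, a))) z) := by
  induction z using Finsupp.induction_linear with
  | zero => simp
  | add x y hx hy => simp only [map_add, hx, hy]
  | single l β => rw [cons_single, fs_Th_cons, co_single, cons_single]

theorem fs_Th_Z (φ : List (Set (Pt n))) (a : ℕ) : ∀ x ∈ X.ZA φ, c.Th a x ∈ X.ZA φ :=
  fs_coL_Z φ _ fun _ _ _ hβ => TropCx.mul_mem_It _ hβ

theorem fs_Nb_Z (φ : List (Set (Pt n))) (b : ℕ) : ∀ x ∈ X.ZA φ, c.Nb b x ∈ X.ZA φ :=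
  fs_cap_Z φ _ fun _ _ _ _ _ _ hβ => TropCx.mul_mem_It _ hβ

theorem fs_mul_e (a : ℕ) (σ ρ : Set (Pt n)) (β : Mt n) :
    mul (c.e (σ, a)) β - mul (c.e (ρ, a)) β = mul (c.bb σ a - c.bb ρ a, 0) β := by
  rw [← mul_sub_vec, c.e_sub]

theorem fs_bb {σ ρ : Set (Pt n)} {t : List (Set (Pt n))} (h : X.Flag (σ :: ρ :: t) σ) {a : ℕ}
    (ha : a ≤ c.M) : c.bb σ a - c.bb ρ a ∈ tang σ :=
  have hρ := h.2 ρ (List.mem_cons_of_mem _ List.mem_cons_self)
  c.sub_mem σ (h.2 σ List.mem_cons_self).1 ρ hρ.1 hρ.2 a ha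

theorem fs_bd_Th (φ : List (Set (Pt n))) (a : ℕ) (x : List (Set (Pt n)) →₀ Mt n) :
    bd (c.Th a x) - c.Th a (bd x) - c.Nb a x ∈ X.ZA φ := by
  induction x using Finsupp.induction_linear with
  | zero => simp
  | add x y hx hy =>
    convert Submodule.add_mem _ hx hy using 1
    simp only [map_add]
    abel
  | single l β =>
    rcases l with _ | ⟨σ, t⟩
    · simp [fs_Th_nil, Nb]
    rw [fs_Th_cons, bd_single_cons, bd_single_cons, map_sub, fs_Th_cone, ← bd_co, co_single,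
      sub_sub_sub_cancel_right]
    rcases t with _ | ⟨ρ, t⟩
    · rw [fs_Th_nil, Nb, cap_one, sub_zero, sub_zero]
      exact fs_nil φ _
    · rw [fs_Th_cons, Nb, cap_two, ← Finsupp.single_sub, fs_mul_e, sub_self]
      exact Submodule.zero_mem _

theorem fs_Nb_A (φ : List (Set (Pt n))) {a b : ℕ} (ha : a ≤ c.M) (hb : b ≤ c.M) (s d g : ℤ) :
    ∀ x ∈ c.AA φ a s d g, c.Nb b x ∈ c.AA φ a s (d + 1) (g - 1) := by
  refine c.fs_A_elim (by omega) (c.Nb b)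
    (fun x hx => Submodule.mem_sup_right (c.fs_Nb_Z φ b x hx)) fun σ t h hg β hβ => ?_
  rcases t with _ | ⟨ρ, t⟩
  · simp [Nb]
  rw [Nb, cap_two]
  exact c.fs_ca φ (h.2 σ List.mem_cons_self).1 (fs_flag_sub h (List.sublist_cons_self _ _))
    (by omega) (c.mul_tang_mem_Af a (c.fs_bb h hb) hβ)

theorem fs_eq (φ : List (Set (Pt n))) {a : ℕ} (ha : a ≤ c.M) (s d g : ℤ) :
    c.AA φ (a + 1) s d g = c.AA φ a s d g ⊔ (c.AA φ a (s - 1) (d - 1) g).map (c.Th a) := by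
  refine le_antisymm (fun x hx => c.fs_A_elim (a := a + 1) (by omega) LinearMap.id
    (fun x hx => Submodule.mem_sup_left (Submodule.mem_sup_right hx))
    (fun σ t h hg β hβ => ?_) x hx)
    (sup_le (c.fs_mono φ g fun σ => le_sup_left) (Submodule.map_le_iff_le_comap.2 fun x hx =>
      c.fs_A_elim (a := a) (S := c.AA φ (a + 1) s d g) (by omega) (c.Th a)
        (fun x hx => Submodule.mem_sup_right (c.fs_Th_Z φ a x hx)) (fun σ t h hg β hβ => ?_) x hx))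
  · have hσ := (h.2 σ List.mem_cons_self).1
    rw [Af] at hβ
    obtain ⟨β1, h1, _, ⟨β2, h2, rfl⟩, rfl⟩ := Submodule.mem_sup.1 hβ
    rw [LinearMap.id_apply, Finsupp.single_add, ← fs_Th_cons]
    exact Submodule.add_mem_sup (c.fs_ca φ hσ h (by simpa using hg) h1)
      (Submodule.mem_map_of_mem (c.fs_ca φ hσ h (by simpa using hg) h2))
  · rw [fs_Th_cons]
    refine c.fs_ca φ (h.2 σ List.mem_cons_self).1 h (by simpa using hg) ?_
    rw [Af]
    exact Submodule.mem_sup_right (Submodule.mem_map_of_mem hβ)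

theorem fs_bd_A (φ : List (Set (Pt n))) {a : ℕ} (ha : a ≤ c.M + 1) (s d g : ℤ) :
    ∀ x ∈ c.AA φ a s d g, bd x ∈ c.AA φ a s d (g - 1) := by
  refine c.fs_A_elim ha bd
    (fun x hx => Submodule.mem_sup_right (fs_bd_Z φ x hx)) fun σ t h hg β hβ => ?_
  rw [bd_single]
  refine Submodule.sum_mem _ fun i hi => Submodule.smul_mem _ _ (c.fs_ca φ
    (h.2 σ List.mem_cons_self).1 (fs_flag_sub h (List.eraseIdx_sublist _ i)) ?_ hβ)
  rw [List.length_eraseIdx_of_lt (Finset.mem_range.1 hi), List.length_cons]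
  omega

theorem fs_lam_A (φ : List (Set (Pt n))) {a : ℕ} (ha : a ≤ c.M + 1) (s d g : ℤ) :
    ∀ x ∈ c.AA φ a s d g, co (ctr (lam a)) x ∈ X.ZA φ := by
  refine c.fs_A_elim ha (co (ctr (lam a))) (fs_lam_Z φ a) fun σ t _ _ β hβ => ?_
  rw [co_single, c.ctr_lam_Af le_rfl hβ, Finsupp.single_zero]
  exact Submodule.zero_mem _

theorem fs_lam_Th (φ : List (Set (Pt n))) {a : ℕ} (ha : a ≤ c.M + 1) (s d g : ℤ) :
    ∀ x ∈ c.AA φ a s d g, co (ctr (lam a)) (c.Th a x) - x ∈ X.ZA φ := by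
  refine c.fs_A_elim ha (co (ctr (lam a)) ∘ₗ c.Th a - LinearMap.id) (fun x hx =>
    Submodule.sub_mem _ (fs_lam_Z φ a _ (c.fs_Th_Z φ a x hx)) hx) fun σ t _ _ β hβ => ?_
  have e1 : lam a (c.e (σ, a)) = 1 := by simp [lam, e]
  rw [LinearMap.sub_apply, LinearMap.comp_apply, fs_Th_cons, co_single, ctr_mul,
    c.ctr_lam_Af le_rfl hβ, e1]
  simp

theorem step (φ : List (Set (Pt n))) {a : ℕ} (ha : a ≤ c.M) :
    Step (c.AA φ a) (c.AA φ (a + 1)) (X.ZA φ) bd (c.Th a) (co (ctr (lam a))) where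
  eq := c.fs_eq φ ha
  null_le _ _ _ := le_sup_right
  mono s d g := c.fs_mono φ g (c.Af_mono a s d)
  DD := bd_bd
  mapD := c.fs_bd_A φ (by omega)
  DZ := fs_bd_Z φ
  ΘZ := c.fs_Th_Z φ a
  κZ := fs_lam_Z φ a
  κA := c.fs_lam_A φ (by omega)
  κΘ := c.fs_lam_Th φ (by omega)
  κD x := (bd_co _ x).symm
  DΘ s d g x hx := by
    have := (c.AA φ a s (d + 1) (g - 1)).add_mem (Submodule.mem_sup_right (c.fs_bd_Th φ a x))
      (c.fs_Nb_A φ ha ha s d g x hx)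
    rwa [sub_add_cancel] at this

theorem bd_Th (a : ℕ) (x : List (Set (Pt n)) →₀ Mt n) :
    bd (c.Th a x) - c.Th a (bd x) - c.Nb a x ∈ X.ZA [] :=
  c.fs_bd_Th [] a x

theorem Nb_Th {a b : ℕ} (ha : a ≤ c.M) (hb : b ≤ c.M) (s d g : ℤ) : ∀ x ∈ c.AA [] a s d g,
    c.Nb b (c.Th a x) + c.Th a (c.Nb b x) ∈ c.AA [] a s (d + 2) (g - 1) := by
  refine c.fs_A_elim (by omega) (c.Nb b ∘ₗ c.Th a + c.Th a ∘ₗ c.Nb b) (fun x hx =>
    Submodule.mem_sup_right (Submodule.add_mem _ (c.fs_Nb_Z _ b _ (c.fs_Th_Z _ a x hx))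
      (c.fs_Th_Z _ a _ (c.fs_Nb_Z _ b x hx)))) fun σ t h hg β hβ => ?_
  rw [LinearMap.add_apply, LinearMap.comp_apply, LinearMap.comp_apply, fs_Th_cons, Nb]
  rcases t with _ | ⟨ρ, t⟩
  · simp
  rw [cap_two, cap_two, fs_Th_cons, ← Finsupp.single_add, mul_comm' (c.e (ρ, a)),
    ← sub_eq_add_neg, ← map_sub, fs_mul_e, show d + 2 = d + 1 + 1 by ring]
  exact c.fs_ca _ (h.2 σ List.mem_cons_self).1 (fs_flag_sub h (List.sublist_cons_self _ _))
    (by omega) (c.mul_tang_mem_Af a (c.fs_bb h hb) (c.mul_tang_mem_Af a (c.fs_bb h ha) hβ))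

theorem co_lam_Lt (m : Set (Pt n) → Module.Dual ℚ (Fin n → ℚ)) (a : ℕ)
    (x : List (Set (Pt n)) →₀ Mt n) :
    co (ctr (lam a)) (Lt m x) + Lt m (co (ctr (lam a)) x) = 0 := by
  induction x using Finsupp.induction_linear with
  | zero => simp
  | add x y hx hy =>
    simp only [map_add]
    rw [add_add_add_comm, hx, hy, add_zero]
  | single l β =>
    rw [co_single, Lt]
    rcases l with _ | ⟨σ, _ | ⟨ρ, t⟩⟩
    · simp
    · simp
    rw [cap_two, cap_two, co_single, ctr_comm (lam a), Finsupp.single_neg, neg_add_cancel]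

theorem Lt_Th {m : Set (Pt n) → Module.Dual ℚ (Fin n → ℚ)}
    (hm : ∀ σ ∈ X.cells, ∀ ρ ∈ X.cells, ρ ⊆ σ → ∀ v ∈ X.sed σ, m σ v = m ρ v)
    {a : ℕ} (ha : a ≤ c.M) (s d g : ℤ) : ∀ x ∈ c.AA [] a s d g,
    Lt m (c.Th a x) + c.Th a (Lt m x) ∈ c.AA [] a s d (g - 1) := by
  have hL : ∀ x ∈ X.ZA [], Lt m x ∈ X.ZA [] := fs_cap_Z _ _ fun σ hσ ρ hρ h β hβ =>
    TropCx.ctr_mem_It (fun v hv => by simp [hm σ hσ ρ hρ h v hv]) hβ
  refine c.fs_A_elim (by omega) (Lt m ∘ₗ c.Th a + c.Th a ∘ₗ Lt m) (fun x hx =>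
    Submodule.mem_sup_right (Submodule.add_mem _ (hL _ (c.fs_Th_Z _ a x hx))
      (c.fs_Th_Z _ a _ (hL x hx)))) fun σ t h hg β hβ => ?_
  rw [LinearMap.add_apply, LinearMap.comp_apply, LinearMap.comp_apply, fs_Th_cons, Lt]
  rcases t with _ | ⟨ρ, t⟩
  · simp
  rw [cap_two, cap_two, fs_Th_cons, ← Finsupp.single_add, ctr_mul, sub_add, fs_mul_e]
  refine c.fs_ca _ (h.2 σ List.mem_cons_self).1 (fs_flag_sub h (List.sublist_cons_self _ _))
    (by omega) (Submodule.sub_mem _ (Submodule.smul_mem _ _ hβ) ?_)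
  have := c.mul_tang_mem_Af a (c.fs_bb h ha)
    (c.ctr_mem_Af a ((m σ - m ρ) ∘ₗ LinearMap.fst ℚ (Fin n → ℚ) (ℕ → ℚ)) hβ)
  rwa [sub_add_cancel] at this

end Col

end H5T
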