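import Pool.Agent.Lib.MP_e9c0f3_ag.H5T.Base

/-! Acyclic carriers. -/

open scoped Classical

noncomputable section

namespace H5T

variable {n : ℕ}

section
variable {V W E : Type} [AddCommGroup E] [Module ℚ E]

theorem map_mem_of_supported {M : Type} [AddCommGroup M] [Module ℚ M] {s : Set (List V)}
    (f : (List V →₀ E) →ₗ[ℚ] M) {S : Submodule ℚ M}
    (h : ∀ l ∈ s, ∀ β, f (Finsupp.single l β) ∈ S) {z : List V →₀ E}
    (hz : z ∈ Finsupp.supported E ℚ s) : f z ∈ S := by
  rw [← Finsupp.sum_single z, Finsupp.sum, map_sum]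
  exact S.sum_mem fun l hl => h l (hz hl) _

theorem map_mem_of_supported_one {M : Type} [AddCommGroup M] [Module ℚ M] {s : Set (List V)}
    (f : (List V →₀ ℚ) →ₗ[ℚ] M) {S : Submodule ℚ M}
    (h : ∀ l ∈ s, f (Finsupp.single l 1) ∈ S) {z : List V →₀ ℚ}
    (hz : z ∈ Finsupp.supported ℚ ℚ s) : f z ∈ S := by
  refine map_mem_of_supported f (fun l hl β => ?_) hz
  have : Finsupp.single l β = β • Finsupp.single l (1 : ℚ) := by simp
  rw [this, map_smul]
  exact S.smul_mem _ (h l hl)

theorem bd_support (l : List V) (β : E) : bd (Finsupp.single l β) ∈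
    Finsupp.supported E ℚ {l' | l'.Sublist l ∧ l'.length + 1 = l.length} := by
  rw [bd_single]
  refine Submodule.sum_mem _ fun i hi => Submodule.smul_mem _ _
    (Finsupp.single_mem_supported _ _ ⟨List.eraseIdx_sublist l i, ?_⟩)
  have hi' := Finset.mem_range.1 hi
  rw [List.length_eraseIdx_of_lt hi']; omega

theorem ker_congr {k k' : List V → (List W →₀ ℚ)} {s : Set (List V)}
    (h : ∀ l ∈ s, k l = k' l) {z : List V →₀ E} (hz : z ∈ Finsupp.supported E ℚ s) :
    ker k z = ker k' z := by
  have := map_mem_of_supported (ker k - ker k' : (List V →₀ E) →ₗ[ℚ] (List W →₀ E)) (S := ⊥)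
    (fun l hl β => by simp [ker_single, h l hl]) hz
  simpa [sub_eq_zero] using this

end

theorem TropCx.Flag.sublist {X : TropCx n} {l l' : List (Set (Pt n))} {σ : Set (Pt n)}
    (h : X.Flag l σ) (hs : l'.Sublist l) : X.Flag l' σ :=
  ⟨h.1.sublist hs, fun ρ hρ => h.2 ρ (hs.subset hρ)⟩

/-- The homotopy on flags of a given length. -/
def htp (X : TropCx n) (k : List (Set (Pt n)) → (List (Pt n) →₀ ℚ)) :
    ℕ → List (Set (Pt n)) → (List (Pt n) →₀ ℚ)
  | 0, _ => 0
  | _ + 1, [] => 0
  | g + 1, σ :: l => cons (X.pt σ) (k (σ :: l) - ker (htp X k g) (bd (Finsupp.single (σ :: l) 1)))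

/-- Acyclic carriers: a chain map of degree zero with zero augmentation is null homotopic. -/
theorem exists_homotopy (X : TropCx n) (k : List (Set (Pt n)) → (List (Pt n) →₀ ℚ))
    (h0 : k [] = 0)
    (hs : ∀ l, ∀ σ ∈ X.cells, X.Flag l σ → ∀ l' ∈ (k l).support,
      Inside l' σ ∧ l'.length = l.length)
    (hc : ∀ l σ, X.Flag l σ → bd (k l) = ker k (bd (Finsupp.single l 1))) :
    ∃ h : List (Set (Pt n)) → (List (Pt n) →₀ ℚ), h [] = 0 ∧
      (∀ l, ∀ σ ∈ X.cells, X.Flag l σ → ∀ l' ∈ (h l).support,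
        Inside l' σ ∧ l'.length = l.length + 1) ∧
      ∀ l σ, X.Flag l σ → k l = bd (h l) + ker h (bd (Finsupp.single l 1)) := by
  obtain ⟨h, hh⟩ : ∃ h : List (Set (Pt n)) → (List (Pt n) →₀ ℚ), ∀ l, h l = htp X k l.length l :=
    ⟨_, fun _ => rfl⟩
  have hcons : ∀ σ l, h (σ :: l) =
      cons (X.pt σ) (k (σ :: l) - ker h (bd (Finsupp.single (σ :: l) 1))) := by
    intro σ l
    have : ker (htp X k l.length) (bd (Finsupp.single (σ :: l) (1 : ℚ))) =
        ker h (bd (Finsupp.single (σ :: l) 1)) := by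
      refine ker_congr (fun l' hl' => ?_) (bd_support (σ :: l) 1)
      have : l'.length = l.length := by simpa using hl'.2
      rw [hh, this]
    rw [hh, List.length_cons, htp, this]
  have hnil : h [] = 0 := by rw [hh]; rfl
  refine ⟨h, hnil, ?_, ?_⟩
  · suffices H : ∀ g, ∀ l : List (Set (Pt n)), l.length = g → ∀ σ ∈ X.cells, X.Flag l σ →
        h l ∈ Finsupp.supported ℚ ℚ {l' | Inside l' σ ∧ l'.length = g + 1} from
      fun l σ hσ hl l' hl' => H _ l rfl σ hσ hl hl'
    intro g
    induction g with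
    | zero => intro l hl σ _ _; rw [List.length_eq_zero_iff.1 hl, hnil]; exact Submodule.zero_mem _
    | succ g ih =>
      intro l hl σ hσ hf
      obtain ⟨τ, l, rfl⟩ := List.exists_cons_of_length_eq_add_one hl
      have hτ := hf.2 τ (by simp)
      have h1 : k (τ :: l) - ker h (bd (Finsupp.single (τ :: l) 1)) ∈
          Finsupp.supported ℚ ℚ {l' | Inside l' σ ∧ l'.length = g + 1} := by
        refine Submodule.sub_mem _ (fun l' e => ?_) ?_
        · have := hs _ σ hσ hf l' e
          exact ⟨this.1, this.2.trans hl⟩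
        · refine map_mem_of_supported_one (ker h) (fun l' e => ?_) (bd_support (τ :: l) 1)
          rw [ker_single_one]
          exact ih l' (by have := e.2; omega) σ hσ (hf.sublist e.1)
      rw [hcons]
      refine map_mem_of_supported (cons (X.pt τ)) (fun l' e β => ?_) h1
      rw [cons_single]
      refine Finsupp.single_mem_supported _ _ ⟨fun x hx => ?_, by simp [e.2]⟩
      rcases List.mem_cons.1 hx with rfl | hx
      · exact hτ.2 (intrinsicInterior_subset (X.pt_mem τ hτ.1))
      · exact e.1 x hx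
  · suffices H : ∀ g, ∀ l : List (Set (Pt n)), l.length = g → ∀ σ, X.Flag l σ →
        k l = bd (h l) + ker h (bd (Finsupp.single l 1)) from fun l σ => H _ l rfl σ
    intro g
    induction g with
    | zero => intro l hl σ _; rw [List.length_eq_zero_iff.1 hl, hnil, h0]; simp
    | succ g ih =>
      intro l hl σ hf
      obtain ⟨τ, l, rfl⟩ := List.exists_cons_of_length_eq_add_one hl
      have h1 := map_mem_of_supported_one
        (ker k - bd ∘ₗ ker h - ker h ∘ₗ bd : (List (Set (Pt n)) →₀ ℚ) →ₗ[ℚ] (List (Pt n) →₀ ℚ))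
        (S := ⊥) (fun l' e => ?_) (bd_support (τ :: l) (1 : ℚ))
      · simp only [LinearMap.sub_apply, LinearMap.comp_apply, bd_bd, map_zero, sub_zero,
          Submodule.mem_bot, sub_eq_zero] at h1
        rw [hcons, bd_cons, map_sub, hc _ σ hf, h1]
        simp
      · simp only [LinearMap.sub_apply, LinearMap.comp_apply, ker_single_one, Submodule.mem_bot]
        rw [ih l' (by have := e.2; omega) σ (hf.sublist e.1)]
        abel

end H5T
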