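import Pool.Agent.Lib.MP_e9c0f3_ag.H5T.Col

/-! Linear independence along chains, and dimension bounds. -/

namespace H5T

variable {n : ℕ} {X : TropCx n}

theorem tang_mono {ρ σ : Set (Pt n)} (h : ρ ⊆ σ) : tang ρ ≤ tang σ := by
  intro v hv
  simp only [tang, Submodule.mem_comap, Submodule.restrictScalars_mem] at hv ⊢
  exact vectorSpan_mono ℝ h hv

theorem h29_cf_tail {M : ℕ} {x : Vx n} {l : List (Vx n)} {σ : Set (Pt n)}
    (hl : X.CF M (x :: l) σ) : X.CF M l σ :=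
  ⟨(List.pairwise_cons.1 hl.1).2, fun y hy => hl.2 y (List.mem_cons_of_mem _ hy)⟩

theorem h29_e_sub (c : Col X) (σ ρ : Set (Pt n)) (a : ℕ) :
    c.e (ρ, a) = c.e (σ, a) - (c.bb σ a - c.bb ρ a, 0) := by
  simp [Col.e]

theorem h29_bb_sub (c : Col X) {σ ρ : Set (Pt n)} (hσ : σ ∈ X.cells) (hρ : ρ ∈ X.cells)
    (h : ρ ⊆ σ) {a : ℕ} (ha : a ≤ c.M) : c.bb σ a - c.bb ρ a ∈ tang σ :=
  c.sub_mem σ hσ ρ hρ h a ha

/-- The head of a chain is separated from its tail. -/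
theorem h29_head (c : Col X) {x : Vx n} {l : List (Vx n)} {σ : Set (Pt n)}
    (hl : X.CF c.M (x :: l) σ) :
    ∃ θ : Module.Dual ℚ (Nt n), θ (c.e x) = 1 ∧ ∀ j ∈ l, θ (c.e j) = 0 := by
  cases l with
  | nil => exact ⟨lam x.2, by simp [lam, Col.e], by simp⟩
  | cons z l =>
    obtain ⟨h1, h2⟩ := List.pairwise_cons.1 hl.1
    obtain ⟨h3, -⟩ := List.pairwise_cons.1 h2
    have hz := h1 z List.mem_cons_self
    have hx := hl.2 x List.mem_cons_self
    have hz' := hl.2 z (List.mem_cons_of_mem _ List.mem_cons_self)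
    by_cases e : z.1 = x.1
    · have hlt : x.2 < z.2 := by
        refine lt_of_le_of_ne hz.2.1 fun h => hz.2.2 ?_
        exact Prod.ext e.symm h
      refine ⟨lam x.2, by simp [lam, Col.e], fun j hj => ?_⟩
      have hj2 : x.2 < j.2 := by
        rcases List.mem_cons.1 hj with rfl | hj
        · exact hlt
        · exact lt_of_lt_of_le hlt (h3 j hj).2.1
      simp [lam, Col.e, hj2.ne]
    · obtain ⟨φ, p1, p2, p3⟩ := c.sep x.1 hx.1 z.1 hz'.1 (ssubset_of_subset_of_ne hz.1 e)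
      have q3 : φ (c.e x) ≠ 0 := p3 x.2 hx.2.2
      refine ⟨(φ (c.e x))⁻¹ • φ, by simp [inv_mul_cancel₀ q3], fun j hj => ?_⟩
      have hj' := hl.2 j (List.mem_cons_of_mem _ hj)
      have hjz : j.1 ⊆ z.1 := by
        rcases List.mem_cons.1 hj with rfl | hj
        · exact subset_rfl
        · exact (h3 j hj).1
      have q2 : φ (c.e (z.1, j.2)) = 0 := p2 j.2 hj'.2.2
      have q1 := p1 _ (h29_bb_sub c hz'.1 hj'.1 hjz hj'.2.2)
      have q : φ (c.e j) = 0 := by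
        have := h29_e_sub c z.1 j.1 j.2
        rw [show c.e j = c.e (j.1, j.2) from rfl, this, map_sub, q2, q1, sub_zero]
      simp [q]

/-- The rays of a chain are independent. -/
theorem h29_dual (c : Col X) {σ : Set (Pt n)} : ∀ {l : List (Vx n)}, X.CF c.M l σ →
    ∀ {i : Vx n}, i ∈ l →
    ∃ ψ : Module.Dual ℚ (Nt n), ψ (c.e i) = 1 ∧ ∀ j ∈ l, j ≠ i → ψ (c.e j) = 0 := by
  intro l
  induction l with
  | nil => intro _ i hi; simp at hi
  | cons x l ih =>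
    intro hl i hi
    obtain ⟨θ, t1, t2⟩ := h29_head c hl
    rcases List.mem_cons.1 hi with rfl | hi
    · refine ⟨θ, t1, fun j hj hne => ?_⟩
      rcases List.mem_cons.1 hj with rfl | hj
      · exact absurd rfl hne
      · exact t2 j hj
    · obtain ⟨ψ, s1, s2⟩ := ih (h29_cf_tail hl) hi
      refine ⟨ψ - ψ (c.e x) • θ, by simp [s1, t2 i hi], fun j hj hne => ?_⟩
      rcases List.mem_cons.1 hj with rfl | hj
      · simp [t1]
      · simp [s2 j hj hne, t2 j hj]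

/-- A map that fixes the rays below `σ` and kills the sedentarity of `σ`. -/
theorem h29_proj (c : Col X) {σ : Set (Pt n)} (hσ : σ ∈ X.cells) :
    ∃ P : Nt n →ₗ[ℚ] Nt n, (∀ x : Vx n, x.1 ∈ X.cells → x.1 ⊆ σ → x.2 ≤ c.M → P (c.e x) = c.e x) ∧
      ∀ v ∈ X.sed σ, P (v, 0) = 0 := by
  obtain ⟨S, hS, hc⟩ := (X.sed_disj σ hσ).exists_isCompl
  let Q := (tang σ).projection S hc.symm
  let B : (ℕ → ℚ) →ₗ[ℚ] (Fin n → ℚ) :=
    ∑ a ∈ Finset.range (c.M + 1), (LinearMap.proj a : (ℕ → ℚ) →ₗ[ℚ] ℚ).smulRight (c.bb σ a)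
  have hB : ∀ a ≤ c.M, B (Pi.single a 1) = c.bb σ a := by
    intro a ha
    simp only [B, LinearMap.sum_apply, LinearMap.smulRight_apply, LinearMap.proj_apply]
    rw [Finset.sum_eq_single a]
    · simp
    · intro b _ hb
      simp [hb]
    · intro h
      exact absurd (Finset.mem_range.2 (Nat.lt_succ_of_le ha)) h
  refine ⟨LinearMap.prod (Q ∘ₗ (LinearMap.fst ℚ _ _ - B ∘ₗ LinearMap.snd ℚ _ _) +
    B ∘ₗ LinearMap.snd ℚ _ _) (LinearMap.snd ℚ _ _), fun x h1 h2 h3 => ?_, fun v hv => ?_⟩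
  · have hm : c.bb x.1 x.2 - c.bb σ x.2 ∈ tang σ := by
      have := (tang σ).neg_mem (h29_bb_sub c hσ h1 h2 h3)
      rwa [neg_sub] at this
    have hQ : Q (c.bb x.1 x.2 - c.bb σ x.2) = c.bb x.1 x.2 - c.bb σ x.2 :=
      Submodule.projection_apply_of_mem_left hc.symm hm
    refine Prod.ext ?_ rfl
    change Q (c.bb x.1 x.2 - B (Pi.single x.2 1)) + B (Pi.single x.2 1) = c.bb x.1 x.2
    rw [hB _ h3, hQ, sub_add_cancel]
  · have hQ : Q v = 0 := Submodule.projection_apply_of_mem_right hc.symm (hS hv)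
    refine Prod.ext ?_ rfl
    change Q (v - B 0) + B 0 = 0
    rw [map_zero, sub_zero, hQ, add_zero]

/-- The rays of a chain are independent modulo the sedentarity. -/
theorem Col.exists_dual (c : Col X) {l : List (Vx n)} {σ : Set (Pt n)} (hσ : σ ∈ X.cells)
    (hl : X.CF c.M l σ) {i : Vx n} (hi : i ∈ l) :
    ∃ φ : Module.Dual ℚ (Nt n), φ (c.e i) = 1 ∧ (∀ j ∈ l, j ≠ i → φ (c.e j) = 0) ∧
      ∀ v ∈ X.sed σ, φ (v, 0) = 0 := by
  obtain ⟨ψ, s1, s2⟩ := h29_dual c hl hi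
  obtain ⟨P, p1, p2⟩ := h29_proj c hσ
  have hP : ∀ j ∈ l, P (c.e j) = c.e j := fun j hj =>
    p1 j (hl.2 j hj).1 (hl.2 j hj).2.1 (hl.2 j hj).2.2
  refine ⟨ψ ∘ₗ P, ?_, fun j hj hne => ?_, fun v hv => ?_⟩
  · rw [LinearMap.comp_apply, hP i hi, s1]
  · rw [LinearMap.comp_apply, hP j hj, s2 j hj hne]
  · rw [LinearMap.comp_apply, p2 v hv, map_zero]

/-- One covector for all cells that contain the members of `J`. -/
theorem Col.exists_dual_loc (c : Col X) {J l : List (Vx n)} {σ : Set (Pt n)} (hσ : σ ∈ X.cells)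
    (hl : X.CF c.M l σ) (hJ : J ⊆ l) {i : Vx n} (hi : i ∈ J) :
    ∃ φ : Module.Dual ℚ (Nt n), φ (c.e i) = 1 ∧ (∀ j ∈ J, j ≠ i → φ (c.e j) = 0) ∧
      ∀ τ ∈ X.cells, (∀ x ∈ J, x.1 ⊆ τ) → ∀ v ∈ X.sed τ, φ (v, 0) = 0 := by
  classical
  have hmem : ∀ j, j ∈ l.filter (fun y => decide (y ∈ J)) ↔ j ∈ J := by
    intro j
    simp only [List.mem_filter, decide_eq_true_eq]
    exact ⟨fun h => h.2, fun h => ⟨hJ h, h⟩⟩
  have hpw := hl.1.filter (fun y => decide (y ∈ J))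
  generalize l.filter (fun y => decide (y ∈ J)) = l' at hmem hpw
  cases l' with
  | nil => exact absurd ((hmem i).2 hi) (by simp)
  | cons x l' =>
    have hxJ : x ∈ J := (hmem x).1 List.mem_cons_self
    have hx := hl.2 x (hJ hxJ)
    have hcf : X.CF c.M (x :: l') x.1 := by
      refine ⟨hpw, fun y hy => ?_⟩
      have hy' := hl.2 y (hJ ((hmem y).1 hy))
      refine ⟨hy'.1, ?_, hy'.2.2⟩
      rcases List.mem_cons.1 hy with rfl | hy
      · exact subset_rfl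
      · exact ((List.pairwise_cons.1 hpw).1 y hy).1
    obtain ⟨φ, p1, p2, p3⟩ := c.exists_dual hx.1 hcf ((hmem i).2 hi)
    exact ⟨φ, p1, fun j hj hne => p2 j ((hmem j).2 hj) hne,
      fun τ hτ h v hv => p3 v (X.sed_anti τ hτ x.1 hx.1 (h x hxJ) hv)⟩

theorem h29_tang_lt (c : Col X) {σ ρ : Set (Pt n)} (hσ : σ ∈ X.cells) (hρ : ρ ∈ X.cells)
    (h : ρ ⊂ σ) : tang ρ < tang σ := by
  obtain ⟨φ, p1, p2, p3⟩ := c.sep σ hσ ρ hρ h
  refine lt_of_le_of_ne (tang_mono h.1) fun e => ?_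
  have hm := h29_bb_sub c hσ hρ h.1 (Nat.zero_le c.M)
  rw [← e] at hm
  have q1 := p1 _ hm
  have q2 : φ (c.e (ρ, 0)) = 0 := p2 0 (Nat.zero_le _)
  have q3 : φ (c.e (σ, 0)) ≠ 0 := p3 0 (Nat.zero_le _)
  rw [h29_e_sub c σ ρ 0, map_sub, q1, sub_zero] at q2
  exact q3 q2

theorem h29_flag (c : Col X) {σ : Set (Pt n)} : ∀ (l : List (Set (Pt n))) (s : Set (Pt n)),
    X.Flag (s :: l) σ → l.length ≤ Module.finrank ℚ (tang s) := by
  intro l
  induction l with
  | nil => intro s _; simp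
  | cons r l ih =>
    intro s hl
    obtain ⟨h1, h2⟩ := List.pairwise_cons.1 hl.1
    have hr : X.Flag (r :: l) σ := ⟨h2, fun y hy => hl.2 y (List.mem_cons_of_mem _ hy)⟩
    have hlt := h29_tang_lt c (hl.2 s List.mem_cons_self).1 (hr.2 r List.mem_cons_self).1
      (h1 r List.mem_cons_self)
    have := Submodule.finrank_lt_finrank_of_lt hlt
    have := ih r hr
    simp only [List.length_cons]
    omega

theorem Col.flag_length (c : Col X) {d : ℕ} (hd : ∀ σ ∈ X.cells, Module.finrank ℚ (tang σ) ≤ d)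
    {l : List (Set (Pt n))} {σ : Set (Pt n)} (hl : X.Flag l σ) : l.length ≤ d + 1 := by
  cases l with
  | nil => simp
  | cons s l =>
    have := h29_flag c l s hl
    have := hd s (hl.2 s List.mem_cons_self).1
    simp only [List.length_cons]
    omega

theorem wedge_eq_bot {T : Submodule ℚ (Fin n → ℚ)} {p : ℕ} (h : Module.finrank ℚ T < p) :
    wedge T p = ⊥ := by
  have h1 : (LinearMap.range (ExteriorAlgebra.ι ℚ : T →ₗ[ℚ] ExteriorAlgebra ℚ T)) ^ p = ⊥ := by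
    have := ExteriorAlgebra.ιMulti_span_fixedDegree (R := ℚ) (M := T) p
    refine this.symm.trans ?_
    rw [Submodule.span_eq_bot]
    rintro _ ⟨v, rfl⟩
    refine AlternatingMap.map_linearDependent _ v fun hv => ?_
    have := hv.fintype_card_le_finrank
    rw [Fintype.card_fin] at this
    omega
  have h2 : T.map (ExteriorAlgebra.ι ℚ) =
      (LinearMap.range (ExteriorAlgebra.ι ℚ : T →ₗ[ℚ] ExteriorAlgebra ℚ T)).map
        (ExteriorAlgebra.map T.subtype).toLinearMap := by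
    ext y
    simp only [Submodule.mem_map, LinearMap.mem_range]
    constructor
    · rintro ⟨v, hv, rfl⟩
      exact ⟨_, ⟨⟨v, hv⟩, rfl⟩, by simp⟩
    · rintro ⟨_, ⟨v, rfl⟩, rfl⟩
      exact ⟨v, v.2, by simp⟩
  rw [wedge, h2, ← Submodule.map_pow, h1, Submodule.map_bot]

theorem TropCx.F_eq_bot {d p : ℕ} (hd : ∀ σ ∈ X.cells, Module.finrank ℚ (tang σ) ≤ d)
    (hp : d < p) (σ : Set (Pt n)) : X.F p σ = ⊥ := by
  simp only [TropCx.F, iSup_eq_bot]
  intro η hη _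
  exact wedge_eq_bot (lt_of_le_of_lt (hd η hη) hp)

end H5T
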